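import Mathlib

/-! Dyadic summation and counting of integer vectors. -/

namespace Pool.Agent.Lib.MP_1acd66_nt

open Finset

/-- dyadic level of a real number at least `R0` -/
theorem exists_level {R0 x : ℝ} (hR0 : 0 < R0) (hx : R0 ≤ x) :
    ∃ j : ℕ, 2 ^ j * R0 ≤ x ∧ x < 2 ^ (j + 1) * R0 := by
  have h1 : 1 ≤ x / R0 := (one_le_div hR0).2 hx
  refine ⟨Nat.log 2 ⌊x / R0⌋₊, ?_, ?_⟩
  · have h2 : ⌊x / R0⌋₊ ≠ 0 := by
      have := Nat.floor_pos.2 h1; omega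
    have h3 : (2:ℕ) ^ Nat.log 2 ⌊x / R0⌋₊ ≤ ⌊x / R0⌋₊ := Nat.pow_log_le_self 2 h2
    have h4 : ((2:ℝ) ^ Nat.log 2 ⌊x / R0⌋₊) ≤ x / R0 := by
      calc ((2:ℝ) ^ Nat.log 2 ⌊x / R0⌋₊) = (((2:ℕ) ^ Nat.log 2 ⌊x / R0⌋₊ : ℕ) : ℝ) := by push_cast; rfl
        _ ≤ (⌊x / R0⌋₊ : ℝ) := by exact_mod_cast h3
        _ ≤ x / R0 := Nat.floor_le (by linarith)
    rwa [le_div_iff₀ hR0] at h4
  · have h3 : ⌊x / R0⌋₊ < 2 ^ (Nat.log 2 ⌊x / R0⌋₊ + 1) := Nat.lt_pow_succ_log_self (by norm_num) _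
    have h4 : x / R0 < (2:ℝ) ^ (Nat.log 2 ⌊x / R0⌋₊ + 1) := by
      have h5 : x / R0 < (⌊x / R0⌋₊ : ℝ) + 1 := Nat.lt_floor_add_one _
      have h6 : ((⌊x / R0⌋₊ : ℝ) + 1) ≤ (2:ℝ) ^ (Nat.log 2 ⌊x / R0⌋₊ + 1) := by
        exact_mod_cast h3
      linarith
    rwa [div_lt_iff₀ hR0] at h4

/-- dyadic decomposition of a sum -/
theorem dyadic_aux {ι : Type*} (S : Finset ι) (n : ι → ℝ) {K R0 : ℝ} {α β : ℕ} (hR0 : 0 < R0)
    (hn : ∀ x ∈ S, R0 ≤ n x)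
    (hcount : ∀ R : ℝ, R0 ≤ R → ((S.filter (fun x => n x ≤ R)).card : ℝ) ≤ K * R ^ α) (J : ℕ)
    (hJ : ∀ x ∈ S, n x < 2 ^ J * R0) :
    ∑ x ∈ S, (n x ^ β)⁻¹ ≤ ∑ j ∈ range J, K * (2 ^ (j + 1) * R0) ^ α * ((2 ^ j * R0) ^ β)⁻¹ := by
  classical
  have hlev : ∀ x ∈ S, ∃ j : ℕ, 2 ^ j * R0 ≤ n x ∧ n x < 2 ^ (j + 1) * R0 :=
    fun x hx => exists_level hR0 (hn x hx)
  choose! lev hl1 hl2 using hlev
  have hmaps : ∀ x ∈ S, lev x ∈ range J := by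
    intro x hx
    rw [mem_range]
    by_contra hcon
    push Not at hcon
    have h1 := hl1 x hx
    have h2 := hJ x hx
    have h3 : (2:ℝ) ^ J * R0 ≤ 2 ^ (lev x) * R0 :=
      mul_le_mul_of_nonneg_right (pow_le_pow_right₀ (by norm_num) hcon) hR0.le
    linarith
  rw [← Finset.sum_fiberwise_of_maps_to hmaps]
  refine Finset.sum_le_sum ?_
  intro j _
  have hpos : 0 < (2:ℝ) ^ j * R0 := by positivity
  calc ∑ x ∈ S with lev x = j, (n x ^ β)⁻¹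
      ≤ ∑ x ∈ S with lev x = j, ((2 ^ j * R0) ^ β)⁻¹ := by
        refine Finset.sum_le_sum ?_
        intro x hx
        obtain ⟨hx1, hx2⟩ := Finset.mem_filter.1 hx
        have h1 := hl1 x hx1
        rw [hx2] at h1
        exact inv_anti₀ (by positivity) (pow_le_pow_left₀ hpos.le h1 β)
    _ = ((S.filter (fun x => lev x = j)).card : ℝ) * ((2 ^ j * R0) ^ β)⁻¹ := by
        rw [Finset.sum_const, nsmul_eq_mul]
    _ ≤ (K * (2 ^ (j + 1) * R0) ^ α) * ((2 ^ j * R0) ^ β)⁻¹ := by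
        refine mul_le_mul_of_nonneg_right ?_ (by positivity)
        refine le_trans ?_ (hcount (2 ^ (j + 1) * R0) ?_)
        · have : S.filter (fun x => lev x = j) ⊆ S.filter (fun x => n x ≤ 2 ^ (j + 1) * R0) := by
            intro x hx
            obtain ⟨hx1, hx2⟩ := Finset.mem_filter.1 hx
            refine Finset.mem_filter.2 ⟨hx1, ?_⟩
            have h1 := hl2 x hx1
            rw [hx2] at h1
            exact h1.le
          exact_mod_cast Finset.card_le_card this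
        · have : (1:ℝ) ≤ 2 ^ (j + 1) := one_le_pow₀ (by norm_num)
          nlinarith

theorem exists_J {ι : Type*} (S : Finset ι) (n : ι → ℝ) {R0 : ℝ} (hR0 : 0 < R0) :
    ∃ J : ℕ, ∀ x ∈ S, n x < 2 ^ J * R0 := by
  classical
  induction S using Finset.induction_on with
  | empty => exact ⟨0, by simp⟩
  | insert a s _ ih =>
    obtain ⟨J, hJ⟩ := ih
    obtain ⟨J', hJ'⟩ := pow_unbounded_of_one_lt (n a / R0) (by norm_num : (1:ℝ) < 2)
    rw [div_lt_iff₀ hR0] at hJ'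
    refine ⟨max J J', ?_⟩
    intro x hx
    rcases Finset.mem_insert.1 hx with rfl | hx
    · refine hJ'.trans_le ?_
      exact mul_le_mul_of_nonneg_right (pow_le_pow_right₀ (by norm_num) (le_max_right _ _)) hR0.le
    · refine (hJ x hx).trans_le ?_
      exact mul_le_mul_of_nonneg_right (pow_le_pow_right₀ (by norm_num) (le_max_left _ _)) hR0.le

theorem dyadic_conv {ι : Type*} (S : Finset ι) (n : ι → ℝ) {K R0 : ℝ} {α : ℕ} (hR0 : 0 < R0)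
    (hK : 0 ≤ K) (hn : ∀ x ∈ S, R0 ≤ n x)
    (hcount : ∀ R : ℝ, R0 ≤ R → ((S.filter (fun x => n x ≤ R)).card : ℝ) ≤ K * R ^ α) :
    ∑ x ∈ S, (n x ^ (α + 1))⁻¹ ≤ 2 ^ (α + 1) * K / R0 := by
  obtain ⟨J, hJ⟩ := exists_J S n hR0
  refine (dyadic_aux S n hR0 hn hcount J hJ).trans ?_
  have e : ∀ j ∈ range J, K * (2 ^ (j + 1) * R0) ^ α * ((2 ^ j * R0) ^ (α + 1))⁻¹ =
      (2 ^ α * K / R0) * (1 / 2) ^ j := by
    intro j _
    have : (2:ℝ) ^ (j + 1) * R0 = 2 * (2 ^ j * R0) := by ring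
    rw [this, mul_pow, pow_succ, one_div, inv_pow]
    have h2 : (2:ℝ) ^ j * R0 ≠ 0 := by positivity
    field_simp
  rw [Finset.sum_congr rfl e, ← Finset.mul_sum]
  have hg : ∑ j ∈ range J, ((1:ℝ) / 2) ^ j ≤ 2 := by
    have := geom_sum_eq (by norm_num : (1:ℝ) / 2 ≠ 1) J
    rw [this]
    have h3 : 0 ≤ ((1:ℝ) / 2) ^ J := by positivity
    rw [div_le_iff_of_neg (by norm_num)]
    linarith
  calc (2 ^ α * K / R0) * ∑ j ∈ range J, ((1:ℝ) / 2) ^ j ≤ (2 ^ α * K / R0) * 2 :=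
        mul_le_mul_of_nonneg_left hg (by positivity)
    _ = 2 ^ (α + 1) * K / R0 := by ring

theorem dyadic_log {ι : Type*} (S : Finset ι) (n : ι → ℝ) {K R1 : ℝ} {α : ℕ}
    (hK : 0 ≤ K) (hn : ∀ x ∈ S, 1 ≤ n x) (hR1 : 1 ≤ R1) (hn1 : ∀ x ∈ S, n x ≤ R1)
    (hcount : ∀ R : ℝ, 1 ≤ R → ((S.filter (fun x => n x ≤ R)).card : ℝ) ≤ K * R ^ α) :
    ∑ x ∈ S, (n x ^ α)⁻¹ ≤ 2 ^ (α + 1) * K * (1 + Real.log R1) := by
  obtain ⟨J0, hJ01, hJ02⟩ := exists_level one_pos hR1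
  rw [mul_one] at hJ01 hJ02
  have hJ : ∀ x ∈ S, n x < 2 ^ (J0 + 1) * 1 := fun x hx => by
    rw [mul_one]; exact (hn1 x hx).trans_lt hJ02
  refine (dyadic_aux S n one_pos hn hcount (J0 + 1) hJ).trans ?_
  have e : ∀ j ∈ range (J0 + 1), K * (2 ^ (j + 1) * 1) ^ α * ((2 ^ j * 1) ^ α)⁻¹ =
      (2 ^ α * K) := by
    intro j _
    rw [mul_one, mul_one, pow_succ, mul_pow]
    have h2 : ((2:ℝ) ^ j) ≠ 0 := by positivity
    field_simp
  rw [Finset.sum_congr rfl e, Finset.sum_const, card_range, nsmul_eq_mul]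
  push_cast
  have h1 : (J0 : ℝ) * Real.log 2 ≤ Real.log R1 := by
    rw [← Real.log_pow]
    exact Real.log_le_log (by positivity) hJ01
  have h2 : (1:ℝ) / 2 ≤ Real.log 2 := by
    have := Real.log_two_gt_d9; linarith
  have h3 : (J0 : ℝ) ≤ 2 * Real.log R1 := by
    have : (0:ℝ) ≤ J0 := Nat.cast_nonneg _
    nlinarith
  have h4 : 0 ≤ 2 ^ α * K := by positivity
  calc ((J0 : ℝ) + 1) * (2 ^ α * K) ≤ (2 * (1 + Real.log R1)) * (2 ^ α * K) := by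
        apply mul_le_mul_of_nonneg_right _ h4
        linarith
    _ = _ := by ring

/-- A finite set of integers of bounded diameter. -/
theorem card_int_le (s : Finset ℤ) {L : ℝ} (hL : 0 ≤ L) (h : ∀ x ∈ s, ∀ y ∈ s, ((x - y : ℤ) : ℝ) ≤ L) :
    (s.card : ℝ) ≤ L + 1 := by
  rcases s.eq_empty_or_nonempty with rfl | hne
  · simp; linarith
  · have h1 : s ⊆ Finset.Icc (s.min' hne) (s.max' hne) := by
      intro x hx
      exact Finset.mem_Icc.2 ⟨s.min'_le x hx, s.le_max' x hx⟩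
    have h2 := Finset.card_le_card h1
    rw [Int.card_Icc] at h2
    have h3 := h _ (s.max'_mem hne) _ (s.min'_mem hne)
    have h4 : s.min' hne ≤ s.max' hne := s.min'_le _ (s.max'_mem hne)
    have h5 : ((s.card : ℤ) : ℝ) ≤ ((s.max' hne + 1 - s.min' hne : ℤ) : ℝ) := by
      have : (s.card : ℤ) ≤ s.max' hne + 1 - s.min' hne := by
        have := Int.toNat_of_nonneg (show 0 ≤ s.max' hne + 1 - s.min' hne by omega)
        omega
      exact_mod_cast this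
    push_cast at h5 h3
    linarith

/-- the integer box -/
theorem card_box (N : ℕ) {R : ℝ} (hR : 1 ≤ R) (S : Finset (Fin N → ℤ))
    (hS : ∀ x ∈ S, ∀ j, |((x j : ℤ) : ℝ)| ≤ R) : (S.card : ℝ) ≤ (3 * R) ^ N := by
  have h1 : S ⊆ Fintype.piFinset (fun _ : Fin N => Finset.Icc (-⌊R⌋) ⌊R⌋) := by
    intro x hx
    rw [Fintype.mem_piFinset]
    intro j
    have := hS x hx j
    rw [abs_le] at this
    rw [Finset.mem_Icc]
    constructor
    · have : -(x j) ≤ ⌊R⌋ := Int.le_floor.2 (by push_cast; linarith)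
      linarith
    · exact Int.le_floor.2 this.2
  have h2 := Finset.card_le_card h1
  rw [Fintype.card_piFinset] at h2
  simp only [Int.card_Icc, Finset.prod_const, Finset.card_univ, Fintype.card_fin] at h2
  have hf : (0:ℤ) ≤ ⌊R⌋ := Int.floor_nonneg.2 (by linarith)
  have h3 : (((⌊R⌋ + 1 - -⌊R⌋).toNat : ℕ) : ℝ) ≤ 3 * R := by
    have h4 : (((⌊R⌋ + 1 - -⌊R⌋).toNat : ℕ) : ℤ) = 2 * ⌊R⌋ + 1 := by
      rw [Int.toNat_of_nonneg (by omega)]; ring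
    have h5 : (((⌊R⌋ + 1 - -⌊R⌋).toNat : ℕ) : ℝ) = 2 * (⌊R⌋:ℝ) + 1 := by exact_mod_cast h4
    rw [h5]
    have := Int.floor_le R
    linarith
  calc (S.card : ℝ) ≤ (((⌊R⌋ + 1 - -⌊R⌋).toNat ^ N : ℕ) : ℝ) := by exact_mod_cast h2
    _ = (((⌊R⌋ + 1 - -⌊R⌋).toNat : ℕ) : ℝ) ^ N := by push_cast; rfl
    _ ≤ (3 * R) ^ N := pow_le_pow_left₀ (Nat.cast_nonneg _) h3 N

/-- the integer box with one coordinate zero -/
theorem card_box' (N : ℕ) (i : Fin N) {R : ℝ} (hR : 1 ≤ R) (S : Finset (Fin N → ℤ))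
    (hS : ∀ x ∈ S, ∀ j, |((x j : ℤ) : ℝ)| ≤ R) (hS0 : ∀ x ∈ S, x i = 0) :
    (S.card : ℝ) ≤ (3 * R) ^ (N - 1) := by
  classical
  obtain ⟨n, rfl⟩ : ∃ n, N = n + 1 := ⟨N - 1, by have := i.2; omega⟩
  have hinj : Set.InjOn (fun (x : Fin (n + 1) → ℤ) (j : Fin n) => x (i.succAbove j)) S := by
    intro x hx y hy hxy
    funext j
    by_cases hj : j = i
    · rw [hj, hS0 x hx, hS0 y hy]
    · obtain ⟨k, rfl⟩ := Fin.exists_succAbove_eq hj
      exact congrFun hxy k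
  rw [← Finset.card_image_of_injOn hinj]
  have := card_box n hR (S.image (fun (x : Fin (n + 1) → ℤ) (j : Fin n) => x (i.succAbove j))) (by
    intro y hy j
    obtain ⟨x, hx, rfl⟩ := Finset.mem_image.1 hy
    exact hS x hx _)
  simpa using this

end Pool.Agent.Lib.MP_1acd66_nt
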