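import Pool.Agent.Lib.MP_1acd66_nt.Tiling

/-! Integrals over annuli of homogeneous functions of degree `-n` on an `n`-dimensional space. -/

set_option linter.unusedSectionVars false

open MeasureTheory Metric Set Filter Topology
open scoped ENNReal NNReal Pointwise

namespace Pool.Agent.Lib.MP_1acd66_nt

variable {E : Type*} [NormedAddCommGroup E] [MeasurableSpace E]
variable [NormedSpace ℝ E] [BorelSpace E] [FiniteDimensional ℝ E]
  {μ : Measure E} [μ.IsAddHaarMeasure]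

/-- half open annulus -/
def annulus (E : Type*) [NormedAddCommGroup E] (a b : ℝ) : Set E := {x : E | a ≤ ‖x‖ ∧ ‖x‖ < b}

/-- Homogeneous of degree `-n`, nonnegative and continuous away from the origin. -/
structure HomNeg (n : ℕ) (Φ : E → ℝ) : Prop where
  cont : ContinuousOn Φ {0}ᶜ
  nonneg : ∀ x, 0 ≤ Φ x
  hom : ∀ x, x ≠ 0 → ∀ s : ℝ, 0 < s → Φ (s • x) = (s ^ n)⁻¹ * Φ x

theorem measurableSet_annulus (a b : ℝ) : MeasurableSet (annulus E a b) := by
  apply MeasurableSet.inter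
  · exact measurableSet_le measurable_const measurable_norm
  · exact measurableSet_lt measurable_norm measurable_const

theorem annulus_subset {a b a' b' : ℝ} (ha : a' ≤ a) (hb : b ≤ b') :
    annulus E a b ⊆ annulus E a' b' := fun _ hx => ⟨ha.trans hx.1, hx.2.trans_le hb⟩

theorem HomNeg.integrableOn {n : ℕ} {Φ : E → ℝ} (h : HomNeg n Φ) {a : ℝ} (ha : 0 < a) (b : ℝ) :
    IntegrableOn Φ (annulus E a b) μ := by
  have hK : IsCompact ({x : E | a ≤ ‖x‖} ∩ closedBall 0 b) := by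
    refine IsCompact.inter_left (isCompact_closedBall 0 b) ?_
    exact isClosed_le continuous_const continuous_norm
  have h1 : IntegrableOn Φ ({x : E | a ≤ ‖x‖} ∩ closedBall 0 b) μ := by
    refine ContinuousOn.integrableOn_compact hK (h.cont.mono ?_)
    rintro x ⟨hx, _⟩
    simp only [mem_compl_iff, mem_singleton_iff]
    rintro rfl
    simp at hx
    linarith
  refine h1.mono_set ?_
  rintro x ⟨hx1, hx2⟩
  refine ⟨hx1, ?_⟩
  rw [mem_closedBall_zero_iff]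
  exact hx2.le

/-- integral over an annulus -/
noncomputable def ann (μ : Measure E) (Φ : E → ℝ) (a b : ℝ) : ℝ := ∫ x in annulus E a b, Φ x ∂μ

theorem HomNeg.ann_nonneg {n : ℕ} {Φ : E → ℝ} (h : HomNeg n Φ) (a b : ℝ) : 0 ≤ ann μ Φ a b :=
  setIntegral_nonneg (measurableSet_annulus a b) (fun x _ => h.nonneg x)

theorem HomNeg.ann_mono {n : ℕ} {Φ : E → ℝ} (h : HomNeg n Φ) {a b a' b' : ℝ} (ha0 : 0 < a')
    (ha : a' ≤ a) (hb : b ≤ b') : ann μ Φ a b ≤ ann μ Φ a' b' := by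
  refine setIntegral_mono_set (h.integrableOn ha0 b') ?_ ?_
  · exact Eventually.of_forall fun x => h.nonneg x
  · exact (annulus_subset ha hb).eventuallyLE

theorem HomNeg.ann_add {n : ℕ} {Φ : E → ℝ} (h : HomNeg n Φ) {a b c : ℝ} (ha0 : 0 < a)
    (ha : a ≤ b) (hb : b ≤ c) : ann μ Φ a b + ann μ Φ b c = ann μ Φ a c := by
  have hU : annulus E a c = annulus E a b ∪ annulus E b c := by
    ext x
    simp only [annulus, mem_ofPred_eq, mem_union]
    constructor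
    · rintro ⟨h1, h2⟩
      by_cases hx : ‖x‖ < b
      · exact Or.inl ⟨h1, hx⟩
      · exact Or.inr ⟨not_lt.1 hx, h2⟩
    · rintro (⟨h1, h2⟩ | ⟨h1, h2⟩)
      · exact ⟨h1, h2.trans_le hb⟩
      · exact ⟨ha.trans h1, h2⟩
  rw [ann, ann, ann, hU, setIntegral_union]
  · refine Set.disjoint_left.2 ?_
    rintro x ⟨_, h1⟩ ⟨h2, _⟩
    linarith
  · exact measurableSet_annulus b c
  · exact h.integrableOn ha0 b
  · exact h.integrableOn (ha0.trans_le ha) c

theorem HomNeg.ann_scale {n : ℕ} (hn : n = Module.finrank ℝ E) {Φ : E → ℝ} (h : HomNeg n Φ)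
    {s a b : ℝ} (hs : 0 < s) (ha : 0 < a) : ann μ Φ (s * a) (s * b) = ann μ Φ a b := by
  have h1 := Measure.setIntegral_comp_smul_of_pos μ Φ (annulus E a b) hs
  have h2 : s • annulus E a b = annulus E (s * a) (s * b) := by
    ext x
    rw [mem_smul_set_iff_inv_smul_mem₀ hs.ne']
    simp only [annulus, mem_ofPred_eq, norm_smul, norm_inv, Real.norm_eq_abs, abs_of_pos hs]
    rw [le_inv_mul_iff₀ hs, inv_mul_lt_iff₀ hs]
  rw [h2] at h1
  have h3 : ∫ x in annulus E a b, Φ (s • x) ∂μ = ∫ x in annulus E a b, (s ^ n)⁻¹ * Φ x ∂μ := by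
    refine setIntegral_congr_fun (measurableSet_annulus a b) ?_
    intro x hx
    refine h.hom x ?_ s hs
    rintro rfl
    have := hx.1
    simp at this
    linarith
  rw [h3, integral_const_mul, ← hn, smul_eq_mul] at h1
  have h4 : (s ^ n)⁻¹ ≠ 0 := inv_ne_zero (pow_ne_zero _ hs.ne')
  exact (mul_left_cancel₀ h4 h1).symm

/-- The constant of a homogeneous function. -/
noncomputable def kap (μ : Measure E) (Φ : E → ℝ) : ℝ := ann μ Φ 1 2 / Real.log 2

theorem HomNeg.kap_nonneg {n : ℕ} {Φ : E → ℝ} (h : HomNeg n Φ) : 0 ≤ kap μ Φ :=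
  div_nonneg (h.ann_nonneg 1 2) (Real.log_nonneg (by norm_num))

theorem HomNeg.ann_two_pow {n : ℕ} (hn : n = Module.finrank ℝ E) {Φ : E → ℝ} (h : HomNeg n Φ)
    (k : ℕ) : ann μ Φ 1 (2 ^ k) = k * ann μ Φ 1 2 := by
  induction k with
  | zero =>
    simp only [pow_zero, Nat.cast_zero, zero_mul, ann]
    have : annulus E 1 1 = ∅ := by
      ext x; simp only [annulus, mem_ofPred_eq, mem_empty_iff_false, iff_false, not_and, not_lt]
      exact fun h => h
    rw [this]; simp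
  | succ k ih =>
    have h2 : (1:ℝ) ≤ 2 ^ k := one_le_pow₀ (by norm_num)
    have h3 : (2:ℝ) ^ k ≤ 2 ^ (k + 1) := pow_le_pow_right₀ (by norm_num) (by omega)
    have := h.ann_add (μ := μ) (a := 1) (b := 2 ^ k) (c := 2 ^ (k+1)) one_pos h2 h3
    rw [← this, ih]
    have h4 := h.ann_scale (μ := μ) hn (s := 2 ^ k) (a := 1) (b := 2) (by positivity) one_pos
    rw [mul_one, ← pow_succ] at h4
    rw [h4]
    push_cast
    ring

theorem HomNeg.ann_bound {n : ℕ} (hn : n = Module.finrank ℝ E) {Φ : E → ℝ} (h : HomNeg n Φ)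
    {a b : ℝ} (ha : 0 < a) (hab : a ≤ b) :
    kap μ Φ * Real.log (b / a) - kap μ Φ * Real.log 2 ≤ ann μ Φ a b ∧
      ann μ Φ a b ≤ kap μ Φ * Real.log (b / a) + kap μ Φ * Real.log 2 := by
  have h1 := h.ann_scale (μ := μ) hn (s := a) (a := 1) (b := b / a) ha one_pos
  rw [mul_one, mul_div_cancel₀ _ ha.ne'] at h1
  rw [h1]
  set x := b / a with hx
  have hx1 : 1 ≤ x := (one_le_div ha).2 hab
  set k := ⌊Real.logb 2 x⌋₊ with hk
  have hlog0 : 0 ≤ Real.logb 2 x := Real.logb_nonneg (by norm_num) hx1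
  have hk1 : (k : ℝ) ≤ Real.logb 2 x := Nat.floor_le hlog0
  have hk2 : Real.logb 2 x < k + 1 := Nat.lt_floor_add_one _
  have hx0 : 0 < x := by linarith
  have h2k : (2:ℝ) ^ k ≤ x := by
    rw [← Real.rpow_natCast, ← Real.le_logb_iff_rpow_le (by norm_num) hx0]
    exact hk1
  have h2k1 : x ≤ (2:ℝ) ^ (k + 1) := by
    rw [← Real.rpow_natCast, ← Real.logb_le_iff_le_rpow (by norm_num) hx0]
    push_cast
    exact hk2.le
  have hl2 : 0 < Real.log 2 := Real.log_pos (by norm_num)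
  have e1 : kap μ Φ * Real.log x = ann μ Φ 1 2 * Real.logb 2 x := by
    rw [kap, Real.logb]; field_simp
  have e2 : kap μ Φ * Real.log 2 = ann μ Φ 1 2 := by
    rw [kap]; field_simp
  have hA : 0 ≤ ann μ Φ 1 2 := h.ann_nonneg 1 2
  have m1 := h.ann_mono (μ := μ) (a := 1) (a' := 1) one_pos le_rfl h2k
  have m2 := h.ann_mono (μ := μ) (a := 1) (a' := 1) one_pos le_rfl h2k1
  rw [h.ann_two_pow hn] at m1 m2
  rw [e1, e2]
  push_cast at m2
  constructor
  · nlinarith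
  · nlinarith

theorem homNeg_norm (n : ℕ) : HomNeg (E := E) n (fun x => (‖x‖ ^ n)⁻¹) where
  cont := by
    refine ContinuousOn.inv₀ (by fun_prop) ?_
    intro x hx
    have : x ≠ 0 := hx
    positivity
  nonneg x := by positivity
  hom x hx s hs := by
    rw [norm_smul, Real.norm_eq_abs, abs_of_pos hs, mul_pow, mul_inv]

/-- modulus of continuity near the unit sphere -/
theorem modulus {Φ : E → ℝ} (hc : ContinuousOn Φ {0}ᶜ) {ε : ℝ} (hε : 0 < ε) :
    ∃ δ : ℝ, 0 < δ ∧ δ ≤ 1 / 2 ∧ ∀ x y : E, ‖x‖ = 1 → ‖y - x‖ ≤ δ → |Φ y - Φ x| ≤ ε := by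
  have hK : IsCompact ({x : E | 1 / 2 ≤ ‖x‖} ∩ closedBall 0 2) := by
    refine IsCompact.inter_left (isCompact_closedBall 0 2) ?_
    exact isClosed_le continuous_const continuous_norm
  have huc := hK.uniformContinuousOn_of_continuous (f := Φ) (hc.mono (by
    rintro x ⟨hx, _⟩
    simp only [mem_compl_iff, mem_singleton_iff]
    rintro rfl
    simp only [mem_ofPred_eq, norm_zero] at hx
    linarith))
  rw [Metric.uniformContinuousOn_iff] at huc
  obtain ⟨δ, hδ, H⟩ := huc ε hε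
  refine ⟨min (δ / 2) (1 / 2), by positivity, min_le_right _ _, ?_⟩
  intro x y hx hy
  have hy1 : ‖y - x‖ ≤ δ / 2 := hy.trans (min_le_left _ _)
  have hy2 : ‖y - x‖ ≤ 1 / 2 := hy.trans (min_le_right _ _)
  have hxK : x ∈ {x : E | 1 / 2 ≤ ‖x‖} ∩ closedBall 0 2 := by
    refine ⟨?_, ?_⟩
    · simp only [mem_ofPred_eq, hx]; norm_num
    · rw [mem_closedBall_zero_iff, hx]; norm_num
  have hyK : y ∈ {x : E | 1 / 2 ≤ ‖x‖} ∩ closedBall 0 2 := by
    have h1 : ‖x‖ ≤ ‖y‖ + ‖y - x‖ := by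
      calc ‖x‖ = ‖y - (y - x)‖ := by congr 1; abel
        _ ≤ _ := norm_sub_le _ _
    have h2 : ‖y‖ ≤ ‖x‖ + ‖y - x‖ := by
      calc ‖y‖ = ‖x + (y - x)‖ := by congr 1; abel
        _ ≤ _ := norm_add_le _ _
    refine ⟨?_, ?_⟩
    · simp only [mem_ofPred_eq]; linarith
    · rw [mem_closedBall_zero_iff]; linarith
  have := H y hyK x hxK (by rw [dist_eq_norm]; linarith)
  rw [Real.dist_eq] at this
  exact this.le

theorem HomNeg.modulus {n : ℕ} {Φ : E → ℝ} (h : HomNeg n Φ) {ε : ℝ} (hε : 0 < ε) :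
    ∃ δ : ℝ, 0 < δ ∧ δ ≤ 1 / 2 ∧ ∀ x y : E, x ≠ 0 → ‖y - x‖ ≤ δ * ‖x‖ →
      |Φ y - Φ x| ≤ ε * (‖y‖ ^ n)⁻¹ := by
  obtain ⟨δ, hδ, hδ2, H⟩ := MP_1acd66_nt.modulus h.cont (ε := ε / 2 ^ n) (by positivity)
  refine ⟨δ, hδ, hδ2, ?_⟩
  intro x y hx hy
  have hxn : 0 < ‖x‖ := norm_pos_iff.2 hx
  set s := ‖x‖⁻¹ with hs
  have hspos : 0 < s := inv_pos.2 hxn
  have hy0 : y ≠ 0 := by
    rintro rfl
    rw [zero_sub, norm_neg] at hy
    nlinarith
  have h1 : ‖s • x‖ = 1 := by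
    rw [norm_smul, Real.norm_eq_abs, abs_of_pos hspos, hs, inv_mul_cancel₀ hxn.ne']
  have h2 : ‖s • y - s • x‖ ≤ δ := by
    rw [← smul_sub, norm_smul, Real.norm_eq_abs, abs_of_pos hspos, hs, inv_mul_le_iff₀ hxn]
    linarith
  have h3 := H _ _ h1 h2
  rw [h.hom y hy0 s hspos, h.hom x hx s hspos, ← mul_sub, abs_mul,
    abs_of_pos (by positivity)] at h3
  have h4 : (s ^ n)⁻¹ = ‖x‖ ^ n := by rw [hs, inv_pow, inv_inv]
  rw [h4] at h3
  have hyn : 0 < ‖y‖ := norm_pos_iff.2 hy0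
  have hy2 : ‖y‖ ≤ 2 * ‖x‖ := by
    have : ‖y‖ ≤ ‖x‖ + ‖y - x‖ := by
      calc ‖y‖ = ‖x + (y - x)‖ := by congr 1; abel
        _ ≤ _ := norm_add_le _ _
    nlinarith
  have h5 : ‖y‖ ^ n ≤ 2 ^ n * ‖x‖ ^ n := by
    rw [← mul_pow]; exact pow_le_pow_left₀ hyn.le hy2 n
  rw [le_mul_inv_iff₀ (by positivity)]
  calc |Φ y - Φ x| * ‖y‖ ^ n ≤ |Φ y - Φ x| * (2 ^ n * ‖x‖ ^ n) := by
        apply mul_le_mul_of_nonneg_left h5 (abs_nonneg _)
    _ = 2 ^ n * (‖x‖ ^ n * |Φ y - Φ x|) := by ring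
    _ ≤ 2 ^ n * (ε / 2 ^ n) := by gcongr
    _ = ε := by field_simp

end Pool.Agent.Lib.MP_1acd66_nt
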