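import Pool.Agent.Lib.MP_1acd66_nt.RootCount

/-! Density zero of the tuples with a common rational zero, final form. -/

namespace Pool.Agent.Lib.MP_1acd66_nt

open Finset

theorem one_add_log_sq_le {R : ℝ} (hR : 1 ≤ R) : (1 + Real.log R) ^ 2 ≤ 16 * √R := by
  set y := √(√R) with hy
  have hy1 : 1 ≤ y := by
    rw [hy]
    apply Real.le_sqrt_of_sq_le
    rw [one_pow]
    apply Real.le_sqrt_of_sq_le
    rw [one_pow]; exact hR
  have hy2 : y ^ 2 = √R := Real.sq_sqrt (Real.sqrt_nonneg _)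
  have hy4 : y ^ 4 = R := by
    calc y ^ 4 = (y ^ 2) ^ 2 := by ring
      _ = R := by rw [hy2, Real.sq_sqrt (by linarith)]
  have h1 : Real.log R = 4 * Real.log y := by
    rw [← hy4, Real.log_pow]; norm_num
  have h2 : Real.log y ≤ y - 1 := Real.log_le_sub_one_of_pos (by linarith)
  have h3 : 0 ≤ Real.log R := Real.log_nonneg hR
  have h4 : 1 + Real.log R ≤ 4 * y := by rw [h1]; linarith
  calc (1 + Real.log R) ^ 2 ≤ (4 * y) ^ 2 := pow_le_pow_left₀ (by linarith) h4 2
    _ = 16 * √R := by rw [mul_pow, hy2]; norm_num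

/-- splitting off the first form -/
theorem card_split {n d : ℕ} {R : ℝ} (hR : 1 ≤ R) (S : Finset (CoZ (n + 1) d))
    (hS : ∀ A ∈ S, ∀ i j, |((A i j : ℤ) : ℝ)| ≤ R) :
    (S.card : ℝ) ≤ ((S.image (fun A => A 0)).card : ℝ) * (3 * R) ^ ((d + 1) * n) := by
  classical
  have hinj : Set.InjOn (fun A : CoZ (n + 1) d => (A 0, fun i : Fin n => A i.succ)) S := by
    intro A _ B _ hAB
    simp only [Prod.mk.injEq] at hAB
    funext i
    refine Fin.cases ?_ ?_ i
    · exact hAB.1
    · intro j; exact congrFun hAB.2 j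
  have hsub : S.image (fun A : CoZ (n + 1) d => (A 0, fun i : Fin n => A i.succ)) ⊆
      (S.image (fun A => A 0)) ×ˢ (S.image (fun A => fun i : Fin n => A i.succ)) := by
    intro x hx
    obtain ⟨A, hA, rfl⟩ := Finset.mem_image.1 hx
    rw [Finset.mem_product]
    exact ⟨Finset.mem_image_of_mem _ hA, Finset.mem_image_of_mem _ hA⟩
  have h1 := Finset.card_le_card hsub
  rw [Finset.card_image_of_injOn hinj, Finset.card_product] at h1
  have h2 := card_box_general (m := n) (d := d) (B := fun _ => R) (fun _ => hR)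
    (S.image (fun A => fun i : Fin n => A i.succ)) (by
      intro x hx i j
      obtain ⟨A, hA, rfl⟩ := Finset.mem_image.1 hx
      exact hS A hA _ _)
  rw [Finset.prod_const, Finset.card_univ, Fintype.card_fin, ← pow_mul] at h2
  calc (S.card : ℝ) ≤ (((S.image (fun A => A 0)).card *
        (S.image (fun A => fun i : Fin n => A i.succ)).card : ℕ) : ℝ) := by exact_mod_cast h1
    _ = ((S.image (fun A => A 0)).card : ℝ) *
        ((S.image (fun A => fun i : Fin n => A i.succ)).card : ℝ) := by push_cast; rfl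
    _ ≤ _ := mul_le_mul_of_nonneg_left h2 (Nat.cast_nonneg _)

theorem bad_count_high {n d : ℕ} (hd : 2 ≤ d) {ε : ℝ} (hε : 0 < ε) :
    ∃ r0 : ℝ, 1 ≤ r0 ∧ ∀ r : ℝ, r0 ≤ r → ∀ S : Finset (CoZ (n + 1) d),
      (∀ A ∈ S, ¬ NoRootZ A ∧ ∀ i j, |((A i j : ℤ) : ℝ)| ≤ r) →
      (S.card : ℝ) ≤ ε * r ^ ((n + 1) * (d + 1)) := by
  classical
  set C : ℝ := 2 * 3 ^ d + 576 * 3 ^ (d - 2) with hC
  have hCpos : 0 < C := by positivity
  set C' : ℝ := C * 2 ^ (d + 1) * 3 ^ ((d + 1) * n) with hC'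
  refine ⟨max 1 ((C' / ε) ^ 2), le_max_left _ _, ?_⟩
  intro r hr S hS
  have hr1 : 1 ≤ r := (le_max_left _ _).trans hr
  have hr2 : (C' / ε) ^ 2 ≤ r := (le_max_right _ _).trans hr
  set R : ℕ := ⌈r⌉₊ with hRdef
  have hR1 : 1 ≤ R := Nat.one_le_ceil_iff.2 (by linarith)
  have hR1' : (1:ℝ) ≤ R := by exact_mod_cast hR1
  have hrR : r ≤ R := Nat.le_ceil r
  have hR2 : (R:ℝ) ≤ 2 * r := by
    have := Nat.ceil_lt_add_one (show 0 ≤ r by linarith)
    linarith
  have h0 : ((S.image (fun A => A 0)).card : ℝ) ≤ C * (R:ℝ) ^ d * √R := by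
    have h1 := card_single hd hR1 (S.image (fun A => A 0)) (by
      intro a ha
      obtain ⟨A, hA, rfl⟩ := Finset.mem_image.1 ha
      obtain ⟨hroot, hbox⟩ := hS A hA
      refine ⟨?_, ?_⟩
      · intro j
        have h2 := (hbox 0 j).trans hrR
        exact_mod_cast h2
      · simp only [NoRootZ, not_forall, not_exists, not_not] at hroot
        obtain ⟨u, v, huv, h⟩ := hroot
        exact ⟨u, v, huv, h 0⟩)
    refine h1.trans ?_
    have h2 := one_add_log_sq_le hR1'
    have h3 : (1:ℝ) ≤ √R := by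
      apply Real.le_sqrt_of_sq_le
      rw [one_pow]; exact hR1'
    have e1 : (6 * (R:ℝ) * (1 + Real.log R)) ^ 2 * (3 * R) ^ (d - 2) =
        36 * 3 ^ (d - 2) * (R:ℝ) ^ d * (1 + Real.log R) ^ 2 := by
      obtain ⟨e, rfl⟩ : ∃ e, d = e + 2 := ⟨d - 2, by omega⟩
      rw [Nat.add_sub_cancel, mul_pow (3:ℝ), pow_add]
      ring
    rw [e1]
    have h4 : 36 * 3 ^ (d - 2) * (R:ℝ) ^ d * (1 + Real.log R) ^ 2 ≤
        36 * 3 ^ (d - 2) * (R:ℝ) ^ d * (16 * √R) := mul_le_mul_of_nonneg_left h2 (by positivity)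
    have h5 : 2 * (3 * (R:ℝ)) ^ d ≤ 2 * (3 * (R:ℝ)) ^ d * √R :=
      le_mul_of_one_le_right (by positivity) h3
    rw [hC]
    calc 2 * (3 * (R:ℝ)) ^ d + 36 * 3 ^ (d - 2) * (R:ℝ) ^ d * (1 + Real.log R) ^ 2
        ≤ 2 * (3 * (R:ℝ)) ^ d * √R + 36 * 3 ^ (d - 2) * (R:ℝ) ^ d * (16 * √R) := add_le_add h5 h4
      _ = _ := by rw [mul_pow]; ring
  have h1 := card_split hr1 S (fun A hA => (hS A hA).2)
  have h2 : √(R:ℝ) ≤ 2 * √r := by
    rw [Real.sqrt_le_left (by positivity)]
    rw [mul_pow, Real.sq_sqrt (by linarith)]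
    linarith
  have h3 : C * (R:ℝ) ^ d * √R ≤ C * (2 * r) ^ d * (2 * √r) := by
    apply mul_le_mul _ h2 (Real.sqrt_nonneg _) (by positivity)
    apply mul_le_mul_of_nonneg_left _ hCpos.le
    exact pow_le_pow_left₀ (by positivity) hR2 d
  have h4 : (S.card : ℝ) ≤ (C * (2 * r) ^ d * (2 * √r)) * (3 * r) ^ ((d + 1) * n) :=
    h1.trans (mul_le_mul_of_nonneg_right (h0.trans h3) (by positivity))
  refine h4.trans ?_
  have h5 : C' * √r ≤ ε * r := by
    have h6 : C' / ε ≤ √r := Real.le_sqrt_of_sq_le hr2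
    rw [div_le_iff₀ hε] at h6
    calc C' * √r ≤ (√r * ε) * √r := mul_le_mul_of_nonneg_right h6 (Real.sqrt_nonneg _)
      _ = ε * (√r * √r) := by ring
      _ = ε * r := by rw [Real.mul_self_sqrt (by linarith)]
  have e1 : (C * (2 * r) ^ d * (2 * √r)) * (3 * r) ^ ((d + 1) * n) =
      (C' * √r) * r ^ (d + (d + 1) * n) := by
    rw [hC', mul_pow (2:ℝ), mul_pow (3:ℝ), pow_succ, pow_add]
    ring
  have e2 : ε * r ^ ((n + 1) * (d + 1)) = (ε * r) * r ^ (d + (d + 1) * n) := by
    have : (n + 1) * (d + 1) = (d + (d + 1) * n) + 1 := by ring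
    rw [this, pow_succ]; ring
  rw [e1, e2]
  exact mul_le_mul_of_nonneg_right h5 (by positivity)

theorem bad_count_one {n : ℕ} {ε : ℝ} (hε : 0 < ε) :
    ∃ r0 : ℝ, 1 ≤ r0 ∧ ∀ r : ℝ, r0 ≤ r → ∀ S : Finset (CoZ (n + 2) 1),
      (∀ A ∈ S, ¬ NoRootZ A ∧ ∀ i j, |((A i j : ℤ) : ℝ)| ≤ r) →
      (S.card : ℝ) ≤ ε * r ^ ((n + 2) * (1 + 1)) := by
  classical
  set C : ℝ := 2 * 3 ^ 3 * 3 ^ (2 * n) with hC
  refine ⟨max 1 (C / ε), le_max_left _ _, ?_⟩
  intro r hr S hS
  have hr1 : 1 ≤ r := (le_max_left _ _).trans hr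
  have hr2 : C / ε ≤ r := (le_max_right _ _).trans hr
  rw [div_le_iff₀ hε] at hr2
  -- the first two rows
  set F : CoZ (n + 2) 1 → (Fin 4 → ℤ) := fun A => ![A 0 0, A 0 1, A 1 0, A 1 1] with hF
  have hinj : Set.InjOn (fun A : CoZ (n + 2) 1 => (F A, fun i : Fin n => A i.succ.succ)) S := by
    intro A _ B _ hAB
    simp only [Prod.mk.injEq] at hAB
    obtain ⟨h1, h2⟩ := hAB
    have g0 := congrFun h1 0
    have g1 := congrFun h1 1
    have g2 := congrFun h1 2
    have g3 := congrFun h1 3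
    simp only [hF] at g0 g1 g2 g3
    simp at g0 g1 g2 g3
    funext i
    refine Fin.cases ?_ (fun j => Fin.cases ?_ (fun k => ?_) j) i
    · funext l
      obtain rfl | rfl : l = 0 ∨ l = 1 := (show ∀ l : Fin (1 + 1), l = 0 ∨ l = 1 by decide) l
      · exact g0
      · exact g1
    · funext l
      obtain rfl | rfl : l = 0 ∨ l = 1 := (show ∀ l : Fin (1 + 1), l = 0 ∨ l = 1 by decide) l
      · exact g2
      · exact g3
    · exact congrFun h2 k
  set T := S.image F with hT
  have hTbox : ∀ x ∈ T, ∀ j, |((x j : ℤ) : ℝ)| ≤ r := by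
    intro x hx j
    obtain ⟨A, hA, rfl⟩ := Finset.mem_image.1 hx
    have hb := (hS A hA).2
    fin_cases j
    · exact hb 0 0
    · exact hb 0 1
    · exact hb 1 0
    · exact hb 1 1
  have hTrel : ∀ x ∈ T, x 0 * x 3 = x 1 * x 2 := by
    intro x hx
    obtain ⟨A, hA, rfl⟩ := Finset.mem_image.1 hx
    have hroot := (hS A hA).1
    simp only [NoRootZ, not_forall, not_exists, not_not] at hroot
    obtain ⟨u, v, huv, h⟩ := hroot
    have h0 := h 0
    have h1 := h 1
    simp only [formVal] at h0 h1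
    simp at h0 h1
    show A 0 0 * A 1 1 = A 0 1 * A 1 0
    rcases huv with hu | hv
    · have : u * (A 0 0 * A 1 1 - A 0 1 * A 1 0) = 0 := by
        linear_combination A 1 1 * h0 - A 0 1 * h1
      have := (mul_eq_zero.1 this).resolve_left hu
      linarith
    · have : v * (A 0 0 * A 1 1 - A 0 1 * A 1 0) = 0 := by
        linear_combination A 0 0 * h1 - A 1 0 * h0
      have := (mul_eq_zero.1 this).resolve_left hv
      linarith
  have hTcard : (T.card : ℝ) ≤ 2 * (3 * r) ^ 3 := by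
    have hA : ((T.filter (fun x => x 0 = 0)).card : ℝ) ≤ (3 * r) ^ 3 := by
      have := card_box_zero {0} hr1 (T.filter (fun x => x 0 = 0))
        (fun x hx => hTbox x (Finset.mem_filter.1 hx).1) (fun x hx j hj => by
          rw [Finset.mem_singleton] at hj; rw [hj]; exact (Finset.mem_filter.1 hx).2)
      simpa using this
    have hB : ((T.filter (fun x => ¬ x 0 = 0)).card : ℝ) ≤ (3 * r) ^ 3 := by
      have hinj2 : Set.InjOn (fun x : Fin 4 → ℤ => Function.update x 3 0)
          (T.filter (fun x => ¬ x 0 = 0)) := by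
        intro x hx y hy hxy
        obtain ⟨hx1, hx2⟩ := Finset.mem_filter.1 hx
        obtain ⟨hy1, hy2⟩ := Finset.mem_filter.1 hy
        have h0 := congrFun hxy 0
        have h1 := congrFun hxy 1
        have h2 := congrFun hxy 2
        simp only [Function.update_apply] at h0 h1 h2
        simp at h0 h1 h2
        have rx := hTrel x hx1
        have ry := hTrel y hy1
        have h3 : x 3 = y 3 := by
          have : x 0 * x 3 = x 0 * y 3 := by rw [rx, h1, h2, ← ry, h0]
          exact mul_left_cancel₀ hx2 this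
        funext j
        fin_cases j
        · exact h0
        · exact h1
        · exact h2
        · exact h3
      rw [← Finset.card_image_of_injOn hinj2]
      have := card_box_zero {3} hr1 ((T.filter (fun x => ¬ x 0 = 0)).image
        (fun x : Fin 4 → ℤ => Function.update x 3 0)) (by
          intro x hx j
          obtain ⟨y, hy, rfl⟩ := Finset.mem_image.1 hx
          by_cases hj : j = 3
          · rw [hj, Function.update_self]; simp; linarith
          · rw [Function.update_of_ne hj]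
            exact hTbox y (Finset.mem_filter.1 hy).1 j) (by
          intro x hx j hj
          obtain ⟨y, hy, rfl⟩ := Finset.mem_image.1 hx
          rw [Finset.mem_singleton] at hj
          rw [hj, Function.update_self])
      simpa using this
    have := Finset.card_filter_add_card_filter_not (s := T) (fun x => x 0 = 0)
    have h2 : (T.card : ℝ) = ((T.filter (fun x => x 0 = 0)).card : ℝ) +
        ((T.filter (fun x => ¬ x 0 = 0)).card : ℝ) := by exact_mod_cast this.symm
    linarith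
  have hsub : S.image (fun A : CoZ (n + 2) 1 => (F A, fun i : Fin n => A i.succ.succ)) ⊆
      T ×ˢ (S.image (fun A => fun i : Fin n => A i.succ.succ)) := by
    intro x hx
    obtain ⟨A, hA, rfl⟩ := Finset.mem_image.1 hx
    rw [Finset.mem_product]
    exact ⟨Finset.mem_image_of_mem _ hA, Finset.mem_image_of_mem _ hA⟩
  have h1 := Finset.card_le_card hsub
  rw [Finset.card_image_of_injOn hinj, Finset.card_product] at h1
  have h2 := card_box_general (m := n) (d := 1) (B := fun _ => r) (fun _ => hr1)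
    (S.image (fun A => fun i : Fin n => A i.succ.succ)) (by
      intro x hx i j
      obtain ⟨A, hA, rfl⟩ := Finset.mem_image.1 hx
      exact (hS A hA).2 _ _)
  rw [Finset.prod_const, Finset.card_univ, Fintype.card_fin, ← pow_mul] at h2
  calc (S.card : ℝ) ≤ ((T.card * (S.image (fun A => fun i : Fin n => A i.succ.succ)).card : ℕ) : ℝ) := by
        exact_mod_cast h1
    _ = (T.card : ℝ) * ((S.image (fun A => fun i : Fin n => A i.succ.succ)).card : ℝ) := by
        push_cast; rfl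
    _ ≤ (2 * (3 * r) ^ 3) * (3 * r) ^ ((1 + 1) * n) :=
        mul_le_mul hTcard h2 (Nat.cast_nonneg _) (by positivity)
    _ = C * r ^ (3 + 2 * n) := by
        rw [hC, mul_pow, mul_pow, pow_add]; norm_num; ring
    _ ≤ (r * ε) * r ^ (3 + 2 * n) := mul_le_mul_of_nonneg_right hr2 (by positivity)
    _ = ε * r ^ ((n + 2) * (1 + 1)) := by
        have : (n + 2) * (1 + 1) = (3 + 2 * n) + 1 := by ring
        rw [this, pow_succ]; ring

theorem bad_count {m d : ℕ} (hmd : 2 ≤ m * d) {ε : ℝ} (hε : 0 < ε) :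
    ∃ r0 : ℝ, 1 ≤ r0 ∧ ∀ r : ℝ, r0 ≤ r → ∀ S : Finset (CoZ m d),
      (∀ A ∈ S, ¬ NoRootZ A ∧ ∀ i j, |((A i j : ℤ) : ℝ)| ≤ r) →
      (S.card : ℝ) ≤ ε * r ^ (m * (d + 1)) := by
  have hm : 1 ≤ m := by
    rcases Nat.eq_zero_or_pos m with h | h
    · rw [h, zero_mul] at hmd; omega
    · exact h
  rcases Nat.lt_or_ge 1 d with hd | hd
  · obtain ⟨n, rfl⟩ : ∃ n, m = n + 1 := ⟨m - 1, by omega⟩
    exact bad_count_high hd hε
  · have hd1 : d = 1 := by
      rcases Nat.eq_zero_or_pos d with h | h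
      · rw [h, mul_zero] at hmd; omega
      · omega
    subst hd1
    obtain ⟨n, rfl⟩ : ∃ n, m = n + 2 := ⟨m - 2, by omega⟩
    exact bad_count_one hε

end Pool.Agent.Lib.MP_1acd66_nt
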