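import Pool.Agent.Lib.MP_1acd66_nt.FrameSum
import Pool.Agent.Lib.MP_1acd66_nt.BadCount

/-! Uniform asymptotics on the balanced part. -/

namespace Pool.Agent.Lib.MP_1acd66_nt

open MeasureTheory Metric Set Filter Topology

variable {N m d : ℕ}

theorem mem_latt_castA {q : ℕ} {A A0 : CoZ m d} : castA A ∈ latt q A0 ↔ Cong q A A0 := by
  constructor
  · rintro ⟨z, hz⟩ i j
    refine ⟨z i j, ?_⟩
    have := hz i j
    simp only [castA] at this
    have h2 : ((A i j - A0 i j : ℤ) : ℝ) = (((q:ℤ) * z i j : ℤ) : ℝ) := by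
      push_cast; linarith
    exact_mod_cast h2
  · intro h
    choose z hz using h
    refine ⟨z, ?_⟩
    intro i j
    simp only [castA]
    have h2 : ((A i j - A0 i j : ℤ) : ℝ) = (((q:ℤ) * z i j : ℤ) : ℝ) := by
      rw [hz i j]
    push_cast at h2
    linarith

theorem cnt_cong (M : Fr N → Co m d → ℝ) (q : ℕ) (A0 : CoZ m d) (k : Fr N) (Y : ℝ) :
    cnt (fun A => Cong q A A0) M k Y = ((latt q A0 ∩ sub (M k) Y).ncard : ℝ) := by
  rw [cnt, ← Set.ncard_image_of_injective _ castA_injective]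
  congr 2
  ext x
  simp only [mem_image, cset, sub, mem_ofPred_eq, mem_inter_iff]
  constructor
  · rintro ⟨A, ⟨hA, hc, hMA⟩, rfl⟩
    exact ⟨mem_latt_castA.2 hc, castA_ne_zero hA, hMA⟩
  · rintro ⟨hx, hx0, hMx⟩
    obtain ⟨z, hz⟩ := hx
    refine ⟨fun i j => A0 i j + q * z i j, ⟨?_, ?_, ?_⟩, ?_⟩
    · intro h0
      apply hx0
      funext i j
      rw [hz i j]
      have := congrFun (congrFun h0 i) j
      simp only [Pi.zero_apply] at this ⊢
      exact_mod_cast this
    · intro i j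
      exact ⟨z i j, by ring⟩
    · have : castA (fun i j => A0 i j + q * z i j) = x := by
        funext i j
        simp only [castA, hz i j]
        push_cast; rfl
      rw [this]; exact hMx
    · funext i j
      simp only [castA, hz i j]
      push_cast; rfl

/-- uniform asymptotics in a residue class -/
theorem cong_asymp {M : Fr N → Co m d → ℝ} (hM : IsLocalNorm ℝ N m d M) (hm : 0 < m) (t : ℝ)
    {q : ℕ} (hq : 0 < q) (A0 : CoZ m d) : ∀ ε > 0, ∃ Y0 > 0, ∀ k ∈ Kt N t, ∀ Y, Y0 ≤ Y →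
      |cnt (fun A => Cong q A A0) M k Y - ((q:ℝ) ^ (m * (d + 1)))⁻¹ * bodyVol M k * Y| ≤ ε * Y := by
  intro ε hε
  obtain ⟨U, hU⟩ := bodyVol_le hM hm t
  obtain ⟨c, _, hc, _, hb⟩ := hM.compact_bound (isCompact_Kt N t)
    (fun k hk => isFrame_of_mem_Kt hk)
  set D := m * (d + 1) with hD
  have hD0 : 0 < D := Nat.mul_pos hm (Nat.succ_pos d)
  set ε' := min 1 (ε / (4 * (|U| + 1))) with hε'
  have hε'p : 0 < ε' := by positivity
  obtain ⟨δ, hδ, hδ2, hmod⟩ := hM.modulus (isCompact_Kt N t) (fun k hk => isFrame_of_mem_Kt hk) hε'p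
  set K0 := (volume : Measure (Co m d)).real (closedBall 0 ((q:ℝ) / δ + q)) with hK0
  have hK0n : 0 ≤ K0 := measureReal_nonneg
  refine ⟨6 * K0 / ε + 1, by positivity, ?_⟩
  intro k hk Y hY
  have hYpos : 0 < Y := lt_of_lt_of_le (by positivity) hY
  have hfr := isFrame_of_mem_Kt hk
  obtain ⟨c1, c2⟩ := (tiling_latt hq A0).count (M k) (finrank_piPi m (d + 1)) hD0
    (hM.homA hfr) hc (fun x hx => (hb k hk x hx).1) hε'p hδ (by
      intro x y hx hxy
      exact hmod k hk k hk (by rw [sub_self, norm_zero]; exact hδ.le) x y hx hxy) hYpos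
  rw [cnt_cong]
  set n : ℝ := ((latt q A0 ∩ sub (M k) Y).ncard : ℝ) with hn
  set u := bodyVol M k with hu
  have hu' : (volume : Measure (Co m d)).real (sub (M k) 1) = u := rfl
  rw [hu', ← hK0] at c1 c2
  have hu0 : 0 ≤ u := measureReal_nonneg
  have huU : u ≤ |U| := (hU k hk).trans (le_abs_self _)
  have hq1 : (1:ℝ) ≤ (q:ℝ) ^ D := one_le_pow₀ (by exact_mod_cast hq)
  set v := (q:ℝ) ^ D with hv
  have hvpos : 0 < v := by linarith
  have hε'1 : ε' ≤ 1 := min_le_left _ _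
  have hε'2 : ε' * u ≤ ε / 4 := by
    have h1 : ε' ≤ ε / (4 * (|U| + 1)) := min_le_right _ _
    have h2 : 0 ≤ |U| := abs_nonneg _
    calc ε' * u ≤ ε / (4 * (|U| + 1)) * (|U| + 1) := by
          apply mul_le_mul h1 (by linarith) hu0 (by positivity)
      _ = ε / 4 := by field_simp
  have hK : 3 * K0 ≤ ε / 2 * Y := by
    have : 6 * K0 / ε ≤ Y := by linarith
    rw [div_le_iff₀ hε] at this
    linarith
  have hYu : 0 ≤ Y * u := by positivity
  have key : |v * n - Y * u| ≤ ε * Y := by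
    have e1 : ε' * (Y * u) ≤ ε / 4 * Y := by nlinarith
    have e2 : ε' * (Y * u) = ε' * (Y * u) := rfl
    rw [abs_le]
    constructor
    · -- Y u - v n ≤ ε Y
      have h3 : Y * u - v * n ≤ ε' * (v * n) + (1 + ε') * K0 := by nlinarith
      have h4 : ε' * (v * n) ≤ ε' * ((1 + ε') * (Y * u) + K0) :=
        mul_le_mul_of_nonneg_left c1 hε'p.le
      have h5 : ε' * ((1 + ε') * (Y * u) + K0) ≤ 2 * (ε' * (Y * u)) + K0 := by
        have h6 : ε' * ((1 + ε') * (Y * u)) ≤ 2 * (ε' * (Y * u)) := by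
          have : ε' * ((1 + ε') * (Y * u)) = (1 + ε') * (ε' * (Y * u)) := by ring
          rw [this]
          apply mul_le_mul_of_nonneg_right (by linarith) (by positivity)
        have h7 : ε' * K0 ≤ 1 * K0 := mul_le_mul_of_nonneg_right hε'1 hK0n
        linarith
      have h8 : (1 + ε') * K0 ≤ 2 * K0 := mul_le_mul_of_nonneg_right (by linarith) hK0n
      linarith
    · have h3 : v * n - Y * u ≤ ε' * (Y * u) + K0 := by linarith
      have h4 : 0 ≤ ε * Y := by positivity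
      linarith
  have e : n - v⁻¹ * u * Y = v⁻¹ * (v * n - Y * u) := by
    field_simp
  rw [e, abs_mul, abs_of_pos (inv_pos.2 hvpos)]
  calc v⁻¹ * |v * n - Y * u| ≤ 1 * (ε * Y) := by
        apply mul_le_mul (inv_le_one_of_one_le₀ hq1) key (abs_nonneg _) zero_le_one
    _ = ε * Y := one_mul _

/-- the arrays with a common zero are negligible -/
theorem bad_asymp {M : Fr N → Co m d → ℝ} (hM : IsLocalNorm ℝ N m d M) (hmd : 2 ≤ m * d) (t : ℝ) :
    ∀ ε > 0, ∃ Y0 > 0, ∀ k ∈ Kt N t, ∀ Y, Y0 ≤ Y →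
      |cnt (fun A => ¬ NoRootZ A) M k Y - 0 * bodyVol M k * Y| ≤ ε * Y := by
  intro ε hε
  have hm : 0 < m := by
    rcases Nat.eq_zero_or_pos m with h | h
    · rw [h, zero_mul] at hmd; omega
    · exact h
  obtain ⟨c, _, hc, _, hb⟩ := hM.compact_bound (isCompact_Kt N t)
    (fun k hk => isFrame_of_mem_Kt hk)
  obtain ⟨_, _, _, _, hfin⟩ := cset_bound hM hm t
  set D := m * (d + 1) with hD
  have hD0 : 0 < D := Nat.mul_pos hm (Nat.succ_pos d)
  obtain ⟨r0, hr0, hbad⟩ := bad_count hmd (ε := ε * c) (by positivity)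
  refine ⟨c * r0 ^ D, by positivity, ?_⟩
  intro k hk Y hY
  have hYpos : 0 < Y := lt_of_lt_of_le (by positivity) hY
  obtain ⟨X, hX, hXD⟩ := exists_rad hD0 (Q := Y / c) (by positivity)
  have hXr : r0 ≤ X := by
    have : r0 ^ D ≤ X ^ D := by rw [hXD, le_div_iff₀ hc]; linarith
    exact (pow_le_pow_iff_left₀ (by linarith) hX.le hD0.ne').1 this
  rw [zero_mul, zero_mul, sub_zero, abs_of_nonneg (cnt_nonneg _ _ _ _)]
  have hf := (hfin (fun A => ¬ NoRootZ A) k hk Y).2.1
  rw [cnt, Set.ncard_eq_toFinset_card _ hf]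
  have h1 := hbad X hXr hf.toFinset (by
    intro A hA
    rw [Set.Finite.mem_toFinset] at hA
    obtain ⟨hA0, hnr, hMA⟩ := hA
    refine ⟨hnr, ?_⟩
    intro i j
    refine (abs_le_norm_castA A i j).trans ?_
    have h2 := (hb k hk _ (castA_ne_zero hA0)).1.trans hMA
    have h3 : ‖castA A‖ ^ D ≤ X ^ D := by rw [hXD, le_div_iff₀ hc]; linarith
    exact (pow_le_pow_iff_left₀ (norm_nonneg _) hX.le hD0.ne').1 h3)
  refine h1.trans (le_of_eq ?_)
  rw [hXD]
  field_simp

end Pool.Agent.Lib.MP_1acd66_nt
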