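import Pool.Agent.Lib.MP_1acd66_nt.Kappa

/-! Upper and lower bounds for the weighted count by class sums. -/

namespace Pool.Agent.Lib.MP_1acd66_nt

open MeasureTheory Metric Set Filter Topology
open scoped Classical

variable {N m d : ℕ}

theorem sat_mem_JP {q P : ℕ} (hq : 0 < q) (hPq : ∀ p : ℕ, p.Prime → p ≤ P → p ∣ q) {Z : FrZ N}
    (hZ : SatZ Z) : res q Z ∈ JP N q P := by
  rw [JP, Finset.mem_filter]
  refine ⟨res_mem hq Z, ?_⟩
  intro p hp hpP hns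
  exact (satZ_iff.1 hZ) p hp (hns.congr (hPq p hp hpP) (cong_res q Z).symm)

theorem XH_upper {M : Fr N → Co m d → ℝ} (hM : IsLocalNorm ℝ N m d M)
    (hw : m * (d * (d + 1) / 2) ≤ N) (hm : 0 < m)
    {f : FrZ N → CoZ m d → ℝ} {f0 f1 : ℝ} {t : ℝ} {q P : ℕ} (hq : 0 < q)
    (hPq : ∀ p : ℕ, p.Prime → p ≤ P → p ∣ q)
    {cc : FrZ N → CoZ m d → ℝ} {ε : ℝ} (hcc : ClassApprox f q cc f0 f1 ε) {B : ℝ} (hB : 0 < B)
    (S : Finset (FrZ N))
    (hXH : XH M f t B = ∑ Z ∈ S.filter SatZ, wt t (castZ Z) * ((hset M f Z B).ncard : ℝ)) :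
    XH M f t B ≤ ∑ Z0 ∈ JP N q P, ∑ A0 ∈ IP m d q P,
      Gs M t q Z0 A0 S ((1 + ε) * cc Z0 A0 * B) := by
  obtain ⟨c, C, hc, hC, hb⟩ := wt_cset hM hw hm t
  have e : ∑ Z0 ∈ JP N q P, ∑ A0 ∈ IP m d q P, Gs M t q Z0 A0 S ((1 + ε) * cc Z0 A0 * B) =
      ∑ Z ∈ S.filter (fun Z => res q Z ∈ JP N q P), wt t (castZ Z) *
        ∑ A0 ∈ IP m d q P, cnt (fun A => Cong q A A0) M (castZ Z)
          ((1 + ε) * cc (res q Z) A0 * B) := by
    rw [← sum_classes (JP N q P) (Finset.filter_subset _ _) S (fun Z Z0 => wt t (castZ Z) *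
        ∑ A0 ∈ IP m d q P, cnt (fun A => Cong q A A0) M (castZ Z) ((1 + ε) * cc Z0 A0 * B))]
    refine Finset.sum_congr rfl fun Z0 _ => ?_
    simp only [Gs, Finset.mul_sum]
    rw [Finset.sum_comm]
  rw [e, hXH]
  have h1 : ∀ Z ∈ S.filter SatZ, wt t (castZ Z) * ((hset M f Z B).ncard : ℝ) ≤
      wt t (castZ Z) * ∑ A0 ∈ IP m d q P, cnt (fun A => Cong q A A0) M (castZ Z)
          ((1 + ε) * cc (res q Z) A0 * B) := by
    intro Z hZ
    by_cases h0 : wt t (castZ Z) = 0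
    · rw [h0, zero_mul, zero_mul]
    · exact mul_le_mul_of_nonneg_left (upper_local hM hq hPq hcc (Finset.mem_filter.1 hZ).2
        (fun Y => (hb _ h0 _ Y).1) hB) (wt_nonneg _ _)
  refine (Finset.sum_le_sum h1).trans ?_
  refine Finset.sum_le_sum_of_subset_of_nonneg ?_ ?_
  · intro Z hZ
    obtain ⟨h2, h3⟩ := Finset.mem_filter.1 hZ
    exact Finset.mem_filter.2 ⟨h2, sat_mem_JP hq hPq h3⟩
  · intro Z _ _
    exact mul_nonneg (wt_nonneg _ _) (Finset.sum_nonneg fun _ _ => cnt_nonneg _ _ _ _)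

theorem XH_lower {M : Fr N → Co m d → ℝ} (hM : IsLocalNorm ℝ N m d M)
    (hD : 2 ≤ m * (d + 1))
    {f : FrZ N → CoZ m d → ℝ} {f0 f1 : ℝ} {t : ℝ} {q P : ℕ} (hP : 0 < P)
    (hPq : ∀ p : ℕ, p.Prime → p ≤ P → p ∣ q)
    {cc : FrZ N → CoZ m d → ℝ} {ε : ℝ} (hcc : ClassApprox f q cc f0 f1 ε) {B : ℝ} (hB : 0 < B)
    (S : Finset (FrZ N))
    (hXH : XH M f t B = ∑ Z ∈ S.filter SatZ, wt t (castZ Z) * ((hset M f Z B).ncard : ℝ))
    {C : ℝ} (hC : 0 < C)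
    (hb : ∀ Z : Fr N, wt t Z ≠ 0 → ∀ (p : CoZ m d → Prop) (Y : ℝ),
      (cset p M Z Y).Finite ∧ (0 < Y → cnt p M Z Y ≤ C * Y * (‖Z‖ ^ (2 * N))⁻¹)) :
    ∑ Z0 ∈ JP N q P, ∑ A0 ∈ IP m d q P, Gs M t q Z0 A0 S ((1 + ε)⁻¹ * cc Z0 A0 * B) ≤
      XH M f t B + ∑ Z ∈ S, wt t (castZ Z) * cnt (fun A => ¬ NoRootZ A) M (castZ Z) (f0⁻¹ * B) +
      C * (f0⁻¹ * B) * (P:ℝ)⁻¹ * ∑ Z ∈ S, (‖castZ Z‖ ^ (2 * N))⁻¹ +
      C * (f0⁻¹ * B) * ∑ Z ∈ S.filter (fun Z => IsFrame Z ∧ ∃ p : ℕ, p.Prime ∧ P < p ∧ NonSatAt p Z),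
        wt t (castZ Z) * (‖castZ Z‖ ^ (2 * N))⁻¹ := by
  have hf0B : 0 < f0⁻¹ * B := mul_pos (inv_pos.2 hcc.pos) hB
  have hε := hcc.eps
  have hle1 : (1 + ε)⁻¹ ≤ 1 := inv_le_one_of_one_le₀ (by linarith)
  have hYle : ∀ Z0 A0, (1 + ε)⁻¹ * cc Z0 A0 * B ≤ f0⁻¹ * B := by
    intro Z0 A0
    apply mul_le_mul_of_nonneg_right _ hB.le
    have h1 := hcc.hi Z0 A0
    have h3 : 0 < cc Z0 A0 := (inv_pos.2 hcc.pos1).trans_le (hcc.lo _ _)
    calc (1 + ε)⁻¹ * cc Z0 A0 ≤ 1 * cc Z0 A0 :=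
          mul_le_mul_of_nonneg_right hle1 h3.le
      _ ≤ f0⁻¹ := by rw [one_mul]; exact h1
  have e : ∑ Z0 ∈ JP N q P, ∑ A0 ∈ IP m d q P, Gs M t q Z0 A0 S ((1 + ε)⁻¹ * cc Z0 A0 * B) =
      ∑ Z ∈ S.filter (fun Z => res q Z ∈ JP N q P), wt t (castZ Z) *
        ∑ A0 ∈ IP m d q P, cnt (fun A => Cong q A A0) M (castZ Z)
          ((1 + ε)⁻¹ * cc (res q Z) A0 * B) := by
    rw [← sum_classes (JP N q P) (Finset.filter_subset _ _) S (fun Z Z0 => wt t (castZ Z) *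
        ∑ A0 ∈ IP m d q P, cnt (fun A => Cong q A A0) M (castZ Z) ((1 + ε)⁻¹ * cc Z0 A0 * B))]
    refine Finset.sum_congr rfl fun Z0 _ => ?_
    simp only [Gs, Finset.mul_sum]
    rw [Finset.sum_comm]
  rw [e, hXH]
  set g : FrZ N → ℝ := fun Z => wt t (castZ Z) *
        ∑ A0 ∈ IP m d q P, cnt (fun A => Cong q A A0) M (castZ Z)
          ((1 + ε)⁻¹ * cc (res q Z) A0 * B) with hg
  -- pointwise bound for saturated frames
  have h1 : ∀ Z ∈ S.filter SatZ, g Z ≤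
      wt t (castZ Z) * ((hset M f Z B).ncard : ℝ) +
      wt t (castZ Z) * cnt (fun A => ¬ NoRootZ A) M (castZ Z) (f0⁻¹ * B) +
      C * (f0⁻¹ * B) * (P:ℝ)⁻¹ * (‖castZ Z‖ ^ (2 * N))⁻¹ := by
    intro Z hZ
    have hsat := (Finset.mem_filter.1 hZ).2
    by_cases h0 : wt t (castZ Z) = 0
    · simp only [hg, h0, zero_mul, zero_add]
      positivity
    · have h2 := lower_local hM hPq hcc hsat (fun Y => (hb _ h0 _ Y).1) hB
      have h3 := cnt_large_div hM hD (isFrame_castZ hsat.isFrame)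
        (K := C * (‖castZ Z‖ ^ (2 * N))⁻¹) (by positivity) (fun Y => (hb _ h0 _ Y).1)
        (fun Y hY => by
          have := (hb _ h0 (fun _ => True) Y).2 hY
          calc cnt (fun _ => True) M (castZ Z) Y ≤ C * Y * (‖castZ Z‖ ^ (2 * N))⁻¹ := this
            _ = _ := by ring) hP hf0B
      have h4 : wt t (castZ Z) * cnt (fun A => ∃ p : ℕ, p.Prime ∧ P < p ∧ DivA p A) M (castZ Z)
          (f0⁻¹ * B) ≤ C * (f0⁻¹ * B) * (P:ℝ)⁻¹ * (‖castZ Z‖ ^ (2 * N))⁻¹ := by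
        calc wt t (castZ Z) * cnt (fun A => ∃ p : ℕ, p.Prime ∧ P < p ∧ DivA p A) M (castZ Z)
              (f0⁻¹ * B) ≤ 1 * (C * (‖castZ Z‖ ^ (2 * N))⁻¹ * (f0⁻¹ * B) * (P:ℝ)⁻¹) :=
              mul_le_mul (wt_le_one _ _) h3 (cnt_nonneg _ _ _ _) zero_le_one
          _ = _ := by ring
      have h5 := mul_le_mul_of_nonneg_left h2 (wt_nonneg t (castZ Z))
      simp only [hg]
      rw [mul_add, mul_add] at h5
      linarith
  -- pointwise bound for the other frames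
  have h2 : ∀ Z ∈ (S.filter (fun Z => res q Z ∈ JP N q P)).filter (fun Z => ¬ SatZ Z), g Z ≤
      (if (IsFrame Z ∧ ∃ p : ℕ, p.Prime ∧ P < p ∧ NonSatAt p Z) then
        C * (f0⁻¹ * B) * (wt t (castZ Z) * (‖castZ Z‖ ^ (2 * N))⁻¹) else 0) := by
    intro Z hZ
    obtain ⟨hZ1, hns⟩ := Finset.mem_filter.1 hZ
    obtain ⟨hZ2, hJ⟩ := Finset.mem_filter.1 hZ1
    by_cases h0 : wt t (castZ Z) = 0
    · simp only [hg, h0, zero_mul, mul_zero, ite_self, le_refl]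
    · have hfr : IsFrame Z := by
        obtain ⟨i, j, hij⟩ := bal_pos_frame (wt_pos h0)
        refine ⟨i, j, ?_⟩
        intro hz
        apply hij
        have : minor (castZ Z) i j = ((minor Z i j : ℤ) : ℝ) := by
          simp only [minor, castZ]; push_cast; ring
        rw [this, hz, Int.cast_zero]
      have hcond : IsFrame Z ∧ ∃ p : ℕ, p.Prime ∧ P < p ∧ NonSatAt p Z := by
        refine ⟨hfr, ?_⟩
        rw [satZ_iff] at hns
        push Not at hns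
        obtain ⟨p, hp, hnp⟩ := hns
        refine ⟨p, hp, ?_, hnp⟩
        by_contra hcon
        push Not at hcon
        rw [JP, Finset.mem_filter] at hJ
        exact hJ.2 p hp hcon (hnp.congr (hPq p hp hcon) (cong_res q Z))
      rw [if_pos hcond]
      obtain ⟨e1, e2⟩ := sum_cnt (M := M) (Z := castZ Z) (q := q) (IP m d q P)
        (Finset.filter_subset _ _)
        (fun A0 => (1 + ε)⁻¹ * cc (res q Z) A0 * B) (Ym := f0⁻¹ * B) (fun A0 _ => hYle _ A0)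
        ((hb _ h0 _ _).1)
      simp only [hg]
      rw [e1]
      have h3 : (({A : CoZ m d | A ≠ 0 ∧ res q A ∈ IP m d q P ∧
          M (castZ Z) (castA A) ≤ (1 + ε)⁻¹ * cc (res q Z) (res q A) * B}.ncard : ℕ) : ℝ) ≤
          cnt (fun _ => True) M (castZ Z) (f0⁻¹ * B) := by
        rw [cnt]
        have : {A : CoZ m d | A ≠ 0 ∧ res q A ∈ IP m d q P ∧
          M (castZ Z) (castA A) ≤ (1 + ε)⁻¹ * cc (res q Z) (res q A) * B} ⊆
            cset (fun _ => True) M (castZ Z) (f0⁻¹ * B) := by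
          rintro A ⟨a1, _, a3⟩
          exact ⟨a1, trivial, a3.trans (hYle _ _)⟩
        exact_mod_cast Set.ncard_le_ncard this (hb _ h0 _ _).1
      have h4 := (hb _ h0 (fun _ => True) (f0⁻¹ * B)).2 hf0B
      calc wt t (castZ Z) * _ ≤ wt t (castZ Z) * (C * (f0⁻¹ * B) * (‖castZ Z‖ ^ (2 * N))⁻¹) :=
            mul_le_mul_of_nonneg_left (h3.trans h4) (wt_nonneg _ _)
        _ = _ := by ring
  -- splitting
  have hgn : ∀ Z, 0 ≤ g Z := fun Z =>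
    mul_nonneg (wt_nonneg _ _) (Finset.sum_nonneg fun _ _ => cnt_nonneg _ _ _ _)
  have h3 : ∑ Z ∈ S.filter (fun Z => res q Z ∈ JP N q P), g Z ≤
      ∑ Z ∈ S.filter SatZ, g Z +
      ∑ Z ∈ (S.filter (fun Z => res q Z ∈ JP N q P)).filter (fun Z => ¬ SatZ Z), g Z := by
    rw [← Finset.sum_filter_add_sum_filter_not (S.filter (fun Z => res q Z ∈ JP N q P)) SatZ]
    refine add_le_add_left ?_ _
    refine Finset.sum_le_sum_of_subset_of_nonneg ?_ (fun Z _ _ => hgn Z)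
    intro Z hZ
    obtain ⟨a1, a2⟩ := Finset.mem_filter.1 hZ
    exact Finset.mem_filter.2 ⟨(Finset.mem_filter.1 a1).1, a2⟩
  have h4 : ∑ Z ∈ (S.filter (fun Z => res q Z ∈ JP N q P)).filter (fun Z => ¬ SatZ Z), g Z ≤
      C * (f0⁻¹ * B) * ∑ Z ∈ S.filter (fun Z => IsFrame Z ∧ ∃ p : ℕ, p.Prime ∧ P < p ∧ NonSatAt p Z),
        wt t (castZ Z) * (‖castZ Z‖ ^ (2 * N))⁻¹ := by
    refine (Finset.sum_le_sum h2).trans ?_
    rw [Finset.mul_sum]
    rw [Finset.sum_filter (fun Z => IsFrame Z ∧ ∃ p : ℕ, p.Prime ∧ P < p ∧ NonSatAt p Z)]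
    refine Finset.sum_le_sum_of_subset_of_nonneg
      ((Finset.filter_subset _ _).trans (Finset.filter_subset _ _)) ?_
    intro Z _ _
    split_ifs
    · have := wt_nonneg t (castZ Z)
      positivity
    · exact le_refl _
  have h5 : ∑ Z ∈ S.filter SatZ, g Z ≤
      ∑ Z ∈ S.filter SatZ, wt t (castZ Z) * ((hset M f Z B).ncard : ℝ) +
      ∑ Z ∈ S, wt t (castZ Z) * cnt (fun A => ¬ NoRootZ A) M (castZ Z) (f0⁻¹ * B) +
      C * (f0⁻¹ * B) * (P:ℝ)⁻¹ * ∑ Z ∈ S, (‖castZ Z‖ ^ (2 * N))⁻¹ := by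
    refine (Finset.sum_le_sum h1).trans ?_
    rw [Finset.sum_add_distrib, Finset.sum_add_distrib, Finset.mul_sum]
    refine add_le_add (add_le_add (le_refl _) ?_) ?_
    · refine Finset.sum_le_sum_of_subset_of_nonneg (Finset.filter_subset _ _) ?_
      intro Z _ _
      exact mul_nonneg (wt_nonneg _ _) (cnt_nonneg _ _ _ _)
    · refine Finset.sum_le_sum_of_subset_of_nonneg (Finset.filter_subset _ _) ?_
      intro Z _ _
      positivity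
  linarith

end Pool.Agent.Lib.MP_1acd66_nt
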