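import Pool.Agent.Lib.MP_1acd66_nt.Tight

/-! Comparison of the number of points with the weighted count, continued. -/

namespace Pool.Agent.Lib.MP_1acd66_nt

open Filter Metric Set
open scoped Classical

variable {N m d : ℕ}

/-- the pairs of positive weight and bounded height -/
def qSet (h : AdelicNorm N m d) (t B : ℝ) : Set (IPair N m d) :=
  {x | x ∈ hQ h B ∧ wt t (castZ x.1.1) ≠ 0}

theorem hset_subset {h : AdelicNorm N m d} {f0 f1 : ℝ} (hf : Tame h.ff f0 f1) {Z : FrZ N}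
    (hZ : SatZ Z) (B : ℝ) :
    hset h.inf h.ff Z B ⊆ cset (fun _ => True) h.inf (castZ Z) (f0⁻¹ * B) := by
  rintro A ⟨hP, _, hMf⟩
  refine ⟨hP.ne_zero, trivial, ?_⟩
  have hfl := hf.lo Z A hZ hP
  have hMpos : 0 < h.inf (castZ Z) (castA A) :=
    h.isNorm_inf.pos _ _ (isFrame_castZ hZ.isFrame) (castA_ne_zero hP.ne_zero)
  rw [← div_eq_inv_mul, le_div_iff₀ hf.pos]
  have h5 : h.inf (castZ Z) (castA A) * f0 ≤ h.inf (castZ Z) (castA A) * h.ff Z A :=
    mul_le_mul_of_nonneg_left hfl hMpos.le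
  linarith

theorem exists_box {h : AdelicNorm N m d} {f0 f1 : ℝ} (hf : Tame h.ff f0 f1) (hN : 0 < N)
    {t c : ℝ} (hc : 0 < c)
    (hwc : ∀ Z : Fr N, wt t Z ≠ 0 → ∀ (p : CoZ m d → Prop) (Y : ℝ),
      Y < c * ‖Z‖ ^ (2 * N) → cset p h.inf Z Y = ∅) (B : ℝ) :
    ∃ S : Finset (FrZ N), (∀ Z, Z ≠ 0 → c * ‖castZ Z‖ ^ (2 * N) ≤ f0⁻¹ * B → Z ∈ S) ∧
      ∀ x ∈ qSet h t B, x.1.1 ∈ S := by
  have hf0 : 0 < f0⁻¹ := inv_pos.2 hf.pos
  refine ⟨SB N (f0⁻¹ / c) B, ?_, ?_⟩
  · intro Z hZ hle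
    exact mem_SB hN hc hf0 (by rw [div_mul_cancel₀ _ hc.ne']) hZ hle
  · rintro x ⟨hx, hw0⟩
    have hsat := x.2.1
    have hZ0 : x.1.1 ≠ 0 := by
      intro h0
      obtain ⟨i, j, hij⟩ := hsat.isFrame
      apply hij
      simp [minor, h0]
    refine mem_SB hN hc hf0 (by rw [div_mul_cancel₀ _ hc.ne']) hZ0 ?_
    by_contra hcon
    push Not at hcon
    have hemp := hwc (castZ x.1.1) hw0 (fun _ => True) (f0⁻¹ * B) hcon
    have hmem := hset_subset hf hsat B hx
    rw [hemp] at hmem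
    exact hmem

theorem finite_qSet {h : AdelicNorm N m d} {f0 f1 : ℝ} (hf : Tame h.ff f0 f1) (hN : 0 < N)
    (hw : m * (d * (d + 1) / 2) ≤ N) (hm : 0 < m) (t B : ℝ) : (qSet h t B).Finite := by
  obtain ⟨c, C, hc, hC, hb⟩ := wt_cset h.isNorm_inf hw hm t
  obtain ⟨S, _, hS⟩ := exists_box hf hN hc (fun Z hZ p Y hY => (hb Z hZ p Y).2.2 hY) B
  have hT : Set.Finite (⋃ Z ∈ S, (fun A : CoZ m d => (Z, A)) ''
      {A | A ∈ hset h.inf h.ff Z B ∧ SatZ Z ∧ wt t (castZ Z) ≠ 0}) := by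
    refine S.finite_toSet.biUnion ?_
    intro Z _
    refine Set.Finite.image _ ?_
    by_cases hcase : SatZ Z ∧ wt t (castZ Z) ≠ 0
    · refine ((hb _ hcase.2 (fun _ => True) (f0⁻¹ * B)).1).subset ?_
      rintro A ⟨hA, _⟩
      exact hset_subset hf hcase.1 B hA
    · refine Set.Finite.subset Set.finite_empty ?_
      rintro A ⟨_, hA⟩
      exact hcase hA
  refine Set.Finite.subset (hT.preimage (f := fun x : IPair N m d => x.1)
    (Subtype.val_injective.injOn)) ?_
  intro x hx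
  simp only [mem_preimage, mem_iUnion]
  exact ⟨x.1.1, hS x hx, x.1.2, ⟨hx.1, x.2.1, hx.2⟩, rfl⟩

theorem XH_eq_sum {h : AdelicNorm N m d} {f0 f1 : ℝ} (hf : Tame h.ff f0 f1) (hN : 0 < N)
    (hw : m * (d * (d + 1) / 2) ≤ N) (hm : 0 < m) (t B : ℝ) (hfin : (qSet h t B).Finite) :
    XH h.inf h.ff t B = ∑ x ∈ hfin.toFinset, wt t (castZ x.1.1) := by
  obtain ⟨c, C, hc, hC, hb⟩ := wt_cset h.isNorm_inf hw hm t
  obtain ⟨S, hS1, hS⟩ := exists_box hf hN hc (fun Z hZ p Y hY => (hb Z hZ p Y).2.2 hY) B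
  rw [XH_eq h.isNorm_inf hf (fun Z hZ p Y hY => (hb Z hZ p Y).2.2 hY) S hS1]
  rw [← Finset.sum_fiberwise_of_maps_to (s := hfin.toFinset) (t := S.filter SatZ)
    (g := fun x : IPair N m d => x.1.1) (by
      intro x hx
      exact Finset.mem_filter.2 ⟨hS x (hfin.mem_toFinset.1 hx), x.2.1⟩)]
  refine Finset.sum_congr rfl ?_
  intro Z hZ
  have hsat := (Finset.mem_filter.1 hZ).2
  have e : ∑ x ∈ hfin.toFinset with x.1.1 = Z, wt t (castZ x.1.1) =
      ((hfin.toFinset.filter (fun x => x.1.1 = Z)).card : ℝ) * wt t (castZ Z) := by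
    rw [← nsmul_eq_mul, ← Finset.sum_const]
    refine Finset.sum_congr rfl fun x hx => ?_
    rw [(Finset.mem_filter.1 hx).2]
  rw [e]
  by_cases h0 : wt t (castZ Z) = 0
  · rw [h0, zero_mul, mul_zero]
  · have hfinA : (hset h.inf h.ff Z B).Finite :=
      ((hb _ h0 (fun _ => True) (f0⁻¹ * B)).1).subset (hset_subset hf hsat B)
    have hcard : (hfin.toFinset.filter (fun x => x.1.1 = Z)).card = (hset h.inf h.ff Z B).ncard := by
      rw [Set.ncard_eq_toFinset_card _ hfinA]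
      refine Finset.card_bij (fun x _ => x.1.2) ?_ ?_ ?_
      · intro x hx
        obtain ⟨a1, a2⟩ := Finset.mem_filter.1 hx
        have a3 := (hfin.mem_toFinset.1 a1).1
        rw [Set.Finite.mem_toFinset, ← a2]
        exact a3
      · intro x hx y hy hxy
        have a2 := (Finset.mem_filter.1 hx).2
        have b2 := (Finset.mem_filter.1 hy).2
        exact Subtype.ext (Prod.ext (a2.trans b2.symm) hxy)
      · intro A hA
        rw [Set.Finite.mem_toFinset] at hA
        refine ⟨⟨(Z, A), hsat, hA.1⟩, ?_, rfl⟩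
        rw [Finset.mem_filter, Set.Finite.mem_toFinset]
        exact ⟨⟨hA, h0⟩, rfl⟩
    rw [hcard, mul_comm]

/-- the reduced pairs that are not fully balanced -/
def badSet (h : AdelicNorm N m d) (t B : ℝ) : Set (IPair N m d) :=
  {x | x ∈ hQ h B ∧ IsReduced x.1.1 ∧ bal t (castZ x.1.1) < 1}

theorem norm_castZ_le_len {Z : FrZ N} (h : IsReduced Z) : ‖castZ Z‖ ≤ len (Z 1) := by
  have h0 : len (Z 0) ≤ len (Z 1) := by
    rw [len, len]
    apply Real.sqrt_le_sqrt
    exact_mod_cast h.1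
  rw [pi_norm_le_iff_of_nonneg (len_nonneg _)]
  intro i
  rw [pi_norm_le_iff_of_nonneg (len_nonneg _)]
  intro j
  obtain rfl | rfl : i = 0 ∨ i = 1 := by omega
  · exact (abs_le_len (Z 0) j).trans h0
  · exact abs_le_len (Z 1) j

theorem len_of_bal {t : ℝ} (ht : 0 < t) {Z : FrZ N} (hZ : IsFrame Z) (h : IsReduced Z)
    (hb : bal t (castZ Z) < 1) : t / 4 * len (Z 0) ≤ len (Z 1) := by
  have hZ0 : castZ Z ≠ 0 := by
    refine castZ_ne_zero ?_
    rintro rfl
    obtain ⟨i, j, hij⟩ := hZ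
    exact hij (by simp [minor])
  have h1 : t * det2 Z < 2 * ‖castZ Z‖ ^ 2 := by
    by_contra hcon
    push Not at hcon
    rw [← sqrt_gram_castZ] at hcon
    rw [bal_eq_one hZ0 hcon] at hb
    exact lt_irrefl _ hb
  have h2 : ‖castZ Z‖ ^ 2 ≤ len (Z 1) ^ 2 :=
    pow_le_pow_left₀ (norm_nonneg _) (norm_castZ_le_len h) 2
  have h3 := h.len_mul_le
  have h4 : 1 ≤ len (Z 1) := one_le_len (hZ.row_ne_zero 1)
  have h5 : t * (len (Z 0) * len (Z 1)) ≤ t * (2 * det2 Z) := mul_le_mul_of_nonneg_left h3 ht.le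
  have h6 : (t / 4 * len (Z 0)) * len (Z 1) ≤ len (Z 1) * len (Z 1) := by nlinarith
  exact le_of_mul_le_mul_right h6 (by linarith)

theorem last_ne_zero {A : CoZ m d} (h : NoRootZ A) : ∃ i, A i (Fin.last d) ≠ 0 := by
  obtain ⟨i, hi⟩ := h 0 1 (Or.inr one_ne_zero)
  refine ⟨i, ?_⟩
  intro h0
  apply hi
  rw [formVal]
  refine Finset.sum_eq_zero fun j _ => ?_
  by_cases hj : j = Fin.last d
  · rw [hj, h0, zero_mul, zero_mul]
  · have : (j:ℕ) < d := by
      rcases Nat.lt_or_ge (j:ℕ) d with h1 | h1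
      · exact h1
      · exfalso
        apply hj
        apply Fin.ext
        have := j.2
        simp only [Fin.val_last]
        omega
    rw [zero_pow (by omega), mul_zero, zero_mul]

/-- the number of reduced pairs that are not fully balanced -/
theorem bad_bound (h : AdelicNorm N m d) {f0 f1 : ℝ} (hf : Tame h.ff f0 f1) (hN : 0 < N)
    (hw : m * (d * (d + 1) / 2) ≤ N) (hmd : 1 ≤ m * d) :
    ∃ C : ℝ, 0 < C ∧ ∀ t : ℝ, 4 ≤ t → ∀ B : ℝ, 0 < B → (badSet h t B).Finite ∧
      ((badSet h t B).ncard : ℝ) ≤ C / t * B * (1 + Real.log (max 1 (C * B))) := by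
  obtain ⟨C1, hC1, hup⟩ := h.isNorm_inf.upper hmd hw
  obtain ⟨C2, hC2, hred⟩ := reduced_sum (N := N) hN
  have hf0 : 0 < f0⁻¹ := inv_pos.2 hf.pos
  set C : ℝ := max (C1 * f0⁻¹) (4 * C1 * f0⁻¹ * C2) with hC
  have hCp : 0 < C := lt_max_of_lt_left (by positivity)
  refine ⟨C, hCp, ?_⟩
  intro t ht B hB
  have ht0 : 0 < t := by linarith
  set Y := f0⁻¹ * B with hY
  have hYp : 0 < Y := by positivity
  set T := max 1 (C * B) with hT
  have hT1 : 1 ≤ T := le_max_left _ _
  have hCY : C1 * Y ≤ T := by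
    refine le_trans ?_ (le_max_right _ _)
    rw [hY, ← mul_assoc]
    exact mul_le_mul_of_nonneg_right (le_max_left _ _) hB.le
  have key : ∀ F : Finset (IPair N m d), (∀ x ∈ F, x ∈ badSet h t B) →
      (F.card : ℝ) ≤ C / t * B * (1 + Real.log T) := by
    intro F hF
    have hlogT : 0 ≤ Real.log T := Real.log_nonneg hT1
    have hfib : ∀ Z ∈ F.image (fun x => x.1.1),
        ((F.filter (fun x => x.1.1 = Z)).card : ℝ) ≤ C1 * Y * (det2 Z ^ N)⁻¹ ∧
        (IsFrame Z ∧ IsReduced Z ∧ det2 Z ≤ T ∧ t / 4 * len (Z 0) ≤ len (Z 1)) := by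
      intro Z hZ
      obtain ⟨x, hx, rfl⟩ := Finset.mem_image.1 hZ
      obtain ⟨hxQ, hxr, hxb⟩ := hF x hx
      set Z := x.1.1 with hZdef
      have hfr : IsFrame Z := x.2.1.isFrame
      have hinj : Set.InjOn (fun x : IPair N m d => x.1.2) (F.filter (fun x => x.1.1 = Z)) := by
        intro a ha b hb hab
        exact Subtype.ext (Prod.ext ((Finset.mem_filter.1 ha).2.trans
          (Finset.mem_filter.1 hb).2.symm) hab)
      have h1 := hup Z hfr hxr Y hYp ((F.filter (fun x => x.1.1 = Z)).image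
        (fun x : IPair N m d => x.1.2)) (by
          intro A hA
          obtain ⟨y, hy, rfl⟩ := Finset.mem_image.1 hA
          obtain ⟨hy1, hy2⟩ := Finset.mem_filter.1 hy
          have hyQ : y ∈ hQ h B := (hF y hy1).1
          refine ⟨last_ne_zero hyQ.2.1, ?_⟩
          rw [← hy2]
          exact (hset_subset hf y.2.1 B hyQ).2.2)
      rw [Finset.card_image_of_injOn hinj] at h1
      refine ⟨h1.1, hfr, hxr, ?_, len_of_bal ht0 hfr hxr hxb⟩
      have h2 := h1.2 ⟨x.1.2, Finset.mem_image.2 ⟨x, Finset.mem_filter.2 ⟨hx, rfl⟩, rfl⟩⟩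
      have h3 : det2 Z ≤ det2 Z ^ N := le_self_pow₀ (one_le_det2 hfr) (by omega)
      linarith
    have h1 : (F.card : ℝ) = ∑ Z ∈ F.image (fun x => x.1.1),
        ((F.filter (fun x => x.1.1 = Z)).card : ℝ) := by
      rw [Finset.card_eq_sum_card_fiberwise (f := fun x : IPair N m d => x.1.1)
        (t := F.image (fun x => x.1.1)) (fun x hx => Finset.mem_image_of_mem _ hx)]
      push_cast
      rfl
    rw [h1]
    refine (Finset.sum_le_sum fun Z hZ => (hfib Z hZ).1).trans ?_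
    rw [← Finset.mul_sum]
    have h2 := hred T (t / 4) hT1 (by linarith) (F.image (fun x => x.1.1))
      (fun Z hZ => (hfib Z hZ).2)
    calc C1 * Y * ∑ Z ∈ F.image (fun x => x.1.1), (det2 Z ^ N)⁻¹
        ≤ C1 * Y * (C2 / (t / 4) * (1 + Real.log T)) := mul_le_mul_of_nonneg_left h2 (by positivity)
      _ = (4 * C1 * f0⁻¹ * C2) / t * B * (1 + Real.log T) := by
          rw [hY]; field_simp
      _ ≤ C / t * B * (1 + Real.log T) := by
          apply mul_le_mul_of_nonneg_right _ (by linarith)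
          apply mul_le_mul_of_nonneg_right _ hB.le
          exact div_le_div_of_nonneg_right (le_max_right _ _) ht0.le
  have hfin : (badSet h t B).Finite := by
    by_contra hinf
    have hinf : (badSet h t B).Infinite := hinf
    obtain ⟨n, hn⟩ := exists_nat_gt (C / t * B * (1 + Real.log T))
    obtain ⟨s, hs, hs2⟩ := hinf.exists_subset_card_eq n
    have := key s (fun x hx => hs hx)
    rw [hs2] at this
    linarith
  refine ⟨hfin, ?_⟩
  rw [Set.ncard_eq_toFinset_card _ hfin]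
  exact key _ (fun x hx => hfin.mem_toFinset.1 hx)

/-- comparison of the counts -/
theorem count_compare (h : AdelicNorm N m d) {f0 f1 : ℝ} (hf : Tame h.ff f0 f1) (hN : 0 < N)
    (hw : m * (d * (d + 1) / 2) ≤ N) (hm : 0 < m) {t B : ℝ} (ht : 0 < t)
    (hbad : (badSet h t B).Finite) :
    (countSet h B).Finite ∧ XH h.inf h.ff t B ≤ 2 * ((countSet h B).ncard : ℝ) ∧
      2 * ((countSet h B).ncard : ℝ) ≤ XH h.inf h.ff t B + 2 * ((badSet h t B).ncard : ℝ) := by
  have hfin := finite_qSet hf hN hw hm t B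
  have hXH := XH_eq_sum hf hN hw hm t B hfin
  set π : IPair N m d → Pt N m d := fun x => pt x.rep with hπ
  set F := hfin.toFinset with hF
  have hFmem : ∀ x, x ∈ F ↔ x ∈ qSet h t B := fun x => hfin.mem_toFinset
  -- good points
  set G : Finset (Pt N m d) := (F.filter (fun x => bal t (castZ x.1.1) = 1)).image π with hG
  set Bd : Finset (Pt N m d) := hbad.toFinset.image π with hBd
  have hcov : countSet h B ⊆ ((G ∪ Bd : Finset (Pt N m d)) : Set (Pt N m d)) := by
    intro P hP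
    rw [countSet_eq] at hP
    obtain ⟨x, hx, rfl⟩ := hP
    obtain ⟨g, hg, hred⟩ := exists_reduced x.1.1
    set y := x.act g hg true with hy
    have e : pt y.rep = pt x.rep := pt_act x g hg true
    have hyQ : y ∈ hQ h B := (hQ_congr e).2 hx
    rw [Finset.mem_coe, Finset.mem_union]
    by_cases hb : bal t (castZ y.1.1) = 1
    · left
      rw [hG, Finset.mem_image]
      refine ⟨y, Finset.mem_filter.2 ⟨(hFmem y).2 ⟨hyQ, ?_⟩, hb⟩, e⟩
      rw [wt, hb]
      exact (div_pos one_pos (lt_of_lt_of_le one_pos (le_max_left _ _))).ne'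
    · right
      rw [hBd, Finset.mem_image]
      refine ⟨y, hbad.mem_toFinset.2 ⟨hyQ, hred, lt_of_le_of_ne (bal_le_one _ _) hb⟩, e⟩
  have hcfin : (countSet h B).Finite := (Finset.finite_toSet _).subset hcov
  refine ⟨hcfin, ?_, ?_⟩
  · -- upper bound for the weighted count
    rw [hXH]
    rw [← Finset.sum_fiberwise_of_maps_to (s := F) (t := F.image π) (g := π)
      (fun x hx => Finset.mem_image_of_mem _ hx)]
    have h1 : ∀ P ∈ F.image π, ∑ x ∈ F with π x = P, wt t (castZ x.1.1) ≤ 2 :=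
      fun P _ => fib_upper ht F P
    refine (Finset.sum_le_sum h1).trans ?_
    rw [Finset.sum_const, nsmul_eq_mul, mul_comm]
    apply mul_le_mul_of_nonneg_left _ zero_le_two
    have h2 : ((F.image π : Finset (Pt N m d)) : Set (Pt N m d)) ⊆ countSet h B := by
      intro P hP
      obtain ⟨x, hx, rfl⟩ := Finset.mem_image.1 (Finset.mem_coe.1 hP)
      rw [countSet_eq]
      exact ⟨x, ((hFmem x).1 hx).1, rfl⟩
    have h3 := Set.ncard_le_ncard h2 hcfin
    rw [Set.ncard_coe_finset] at h3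
    exact_mod_cast h3
  · -- lower bound for the weighted count
    have h1 : (2:ℝ) * G.card ≤ XH h.inf h.ff t B := by
      rw [hXH]
      have h2 : ∑ P ∈ G, (2:ℝ) ≤ ∑ P ∈ G, ∑ x ∈ F with π x = P, wt t (castZ x.1.1) := by
        refine Finset.sum_le_sum ?_
        intro P hP
        obtain ⟨x0, hx0, rfl⟩ := Finset.mem_image.1 hP
        obtain ⟨a1, a2⟩ := Finset.mem_filter.1 hx0
        refine fib_lower ht F x0 a2 ?_
        intro x hx hwx
        exact (hFmem x).2 ⟨(hQ_congr hx).2 ((hFmem x0).1 a1).1, hwx⟩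
      rw [Finset.sum_const, nsmul_eq_mul] at h2
      have h3 : ∑ P ∈ G, ∑ x ∈ F with π x = P, wt t (castZ x.1.1) ≤
          ∑ P ∈ F.image π, ∑ x ∈ F with π x = P, wt t (castZ x.1.1) := by
        refine Finset.sum_le_sum_of_subset_of_nonneg ?_ ?_
        · exact Finset.image_subset_image (Finset.filter_subset _ _)
        · intro P _ _
          exact Finset.sum_nonneg fun _ _ => wt_nonneg _ _
      rw [Finset.sum_fiberwise_of_maps_to (s := F) (t := F.image π) (g := π)
        (fun x hx => Finset.mem_image_of_mem _ hx)] at h3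
      linarith
    have h4 := Set.ncard_le_ncard hcov (Finset.finite_toSet _)
    rw [Set.ncard_coe_finset] at h4
    have h5 := h4.trans (Finset.card_union_le G Bd)
    have h6 : Bd.card ≤ (badSet h t B).ncard := by
      rw [Set.ncard_eq_toFinset_card _ hbad]
      exact Finset.card_image_le
    have h7 : ((countSet h B).ncard : ℝ) ≤ G.card + (badSet h t B).ncard := by
      exact_mod_cast h5.trans (Nat.add_le_add_left h6 _)
    linarith

end Pool.Agent.Lib.MP_1acd66_nt
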