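import Mathlib

/-!
Coordinates on the projective bundles `P((Sym^d S)^m)` over the Grassmannian `G(2,N)`, where `S`
is the tautological bundle of rank two, and the adelic norms on their anticanonical bundles.

A point is given by a frame `Z` (two linearly independent vectors `Z 0`, `Z 1` of `K ^ N`, a basis
of a plane `S`) together with an `m`-tuple `A` of binary forms of degree `d`, not all zero: the
`i`-th entry of the tuple in `Sym^d S` is `∑ j, A i j * (Z 0)^(d-j) * (Z 1)^j`.
-/

namespace Pool.Agent.Lib.MP_1acd66_nt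

/-- The value at `(u, v)` of the `i`-th binary form `∑ j, A i j * u ^ (d - j) * v ^ j`. -/
def formVal {K : Type*} [CommRing K] {m d : ℕ} (A : Fin m → Fin (d + 1) → K) (i : Fin m)
    (u v : K) : K :=
  ∑ j : Fin (d + 1), A i j * u ^ (d - (j : ℕ)) * v ^ (j : ℕ)

/-- The `2 × 2` minors of a pair of vectors. -/
def minor {K : Type*} [CommRing K] {N : ℕ} (Z : Fin 2 → Fin N → K) (i j : Fin N) : K :=
  Z 0 i * Z 1 j - Z 0 j * Z 1 i

/-- A frame: a pair of linearly independent vectors (some minor does not vanish). -/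
def IsFrame {K : Type*} [CommRing K] {N : ℕ} (Z : Fin 2 → Fin N → K) : Prop :=
  ∃ i j, minor Z i j ≠ 0

/-- Change of frame by a `2 × 2` matrix. -/
def rowOp {K : Type*} [CommRing K] {N : ℕ} (g : Matrix (Fin 2) (Fin 2) K) (Z : Fin 2 → Fin N → K) :
    Fin 2 → Fin N → K :=
  fun i j => g i 0 * Z 0 j + g i 1 * Z 1 j

/-- `A'` is the tuple of forms `A` composed with the substitution `g`. Then the pairs
`(rowOp g Z, A)` and `(Z, A')` describe the same plane and the same tuple in `Sym^d`. -/
def IsPullback {K : Type*} [CommRing K] {m d : ℕ} (g : Matrix (Fin 2) (Fin 2) K)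
    (A A' : Fin m → Fin (d + 1) → K) : Prop :=
  ∀ i u v, formVal A' i u v = formVal A i (g 0 0 * u + g 0 1 * v) (g 1 0 * u + g 1 1 * v)

/-- The local norms on the anticanonical bundle, as functions on pairs `(Z, A)`: continuous,
positive, homogeneous of degree `rank = m (d + 1)` in `A`, and of weight
`N - m d (d + 1) / 2` under change of frame. -/
structure IsLocalNorm (K : Type*) [NormedField K] (N m d : ℕ)
    (M : (Fin 2 → Fin N → K) → (Fin m → Fin (d + 1) → K) → ℝ) : Prop where
  cont : ContinuousOn (fun x : (Fin 2 → Fin N → K) × (Fin m → Fin (d + 1) → K) => M x.1 x.2)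
    {x | IsFrame x.1 ∧ x.2 ≠ 0}
  pos : ∀ Z A, IsFrame Z → A ≠ 0 → 0 < M Z A
  scale : ∀ Z A, IsFrame Z → A ≠ 0 → ∀ s : K, s ≠ 0 → M Z (s • A) = ‖s‖ ^ (m * (d + 1)) * M Z A
  frame : ∀ Z A A', IsFrame Z → A ≠ 0 → ∀ g : Matrix (Fin 2) (Fin 2) K, g.det ≠ 0 →
    IsPullback g A A' → M (rowOp g Z) A = ‖g.det‖ ^ (N - m * (d * (d + 1) / 2)) * M Z A'

end Pool.Agent.Lib.MP_1acd66_nt
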