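import Pool.Agent.Lib.MP_1acd66_nt.Weight

/-! Positivity of the constant for a fixed balance parameter. -/

namespace Pool.Agent.Lib.MP_1acd66_nt

open MeasureTheory Metric Set Filter Topology

variable {N m d : ℕ}

theorem IsLocalNorm.bodyVol_pos {M : Fr N → Co m d → ℝ} (hM : IsLocalNorm ℝ N m d M) (hm : 0 < m)
    {Z : Fr N} (hZ : IsFrame Z) : 0 < bodyVol M Z := by
  obtain ⟨c, C, hc, hC, hb⟩ := hM.compact_bound (K := {Z}) isCompact_singleton
    (by rintro Z' rfl; exact hZ)
  set D := m * (d + 1) with hD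
  have hD0 : 0 < D := Nat.mul_pos hm (Nat.succ_pos d)
  set r : ℝ := min 1 (1 / C) with hr
  have hr0 : 0 < r := lt_min one_pos (by positivity)
  have hr1 : r ≤ 1 := min_le_left _ _
  have hrC : C * r ≤ 1 := by
    calc C * r ≤ C * (1 / C) := mul_le_mul_of_nonneg_left (min_le_right _ _) hC.le
      _ = 1 := by field_simp
  set y : Co m d := fun _ _ => r / 2 with hy
  have hyn : ‖y‖ = r / 2 := by
    have : Nonempty (Fin m) := ⟨⟨0, hm⟩⟩
    rw [hy, pi_norm_const, pi_norm_const, Real.norm_eq_abs, abs_of_pos (by positivity)]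
  have hsub : ball y (r / 4) ⊆ sub (M Z) 1 := by
    intro x hx
    rw [mem_ball, dist_eq_norm] at hx
    have h1 : ‖y‖ ≤ ‖x‖ + ‖x - y‖ := by
      have : y = x - (x - y) := by abel
      calc ‖y‖ = ‖x - (x - y)‖ := by rw [← this]
        _ ≤ _ := norm_sub_le _ _
    have h2 : ‖x‖ ≤ ‖y‖ + ‖x - y‖ := by
      have : x = y + (x - y) := by abel
      calc ‖x‖ = ‖y + (x - y)‖ := by rw [← this]
        _ ≤ _ := norm_add_le _ _
    have hxpos : 0 < ‖x‖ := by linarith
    have hxr : ‖x‖ ≤ r := by linarith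
    have hx0 : x ≠ 0 := norm_pos_iff.1 hxpos
    refine ⟨hx0, (hb Z rfl x hx0).2.trans ?_⟩
    have h3 : ‖x‖ ^ D ≤ r := by
      calc ‖x‖ ^ D ≤ r ^ D := pow_le_pow_left₀ hxpos.le hxr D
        _ ≤ r ^ 1 := pow_le_pow_of_le_one hr0.le hr1 hD0
        _ = r := pow_one r
    calc C * ‖x‖ ^ D ≤ C * r := mul_le_mul_of_nonneg_left h3 hC.le
      _ ≤ 1 := hrC
  have h1 : (volume : Measure (Co m d)).real (ball y (r / 4)) ≤ bodyVol M Z :=
    measureReal_mono hsub (measure_sub_lt_top _ hD0 hc (fun A hA => (hb Z rfl A hA).1) _).ne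
  have h2 : 0 < (volume : Measure (Co m d)).real (ball y (r / 4)) :=
    ENNReal.toReal_pos (measure_ball_pos _ _ (by positivity)).ne' measure_ball_lt_top.ne
  linarith

theorem kap_pos {M : Fr N → Co m d → ℝ} (hM : IsLocalNorm ℝ N m d M)
    (hw : m * (d * (d + 1) / 2) ≤ N) (hm : 0 < m) (hN : 2 ≤ N) {t : ℝ} (ht : 2 ≤ t) :
    0 < kap volume (dens t M) := by
  have hΦ := homNeg_dens hM hw hm t
  set a : Fin N := ⟨0, by omega⟩ with ha
  set b : Fin N := ⟨1, by omega⟩ with hb
  have hab : a ≠ b := by simp [ha, hb]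
  set Z : Fr N := fun i j => if (i = 0 ∧ j = a) ∨ (i = 1 ∧ j = b) then 3 / 2 else 0 with hZ
  have hZ0a : Z 0 a = 3 / 2 := by simp [hZ]
  have hZ1b : Z 1 b = 3 / 2 := by simp [hZ]
  have hZ0 : ∀ j, j ≠ a → Z 0 j = 0 := by
    intro j hj; simp [hZ, hj]
  have hZ1 : ∀ j, j ≠ b → Z 1 j = 0 := by
    intro j hj; simp [hZ, hj]
  have hnorm : ‖Z‖ = 3 / 2 := by
    refine le_antisymm ?_ ?_
    · rw [pi_norm_le_iff_of_nonneg (by norm_num)]
      intro i
      rw [pi_norm_le_iff_of_nonneg (by norm_num)]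
      intro j
      simp only [hZ]
      split_ifs
      · rw [Real.norm_eq_abs, abs_of_pos (by norm_num)]
      · rw [norm_zero]; norm_num
    · have h1 : ‖Z 0 a‖ ≤ ‖Z‖ := (norm_le_pi_norm (Z 0) a).trans (norm_le_pi_norm Z 0)
      rw [hZ0a, Real.norm_eq_abs, abs_of_pos (by norm_num)] at h1
      exact h1
  have hd00 : dot (Z 0) (Z 0) = 9 / 4 := by
    rw [dot, Finset.sum_eq_single a]
    · rw [hZ0a]; norm_num
    · intro j _ hj; rw [hZ0 j hj, mul_zero]
    · intro h; exact absurd (Finset.mem_univ _) h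
  have hd11 : dot (Z 1) (Z 1) = 9 / 4 := by
    rw [dot, Finset.sum_eq_single b]
    · rw [hZ1b]; norm_num
    · intro j _ hj; rw [hZ1 j hj, mul_zero]
    · intro h; exact absurd (Finset.mem_univ _) h
  have hd01 : dot (Z 0) (Z 1) = 0 := by
    rw [dot]
    refine Finset.sum_eq_zero fun j _ => ?_
    by_cases hj : j = a
    · rw [hj, hZ1 a hab, mul_zero]
    · rw [hZ0 j hj, zero_mul]
  have hgram : gram Z = (9 / 4) ^ 2 := by
    rw [gram, hd00, hd11, hd01]; ring
  have hsq : √(gram Z) = 9 / 4 := by rw [hgram, Real.sqrt_sq (by norm_num)]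
  have hZne : Z ≠ 0 := by
    intro h
    rw [h, norm_zero] at hnorm
    norm_num at hnorm
  have hfr : IsFrame Z := (gram_pos_iff Z).1 (by rw [hgram]; norm_num)
  have hbal : bal t Z = 1 := by
    refine bal_eq_one hZne ?_
    rw [hnorm, hsq]
    nlinarith
  have hwt : 0 < wt t Z := by
    rw [wt, hbal]
    exact div_pos one_pos (lt_of_lt_of_le one_pos (le_max_left _ _))
  have hdp : 0 < dens t M Z := mul_pos hwt (hM.bodyVol_pos hm hfr)
  have hcont : ContinuousAt (dens t M) Z :=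
    (hΦ.cont Z hZne).continuousAt (isOpen_compl_singleton.mem_nhds hZne)
  obtain ⟨δ, hδ, hδ2⟩ := Metric.continuousAt_iff.1 hcont (dens t M Z / 2) (by positivity)
  set r := min δ (1 / 4) with hr
  have hr0 : 0 < r := lt_min hδ (by norm_num)
  have hsub : ball Z r ⊆ annulus (Fr N) 1 2 := by
    intro x hx
    rw [mem_ball, dist_eq_norm] at hx
    have hx' : ‖x - Z‖ < 1 / 4 := lt_of_lt_of_le hx (min_le_right _ _)
    have h1 : ‖Z‖ ≤ ‖x‖ + ‖x - Z‖ := by
      have : Z = x - (x - Z) := by abel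
      calc ‖Z‖ = ‖x - (x - Z)‖ := by rw [← this]
        _ ≤ _ := norm_sub_le _ _
    have h2 : ‖x‖ ≤ ‖Z‖ + ‖x - Z‖ := by
      have : x = Z + (x - Z) := by abel
      calc ‖x‖ = ‖Z + (x - Z)‖ := by rw [← this]
        _ ≤ _ := norm_add_le _ _
    rw [hnorm] at h1 h2
    constructor <;> linarith
  have hint : IntegrableOn (dens t M) (annulus (Fr N) 1 2) volume := hΦ.integrableOn one_pos 2
  have h1 : ∫ x in ball Z r, dens t M x ≤ ann volume (dens t M) 1 2 :=
    setIntegral_mono_set hint (Eventually.of_forall fun x => hΦ.nonneg x) hsub.eventuallyLE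
  have h2 : (dens t M Z / 2) * (volume : Measure (Fr N)).real (ball Z r) ≤
      ∫ x in ball Z r, dens t M x := by
    have h3 : ∫ x in ball Z r, (dens t M Z / 2) ∂(volume : Measure (Fr N)) ≤
        ∫ x in ball Z r, dens t M x := by
      refine setIntegral_mono_on ?_ (hint.mono_set hsub) measurableSet_ball ?_
      · exact integrableOn_const (measure_ball_lt_top.ne)
      · intro x hx
        have hx' : dist x Z < δ := lt_of_lt_of_le hx (min_le_left _ _)
        have h4 := hδ2 hx'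
        rw [Real.dist_eq] at h4
        have := (abs_lt.1 h4).1
        linarith
    rw [setIntegral_const, smul_eq_mul] at h3
    linarith
  have h3 : 0 < (volume : Measure (Fr N)).real (ball Z r) :=
    ENNReal.toReal_pos (measure_ball_pos _ _ hr0).ne' measure_ball_lt_top.ne
  have h4 : 0 < ann volume (dens t M) 1 2 := lt_of_lt_of_le (by positivity) (h2.trans h1)
  exact div_pos h4 (Real.log_pos one_lt_two)

end Pool.Agent.Lib.MP_1acd66_nt
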