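import Pool.Agent.Lib.MP_1acd66_nt.Count
import Pool.Agent.Lib.MP_1acd66_nt.KappaMain
import Pool.Agent.Lib.MP_1acd66_nt.KapPos

/-! The asymptotic formula. -/

namespace Pool.Agent.Lib.MP_1acd66_nt

open MeasureTheory Filter Metric Set Topology

variable {N m d : ℕ}

theorem countSet_mono (h : AdelicNorm N m d) {B B' : ℝ} (hB : B ≤ B') :
    countSet h B ⊆ countSet h B' := by
  rintro P ⟨x, h1, h2, h3⟩
  exact ⟨x, h1, h2, h3.trans hB⟩

theorem main_asymptotic (hN : 3 ≤ N) (hmd : 2 ≤ m * d) (hw : m * (d * (d + 1) / 2) ≤ N)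
    (h : AdelicNorm N m d) :
    (∀ B, (countSet h B).Finite) ∧ ∃ c : ℝ, 0 < c ∧
      Tendsto (fun B : ℝ => ((countSet h B).ncard : ℝ) / (B * Real.log B)) atTop (𝓝 c) := by
  have hm : 0 < m := by
    rcases Nat.eq_zero_or_pos m with h | h
    · rw [h, zero_mul] at hmd; omega
    · exact h
  obtain ⟨f0, f1, hf⟩ := h.tame
  obtain ⟨C, hC, hbad⟩ := bad_bound h hf (by omega) hw (by omega)
  refine ⟨?_, ?_⟩
  · intro B
    have hB1 : 0 < max B 1 := lt_max_of_lt_right one_pos
    have h1 := (count_compare h hf (by omega) hw hm (t := 4) (B := max B 1) (by norm_num)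
      (hbad 4 le_rfl _ hB1).1).1
    exact h1.subset (countSet_mono h (le_max_left _ _))
  set g : ℝ → ℝ := fun B => 2 * ((countSet h B).ncard : ℝ) / (B * Real.log B) with hg
  have hκ : ∀ t : ℝ, 0 < t → ∃ κ, 1 / 16 * f1⁻¹ * (kap volume (dens t h.inf) / (2 * N : ℕ)) ≤ κ ∧
      Tendsto (fun B => XH h.inf h.ff t B / (B * Real.log B)) atTop (𝓝 κ) := by
    intro t ht
    obtain ⟨κ, a1, _, a3⟩ := exists_kappa h.isNorm_inf hw hmd hN hf ht
    exact ⟨κ, a1, a3⟩
  choose! κ hκ1 hκ2 using hκ
  have hκ4 : 0 < κ 4 := by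
    refine lt_of_lt_of_le ?_ (hκ1 4 (by norm_num))
    have h1 := kap_pos h.isNorm_inf hw hm (by omega) (t := 4) (by norm_num)
    have h2 : 0 < f1 := hf.pos.trans_le hf.le
    have h3 : (0:ℝ) < ((2 * N : ℕ) : ℝ) := by exact_mod_cast (by omega : 0 < 2 * N)
    positivity
  have hcomp : ∀ t : ℝ, 4 ≤ t → ∀ᶠ B in atTop,
      XH h.inf h.ff t B / (B * Real.log B) ≤ g B ∧
      g B ≤ XH h.inf h.ff t B / (B * Real.log B) + 4 * C / t := by
    intro t ht
    have ht0 : 0 < t := by linarith
    filter_upwards [log_max_le hC, eventually_gt_atTop 1] with B hB1 hB2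
    have hB : 0 < B := by linarith
    have hlog : 0 < Real.log B := Real.log_pos hB2
    have hBl : 0 < B * Real.log B := mul_pos hB hlog
    obtain ⟨hb1, hb2⟩ := hbad t ht B hB
    obtain ⟨_, c1, c2⟩ := count_compare h hf (by omega) hw hm ht0 hb1
    constructor
    · exact div_le_div_of_nonneg_right c1 hBl.le
    · have h3 : 2 * ((badSet h t B).ncard : ℝ) ≤ 4 * C / t * (B * Real.log B) := by
        calc 2 * ((badSet h t B).ncard : ℝ) ≤ 2 * (C / t * B * (1 + Real.log (max 1 (C * B)))) := by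
              linarith
          _ ≤ 2 * (C / t * B * (2 * Real.log B)) := by
              apply mul_le_mul_of_nonneg_left _ zero_le_two
              exact mul_le_mul_of_nonneg_left hB1 (by positivity)
          _ = 4 * C / t * (B * Real.log B) := by ring
      simp only [hg]
      rw [div_add' _ _ _ hBl.ne']
      exact div_le_div_of_nonneg_right (by linarith) hBl.le
  -- comparison of the constants
  have hlow : ∀ t : ℝ, 4 ≤ t → κ 4 ≤ κ t + 4 * C / t := by
    intro t ht
    have h1 := hκ2 4 (by norm_num)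
    have h2 := (hκ2 t (by linarith)).add_const (4 * C / t)
    refine le_of_tendsto_of_tendsto h1 h2 ?_
    filter_upwards [hcomp 4 le_rfl, hcomp t ht] with B a1 a2
    exact a1.1.trans a2.2
  have hupp : ∀ t : ℝ, 4 ≤ t → κ t ≤ κ 4 + C := by
    intro t ht
    have h1 := hκ2 t (by linarith)
    have h2 := (hκ2 4 (by norm_num)).add_const (4 * C / 4)
    have h3 : κ 4 + 4 * C / 4 = κ 4 + C := by ring
    rw [h3] at h2
    refine le_of_tendsto_of_tendsto h1 h2 ?_
    filter_upwards [hcomp 4 le_rfl, hcomp t ht] with B a1 a2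
    exact a2.1.trans a1.2
  obtain ⟨c, hc1, _, hc3⟩ := exists_lim_of_approx (g := g) (a := κ 4 / 2) (b := κ 4 + C) (by
    intro δ hδ
    set t := max 4 (max (8 * C / δ) (8 * C / κ 4)) with ht
    have ht4 : 4 ≤ t := le_max_left _ _
    have htp : 0 < t := by linarith
    have ht1 : 4 * C / t ≤ δ / 2 := by
      have : 8 * C / δ ≤ t := (le_max_left _ _).trans (le_max_right _ _)
      rw [div_le_iff₀ hδ] at this
      rw [div_le_iff₀ htp]
      linarith
    have ht2 : 4 * C / t ≤ κ 4 / 2 := by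
      have : 8 * C / κ 4 ≤ t := (le_max_right _ _).trans (le_max_right _ _)
      rw [div_le_iff₀ hκ4] at this
      rw [div_le_iff₀ htp]
      linarith
    refine ⟨κ t, ?_, hupp t ht4, ?_⟩
    · have := hlow t ht4
      linarith
    · have h1 := (Metric.tendsto_nhds.1 (hκ2 t htp)) (δ / 2) (by positivity)
      filter_upwards [h1, hcomp t ht4] with B a1 a2
      rw [Real.dist_eq] at a1
      have b1 := abs_lt.1 a1
      rw [abs_le]
      constructor
      · linarith [a2.1, b1.1]
      · linarith [a2.2, b1.2])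
  refine ⟨c / 2, by linarith, ?_⟩
  have h1 := hc3.div_const 2
  refine h1.congr fun B => ?_
  simp only [hg]
  ring

end Pool.Agent.Lib.MP_1acd66_nt
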