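import Pool.Agent.Lib.MP_1acd66_nt.Local

/-! The weighted count for a fixed balance parameter. -/

namespace Pool.Agent.Lib.MP_1acd66_nt

open MeasureTheory Metric Set Filter Topology
open scoped Classical

variable {N m d : ℕ}

theorem finite_frBox (N : ℕ) (R : ℝ) : {Z : FrZ N | Z ≠ 0 ∧ ‖castZ Z‖ ≤ R}.Finite := by
  have h : {Z : FrZ N | ∀ i, Z i ∈ {r : Fin N → ℤ | ∀ j, r j ∈ Set.Icc (-⌊R⌋) ⌊R⌋}}.Finite :=
    Set.Finite.pi' fun _ => Set.Finite.pi' fun _ => Set.finite_Icc _ _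
  refine h.subset ?_
  rintro Z ⟨_, hZ⟩ i j
  have h1 : |((Z i j : ℤ) : ℝ)| ≤ R :=
    ((norm_le_pi_norm (castZ Z i) j).trans (norm_le_pi_norm (castZ Z) i)).trans hZ
  rw [abs_le] at h1
  constructor
  · have : -(Z i j) ≤ ⌊R⌋ := Int.le_floor.2 (by push_cast; linarith)
    linarith
  · exact Int.le_floor.2 h1.2

/-- nonzero integral pairs of vectors in a box -/
noncomputable def frBox (N : ℕ) (R : ℝ) : Finset (FrZ N) := (finite_frBox N R).toFinset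

theorem mem_frBox {R : ℝ} {Z : FrZ N} : Z ∈ frBox N R ↔ Z ≠ 0 ∧ ‖castZ Z‖ ≤ R := by
  simp [frBox]

theorem abs_le_norm_castZ (Z : FrZ N) (i : Fin 2) (j : Fin N) :
    |((Z i j : ℤ) : ℝ)| ≤ ‖castZ Z‖ :=
  (norm_le_pi_norm (castZ Z i) j).trans (norm_le_pi_norm (castZ Z) i)

theorem one_le_norm_castZ {Z : FrZ N} (hZ : Z ≠ 0) : 1 ≤ ‖castZ Z‖ := by
  obtain ⟨i, hi⟩ : ∃ i, Z i ≠ 0 := by
    by_contra h
    push Not at h
    exact hZ (funext h)
  obtain ⟨j, hj⟩ : ∃ j, Z i j ≠ 0 := by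
    by_contra h
    push Not at h
    exact hi (funext h)
  refine le_trans ?_ (abs_le_norm_castZ Z i j)
  have := Int.one_le_abs hj
  exact_mod_cast this

theorem card_frames {R : ℝ} (hR : 1 ≤ R) (S : Finset (FrZ N)) (hS : ∀ Z ∈ S, ‖castZ Z‖ ≤ R) :
    (S.card : ℝ) ≤ (3 * R) ^ (2 * N) := by
  rcases Nat.eq_zero_or_pos N with rfl | hN
  · have : S.card ≤ 1 := Finset.card_le_one.2 (fun a _ b _ => Subsingleton.elim a b)
    simp only [mul_zero, pow_zero]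
    exact_mod_cast this
  · obtain ⟨n, rfl⟩ : ∃ n, N = n + 1 := ⟨N - 1, by omega⟩
    have := card_box_general (m := 2) (d := n) (B := fun _ => R) (fun _ => hR) S
      (fun Z hZ i k => (abs_le_norm_castZ Z i k).trans (hS Z hZ))
    rw [Finset.prod_const, Finset.card_univ, Fintype.card_fin, ← pow_mul] at this
    rwa [mul_comm 2 (n + 1)]

theorem sum_norm_frames {R : ℝ} (hR : 1 ≤ R) :
    ∑ Z ∈ frBox N R, (‖castZ Z‖ ^ (2 * N))⁻¹ ≤ 2 ^ (2 * N + 1) * 3 ^ (2 * N) * (1 + Real.log R) := by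
  refine dyadic_log (frBox N R) (fun Z => ‖castZ Z‖) (K := 3 ^ (2 * N)) (α := 2 * N)
    (by positivity) ?_ hR ?_ ?_
  · intro Z hZ
    exact one_le_norm_castZ (mem_frBox.1 hZ).1
  · intro Z hZ
    exact (mem_frBox.1 hZ).2
  · intro R' hR'
    rw [← mul_pow]
    exact card_frames hR' _ (fun Z hZ => (Finset.mem_filter.1 hZ).2)

theorem det2_le_norm (Z : FrZ N) : det2 Z ≤ N * ‖castZ Z‖ ^ 2 := by
  rw [← sqrt_gram_castZ]
  apply Real.sqrt_le_iff.2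
  refine ⟨by positivity, ?_⟩
  refine (gram_le_mul (castZ Z)).trans ?_
  have h : ∀ i, ‖castZ Z i‖ ^ 2 ≤ ‖castZ Z‖ ^ 2 :=
    fun i => pow_le_pow_left₀ (norm_nonneg _) (norm_row_le _ i) 2
  have hN : (0:ℝ) ≤ N := Nat.cast_nonneg N
  calc (N * ‖castZ Z 0‖ ^ 2) * (N * ‖castZ Z 1‖ ^ 2)
      ≤ (N * ‖castZ Z‖ ^ 2) * (N * ‖castZ Z‖ ^ 2) := by
        apply mul_le_mul (mul_le_mul_of_nonneg_left (h 0) hN) (mul_le_mul_of_nonneg_left (h 1) hN)
          (by positivity) (by positivity)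
    _ = _ := by ring

theorem sum_biUnion_le' {ι α : Type*} [DecidableEq α] (s : Finset ι) (t : ι → Finset α)
    (g : α → ℝ) (hg : ∀ x, 0 ≤ g x) :
    ∑ x ∈ s.biUnion t, g x ≤ ∑ i ∈ s, ∑ x ∈ t i, g x := by
  classical
  induction s using Finset.induction_on with
  | empty => simp
  | insert a s ha ih =>
    rw [Finset.biUnion_insert, Finset.sum_insert ha]
    refine le_trans ?_ (add_le_add_right ih _)
    have h := Finset.sum_union_inter (s₁ := t a) (s₂ := s.biUnion t) (f := g)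
    have h0 : 0 ≤ ∑ x ∈ t a ∩ s.biUnion t, g x := Finset.sum_nonneg fun x _ => hg x
    linarith

/-- The contribution of frames that are not saturated at some large prime. -/
theorem sum_nonsat (hN : 3 ≤ N) : ∃ C : ℝ, 0 < C ∧ ∀ t : ℝ, 0 < t → ∀ P : ℕ, 0 < P →
    ∀ R : ℝ, 1 ≤ R →
    ∑ Z ∈ (frBox N R).filter (fun Z => IsFrame Z ∧ ∃ p : ℕ, p.Prime ∧ P < p ∧ NonSatAt p Z),
      wt t (castZ Z) * (‖castZ Z‖ ^ (2 * N))⁻¹ ≤ C * (P:ℝ)⁻¹ * (1 + Real.log R) := by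
  obtain ⟨C, hC, hns⟩ := nonsat_sum (N := N) (by omega)
  have hN0 : (0:ℝ) < N := by exact_mod_cast (by omega : 0 < N)
  have hlogN : 0 ≤ Real.log N := Real.log_nonneg (by exact_mod_cast (by omega : 1 ≤ N))
  refine ⟨(N:ℝ) ^ N * (C * 2) * (2 * (1 + Real.log N)), by positivity, ?_⟩
  intro t ht P hP R hR
  have hlogR : 0 ≤ Real.log R := Real.log_nonneg hR
  set S := (frBox N R).filter (fun Z => IsFrame Z ∧ ∃ p : ℕ, p.Prime ∧ P < p ∧ NonSatAt p Z) with hS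
  set L : ℕ := (frBox N R).sup (fun Z => (gram Z).natAbs) with hL
  set T : ℝ := N * R ^ 2 with hT
  have hT1 : 1 ≤ T := by
    have h1 : (1:ℝ) ≤ N := by exact_mod_cast (by omega : 1 ≤ N)
    have h2 : (1:ℝ) ≤ R ^ 2 := one_le_pow₀ hR
    nlinarith
  -- comparison of norms
  have hcomp : ∀ Z ∈ S, wt t (castZ Z) * (‖castZ Z‖ ^ (2 * N))⁻¹ ≤
      (N:ℝ) ^ N * (wt t (castZ Z) * (det2 Z ^ N)⁻¹) := by
    intro Z hZ
    obtain ⟨h1, h2⟩ := Finset.mem_filter.1 hZ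
    have hd1 := one_le_det2 h2.1
    have hn1 := one_le_norm_castZ (mem_frBox.1 h1).1
    have h3 : (‖castZ Z‖ ^ (2 * N))⁻¹ ≤ (N:ℝ) ^ N * (det2 Z ^ N)⁻¹ := by
      rw [← div_eq_mul_inv, inv_eq_one_div, div_le_div_iff₀ (by positivity) (by positivity), one_mul,
        pow_mul, ← mul_pow]
      exact pow_le_pow_left₀ (by linarith) (det2_le_norm Z) N
    calc wt t (castZ Z) * (‖castZ Z‖ ^ (2 * N))⁻¹ ≤
        wt t (castZ Z) * ((N:ℝ) ^ N * (det2 Z ^ N)⁻¹) :=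
          mul_le_mul_of_nonneg_left h3 (wt_nonneg _ _)
      _ = _ := by ring
  refine (Finset.sum_le_sum hcomp).trans ?_
  rw [← Finset.mul_sum]
  -- union over primes
  have hsub : S ⊆ ((Finset.Ioc P (max P L)).filter Nat.Prime).biUnion (fun p =>
      (frBox N R).filter (fun Z => IsFrame Z ∧ NonSatAt p Z)) := by
    intro Z hZ
    obtain ⟨h1, h2, p, hp, hPp, hns'⟩ := Finset.mem_filter.1 hZ
    rw [Finset.mem_biUnion]
    refine ⟨p, Finset.mem_filter.2 ⟨Finset.mem_Ioc.2 ⟨hPp, ?_⟩, hp⟩,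
      Finset.mem_filter.2 ⟨h1, h2, hns'⟩⟩
    -- p divides the gram determinant up to the factor 2; use `2 gram = sum of squares`
    have hg := isFrame_gram_pos h2
    have h3 : ((p:ℤ) ^ 2) ∣ 2 * gram Z := by
      rw [← sum_minor_sq]
      exact Finset.dvd_sum fun i _ => Finset.dvd_sum fun j _ => pow_dvd_pow_of_dvd (hns' i j) 2
    have h4 : (p:ℤ) ^ 2 ≤ 2 * gram Z := Int.le_of_dvd (by linarith) h3
    have hp2 : (2:ℤ) ≤ p := by exact_mod_cast hp.two_le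
    have h5 : (p:ℤ) ≤ gram Z := by nlinarith
    have h6 : (gram Z).natAbs ≤ L := Finset.le_sup (f := fun Z : FrZ N => (gram Z).natAbs) h1
    have h7 : p ≤ (gram Z).natAbs := by omega
    exact (h7.trans h6).trans (le_max_right _ _)
  have hnn : ∀ Z : FrZ N, 0 ≤ wt t (castZ Z) * (det2 Z ^ N)⁻¹ := fun Z =>
    mul_nonneg (wt_nonneg _ _) (inv_nonneg.2 (pow_nonneg (Real.sqrt_nonneg _) _))
  have h1 : ∑ Z ∈ S, wt t (castZ Z) * (det2 Z ^ N)⁻¹ ≤
      ∑ p ∈ (Finset.Ioc P (max P L)).filter Nat.Prime,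
        ∑ Z ∈ (frBox N R).filter (fun Z => IsFrame Z ∧ NonSatAt p Z),
          wt t (castZ Z) * (det2 Z ^ N)⁻¹ := by
    refine (Finset.sum_le_sum_of_subset_of_nonneg hsub (fun Z _ _ => hnn Z)).trans ?_
    exact sum_biUnion_le' _ _ _ hnn
  have h2 : ∀ p ∈ (Finset.Ioc P (max P L)).filter Nat.Prime,
      ∑ Z ∈ (frBox N R).filter (fun Z => IsFrame Z ∧ NonSatAt p Z),
        wt t (castZ Z) * (det2 Z ^ N)⁻¹ ≤ (C * 2 * (1 + Real.log T)) * ((p:ℝ) ^ 2)⁻¹ := by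
    intro p hp
    obtain ⟨hp1, hp2⟩ := Finset.mem_filter.1 hp
    have hpp : (1:ℝ) ≤ p := by exact_mod_cast hp2.one_lt.le
    have h3 := hns t ht p hp2 T hT1 ((frBox N R).filter (fun Z => IsFrame Z ∧ NonSatAt p Z)) (by
      intro Z hZ
      obtain ⟨a1, a2, a3⟩ := Finset.mem_filter.1 hZ
      refine ⟨a2, a3, (det2_le_norm Z).trans ?_⟩
      have := (mem_frBox.1 a1).2
      exact mul_le_mul_of_nonneg_left (pow_le_pow_left₀ (norm_nonneg _) this 2) hN0.le)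
    refine h3.trans ?_
    have h4 : ((p:ℝ) + 1) * ((p:ℝ) ^ N)⁻¹ ≤ 2 * ((p:ℝ) ^ 2)⁻¹ := by
      calc ((p:ℝ) + 1) * ((p:ℝ) ^ N)⁻¹ ≤ (2 * p) * ((p:ℝ) ^ 3)⁻¹ := by
            apply mul_le_mul (by linarith) _ (by positivity) (by positivity)
            exact inv_anti₀ (by positivity) (pow_le_pow_right₀ hpp hN)
        _ = 2 * ((p:ℝ) ^ 2)⁻¹ := by
            field_simp
    have hlT : 0 ≤ 1 + Real.log T := by
      have := Real.log_nonneg hT1
      linarith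
    calc C * (((p:ℝ) + 1) * ((p:ℝ) ^ N)⁻¹) * (1 + Real.log T)
        ≤ C * (2 * ((p:ℝ) ^ 2)⁻¹) * (1 + Real.log T) :=
          mul_le_mul_of_nonneg_right (mul_le_mul_of_nonneg_left h4 hC.le) hlT
      _ = _ := by ring
  have h3 : ∑ p ∈ (Finset.Ioc P (max P L)).filter Nat.Prime, ((p:ℝ) ^ 2)⁻¹ ≤ (P:ℝ)⁻¹ := by
    refine (Finset.sum_le_sum_of_subset_of_nonneg (Finset.filter_subset _ _)
      (fun _ _ _ => by positivity)).trans ?_
    have := sum_Ioc_inv_sq_le_sub (α := ℝ) hP.ne' (le_max_left P L)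
    have h5 : (0:ℝ) ≤ ((max P L : ℕ) : ℝ)⁻¹ := by positivity
    linarith
  have hlogT : 1 + Real.log T ≤ 2 * (1 + Real.log N) * (1 + Real.log R) := by
    rw [hT, Real.log_mul hN0.ne' (by positivity), Real.log_pow]
    push_cast
    nlinarith
  have hlT0 : 0 ≤ 1 + Real.log T := by
    have := Real.log_nonneg hT1
    linarith
  calc (N:ℝ) ^ N * ∑ Z ∈ S, wt t (castZ Z) * (det2 Z ^ N)⁻¹
      ≤ (N:ℝ) ^ N * ∑ p ∈ (Finset.Ioc P (max P L)).filter Nat.Prime,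
          (C * 2 * (1 + Real.log T)) * ((p:ℝ) ^ 2)⁻¹ :=
        mul_le_mul_of_nonneg_left (h1.trans (Finset.sum_le_sum h2)) (by positivity)
    _ = (N:ℝ) ^ N * ((C * 2 * (1 + Real.log T)) *
          ∑ p ∈ (Finset.Ioc P (max P L)).filter Nat.Prime, ((p:ℝ) ^ 2)⁻¹) := by
        congr 1
        rw [Finset.mul_sum]
    _ ≤ (N:ℝ) ^ N * ((C * 2 * (1 + Real.log T)) * (P:ℝ)⁻¹) := by
        apply mul_le_mul_of_nonneg_left _ (by positivity)
        exact mul_le_mul_of_nonneg_left h3 (by positivity)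
    _ = (N:ℝ) ^ N * (C * 2) * (P:ℝ)⁻¹ * (1 + Real.log T) := by ring
    _ ≤ (N:ℝ) ^ N * (C * 2) * (P:ℝ)⁻¹ * (2 * (1 + Real.log N) * (1 + Real.log R)) :=
        mul_le_mul_of_nonneg_left hlogT (by positivity)
    _ = _ := by ring

end Pool.Agent.Lib.MP_1acd66_nt
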