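import Pool.Agent.Lib.MP_1acd66_nt.Defs

/-! Substitution in binary forms. -/

namespace Pool.Agent.Lib.MP_1acd66_nt

open Polynomial Finset

section ring

variable {K : Type*} [CommRing K] {m d N : ℕ}

/-- homogenized evaluation -/
def hEval (n : ℕ) (p : K[X]) (u v : K) : K := ∑ k : Fin (n + 1), p.coeff k * u ^ (n - (k:ℕ)) * v ^ (k:ℕ)

theorem hEval_eq (n : ℕ) (p : K[X]) (u v : K) :
    hEval n p u v = MvPolynomial.eval ![v, u] (p.homogenize n) := by
  rw [hEval, Fin.sum_univ_eq_sum_range (fun k => p.coeff k * u ^ (n - k) * v ^ k),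
    Polynomial.homogenize, ← Finset.Nat.sum_antidiagonal_eq_sum_range_succ
      (fun k l => p.coeff k * u ^ l * v ^ k), map_sum]
  refine Finset.sum_congr rfl ?_
  rintro ⟨k, l⟩ _
  rw [MvPolynomial.eval_monomial]
  simp [Finsupp.prod_fintype]
  ring

theorem hEval_mul {a b : ℕ} {p q : K[X]} (hp : p.natDegree ≤ a) (hq : q.natDegree ≤ b) (u v : K) :
    hEval (a + b) (p * q) u v = hEval a p u v * hEval b q u v := by
  rw [hEval_eq, hEval_eq, hEval_eq, homogenize_mul p q hp hq, map_mul]

theorem natDegree_lin_pow (a b : K) (n : ℕ) : ((C a + C b * X) ^ n).natDegree ≤ n := by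
  refine (natDegree_pow_le).trans ?_
  have : (C a + C b * X).natDegree ≤ 1 := by
    refine (natDegree_add_le _ _).trans ?_
    simp only [natDegree_C, sup_le_iff, zero_le, true_and]
    exact (natDegree_C_mul_le _ _).trans natDegree_X_le
  nlinarith

theorem hEval_lin_pow (a b : K) (n : ℕ) (u v : K) :
    hEval n ((C a + C b * X) ^ n) u v = (a * u + b * v) ^ n := by
  induction n with
  | zero => simp [hEval]
  | succ n ih =>
    rw [pow_succ, hEval_mul (natDegree_lin_pow a b n), ih, pow_succ]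
    · congr 1
      rw [hEval, Fin.sum_univ_two]
      simp
    · have := natDegree_lin_pow a b 1
      rwa [pow_one] at this

/-- the polynomial `(g00 + g01 X)^(d-j) (g10 + g11 X)^j` -/
noncomputable def subPoly (d : ℕ) (g : Matrix (Fin 2) (Fin 2) K) (j : ℕ) : K[X] :=
  (C (g 0 0) + C (g 0 1) * X) ^ (d - j) * (C (g 1 0) + C (g 1 1) * X) ^ j

/-- substitution -/
noncomputable def pull (g : Matrix (Fin 2) (Fin 2) K) (A : Fin m → Fin (d + 1) → K) :
    Fin m → Fin (d + 1) → K :=
  fun i k => ∑ j : Fin (d + 1), A i j * (subPoly d g j).coeff k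

theorem hEval_subPoly (g : Matrix (Fin 2) (Fin 2) K) {j : ℕ} (hj : j ≤ d) (u v : K) :
    hEval d (subPoly d g j) u v =
      (g 0 0 * u + g 0 1 * v) ^ (d - j) * (g 1 0 * u + g 1 1 * v) ^ j := by
  have h := hEval_mul (natDegree_lin_pow (g 0 0) (g 0 1) (d - j))
    (natDegree_lin_pow (g 1 0) (g 1 1) j) u v
  rw [Nat.sub_add_cancel hj] at h
  rw [subPoly, h, hEval_lin_pow, hEval_lin_pow]

theorem isPullback_pull (g : Matrix (Fin 2) (Fin 2) K) (A : Fin m → Fin (d + 1) → K) :
    IsPullback g A (pull g A) := by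
  intro i u v
  simp only [formVal, pull]
  simp_rw [Finset.sum_mul]
  rw [Finset.sum_comm]
  refine Finset.sum_congr rfl ?_
  intro j _
  have h := hEval_subPoly g (d := d) (j := j) (by have := j.2; omega) u v
  rw [hEval] at h
  rw [mul_assoc, ← h, Finset.mul_sum]
  refine Finset.sum_congr rfl ?_
  intro k _
  ring

theorem pull_smul (g : Matrix (Fin 2) (Fin 2) K) (s : K) (A : Fin m → Fin (d + 1) → K) :
    pull g (s • A) = s • pull g A := by
  funext i k
  simp only [pull, Pi.smul_apply, smul_eq_mul, Finset.mul_sum]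
  refine Finset.sum_congr rfl ?_
  intro j _
  ring

theorem formVal_smul (s : K) (A : Fin m → Fin (d + 1) → K) (i : Fin m) (u v : K) :
    formVal (s • A) i u v = s * formVal A i u v := by
  simp only [formVal, Pi.smul_apply, smul_eq_mul, Finset.mul_sum]
  refine Finset.sum_congr rfl ?_
  intro j _
  ring

theorem formVal_scale (A : Fin m → Fin (d + 1) → K) (i : Fin m) (t u v : K) :
    formVal A i (t * u) (t * v) = t ^ d * formVal A i u v := by
  simp only [formVal, Finset.mul_sum]
  refine Finset.sum_congr rfl ?_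
  intro j _
  have hj : (j : ℕ) ≤ d := by have := j.2; omega
  have : t ^ d = t ^ (d - (j:ℕ)) * t ^ (j:ℕ) := by rw [← pow_add, Nat.sub_add_cancel hj]
  rw [this, mul_pow, mul_pow]
  ring

theorem formVal_map {L : Type*} [CommRing L] (f : K →+* L) (A : Fin m → Fin (d + 1) → K)
    (i : Fin m) (u v : K) :
    formVal (fun i j => f (A i j)) i (f u) (f v) = f (formVal A i u v) := by
  simp [formVal, map_sum]

theorem pull_map {L : Type*} [CommRing L] (f : K →+* L) (g : Matrix (Fin 2) (Fin 2) K)
    (A : Fin m → Fin (d + 1) → K) (g' : Matrix (Fin 2) (Fin 2) L) (hg : ∀ i j, g' i j = f (g i j)) :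
    pull g' (fun i j => f (A i j)) = fun i j => f (pull g A i j) := by
  funext i k
  simp only [pull, map_sum, map_mul]
  refine Finset.sum_congr rfl ?_
  intro j _
  congr 1
  have : subPoly d g' j = (subPoly d g j).map f := by
    simp [subPoly, hg]
  rw [this, coeff_map]

theorem IsPullback.comp {g h : Matrix (Fin 2) (Fin 2) K} {A A' A'' : Fin m → Fin (d + 1) → K}
    (h1 : IsPullback g A A') (h2 : IsPullback h A' A'') : IsPullback (g * h) A A'' := by
  intro i u v
  rw [h2, h1]
  simp only [Matrix.mul_apply, Fin.sum_univ_two]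
  congr 1 <;> ring

theorem isPullback_one (A : Fin m → Fin (d + 1) → K) :
    IsPullback (1 : Matrix (Fin 2) (Fin 2) K) A A := by
  intro i u v
  simp

theorem IsPullback.smul {g : Matrix (Fin 2) (Fin 2) K} {A A' : Fin m → Fin (d + 1) → K}
    (h : IsPullback g A A') (s : K) : IsPullback g (s • A) (s • A') := by
  intro i u v
  rw [formVal_smul, formVal_smul, h]

/-- lower triangular substitution: vanishing coefficients -/
theorem coeff_subPoly_of_lt (g : Matrix (Fin 2) (Fin 2) K) (hg : g 0 1 = 0) {j k : ℕ}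
    (hjk : j < k) : (subPoly d g j).coeff k = 0 := by
  rw [subPoly, hg, C_0, zero_mul, add_zero, ← C_pow, coeff_C_mul,
    coeff_eq_zero_of_natDegree_lt ((natDegree_lin_pow _ _ j).trans_lt hjk), mul_zero]

theorem coeff_subPoly_diag (g : Matrix (Fin 2) (Fin 2) K) (hg : g 0 1 = 0) (j : ℕ) :
    (subPoly d g j).coeff j = g 0 0 ^ (d - j) * g 1 1 ^ j := by
  rw [subPoly, hg, C_0, zero_mul, add_zero, ← C_pow, coeff_C_mul]
  congr 1
  induction j with
  | zero => simp
  | succ j ih =>
    rw [pow_succ, mul_add, coeff_add, coeff_mul_C, ← mul_assoc, coeff_mul_X, coeff_mul_C, ih,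
      coeff_eq_zero_of_natDegree_lt ((natDegree_lin_pow _ _ j).trans_lt (Nat.lt_succ_self j))]
    ring

theorem rowOp_mul (g h : Matrix (Fin 2) (Fin 2) K) (Z : Fin 2 → Fin N → K) :
    rowOp (g * h) Z = rowOp g (rowOp h Z) := by
  funext i j
  simp only [rowOp, Matrix.mul_apply, Fin.sum_univ_two]
  ring

theorem rowOp_one (Z : Fin 2 → Fin N → K) : rowOp 1 Z = Z := by
  funext i j
  obtain rfl | rfl : i = 0 ∨ i = 1 := by omega
  · simp [rowOp]
  · simp [rowOp]

theorem minor_rowOp (g : Matrix (Fin 2) (Fin 2) K) (Z : Fin 2 → Fin N → K) (i j : Fin N) :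
    minor (rowOp g Z) i j = g.det * minor Z i j := by
  simp only [minor, rowOp, Matrix.det_fin_two]
  ring

end ring

section domain

variable {K : Type*} [CommRing K] [IsDomain K] [Infinite K] {m d N : ℕ}

theorem formVal_injective {A B : Fin m → Fin (d + 1) → K}
    (h : ∀ i u v, formVal A i u v = formVal B i u v) : A = B := by
  funext i j
  have h1 : (∑ k : Fin (d + 1), C (A i k) * X ^ (k:ℕ) : K[X]) =
      ∑ k : Fin (d + 1), C (B i k) * X ^ (k:ℕ) := by
    apply Polynomial.funext
    intro x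
    have := h i 1 x
    simp only [formVal, one_pow, mul_one] at this
    simpa [eval_finsetSum] using this
  have h2 := congrArg (fun p => Polynomial.coeff p (j:ℕ)) h1
  simp only [finsetSum_coeff, coeff_C_mul, coeff_X_pow] at h2
  simpa [Fin.val_inj, Finset.sum_ite_eq] using h2

theorem IsPullback.eq_pull {g : Matrix (Fin 2) (Fin 2) K} {A A' : Fin m → Fin (d + 1) → K}
    (h : IsPullback g A A') : A' = pull g A :=
  formVal_injective fun i u v => by rw [h, isPullback_pull]

theorem pull_mul (g h : Matrix (Fin 2) (Fin 2) K) (A : Fin m → Fin (d + 1) → K) :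
    pull (g * h) A = pull h (pull g A) :=
  ((isPullback_pull g A).comp (isPullback_pull h _)).eq_pull.symm

theorem pull_one (A : Fin m → Fin (d + 1) → K) : pull (1 : Matrix (Fin 2) (Fin 2) K) A = A :=
  (isPullback_one A).eq_pull.symm

end domain

section field

variable {K : Type*} [Field K] [Infinite K] {m d N : ℕ}

theorem pull_ne_zero {g : Matrix (Fin 2) (Fin 2) K} (hg : g.det ≠ 0)
    {A : Fin m → Fin (d + 1) → K} (hA : A ≠ 0) : pull g A ≠ 0 := by
  intro h
  apply hA
  have hu : IsUnit g.det := isUnit_iff_ne_zero.2 hg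
  have h1 : pull (g * g⁻¹) A = 0 := by
    rw [pull_mul, h]
    funext i k
    simp [pull]
  rwa [Matrix.mul_nonsing_inv g hu, pull_one] at h1

omit [Infinite K] in
theorem IsFrame.rowOp {Z : Fin 2 → Fin N → K} (hZ : IsFrame Z) {g : Matrix (Fin 2) (Fin 2) K}
    (hg : g.det ≠ 0) : IsFrame (rowOp g Z) := by
  obtain ⟨i, j, h⟩ := hZ
  exact ⟨i, j, by rw [minor_rowOp]; exact mul_ne_zero hg h⟩

end field

end Pool.Agent.Lib.MP_1acd66_nt
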