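import Pool.Agent.Lib.MP_1acd66_nt.LogSum

/-! Summation of functions which are asymptotically linear. -/

set_option linter.unusedSectionVars false

open MeasureTheory Metric Set Filter Topology
open scoped ENNReal NNReal Pointwise

namespace Pool.Agent.Lib.MP_1acd66_nt

variable {E : Type*} [NormedAddCommGroup E] [MeasurableSpace E]
variable [NormedSpace ℝ E] [BorelSpace E] [FiniteDimensional ℝ E]
  {μ : Measure E} [μ.IsAddHaarMeasure] {Λ T : Set E} {v ρ : ℝ}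

/-- the radius `R` with `R ^ n = Y` -/
theorem exists_radius {n : ℕ} (hn0 : 0 < n) {Y : ℝ} (hY : 1 ≤ Y) :
    ∃ R : ℝ, 1 ≤ R ∧ R ^ n = Y ∧ Real.log R = Real.log Y / n := by
  have hY0 : 0 < Y := by linarith
  refine ⟨Y ^ (1 / (n:ℝ)), ?_, ?_, ?_⟩
  · exact Real.one_le_rpow hY (by positivity)
  · rw [← Real.rpow_natCast, ← Real.rpow_mul hY0.le]
    have : (n:ℝ) ≠ 0 := by positivity
    field_simp
    exact Real.rpow_one Y
  · rw [Real.log_rpow hY0]; ring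

set_option maxHeartbeats 1000000 in
theorem Tiling.sum_asymp (h : Tiling μ Λ T v ρ) {n : ℕ} (hn : n = Module.finrank ℝ E) (hn0 : 0 < n)
    {Φ : E → ℝ} (hΦ : HomNeg n Φ) {g : E → ℝ → ℝ} {C c0 : ℝ} (hc0 : 0 < c0) (hC : 0 ≤ C)
    (hg1 : ∀ ε > 0, ∃ Y0 > 0, ∀ a ∈ Λ, a ≠ 0 → ∀ Y, Y0 * ‖a‖ ^ n ≤ Y →
      |g a Y - Φ a * Y| ≤ ε * Y * (‖a‖ ^ n)⁻¹)
    (hg2 : ∀ a ∈ Λ, a ≠ 0 → ∀ Y > 0, 0 ≤ g a Y ∧ g a Y ≤ C * Y * (‖a‖ ^ n)⁻¹)
    (hg3 : ∀ a ∈ Λ, a ≠ 0 → ∀ Y, Y < c0 * ‖a‖ ^ n → g a Y = 0)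
    {ε : ℝ} (hε : 0 < ε) :
    ∃ Y1, ∀ Y ≥ Y1, ∀ S : Finset E, (∀ a ∈ S, a ∈ Λ ∧ a ≠ 0) →
      (∀ a ∈ Λ, a ≠ 0 → c0 * ‖a‖ ^ n ≤ Y → a ∈ S) →
      |v * ∑ a ∈ S, g a Y - kap μ Φ / n * (Y * Real.log Y)| ≤ ε * (Y * Real.log Y) := by
  classical
  set Ψ : E → ℝ := fun x => (‖x‖ ^ n)⁻¹ with hΨdef
  have hΨ : HomNeg n Ψ := homNeg_norm n
  set κ := kap μ Φ with hκ
  set κ1 := kap μ Ψ with hκ1
  have hκ0 : 0 ≤ κ := hΦ.kap_nonneg
  have hκ10 : 0 ≤ κ1 := hΨ.kap_nonneg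
  set ε1 := ε / (6 * (κ1 + 1)) with hε1
  set ε2 := ε / 6 with hε2
  set ε3 := ε / (12 * (C + 1)) with hε3
  have hε1p : 0 < ε1 := by positivity
  have hε2p : 0 < ε2 := by positivity
  have hε3p : 0 < ε3 := by positivity
  obtain ⟨Y0', hY0', Hg1'⟩ := hg1 ε1 hε1p
  set Y0 := max Y0' c0 with hY0
  have hY0c : c0 ≤ Y0 := le_max_right _ _
  have hY0p : 0 < Y0 := hc0.trans_le hY0c
  have Hg1 : ∀ a ∈ Λ, a ≠ 0 → ∀ Y, Y0 * ‖a‖ ^ n ≤ Y →
      |g a Y - Φ a * Y| ≤ ε1 * Y * (‖a‖ ^ n)⁻¹ := by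
    intro a ha ha0 Y hY
    refine Hg1' a ha ha0 Y (le_trans ?_ hY)
    exact mul_le_mul_of_nonneg_right (le_max_left _ _) (by positivity)
  obtain ⟨C1, HC1⟩ := h.logSum hn hΨ (ε := 1) one_pos
  obtain ⟨C2, HC2⟩ := h.logSum hn hΦ hε2p
  obtain ⟨C3, HC3⟩ := h.logSum hn hΨ hε3p
  -- constants
  set K0 : ℝ := |Real.log Y0| + |Real.log c0| with hK0
  set K : ℝ := ε1 * ((κ1 + 1) * K0 + |C1|) + (κ * K0 + ε2 * K0 + |C2|) +
    C * (κ1 * (2 * K0) + ε3 * (2 * K0) + 2 * |C3|) with hK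
  have hK0n : 0 ≤ K0 := by positivity
  have hKn : 0 ≤ K := by positivity
  refine ⟨max (max 1 (max Y0 c0)) (Real.exp (4 * K / ε)), ?_⟩
  intro Y hY S hS1 hS2
  have hY1 : 1 ≤ Y := (le_max_left _ _).trans ((le_max_left _ _).trans hY)
  have hYY0 : Y0 ≤ Y := (le_max_left Y0 c0).trans ((le_max_right _ _).trans ((le_max_left _ _).trans hY))
  have hYc0 : c0 ≤ Y := (le_max_right Y0 c0).trans ((le_max_right _ _).trans ((le_max_left _ _).trans hY))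
  have hYe : Real.exp (4 * K / ε) ≤ Y := (le_max_right _ _).trans hY
  have hYpos : 0 < Y := by linarith
  have hlogY : 0 ≤ Real.log Y := Real.log_nonneg hY1
  have hKlog : K ≤ ε / 4 * Real.log Y := by
    have : 4 * K / ε ≤ Real.log Y := by
      rw [← Real.log_exp (4 * K / ε)]
      exact Real.log_le_log (Real.exp_pos _) hYe
    rw [div_le_iff₀ hε] at this
    linarith
  -- radii
  obtain ⟨R, hR1, hRn, hRlog⟩ := exists_radius hn0 (Y := Y / Y0) ((one_le_div hY0p).2 hYY0)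
  obtain ⟨R', hR'1, hR'n, hR'log⟩ := exists_radius hn0 (Y := Y / c0) ((one_le_div hc0).2 hYc0)
  rw [Real.log_div hYpos.ne' hY0p.ne'] at hRlog
  rw [Real.log_div hYpos.ne' hc0.ne'] at hR'log
  have hnpos : (1:ℝ) ≤ n := by exact_mod_cast hn0
  have hRR' : R ≤ R' := by
    have : R ^ n ≤ R' ^ n := by
      rw [hRn, hR'n]
      exact div_le_div_of_nonneg_left hYpos.le hc0 hY0c
    exact (pow_le_pow_iff_left₀ (by linarith) (by linarith) hn0.ne').1 this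
  have memR : ∀ a, a ∈ h.pts R ↔ a ∈ Λ ∧ a ≠ 0 ∧ Y0 * ‖a‖ ^ n ≤ Y := by
    intro a
    rw [h.mem_pts, ← pow_le_pow_iff_left₀ (norm_nonneg a) (by linarith) hn0.ne', hRn,
      le_div_iff₀ hY0p, mul_comm]
  have memR' : ∀ a, a ∈ h.pts R' ↔ a ∈ Λ ∧ a ≠ 0 ∧ c0 * ‖a‖ ^ n ≤ Y := by
    intro a
    rw [h.mem_pts, ← pow_le_pow_iff_left₀ (norm_nonneg a) (by linarith) hn0.ne', hR'n,
      le_div_iff₀ hc0, mul_comm]
  have hsum1 : ∑ a ∈ S, g a Y = ∑ a ∈ h.pts R', g a Y := by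
    refine (Finset.sum_subset ?_ ?_).symm
    · intro a ha
      obtain ⟨h1, h2, h3⟩ := (memR' a).1 ha
      exact hS2 a h1 h2 h3
    · intro a ha hna
      obtain ⟨h1, h2⟩ := hS1 a ha
      refine hg3 a h1 h2 Y ?_
      by_contra hcon
      push Not at hcon
      exact hna ((memR' a).2 ⟨h1, h2, hcon⟩)
  have hsubset : h.pts R ⊆ h.pts R' := h.pts_mono hRR'
  have hsum2 : ∑ a ∈ h.pts R', g a Y = ∑ a ∈ h.pts R, g a Y + ∑ a ∈ h.pts R' \ h.pts R, g a Y := by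
    rw [add_comm, Finset.sum_sdiff hsubset]
  -- near part
  have hnear : |v * ∑ a ∈ h.pts R, g a Y - v * ∑ a ∈ h.pts R, Φ a * Y| ≤
      ε1 * Y * (v * ∑ a ∈ h.pts R, Ψ a) := by
    rw [← mul_sub, ← Finset.sum_sub_distrib, abs_mul, abs_of_pos h.vpos]
    calc v * |∑ a ∈ h.pts R, (g a Y - Φ a * Y)|
        ≤ v * ∑ a ∈ h.pts R, |g a Y - Φ a * Y| :=
          mul_le_mul_of_nonneg_left (Finset.abs_sum_le_sum_abs _ _) h.vpos.le
      _ ≤ v * ∑ a ∈ h.pts R, ε1 * Y * Ψ a := by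
          refine mul_le_mul_of_nonneg_left (Finset.sum_le_sum ?_) h.vpos.le
          intro a ha
          obtain ⟨h1, h2, h3⟩ := (memR a).1 ha
          exact Hg1 a h1 h2 Y h3
      _ = _ := by rw [← Finset.mul_sum]; ring
  have hlogR : 0 ≤ Real.log R := Real.log_nonneg hR1
  have hlogR' : 0 ≤ Real.log R' := Real.log_nonneg hR'1
  have hlogR_le : Real.log R ≤ Real.log Y + K0 := by
    rw [hRlog, div_le_iff₀ (by linarith)]
    have h1 : -Real.log Y0 ≤ |Real.log Y0| := neg_le_abs _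
    have h2 : 0 ≤ |Real.log c0| := abs_nonneg _
    have h3 : 0 ≤ Real.log Y + K0 := by positivity
    calc Real.log Y - Real.log Y0 ≤ Real.log Y + K0 := by rw [hK0]; linarith
      _ ≤ (Real.log Y + K0) * n := le_mul_of_one_le_right h3 hnpos
  have hlogR'_le : Real.log R' ≤ Real.log Y + K0 := by
    rw [hR'log, div_le_iff₀ (by linarith)]
    have h1 : -Real.log c0 ≤ |Real.log c0| := neg_le_abs _
    have h2 : 0 ≤ |Real.log Y0| := abs_nonneg _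
    have h3 : 0 ≤ Real.log Y + K0 := by positivity
    calc Real.log Y - Real.log c0 ≤ Real.log Y + K0 := by rw [hK0]; linarith
      _ ≤ (Real.log Y + K0) * n := le_mul_of_one_le_right h3 hnpos
  have hlogdiff : Real.log R' - Real.log R ≤ K0 := by
    rw [hRlog, hR'log, ← sub_div, div_le_iff₀ (by linarith)]
    have h1 : -Real.log c0 ≤ |Real.log c0| := neg_le_abs _
    have h2 : Real.log Y0 ≤ |Real.log Y0| := le_abs_self _
    calc Real.log Y - Real.log c0 - (Real.log Y - Real.log Y0) ≤ K0 := by rw [hK0]; linarith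
      _ ≤ K0 * n := le_mul_of_one_le_right hK0n hnpos
  have hlogRmain : |Real.log R - Real.log Y / n| ≤ K0 := by
    rw [hRlog, sub_div]
    have : Real.log Y / n - Real.log Y0 / n - Real.log Y / n = -(Real.log Y0 / n) := by ring
    rw [this, abs_neg, abs_div, abs_of_pos (by linarith : (0:ℝ) < n), div_le_iff₀ (by linarith)]
    have h2 : 0 ≤ |Real.log c0| := abs_nonneg _
    calc |Real.log Y0| ≤ K0 := by rw [hK0]; linarith
      _ ≤ K0 * n := le_mul_of_one_le_right hK0n hnpos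
  have A1 : v * ∑ a ∈ h.pts R, Ψ a ≤ (κ1 + 1) * Real.log Y + ((κ1 + 1) * K0 + |C1|) := by
    have := HC1 R hR1
    rw [abs_le] at this
    have h1 := this.2
    have h2 : C1 ≤ |C1| := le_abs_self _
    have h3 : (κ1 + 1) * Real.log R ≤ (κ1 + 1) * (Real.log Y + K0) :=
      mul_le_mul_of_nonneg_left hlogR_le (by linarith)
    linarith
  have A2 : |v * ∑ a ∈ h.pts R, Φ a - κ * (Real.log Y / n)| ≤
      ε2 * Real.log Y + (κ * K0 + ε2 * K0 + |C2|) := by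
    have h1 := HC2 R hR1
    have h2 : v * ∑ a ∈ h.pts R, Φ a - κ * (Real.log Y / n) =
      (v * ∑ a ∈ h.pts R, Φ a - κ * Real.log R) + κ * (Real.log R - Real.log Y / n) := by ring
    rw [h2]
    refine (abs_add_le _ _).trans ?_
    rw [abs_mul, abs_of_nonneg hκ0]
    have h3 : κ * |Real.log R - Real.log Y / n| ≤ κ * K0 :=
      mul_le_mul_of_nonneg_left hlogRmain hκ0
    have h4 : ε2 * Real.log R ≤ ε2 * (Real.log Y + K0) :=
      mul_le_mul_of_nonneg_left hlogR_le hε2p.le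
    have h5 : C2 ≤ |C2| := le_abs_self _
    linarith
  have A3 : v * ∑ a ∈ h.pts R' \ h.pts R, Ψ a ≤
      2 * ε3 * Real.log Y + (κ1 * (2 * K0) + ε3 * (2 * K0) + 2 * |C3|) := by
    have h1 := HC3 R hR1
    have h2 := HC3 R' hR'1
    rw [abs_le] at h1 h2
    have e : v * ∑ a ∈ h.pts R' \ h.pts R, Ψ a =
        v * ∑ a ∈ h.pts R', Ψ a - v * ∑ a ∈ h.pts R, Ψ a := by
      rw [← Finset.sum_sdiff hsubset]; ring
    rw [e]
    have h3 : κ1 * (Real.log R' - Real.log R) ≤ κ1 * K0 := mul_le_mul_of_nonneg_left hlogdiff hκ10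
    have h4 : ε3 * Real.log R ≤ ε3 * (Real.log Y + K0) :=
      mul_le_mul_of_nonneg_left hlogR_le hε3p.le
    have h5 : ε3 * Real.log R' ≤ ε3 * (Real.log Y + K0) :=
      mul_le_mul_of_nonneg_left hlogR'_le hε3p.le
    have h6 : C3 ≤ |C3| := le_abs_self _
    have h7 : 0 ≤ κ1 * K0 := by positivity
    linarith [h1.1, h2.2]
  -- far part
  have hfar0 : 0 ≤ v * ∑ a ∈ h.pts R' \ h.pts R, g a Y := by
    refine mul_nonneg h.vpos.le (Finset.sum_nonneg ?_)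
    intro a ha
    obtain ⟨h1, h2, _⟩ := (memR' a).1 (Finset.mem_sdiff.1 ha).1
    exact (hg2 a h1 h2 Y hYpos).1
  have hfar : v * ∑ a ∈ h.pts R' \ h.pts R, g a Y ≤
      C * Y * (v * ∑ a ∈ h.pts R' \ h.pts R, Ψ a) := by
    have : ∑ a ∈ h.pts R' \ h.pts R, g a Y ≤ ∑ a ∈ h.pts R' \ h.pts R, C * Y * Ψ a := by
      refine Finset.sum_le_sum ?_
      intro a ha
      obtain ⟨h1, h2, _⟩ := (memR' a).1 (Finset.mem_sdiff.1 ha).1
      exact (hg2 a h1 h2 Y hYpos).2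
    rw [← Finset.mul_sum] at this
    calc v * ∑ a ∈ h.pts R' \ h.pts R, g a Y
        ≤ v * (C * Y * ∑ a ∈ h.pts R' \ h.pts R, Ψ a) := mul_le_mul_of_nonneg_left this h.vpos.le
      _ = _ := by ring
  -- combine
  have hmain : |v * ∑ a ∈ S, g a Y - κ / n * (Y * Real.log Y)| ≤
      ε1 * Y * (v * ∑ a ∈ h.pts R, Ψ a) + Y * |v * ∑ a ∈ h.pts R, Φ a - κ * (Real.log Y / n)| +
      C * Y * (v * ∑ a ∈ h.pts R' \ h.pts R, Ψ a) := by
    rw [hsum1, hsum2]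
    have e1 : v * (∑ a ∈ h.pts R, g a Y + ∑ a ∈ h.pts R' \ h.pts R, g a Y) -
        κ / n * (Y * Real.log Y) =
        (v * ∑ a ∈ h.pts R, g a Y - v * ∑ a ∈ h.pts R, Φ a * Y) +
        Y * (v * ∑ a ∈ h.pts R, Φ a - κ * (Real.log Y / n)) +
        v * ∑ a ∈ h.pts R' \ h.pts R, g a Y := by
      rw [← Finset.sum_mul]; ring
    rw [e1]
    refine (abs_add_le _ _).trans ?_
    refine add_le_add ((abs_add_le _ _).trans (add_le_add hnear ?_)) ?_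
    · rw [abs_mul, abs_of_pos hYpos]
    · rw [abs_of_nonneg hfar0]
      exact hfar
  refine hmain.trans ?_
  have B1 : ε1 * Y * (v * ∑ a ∈ h.pts R, Ψ a) ≤
      ε1 * Y * ((κ1 + 1) * Real.log Y + ((κ1 + 1) * K0 + |C1|)) :=
    mul_le_mul_of_nonneg_left A1 (by positivity)
  have B2 : Y * |v * ∑ a ∈ h.pts R, Φ a - κ * (Real.log Y / n)| ≤
      Y * (ε2 * Real.log Y + (κ * K0 + ε2 * K0 + |C2|)) :=
    mul_le_mul_of_nonneg_left A2 hYpos.le
  have B3 : C * Y * (v * ∑ a ∈ h.pts R' \ h.pts R, Ψ a) ≤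
      C * Y * (2 * ε3 * Real.log Y + (κ1 * (2 * K0) + ε3 * (2 * K0) + 2 * |C3|)) :=
    mul_le_mul_of_nonneg_left A3 (by positivity)
  have E1 : ε1 * (κ1 + 1) = ε / 6 := by rw [hε1]; field_simp
  have E3 : C * (2 * ε3) ≤ ε / 6 := by
    rw [hε3]
    have : C * (2 * (ε / (12 * (C + 1)))) = (ε / 6) * (C / (C + 1)) := by
      field_simp; ring
    rw [this]
    have h1 : C / (C + 1) ≤ 1 := by rw [div_le_one (by linarith)]; linarith
    calc ε / 6 * (C / (C + 1)) ≤ ε / 6 * 1 := mul_le_mul_of_nonneg_left h1 (by positivity)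
      _ = ε / 6 := by ring
  have hYl : 0 ≤ Y * Real.log Y := by positivity
  have F1 : ε1 * Y * ((κ1 + 1) * Real.log Y + ((κ1 + 1) * K0 + |C1|)) =
      (ε1 * (κ1 + 1)) * (Y * Real.log Y) + Y * (ε1 * ((κ1 + 1) * K0 + |C1|)) := by ring
  have F2 : Y * (ε2 * Real.log Y + (κ * K0 + ε2 * K0 + |C2|)) =
      ε2 * (Y * Real.log Y) + Y * (κ * K0 + ε2 * K0 + |C2|) := by ring
  have F3 : C * Y * (2 * ε3 * Real.log Y + (κ1 * (2 * K0) + ε3 * (2 * K0) + 2 * |C3|)) =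
      (C * (2 * ε3)) * (Y * Real.log Y) +
        Y * (C * (κ1 * (2 * K0) + ε3 * (2 * K0) + 2 * |C3|)) := by ring
  have F4 : (C * (2 * ε3)) * (Y * Real.log Y) ≤ ε / 6 * (Y * Real.log Y) :=
    mul_le_mul_of_nonneg_right E3 hYl
  have F5 : Y * K ≤ Y * (ε / 4 * Real.log Y) := mul_le_mul_of_nonneg_left hKlog hYpos.le
  have F6 : Y * (ε1 * ((κ1 + 1) * K0 + |C1|)) + Y * (κ * K0 + ε2 * K0 + |C2|) +
      Y * (C * (κ1 * (2 * K0) + ε3 * (2 * K0) + 2 * |C3|)) = Y * K := by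
    rw [hK]; ring
  rw [F1] at B1
  rw [F2] at B2
  rw [F3] at B3
  rw [E1] at B1
  rw [hε2] at B2
  have F7 : Y * (ε / 4 * Real.log Y) = ε / 4 * (Y * Real.log Y) := by ring
  have F8 : ε / 6 * (Y * Real.log Y) + ε / 6 * (Y * Real.log Y) + ε / 6 * (Y * Real.log Y) +
    ε / 4 * (Y * Real.log Y) ≤ ε * (Y * Real.log Y) := by
    have : 0 ≤ ε * (Y * Real.log Y) := by positivity
    linarith
  rw [hε2] at F6
  linarith

end Pool.Agent.Lib.MP_1acd66_nt
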