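import Pool.Agent.Lib.MP_1acd66_nt.Upper
import Pool.Agent.Lib.MP_1acd66_nt.Weight
import Pool.Agent.Lib.MP_1acd66_nt.SumAsymp

/-! Sums over integral frames. -/

namespace Pool.Agent.Lib.MP_1acd66_nt

open MeasureTheory Metric Set Filter Topology

variable {N m d : ℕ}

section lattice

variable {a b : ℕ}

/-- the real points congruent to `Z0` modulo `q` -/
def latt (q : ℕ) (Z0 : Fin a → Fin b → ℤ) : Set (Fin a → Fin b → ℝ) :=
  {x | ∃ z : Fin a → Fin b → ℤ, ∀ i j, x i j = (Z0 i j : ℝ) + q * (z i j : ℝ)}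

/-- the tile -/
def tile (a b q : ℕ) : Set (Fin a → Fin b → ℝ) :=
  Set.pi Set.univ (fun _ => Set.pi Set.univ (fun _ => Set.Ico (0:ℝ) q))

theorem mem_tile {q : ℕ} {x : Fin a → Fin b → ℝ} :
    x ∈ tile a b q ↔ ∀ i j, 0 ≤ x i j ∧ x i j < q := by
  simp only [tile, Set.mem_pi, Set.mem_univ, true_implies, Set.mem_Ico]

theorem tiling_latt {q : ℕ} (hq : 0 < q) (Z0 : Fin a → Fin b → ℤ) :
    Tiling (volume : Measure (Fin a → Fin b → ℝ)) (latt q Z0) (tile a b q)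
      ((q:ℝ) ^ (a * b)) q where
  meas := by
    refine MeasurableSet.univ_pi fun _ => MeasurableSet.univ_pi fun _ => measurableSet_Ico
  vol := by
    rw [tile, volume_pi_pi]
    simp only [volume_pi_pi, Real.volume_Ico, sub_zero, Finset.prod_const, Finset.card_univ,
      Fintype.card_fin]
    rw [← pow_mul, mul_comm b a, ENNReal.ofReal_pow (by positivity)]
  vpos := by positivity
  rpos := by exact_mod_cast hq
  bdd := by
    intro x hx
    rw [mem_tile] at hx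
    rw [pi_norm_le_iff_of_nonneg (by positivity)]
    intro i
    rw [pi_norm_le_iff_of_nonneg (by positivity)]
    intro j
    rw [Real.norm_eq_abs, abs_of_nonneg (hx i j).1]
    exact (hx i j).2.le
  cover := by
    intro y
    have hq' : (0:ℝ) < q := by exact_mod_cast hq
    refine ⟨fun i j => (Z0 i j : ℝ) + q * ((⌊(y i j - Z0 i j) / q⌋ : ℤ) : ℝ),
      ⟨fun i j => ⌊(y i j - Z0 i j) / q⌋, fun i j => rfl⟩, ?_⟩
    rw [mem_tile]
    intro i j
    have h1 := Int.floor_le ((y i j - Z0 i j) / q)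
    have h2 := Int.lt_floor_add_one ((y i j - Z0 i j) / q)
    rw [le_div_iff₀ hq'] at h1
    rw [div_lt_iff₀ hq'] at h2
    simp only [Pi.sub_apply]
    constructor
    · linarith
    · linarith
  disj := by
    rintro x ⟨z, hz⟩ x' ⟨z', hz'⟩ y hy hy'
    rw [mem_tile] at hy hy'
    funext i j
    have hq' : (0:ℝ) < q := by exact_mod_cast hq
    have h1 := hy i j
    have h2 := hy' i j
    simp only [Pi.sub_apply] at h1 h2
    have h3 : (q:ℝ) * (((z i j - z' i j : ℤ)) : ℝ) < q * 1 := by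
      push_cast
      have e1 := hz i j
      have e2 := hz' i j
      have : (q:ℝ) * ((z i j : ℝ) - z' i j) = x i j - x' i j := by rw [e1, e2]; ring
      rw [this]; linarith [h1.1, h1.2, h2.1, h2.2]
    have h4 : (q:ℝ) * (-1) < (q:ℝ) * (((z i j - z' i j : ℤ)) : ℝ) := by
      push_cast
      have e1 := hz i j
      have e2 := hz' i j
      have : (q:ℝ) * ((z i j : ℝ) - z' i j) = x i j - x' i j := by rw [e1, e2]; ring
      rw [this]; linarith [h1.1, h1.2, h2.1, h2.2]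
    have h5 := lt_of_mul_lt_mul_left h3 hq'.le
    have h6 := lt_of_mul_lt_mul_left h4 hq'.le
    have h7 : z i j - z' i j < 1 := by exact_mod_cast h5
    have h8 : -1 < z i j - z' i j := by exact_mod_cast h6
    have h9 : z i j = z' i j := by omega
    rw [hz i j, hz' i j, h9]

end lattice

/-- balanced frames of norm one -/
def Kt (N : ℕ) (t : ℝ) : Set (Fr N) := {k | ‖k‖ = 1 ∧ 1 ≤ t * √(gram k)}

theorem isCompact_Kt (N : ℕ) (t : ℝ) : IsCompact (Kt N t) := by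
  have h1 : IsCompact (sphere (0 : Fr N) 1) := isCompact_sphere 0 1
  have h2 : IsClosed {k : Fr N | 1 ≤ t * √(gram k)} :=
    isClosed_le continuous_const (continuous_const.mul (Real.continuous_sqrt.comp continuous_gram))
  have : Kt N t = sphere 0 1 ∩ {k : Fr N | 1 ≤ t * √(gram k)} := by
    ext k
    simp [Kt]
  rw [this]
  exact h1.inter_right h2

theorem isFrame_of_mem_Kt {t : ℝ} {k : Fr N} (hk : k ∈ Kt N t) : IsFrame k := by
  rw [← gram_pos_iff]
  have h := hk.2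
  by_contra hcon
  have : √(gram k) = 0 := Real.sqrt_eq_zero'.2 (not_lt.1 hcon)
  rw [this, mul_zero] at h
  linarith

theorem mem_Kt_of_bal {t : ℝ} {Z : Fr N} (h : 0 < bal t Z) : ‖Z‖⁻¹ • Z ∈ Kt N t := by
  obtain ⟨h1, h2⟩ := bal_pos h
  have hn : 0 < ‖Z‖ := norm_pos_iff.2 h2
  refine ⟨?_, ?_⟩
  · rw [norm_smul, norm_inv, norm_norm, inv_mul_cancel₀ hn.ne']
  · rw [sqrt_gram_smul (inv_pos.2 hn)]
    rw [inv_pow]
    have : t * ((‖Z‖ ^ 2)⁻¹ * √(gram Z)) = (t * √(gram Z)) / ‖Z‖ ^ 2 := by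
      rw [div_eq_mul_inv]; ring
    rw [this, one_le_div (by positivity)]
    exact h1.le

/-- integral arrays with property `p` in a sublevel set -/
def cset (p : CoZ m d → Prop) (M : Fr N → Co m d → ℝ) (Z : Fr N) (Y : ℝ) : Set (CoZ m d) :=
  {A | A ≠ 0 ∧ p A ∧ M Z (castA A) ≤ Y}

/-- their number -/
noncomputable def cnt (p : CoZ m d → Prop) (M : Fr N → Co m d → ℝ) (Z : Fr N) (Y : ℝ) : ℝ :=
  (cset p M Z Y).ncard

theorem cnt_nonneg (p : CoZ m d → Prop) (M : Fr N → Co m d → ℝ) (Z : Fr N) (Y : ℝ) :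
    0 ≤ cnt p M Z Y := Nat.cast_nonneg _

theorem cset_scale {M : Fr N → Co m d → ℝ} (hM : IsLocalNorm ℝ N m d M)
    (hw : m * (d * (d + 1) / 2) ≤ N) (p : CoZ m d → Prop) {Z : Fr N} (hZ : Z ≠ 0)
    (hF : IsFrame (‖Z‖⁻¹ • Z)) (Y : ℝ) :
    cset p M Z Y = cset p M (‖Z‖⁻¹ • Z) (Y * (‖Z‖ ^ (2 * N))⁻¹) := by
  have hn : 0 < ‖Z‖ := norm_pos_iff.2 hZ
  ext A
  simp only [cset, mem_ofPred_eq]
  refine and_congr_right fun hA => and_congr_right fun _ => ?_
  have h1 := hM.scaleZ hw hF (castA_ne_zero hA) hn.ne'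
  rw [smul_smul, mul_inv_cancel₀ hn.ne', one_smul, abs_of_pos hn] at h1
  rw [h1, ← div_eq_mul_inv, le_div_iff₀ (by positivity), mul_comm]

theorem one_le_norm_castA {A : CoZ m d} (hA : A ≠ 0) : 1 ≤ ‖castA A‖ := by
  obtain ⟨i, hi⟩ : ∃ i, A i ≠ 0 := by
    by_contra h
    push Not at h
    exact hA (funext h)
  obtain ⟨j, hj⟩ : ∃ j, A i j ≠ 0 := by
    by_contra h
    push Not at h
    exact hi (funext h)
  have h1 : |((A i j : ℤ) : ℝ)| ≤ ‖castA A‖ :=
    (norm_le_pi_norm (castA A i) j).trans (norm_le_pi_norm (castA A) i)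
  have h2 : (1:ℝ) ≤ |((A i j : ℤ) : ℝ)| := by
    have := Int.one_le_abs hj
    exact_mod_cast this
  linarith

theorem abs_le_norm_castA (A : CoZ m d) (i : Fin m) (j : Fin (d + 1)) :
    |((A i j : ℤ) : ℝ)| ≤ ‖castA A‖ :=
  (norm_le_pi_norm (castA A i) j).trans (norm_le_pi_norm (castA A) i)

/-- radius corresponding to a bound -/
theorem exists_rad {D : ℕ} (hD : 0 < D) {Q : ℝ} (hQ : 0 < Q) : ∃ X : ℝ, 0 < X ∧ X ^ D = Q := by
  refine ⟨Q ^ (1 / (D:ℝ)), Real.rpow_pos_of_pos hQ _, ?_⟩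
  rw [← Real.rpow_natCast, ← Real.rpow_mul hQ.le]
  have : (D:ℝ) ≠ 0 := by positivity
  field_simp
  exact Real.rpow_one Q

theorem cset_bound {M : Fr N → Co m d → ℝ} (hM : IsLocalNorm ℝ N m d M) (hm : 0 < m) (t : ℝ) :
    ∃ c C : ℝ, 0 < c ∧ 0 < C ∧ ∀ p : CoZ m d → Prop, ∀ k ∈ Kt N t, ∀ Y : ℝ,
      (Y < c → cset p M k Y = ∅) ∧ (cset p M k Y).Finite ∧ (0 < Y → cnt p M k Y ≤ C * Y) := by
  obtain ⟨c, _, hc, _, hb⟩ := hM.compact_bound (isCompact_Kt N t)
    (fun k hk => isFrame_of_mem_Kt hk)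
  set D := m * (d + 1) with hD
  have hD0 : 0 < D := Nat.mul_pos hm (Nat.succ_pos d)
  refine ⟨c, 3 ^ D / c, hc, by positivity, ?_⟩
  intro p k hk Y
  have hlow : ∀ A ∈ cset p M k Y, c * ‖castA A‖ ^ D ≤ Y := by
    rintro A ⟨hA, _, hMA⟩
    exact (hb k hk _ (castA_ne_zero hA)).1.trans hMA
  have h1 : Y < c → cset p M k Y = ∅ := by
    intro hY
    by_contra hne
    obtain ⟨A, hA⟩ := Set.nonempty_iff_ne_empty.2 hne
    have h2 := hlow A hA
    have h3 := one_le_pow₀ (n := D) (one_le_norm_castA hA.1)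
    nlinarith
  have hcard : ∀ S : Finset (CoZ m d), (∀ A ∈ S, A ∈ cset p M k Y) → 0 < Y →
      (S.card : ℝ) ≤ 3 ^ D / c * Y := by
    intro S hS hY
    rcases S.eq_empty_or_nonempty with rfl | ⟨A0, hA0⟩
    · simp only [Finset.card_empty, Nat.cast_zero]; positivity
    · obtain ⟨X, hX, hXD⟩ := exists_rad hD0 (Q := Y / c) (by positivity)
      have hle : ∀ A ∈ S, ‖castA A‖ ≤ X := by
        intro A hA
        have := hlow A (hS A hA)
        have h2 : ‖castA A‖ ^ D ≤ X ^ D := by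
          rw [hXD, le_div_iff₀ hc]; linarith
        exact (pow_le_pow_iff_left₀ (norm_nonneg _) hX.le hD0.ne').1 h2
      have hX1 : 1 ≤ X := (one_le_norm_castA (hS A0 hA0).1).trans (hle A0 hA0)
      have h3 := card_box_general (m := m) (d := d) (B := fun _ => X) (fun _ => hX1) S
        (fun A hA i j => (abs_le_norm_castA A i j).trans (hle A hA))
      refine h3.trans (le_of_eq ?_)
      rw [Finset.prod_const, Finset.card_univ, Fintype.card_fin, ← pow_mul, mul_comm (d + 1) m,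
        ← hD, mul_pow, hXD]
      ring
  have hfin : (cset p M k Y).Finite := by
    by_cases hY : 0 < Y
    · by_contra hinf
      have hinf : (cset p M k Y).Infinite := hinf
      obtain ⟨n, hn⟩ := exists_nat_gt (3 ^ D / c * Y)
      obtain ⟨s, hs, hs2⟩ := hinf.exists_subset_card_eq n
      have := hcard s (fun A hA => hs hA) hY
      rw [hs2] at this
      linarith
    · rw [h1 (by linarith)]; exact Set.finite_empty
  refine ⟨h1, hfin, ?_⟩
  intro hY
  rw [cnt, Set.ncard_eq_toFinset_card _ hfin]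
  exact hcard _ (fun A hA => hfin.mem_toFinset.1 hA) hY

/-- upper bound for the volume on the balanced part -/
theorem bodyVol_le {M : Fr N → Co m d → ℝ} (hM : IsLocalNorm ℝ N m d M) (hm : 0 < m) (t : ℝ) :
    ∃ U : ℝ, ∀ k ∈ Kt N t, bodyVol M k ≤ U := by
  obtain ⟨c, _, hc, _, hb⟩ := hM.compact_bound (isCompact_Kt N t)
    (fun k hk => isFrame_of_mem_Kt hk)
  have hD0 : 0 < m * (d + 1) := Nat.mul_pos hm (Nat.succ_pos d)
  obtain ⟨X, hX, hXD⟩ := exists_rad hD0 (Q := 1 / c) (by positivity)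
  refine ⟨(volume : Measure (Co m d)).real (closedBall 0 X), ?_⟩
  intro k hk
  refine measureReal_mono ?_ measure_closedBall_lt_top.ne
  rintro A ⟨hA, hMA⟩
  rw [mem_closedBall_zero_iff]
  have h1 := (hb k hk A hA).1
  have h2 : ‖A‖ ^ (m * (d + 1)) ≤ X ^ (m * (d + 1)) := by
    rw [hXD, le_div_iff₀ hc]; linarith
  exact (pow_le_pow_iff_left₀ (norm_nonneg _) hX.le hD0.ne').1 h2

theorem castZ_injective : Function.Injective (castZ : FrZ N → Fr N) := by
  intro Z Z' h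
  funext i j
  have := congrFun (congrFun h i) j
  simp only [castZ] at this
  exact_mod_cast this

theorem castA_injective : Function.Injective (castA : CoZ m d → Co m d) := by
  intro Z Z' h
  funext i j
  have := congrFun (congrFun h i) j
  simp only [castA] at this
  exact_mod_cast this

theorem castZ_ne_zero {Z : FrZ N} (hZ : Z ≠ 0) : castZ Z ≠ 0 := by
  intro h
  apply hZ
  apply castZ_injective
  rw [h]
  funext i j
  simp [castZ]

/-- congruence of integral arrays -/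
def Cong {a b : ℕ} (q : ℕ) (x y : Fin a → Fin b → ℤ) : Prop := ∀ i j, (q:ℤ) ∣ (x i j - y i j)

theorem mem_latt_castZ {q : ℕ} {Z Z0 : FrZ N} : castZ Z ∈ latt q Z0 ↔ Cong q Z Z0 := by
  constructor
  · rintro ⟨z, hz⟩ i j
    refine ⟨z i j, ?_⟩
    have := hz i j
    simp only [castZ] at this
    have h2 : ((Z i j - Z0 i j : ℤ) : ℝ) = (((q:ℤ) * z i j : ℤ) : ℝ) := by
      push_cast; linarith
    exact_mod_cast h2
  · intro h
    choose z hz using h
    refine ⟨z, ?_⟩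
    intro i j
    simp only [castZ]
    have h2 : ((Z i j - Z0 i j : ℤ) : ℝ) = (((q:ℤ) * z i j : ℤ) : ℝ) := by
      rw [hz i j]
    push_cast at h2
    linarith

theorem latt_eq_castZ {q : ℕ} {Z0 : FrZ N} {x : Fr N} (hx : x ∈ latt q Z0) :
    ∃ Z : FrZ N, castZ Z = x ∧ Cong q Z Z0 := by
  obtain ⟨z, hz⟩ := hx
  refine ⟨fun i j => Z0 i j + q * z i j, ?_, ?_⟩
  · funext i j
    simp only [castZ, hz i j]
    push_cast
    rfl
  · intro i j
    exact ⟨z i j, by ring⟩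

/-- The main summation theorem over integral frames in a congruence class. -/
theorem frame_sum {M : Fr N → Co m d → ℝ} (hM : IsLocalNorm ℝ N m d M)
    (hw : m * (d * (d + 1) / 2) ≤ N) (hm : 0 < m) (hN : 0 < N) {t : ℝ}
    {q : ℕ} (hq : 0 < q) (Z0 : FrZ N) (p : CoZ m d → Prop) {η : ℝ} (hη : 0 ≤ η)
    (hasymp : ∀ ε > 0, ∃ Y0 > 0, ∀ k ∈ Kt N t, ∀ Y, Y0 ≤ Y →
      |cnt p M k Y - η * bodyVol M k * Y| ≤ ε * Y)
    {c : ℝ} (hc : 0 < c)
    (hempty : ∀ k ∈ Kt N t, ∀ Y, Y < c → cset p M k Y = ∅) {ε : ℝ} (hε : 0 < ε) :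
    ∃ Y1, ∀ Y ≥ Y1, ∀ S : Finset (FrZ N), (∀ Z ∈ S, Cong q Z Z0 ∧ Z ≠ 0) →
      (∀ Z, Cong q Z Z0 → Z ≠ 0 → c * ‖castZ Z‖ ^ (2 * N) ≤ Y → Z ∈ S) →
      |(q:ℝ) ^ (2 * N) * ∑ Z ∈ S, wt t (castZ Z) * cnt p M (castZ Z) Y -
        η * kap volume (dens t M) / (2 * N : ℕ) * (Y * Real.log Y)| ≤ ε * (Y * Real.log Y) := by
  classical
  obtain ⟨_, C, _, hC, hbound⟩ := cset_bound hM hm t
  set Φ : Fr N → ℝ := fun Z => η * dens t M Z with hΦ
  have hdens := homNeg_dens hM hw hm t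
  have hΦn : HomNeg (2 * N) Φ :=
    { cont := continuousOn_const.mul hdens.cont
      nonneg := fun x => mul_nonneg hη (hdens.nonneg x)
      hom := by
        intro x hx s hs
        simp only [hΦ]
        rw [hdens.hom x hx s hs]
        ring }
  have hkap : kap volume Φ = η * kap volume (dens t M) := by
    simp only [kap, ann, hΦ]
    rw [integral_const_mul]
    ring
  set g : Fr N → ℝ → ℝ := fun Z Y => wt t Z * cnt p M Z Y with hg
  have hcases : ∀ Z : Fr N, Z ≠ 0 → ∀ Y : ℝ, (wt t Z = 0) ∨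
      (‖Z‖⁻¹ • Z ∈ Kt N t ∧ cset p M Z Y =
        cset p M (‖Z‖⁻¹ • Z) (Y * (‖Z‖ ^ (2 * N))⁻¹)) := by
    intro Z hZ Y
    by_cases h : wt t Z = 0
    · exact Or.inl h
    · right
      have h1 := mem_Kt_of_bal (wt_pos h)
      exact ⟨h1, cset_scale hM hw p hZ (isFrame_of_mem_Kt h1) Y⟩
  have key := (tiling_latt hq Z0).sum_asymp (finrank_piPi 2 N) (by omega) hΦn (g := g) (C := C)
    (c0 := c) hc hC.le ?_ ?_ ?_ hε
  · obtain ⟨Y1, hY1⟩ := key
    refine ⟨Y1, ?_⟩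
    intro Y hY S hS1 hS2
    have h := hY1 Y hY (S.image castZ) ?_ ?_
    · rw [Finset.sum_image (fun x _ y _ hxy => castZ_injective hxy)] at h
      rw [hkap] at h
      exact h
    · intro x hx
      obtain ⟨Z, hZ, rfl⟩ := Finset.mem_image.1 hx
      exact ⟨mem_latt_castZ.2 (hS1 Z hZ).1, castZ_ne_zero (hS1 Z hZ).2⟩
    · intro x hx hx0 hxY
      obtain ⟨Z, rfl, hZ⟩ := latt_eq_castZ hx
      refine Finset.mem_image_of_mem _ (hS2 Z hZ ?_ hxY)
      rintro rfl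
      apply hx0
      funext i j
      simp [castZ]
  · -- asymptotics
    intro ε' hε'
    obtain ⟨Y0, hY0, H⟩ := hasymp ε' hε'
    refine ⟨Y0, hY0, ?_⟩
    intro Z _ hZ0 Y hY
    have hn : 0 < ‖Z‖ := norm_pos_iff.2 hZ0
    have hYpos : 0 < Y := lt_of_lt_of_le (by positivity) hY
    rcases hcases Z hZ0 Y with h | ⟨h1, h2⟩
    · simp only [hg, hΦ, dens, h, zero_mul, mul_zero, sub_zero, abs_zero]
      positivity
    · have hfr := isFrame_of_mem_Kt h1
      have e1 : g Z Y = wt t Z * cnt p M (‖Z‖⁻¹ • Z) (Y * (‖Z‖ ^ (2 * N))⁻¹) := by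
        simp only [hg, cnt, h2]
      have e2 : bodyVol M Z = (‖Z‖ ^ (2 * N))⁻¹ * bodyVol M (‖Z‖⁻¹ • Z) := by
        have := hM.bodyVol_smul hw hm hfr hn
        rwa [smul_smul, mul_inv_cancel₀ hn.ne', one_smul] at this
      have e3 : Φ Z * Y = wt t Z * (η * bodyVol M (‖Z‖⁻¹ • Z) * (Y * (‖Z‖ ^ (2 * N))⁻¹)) := by
        simp only [hΦ, dens, e2]; ring
      rw [e1, e3, ← mul_sub, abs_mul, abs_of_nonneg (wt_nonneg _ _)]
      have h3 := H _ h1 (Y * (‖Z‖ ^ (2 * N))⁻¹) (by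
        rw [← div_eq_mul_inv, le_div_iff₀ (by positivity)]; exact hY)
      calc wt t Z * |cnt p M (‖Z‖⁻¹ • Z) (Y * (‖Z‖ ^ (2 * N))⁻¹) -
            η * bodyVol M (‖Z‖⁻¹ • Z) * (Y * (‖Z‖ ^ (2 * N))⁻¹)|
          ≤ 1 * (ε' * (Y * (‖Z‖ ^ (2 * N))⁻¹)) :=
            mul_le_mul (wt_le_one _ _) h3 (abs_nonneg _) zero_le_one
        _ = _ := by ring
  · -- upper bound
    intro Z _ hZ0 Y hY
    have hn : 0 < ‖Z‖ := norm_pos_iff.2 hZ0
    refine ⟨mul_nonneg (wt_nonneg _ _) (cnt_nonneg _ _ _ _), ?_⟩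
    rcases hcases Z hZ0 Y with h | ⟨h1, h2⟩
    · simp only [hg, h, zero_mul]
      positivity
    · have e1 : g Z Y = wt t Z * cnt p M (‖Z‖⁻¹ • Z) (Y * (‖Z‖ ^ (2 * N))⁻¹) := by
        simp only [hg, cnt, h2]
      rw [e1]
      have h3 := (hbound p _ h1 (Y * (‖Z‖ ^ (2 * N))⁻¹)).2.2 (by positivity)
      calc wt t Z * cnt p M (‖Z‖⁻¹ • Z) (Y * (‖Z‖ ^ (2 * N))⁻¹)
          ≤ 1 * (C * (Y * (‖Z‖ ^ (2 * N))⁻¹)) :=
            mul_le_mul (wt_le_one _ _) h3 (cnt_nonneg _ _ _ _) zero_le_one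
        _ = _ := by ring
  · -- vanishing
    intro Z _ hZ0 Y hY
    have hn : 0 < ‖Z‖ := norm_pos_iff.2 hZ0
    rcases hcases Z hZ0 Y with h | ⟨h1, h2⟩
    · simp only [hg, h, zero_mul]
    · have e1 : g Z Y = wt t Z * cnt p M (‖Z‖⁻¹ • Z) (Y * (‖Z‖ ^ (2 * N))⁻¹) := by
        simp only [hg, cnt, h2]
      have h3 := hempty _ h1 (Y * (‖Z‖ ^ (2 * N))⁻¹) (by
        rw [← div_eq_mul_inv, div_lt_iff₀ (by positivity)]; exact hY)
      rw [e1, cnt, h3, Set.ncard_empty]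
      simp

end Pool.Agent.Lib.MP_1acd66_nt
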