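import Pool.Agent.Lib.MP_1acd66_nt.Points

/-! The product formula and the height on integral coordinates. -/

namespace Pool.Agent.Lib.MP_1acd66_nt

open Filter

variable {N m d : ℕ}

/-- the family of `p`-adic absolute values of a rational number -/
noncomputable def pn (r : ℚ) (p : Nat.Primes) : ℝ := ‖(r : ℚ_[(p:ℕ)])‖

theorem pn_mul (r s : ℚ) (p : Nat.Primes) : pn (r * s) p = pn r p * pn s p := by
  simp only [pn]
  rw [Rat.cast_mul, norm_mul]

theorem pn_one (p : Nat.Primes) : pn 1 p = 1 := by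
  simp [pn]

theorem pn_nat_eq_one {n : ℕ} {p : Nat.Primes} (h : ¬ (p:ℕ) ∣ n) : pn (n:ℚ) p = 1 := by
  simp only [pn]
  rw [Padic.eq_padicNorm, (padicNorm.nat_eq_one_iff n).2 h, Rat.cast_one]

theorem pn_int_eq_one {n : ℤ} {p : Nat.Primes} (h : ¬ ((p:ℕ):ℤ) ∣ n) : pn (n:ℚ) p = 1 := by
  simp only [pn]
  rw [Padic.eq_padicNorm, (padicNorm.int_eq_one_iff n).2 h, Rat.cast_one]

theorem pn_int_le_one (n : ℤ) (p : Nat.Primes) : pn (n:ℚ) p ≤ 1 := by
  simp only [pn]
  rw [Rat.cast_intCast]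
  exact Padic.norm_int_le_one n

theorem eventually_not_dvd {n : ℤ} (hn : n ≠ 0) :
    ∀ᶠ p : Nat.Primes in cofinite, ¬ ((p:ℕ):ℤ) ∣ n := by
  rw [Filter.eventually_cofinite]
  have h : Set.Finite {k : ℕ | k ≤ n.natAbs} := Set.finite_le_nat _
  have h2 : {x : Nat.Primes | ¬¬ ((x:ℕ):ℤ) ∣ n} ⊆ (fun p : Nat.Primes => (p:ℕ)) ⁻¹' {k : ℕ | k ≤ n.natAbs} := by
    intro p hp
    have hp' : ((p:ℕ):ℤ) ∣ n := not_not.1 hp
    exact Nat.le_of_dvd (Int.natAbs_pos.2 hn) (Int.natCast_dvd.1 hp')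
  exact (h.preimage (Subtype.val_injective.injOn)).subset h2

theorem pn_eventually {r : ℚ} (hr : r ≠ 0) : ∀ᶠ p : Nat.Primes in cofinite, pn r p = 1 := by
  have h1 := eventually_not_dvd (n := r.num) (by simpa using hr)
  have h2 := eventually_not_dvd (n := (r.den : ℤ)) (by exact_mod_cast r.den_ne_zero)
  filter_upwards [h1, h2] with p h3 h4
  have h5 : pn (r.num : ℚ) p = 1 := pn_int_eq_one h3
  have h6 : pn ((r.den : ℤ) : ℚ) p = 1 := pn_int_eq_one h4
  have h7 : r * ((r.den : ℤ) : ℚ) = r.num := by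
    push_cast
    exact Rat.mul_den_eq_num r
  have h8 := pn_mul r ((r.den : ℤ) : ℚ) p
  rw [h7, h5, h6, mul_one] at h8
  exact h8.symm

theorem hasFinite_of_eventually {f : Nat.Primes → ℝ} (h : ∀ᶠ p in cofinite, f p = 1) :
    Function.HasFiniteMulSupport f := by
  rw [Filter.eventually_cofinite] at h
  exact h

theorem pn_hasFinite {r : ℚ} (hr : r ≠ 0) : Function.HasFiniteMulSupport (pn r) :=
  hasFinite_of_eventually (pn_eventually hr)

theorem finprod_pn_mul {r s : ℚ} (hr : r ≠ 0) (hs : s ≠ 0) :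
    ∏ᶠ p, pn (r * s) p = (∏ᶠ p, pn r p) * ∏ᶠ p, pn s p := by
  rw [← finprod_mul_distrib (pn_hasFinite hr) (pn_hasFinite hs)]
  exact finprod_congr fun p => pn_mul r s p

theorem finprod_pn_prime {q : ℕ} (hq : q.Prime) : ∏ᶠ p, pn (q:ℚ) p = (q:ℝ)⁻¹ := by
  rw [finprod_eq_single (pn (q:ℚ)) ⟨q, hq⟩]
  · simp only [pn]
    rw [Rat.cast_natCast]
    have : Fact q.Prime := ⟨hq⟩
    exact Padic.norm_p (p := q)
  · rintro ⟨p, hp⟩ hne
    apply pn_nat_eq_one
    intro hdvd
    apply hne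
    have : p = q := (Nat.prime_dvd_prime_iff_eq hp hq).1 hdvd
    exact Subtype.ext this

theorem finprod_pn_nat (n : ℕ) : n ≠ 0 → ∏ᶠ p, pn (n:ℚ) p = (n:ℝ)⁻¹ := by
  refine induction_on_primes (motive := fun n => n ≠ 0 → ∏ᶠ p, pn (n:ℚ) p = (n:ℝ)⁻¹) ?_ ?_ ?_ n
  · intro h
    exact absurd rfl h
  · intro _
    rw [Nat.cast_one, Nat.cast_one, inv_one]
    have : ∀ p, pn 1 p = 1 := pn_one
    rw [finprod_congr this, finprod_one]
  · intro p a hp ih h
    have ha : a ≠ 0 := right_ne_zero_of_mul h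
    have hp0 : (p:ℚ) ≠ 0 := by exact_mod_cast hp.ne_zero
    have ha0 : (a:ℚ) ≠ 0 := by exact_mod_cast ha
    rw [Nat.cast_mul, finprod_pn_mul hp0 ha0, ih ha, finprod_pn_prime hp, Nat.cast_mul, mul_inv]

/-- the product formula -/
theorem product_formula {r : ℚ} (hr : r ≠ 0) : ‖(r:ℝ)‖ * ∏ᶠ p, pn r p = 1 := by
  have hd : (r.den : ℚ) ≠ 0 := by exact_mod_cast r.den_ne_zero
  have hd' : (r.den : ℝ) ≠ 0 := by exact_mod_cast r.den_ne_zero
  have hnum : r.num ≠ 0 := by simpa using hr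
  have h1 : r * (r.den : ℚ) = r.num := Rat.mul_den_eq_num r
  have h2 := finprod_pn_mul hr hd
  rw [h1, finprod_pn_nat _ r.den_ne_zero] at h2
  have h3 : ∏ᶠ p, pn (r.num : ℚ) p = ((r.num.natAbs : ℕ) : ℝ)⁻¹ := by
    rw [← finprod_pn_nat _ (Int.natAbs_ne_zero.2 hnum)]
    refine finprod_congr fun p => ?_
    rcases Int.natAbs_eq r.num with h | h
    · conv_lhs => rw [h]
      rw [Int.cast_natCast]
    · have h' : (r.num : ℚ) = -((r.num.natAbs : ℕ) : ℚ) := by exact_mod_cast h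
      simp only [pn]
      rw [h', Rat.cast_neg, norm_neg]
  rw [h3] at h2
  have h4 : ((r.num.natAbs : ℕ) : ℝ) = ‖(r:ℝ)‖ * r.den := by
    have h5 : (r:ℝ) * r.den = r.num := by exact_mod_cast h1
    have h6 : ((r.num.natAbs : ℕ) : ℝ) = |(r.num : ℝ)| := by
      rw [Nat.cast_natAbs, Int.cast_abs]
    rw [h6, ← h5, abs_mul, Real.norm_eq_abs, Nat.abs_cast]
  have h7 : ‖(r:ℝ)‖ ≠ 0 := by
    rw [norm_ne_zero_iff]
    exact_mod_cast hr
  rw [h4, mul_inv] at h2
  have h8 : ∏ᶠ p, pn r p = (‖(r:ℝ)‖)⁻¹ := by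
    have := mul_right_cancel₀ (inv_ne_zero hd') h2
    exact this.symm
  rw [h8, mul_inv_cancel₀ h7]

section field

variable {K : Type*} [NormedField K] [CharZero K]

/-- rational matrices over a field -/
def matK (K : Type*) [NormedField K] (g : Matrix (Fin 2) (Fin 2) ℚ) : Matrix (Fin 2) (Fin 2) K :=
  fun i j => (g i j : K)

theorem castK_rowOp (g : Matrix (Fin 2) (Fin 2) ℚ) (Z : Fin 2 → Fin N → ℚ) :
    castK K (rowOp g Z) = rowOp (matK K g) (castK K Z) := by
  funext i j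
  simp only [castK, rowOp, matK]
  push_cast
  rfl

theorem castK_pull (g : Matrix (Fin 2) (Fin 2) ℚ) (A : Fin m → Fin (d + 1) → ℚ) :
    pull (matK K g) (castK K A) = castK K (pull g A) :=
  pull_map (Rat.castHom K) g A (matK K g) (fun _ _ => rfl)

theorem castK_ne_zero {a b : ℕ} {x : Fin a → Fin b → ℚ} (hx : x ≠ 0) : castK K x ≠ 0 := by
  intro h
  apply hx
  funext i j
  have := congrFun (congrFun h i) j
  simp only [castK, Pi.zero_apply, Rat.cast_eq_zero] at this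
  exact this

theorem minor_castK (Z : Fin 2 → Fin N → ℚ) (i j : Fin N) :
    minor (castK K Z) i j = ((minor Z i j : ℚ) : K) := by
  simp only [minor, castK]
  push_cast
  rfl

theorem isFrame_castK {Z : Fin 2 → Fin N → ℚ} (hZ : IsFrame Z) : IsFrame (castK K Z) := by
  obtain ⟨i, j, h⟩ := hZ
  exact ⟨i, j, by rw [minor_castK]; exact Rat.cast_ne_zero.2 h⟩

theorem local_same {M : (Fin 2 → Fin N → K) → (Fin m → Fin (d + 1) → K) → ℝ}
    (hM : IsLocalNorm K N m d M) {x y : Rep N m d} {g : Matrix (Fin 2) (Fin 2) ℚ} {s : ℚ}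
    (hg : g.det ≠ 0) (hs : s ≠ 0) (h1 : y.Z = rowOp g x.Z) (h2 : pull g y.A = s • x.A) :
    M (castK K y.Z) (castK K y.A) = ‖((g.det : ℚ) : K)‖ ^ (N - m * (d * (d + 1) / 2)) *
      (‖(s : K)‖ ^ (m * (d + 1)) * M (castK K x.Z) (castK K x.A)) := by
  have hdet : (matK K g).det = ((g.det : ℚ) : K) := by
    rw [Matrix.det_fin_two, Matrix.det_fin_two]
    simp only [matK]
    push_cast
    rfl
  have hdet0 : (matK K g).det ≠ 0 := by
    rw [hdet]; exact Rat.cast_ne_zero.2 hg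
  have hpb : IsPullback (matK K g) (castK K y.A) ((s:K) • castK K x.A) := by
    have e : (s:K) • castK K x.A = pull (matK K g) (castK K y.A) := by
      rw [castK_pull, h2]
      funext i j
      simp only [castK, Pi.smul_apply, smul_eq_mul]
      push_cast
      rfl
    rw [e]
    exact isPullback_pull _ _
  have h3 := hM.frame (castK K x.Z) (castK K y.A) _ (isFrame_castK x.frame)
    (castK_ne_zero y.ne) _ hdet0 hpb
  rw [hM.scale _ _ (isFrame_castK x.frame) (castK_ne_zero x.ne) _ (Rat.cast_ne_zero.2 hs),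
    ← castK_rowOp, ← h1, hdet] at h3
  exact h3

end field

/-- the local height at the prime `p` in terms of coordinates -/
noncomputable def AdelicNorm.loc (h : AdelicNorm N m d) (x : Rep N m d) (p : Nat.Primes) : ℝ :=
  h.fin p (castK ℚ_[(p : ℕ)] x.Z) (castK ℚ_[(p : ℕ)] x.A)

theorem norm_pi_eq_one {K : Type*} [NormedField K] {a b : ℕ} {x : Fin a → Fin b → K}
    (h1 : ∀ i j, ‖x i j‖ ≤ 1) {i : Fin a} {j : Fin b} (h2 : ‖x i j‖ = 1) : ‖x‖ = 1 := by
  refine le_antisymm ?_ ?_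
  · rw [pi_norm_le_iff_of_nonneg zero_le_one]
    intro i
    rw [pi_norm_le_iff_of_nonneg zero_le_one]
    exact h1 i
  · rw [← h2]
    exact (norm_le_pi_norm (x i) j).trans (norm_le_pi_norm x i)

theorem AdelicNorm.loc_eventually (h : AdelicNorm N m d) (x : Rep N m d) :
    ∀ᶠ p in cofinite, h.loc x p = 1 := by
  obtain ⟨S, hS⟩ := h.almost
  obtain ⟨i0, j0, h0⟩ := x.frame
  obtain ⟨i1, j1, h1⟩ : ∃ i j, x.A i j ≠ 0 := by
    by_contra hcon
    push Not at hcon
    exact x.ne (by funext i j; exact hcon i j)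
  have e0 : ∀ᶠ p : Nat.Primes in cofinite, p ∉ S := by
    rw [Filter.eventually_cofinite]
    simp only [not_not]
    exact S.finite_toSet
  have hle : ∀ r : ℚ, ∀ᶠ p : Nat.Primes in cofinite, pn r p ≤ 1 := by
    intro r
    by_cases hr : r = 0
    · filter_upwards with p
      simp [pn, hr]
    · filter_upwards [pn_eventually hr] with p hp
      exact hp.le
  have e1 : ∀ᶠ p : Nat.Primes in cofinite, ∀ i j, pn (x.Z i j) p ≤ 1 := by
    rw [Filter.eventually_all]
    intro i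
    rw [Filter.eventually_all]
    intro j
    exact hle _
  have e2 : ∀ᶠ p : Nat.Primes in cofinite, ∀ i j, pn (x.A i j) p ≤ 1 := by
    rw [Filter.eventually_all]
    intro i
    rw [Filter.eventually_all]
    intro j
    exact hle _
  filter_upwards [e0, e1, e2, pn_eventually h0, pn_eventually h1] with p a0 a1 a2 a3 a4
  have hA : ‖castK ℚ_[(p : ℕ)] x.A‖ = 1 := norm_pi_eq_one (fun i j => a2 i j) a4
  have h5 := hS p a0 (castK ℚ_[(p : ℕ)] x.Z) (castK ℚ_[(p : ℕ)] x.A) (fun i j => a1 i j)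
    ⟨i0, j0, by rw [minor_castK]; exact a3⟩ (castK_ne_zero x.ne)
  rw [hA, one_pow] at h5
  exact h5

/-- the height is well defined on points -/
theorem AdelicNorm.height_same (h : AdelicNorm N m d) {x y : Rep N m d} (hxy : Same x y) :
    h.height y = h.height x := by
  obtain ⟨g, s, hg, hs, h1, h2⟩ := same_iff.1 hxy
  set w := N - m * (d * (d + 1) / 2) with hw
  set D := m * (d + 1) with hD
  have e1 := local_same h.isNorm_inf hg hs h1 h2
  have e2 : ∀ p, h.loc y p = pn g.det p ^ w * (pn s p ^ D * h.loc x p) := fun p =>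
    local_same (h.isNorm_fin p) hg hs h1 h2
  have f1 : Function.HasFiniteMulSupport (fun p => pn g.det p ^ w) :=
    hasFinite_of_eventually (by
      filter_upwards [pn_eventually hg] with p hp
      rw [hp, one_pow])
  have f2 : Function.HasFiniteMulSupport (fun p => pn s p ^ D) :=
    hasFinite_of_eventually (by
      filter_upwards [pn_eventually hs] with p hp
      rw [hp, one_pow])
  have f3 : Function.HasFiniteMulSupport (h.loc x) :=
    hasFinite_of_eventually (h.loc_eventually x)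
  have f4 : Function.HasFiniteMulSupport (fun p => pn s p ^ D * h.loc x p) :=
    hasFinite_of_eventually (by
      filter_upwards [pn_eventually hs, h.loc_eventually x] with p hp hx
      rw [hp, hx, one_pow, mul_one])
  have e3 : ∏ᶠ p, h.loc y p = (∏ᶠ p, pn g.det p) ^ w * ((∏ᶠ p, pn s p) ^ D * ∏ᶠ p, h.loc x p) := by
    rw [finprod_congr e2, finprod_mul_distrib f1 f4, finprod_mul_distrib f2 f3,
      finprod_pow (pn_hasFinite hg), finprod_pow (pn_hasFinite hs)]
  have p1 := product_formula hg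
  have p2 := product_formula hs
  have e4 : h.height y = h.inf (castK ℝ y.Z) (castK ℝ y.A) * ∏ᶠ p, h.loc y p := rfl
  have e5 : h.height x = h.inf (castK ℝ x.Z) (castK ℝ x.A) * ∏ᶠ p, h.loc x p := rfl
  rw [e4, e5, e3, e1]
  have e6 : ‖((g.det : ℚ) : ℝ)‖ ^ w * (‖(s:ℝ)‖ ^ D * h.inf (castK ℝ x.Z) (castK ℝ x.A)) *
      ((∏ᶠ p, pn g.det p) ^ w * ((∏ᶠ p, pn s p) ^ D * ∏ᶠ p, h.loc x p)) =
      (‖((g.det : ℚ) : ℝ)‖ * ∏ᶠ p, pn g.det p) ^ w * ((‖(s:ℝ)‖ * ∏ᶠ p, pn s p) ^ D *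
        (h.inf (castK ℝ x.Z) (castK ℝ x.A) * ∏ᶠ p, h.loc x p)) := by
    rw [mul_pow, mul_pow]; ring
  rw [e6, p1, p2, one_pow, one_pow, one_mul, one_mul]

end Pool.Agent.Lib.MP_1acd66_nt
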