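import Mathlib

/-! Counting points of a discrete set which is the set of centres of a tiling. -/

set_option linter.unusedSectionVars false

open MeasureTheory Metric Set Filter Topology
open scoped ENNReal NNReal Pointwise

namespace Pool.Agent.Lib.MP_1acd66_nt

variable {E : Type*} [NormedAddCommGroup E] [MeasurableSpace E]

/-- `Λ` is the set of centres of a tiling of `E` by translates of `T`, a set of measure `v`
and contained in the ball of radius `ρ`. -/
structure Tiling (μ : Measure E) (Λ T : Set E) (v ρ : ℝ) : Prop where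
  meas : MeasurableSet T
  vol : μ T = ENNReal.ofReal v
  vpos : 0 < v
  rpos : 0 < ρ
  bdd : ∀ x ∈ T, ‖x‖ ≤ ρ
  cover : ∀ y, ∃ a ∈ Λ, y - a ∈ T
  disj : ∀ a ∈ Λ, ∀ b ∈ Λ, ∀ y, y - a ∈ T → y - b ∈ T → a = b

/-- translate of a tile -/
def cell (T : Set E) (a : E) : Set E := {y | y - a ∈ T}

variable [NormedSpace ℝ E] [BorelSpace E] [FiniteDimensional ℝ E]
  {μ : Measure E} [μ.IsAddHaarMeasure] {Λ T : Set E} {v ρ : ℝ}

theorem Tiling.measurableSet_cell (h : Tiling μ Λ T v ρ) (a : E) : MeasurableSet (cell T a) :=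
  h.meas.preimage (measurable_id.sub_const a)

theorem Tiling.measure_cell (h : Tiling μ Λ T v ρ) (a : E) :
    μ (cell T a) = ENNReal.ofReal v := by
  have : cell T a = (fun y => y + (-a)) ⁻¹' T := by
    ext y; simp [cell, sub_eq_add_neg]
  rw [this, measure_preimage_add_right, h.vol]

theorem Tiling.measure_biUnion (h : Tiling μ Λ T v ρ) (s : Finset E) (hs : ∀ a ∈ s, a ∈ Λ) :
    μ (⋃ a ∈ s, cell T a) = ENNReal.ofReal (v * s.card) := by
  rw [measure_biUnion_finset]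
  · simp only [h.measure_cell, Finset.sum_const, nsmul_eq_mul]
    rw [mul_comm v, ENNReal.ofReal_mul (by positivity), ENNReal.ofReal_natCast]
  · intro a ha b hb hab
    refine Set.disjoint_left.2 ?_
    intro y hy hy'
    exact hab (h.disj a (hs a ha) b (hs b hb) y hy hy')
  · intro a _
    exact h.measurableSet_cell a

theorem Tiling.card_le (h : Tiling μ Λ T v ρ) (s : Finset E) (hs : ∀ a ∈ s, a ∈ Λ) {R : ℝ}
    (hR : ∀ a ∈ s, ‖a‖ ≤ R) : v * s.card ≤ μ.real (closedBall 0 (R + ρ)) := by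
  have h1 : (⋃ a ∈ s, cell T a) ⊆ closedBall 0 (R + ρ) := by
    intro y hy
    simp only [mem_iUnion] at hy
    obtain ⟨a, ha, hya⟩ := hy
    rw [mem_closedBall_zero_iff]
    have := h.bdd _ hya
    calc ‖y‖ = ‖a + (y - a)‖ := by congr 1; abel
      _ ≤ ‖a‖ + ‖y - a‖ := norm_add_le _ _
      _ ≤ R + ρ := add_le_add (hR a ha) this
  have h2 := measure_mono (μ := μ) h1
  rw [h.measure_biUnion s hs] at h2
  have h3 : μ (closedBall (0:E) (R + ρ)) ≠ ⊤ := measure_closedBall_lt_top.ne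
  rw [Measure.real]
  rwa [← ENNReal.ofReal_le_iff_le_toReal h3]

theorem Tiling.finite (h : Tiling μ Λ T v ρ) (R : ℝ) : (Λ ∩ {a | ‖a‖ ≤ R}).Finite := by
  by_contra hinf
  have hinf : (Λ ∩ {a | ‖a‖ ≤ R}).Infinite := hinf
  obtain ⟨n, hn⟩ := exists_nat_gt (μ.real (closedBall (0:E) (R + ρ)) / v)
  obtain ⟨s, hs, hcard⟩ := hinf.exists_subset_card_eq n
  have := h.card_le s (fun a ha => (hs ha).1) (R := R) (fun a ha => (hs ha).2)
  rw [hcard] at this
  rw [div_lt_iff₀ h.vpos] at hn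
  linarith

/-- the sublevel sets of a function away from the origin -/
def sub (F : E → ℝ) (Y : ℝ) : Set E := {x | x ≠ 0 ∧ F x ≤ Y}

theorem measure_sub (F : E → ℝ) {D : ℕ} (hD : D = Module.finrank ℝ E) (hD0 : 0 < D)
    (hhom : ∀ x, x ≠ 0 → ∀ s : ℝ, 0 < s → F (s • x) = s ^ D * F x) {Y Y' : ℝ} (hY : 0 < Y) :
    μ (sub F (Y * Y')) = ENNReal.ofReal Y * μ (sub F Y') := by
  set s : ℝ := Y ^ (1 / (D:ℝ)) with hs
  have hspos : 0 < s := Real.rpow_pos_of_pos hY _
  have hsD : s ^ D = Y := by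
    rw [hs, ← Real.rpow_natCast, ← Real.rpow_mul hY.le]
    field_simp
    exact Real.rpow_one Y
  have : sub F (Y * Y') = s • sub F Y' := by
    ext x
    rw [mem_smul_set_iff_inv_smul_mem₀ hspos.ne']
    simp only [sub, mem_ofPred_eq]
    constructor
    · rintro ⟨hx, hFx⟩
      refine ⟨smul_ne_zero (inv_ne_zero hspos.ne') hx, ?_⟩
      rw [hhom x hx _ (inv_pos.2 hspos), inv_pow, hsD, inv_mul_le_iff₀ hY]
      exact hFx
    · rintro ⟨hx, hFx⟩
      have hx0 : x ≠ 0 := by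
        rintro rfl; simp at hx
      refine ⟨hx0, ?_⟩
      rw [hhom x hx0 _ (inv_pos.2 hspos), inv_pow, hsD, inv_mul_le_iff₀ hY] at hFx
      exact hFx
  rw [this, Measure.addHaar_smul_of_nonneg _ hspos.le, ← hD, hsD]

theorem sub_subset_ball (F : E → ℝ) {D : ℕ} (hD0 : 0 < D) {c : ℝ} (hc : 0 < c)
    (hFc : ∀ x, x ≠ 0 → c * ‖x‖ ^ D ≤ F x) (Y : ℝ) :
    ∃ R, ∀ x ∈ sub F Y, ‖x‖ ≤ R := by
  refine ⟨max 1 (Y / c), ?_⟩
  rintro x ⟨hx, hFx⟩
  by_contra hcon
  push Not at hcon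
  have h1 : 1 < ‖x‖ := lt_of_le_of_lt (le_max_left _ _) hcon
  have h2 : Y / c < ‖x‖ := lt_of_le_of_lt (le_max_right _ _) hcon
  have h3 : ‖x‖ ≤ ‖x‖ ^ D := le_self_pow₀ h1.le hD0.ne'
  have h4 := hFc x hx
  rw [div_lt_iff₀ hc] at h2
  nlinarith

theorem measure_sub_lt_top (F : E → ℝ) {D : ℕ} (hD0 : 0 < D) {c : ℝ} (hc : 0 < c)
    (hFc : ∀ x, x ≠ 0 → c * ‖x‖ ^ D ≤ F x) (Y : ℝ) : μ (sub F Y) < ⊤ := by
  obtain ⟨R, hR⟩ := sub_subset_ball F hD0 hc hFc Y
  refine lt_of_le_of_lt (measure_mono (t := closedBall 0 R) ?_) measure_closedBall_lt_top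
  intro x hx
  rw [mem_closedBall_zero_iff]
  exact hR x hx

theorem Tiling.finite_sub (h : Tiling μ Λ T v ρ) (F : E → ℝ) {D : ℕ} (hD0 : 0 < D) {c : ℝ}
    (hc : 0 < c) (hFc : ∀ x, x ≠ 0 → c * ‖x‖ ^ D ≤ F x) (Y : ℝ) : (Λ ∩ sub F Y).Finite := by
  obtain ⟨R, hR⟩ := sub_subset_ball F hD0 hc hFc Y
  exact (h.finite R).subset fun a ha => ⟨ha.1, hR a ha.2⟩

/-- The number of centres in a sublevel set, with an explicit error. -/
theorem Tiling.count (h : Tiling μ Λ T v ρ) (F : E → ℝ) {D : ℕ} (hD : D = Module.finrank ℝ E)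
    (hD0 : 0 < D) (hhom : ∀ x, x ≠ 0 → ∀ s : ℝ, 0 < s → F (s • x) = s ^ D * F x) {c : ℝ}
    (hc : 0 < c) (hFc : ∀ x, x ≠ 0 → c * ‖x‖ ^ D ≤ F x) {ε δ : ℝ} (hε : 0 < ε) (hδ : 0 < δ)
    (hmod : ∀ x y, x ≠ 0 → ‖y - x‖ ≤ δ * ‖x‖ → y ≠ 0 ∧ F y ≤ (1 + ε) * F x ∧ F x ≤ (1 + ε) * F y)
    {Y : ℝ} (hY : 0 < Y) :
    v * (Λ ∩ sub F Y).ncard ≤
        (1 + ε) * (Y * μ.real (sub F 1)) + μ.real (closedBall 0 (ρ / δ + ρ)) ∧
      Y * μ.real (sub F 1) ≤
        (1 + ε) * (v * (Λ ∩ sub F Y).ncard + μ.real (closedBall 0 (ρ / δ + ρ))) := by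
  have hfin := h.finite_sub F hD0 hc hFc Y
  set S := hfin.toFinset with hS
  have hcard : (Λ ∩ sub F Y).ncard = S.card := by
    rw [Set.ncard_eq_toFinset_card _ hfin]
  have hmemS : ∀ a, a ∈ S ↔ a ∈ Λ ∧ a ≠ 0 ∧ F a ≤ Y := by
    intro a; simp [hS, sub]
  have hvY : ∀ s : ℝ, 0 < s → μ.real (sub F (s * 1)) = s * μ.real (sub F 1) := by
    intro s hs
    rw [Measure.real, measure_sub F hD hD0 hhom hs, ENNReal.toReal_mul,
      ENNReal.toReal_ofReal hs.le, Measure.real]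
  set R := ρ / δ with hR
  have hRpos : 0 < R := div_pos h.rpos hδ
  constructor
  · -- upper bound
    set S1 := S.filter (fun a => ‖a‖ < R)
    set S2 := S.filter (fun a => ¬ ‖a‖ < R)
    have hsplit : S.card = S1.card + S2.card := by
      rw [← Finset.card_filter_add_card_filter_not (s := S) (fun a => ‖a‖ < R)]
    have h1 : v * S1.card ≤ μ.real (closedBall 0 (R + ρ)) := by
      refine h.card_le S1 (fun a ha => ((hmemS a).1 (Finset.mem_filter.1 ha).1).1) ?_
      intro a ha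
      exact (Finset.mem_filter.1 ha).2.le
    have h2 : v * S2.card ≤ (1 + ε) * (Y * μ.real (sub F 1)) := by
      have hsub : (⋃ a ∈ S2, cell T a) ⊆ sub F (((1 + ε) * Y) * 1) := by
        intro y hy
        simp only [mem_iUnion] at hy
        obtain ⟨a, ha, hya⟩ := hy
        obtain ⟨ha1, ha2⟩ := Finset.mem_filter.1 ha
        obtain ⟨_, ha0, hFa⟩ := (hmemS a).1 ha1
        have hle : ‖y - a‖ ≤ δ * ‖a‖ := by
          have := h.bdd _ hya
          push Not at ha2
          have : ρ ≤ δ * ‖a‖ := by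
            rw [hR, div_le_iff₀ hδ] at ha2
            linarith
          linarith
        obtain ⟨hy0, hFy, _⟩ := hmod a y ha0 hle
        refine ⟨hy0, hFy.trans ?_⟩
        rw [mul_one]
        exact mul_le_mul_of_nonneg_left hFa (by linarith)
      have hm := measure_mono (μ := μ) hsub
      rw [h.measure_biUnion S2
        (fun a ha => ((hmemS a).1 (Finset.mem_filter.1 ha).1).1)] at hm
      have htop : μ (sub F (((1 + ε) * Y) * 1)) ≠ ⊤ := (measure_sub_lt_top F hD0 hc hFc _).ne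
      rw [ENNReal.ofReal_le_iff_le_toReal htop] at hm
      have := hvY ((1 + ε) * Y) (by positivity)
      rw [Measure.real] at this
      rw [this] at hm
      linarith
    rw [hcard, hsplit]
    push_cast
    linarith
  · -- lower bound
    have hsub : sub F ((Y / (1 + ε)) * 1) ⊆ closedBall 0 (R + ρ) ∪ ⋃ a ∈ S, cell T a := by
      rintro y ⟨hy0, hFy⟩
      by_cases hyR : ‖y‖ ≤ R + ρ
      · left; rwa [mem_closedBall_zero_iff]
      · right
        push Not at hyR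
        obtain ⟨a, haΛ, hya⟩ := h.cover y
        have hb := h.bdd _ hya
        have hna : R < ‖a‖ := by
          have : ‖y‖ ≤ ‖a‖ + ‖y - a‖ := by
            calc ‖y‖ = ‖a + (y - a)‖ := by congr 1; abel
              _ ≤ _ := norm_add_le _ _
          linarith
        have ha0 : a ≠ 0 := by
          rintro rfl; simp at hna; linarith
        have hle : ‖y - a‖ ≤ δ * ‖a‖ := by
          have : ρ ≤ δ * ‖a‖ := by
            rw [hR, div_lt_iff₀ hδ] at hna
            linarith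
          linarith
        obtain ⟨_, _, hFa⟩ := hmod a y ha0 hle
        simp only [mem_iUnion]
        refine ⟨a, (hmemS a).2 ⟨haΛ, ha0, ?_⟩, hya⟩
        rw [mul_one, le_div_iff₀ (by linarith)] at hFy
        linarith
    have hm := measure_mono (μ := μ) hsub
    have hm2 := hm.trans (measure_union_le _ _)
    rw [h.measure_biUnion S (fun a ha => ((hmemS a).1 ha).1)] at hm2
    have hne : μ (closedBall (0:E) (R + ρ)) ≠ ⊤ := measure_closedBall_lt_top.ne
    have hm3 := ENNReal.toReal_mono (by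
      exact ENNReal.add_ne_top.2 ⟨hne, ENNReal.ofReal_ne_top⟩) hm2
    rw [ENNReal.toReal_add hne ENNReal.ofReal_ne_top, ENNReal.toReal_ofReal
      (by have := h.vpos; positivity)] at hm3
    have := hvY (Y / (1 + ε)) (by positivity)
    rw [Measure.real] at this
    rw [this] at hm3
    rw [hcard]
    have h1 : Y / (1 + ε) * μ.real (sub F 1) = (Y * μ.real (sub F 1)) / (1 + ε) := by ring
    rw [h1, div_le_iff₀ (by linarith)] at hm3
    have e : (μ (closedBall (0:E) (R + ρ))).toReal = μ.real (closedBall 0 (R + ρ)) := rfl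
    rw [e] at hm3
    linarith

end Pool.Agent.Lib.MP_1acd66_nt
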