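import Pool.Agent.Lib.MP_1acd66_nt.Forms

/-! Gram determinants of frames and Gram-Schmidt. -/

namespace Pool.Agent.Lib.MP_1acd66_nt

open Finset

section gram

variable {K : Type*} [CommRing K] {N : ℕ}

/-- dot product -/
def dot (x y : Fin N → K) : K := ∑ j, x j * y j

/-- Gram determinant -/
def gram (Z : Fin 2 → Fin N → K) : K := dot (Z 0) (Z 0) * dot (Z 1) (Z 1) - dot (Z 0) (Z 1) ^ 2

theorem sum_minor_sq (Z : Fin 2 → Fin N → K) :
    ∑ i, ∑ j, minor Z i j ^ 2 = 2 * gram Z := by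
  have e : ∀ i j, minor Z i j ^ 2 = (Z 0 i * Z 0 i) * (Z 1 j * Z 1 j) +
      (Z 1 i * Z 1 i) * (Z 0 j * Z 0 j) - 2 * ((Z 0 i * Z 1 i) * (Z 0 j * Z 1 j)) := by
    intro i j; simp only [minor]; ring
  simp_rw [e, Finset.sum_sub_distrib, Finset.sum_add_distrib, ← Finset.mul_sum, ← Finset.sum_mul]
  simp only [gram, dot]
  ring

theorem gram_rowOp (g : Matrix (Fin 2) (Fin 2) K) (Z : Fin 2 → Fin N → K) :
    gram (rowOp g Z) = g.det ^ 2 * gram Z := by
  have e00 : dot (rowOp g Z 0) (rowOp g Z 0) = g 0 0 ^ 2 * dot (Z 0) (Z 0) +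
      2 * (g 0 0 * g 0 1) * dot (Z 0) (Z 1) + g 0 1 ^ 2 * dot (Z 1) (Z 1) := by
    simp only [dot, rowOp, Finset.mul_sum, ← Finset.sum_add_distrib]
    refine Finset.sum_congr rfl fun j _ => ?_
    ring
  have e11 : dot (rowOp g Z 1) (rowOp g Z 1) = g 1 0 ^ 2 * dot (Z 0) (Z 0) +
      2 * (g 1 0 * g 1 1) * dot (Z 0) (Z 1) + g 1 1 ^ 2 * dot (Z 1) (Z 1) := by
    simp only [dot, rowOp, Finset.mul_sum, ← Finset.sum_add_distrib]
    refine Finset.sum_congr rfl fun j _ => ?_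
    ring
  have e01 : dot (rowOp g Z 0) (rowOp g Z 1) = g 0 0 * g 1 0 * dot (Z 0) (Z 0) +
      (g 0 0 * g 1 1 + g 0 1 * g 1 0) * dot (Z 0) (Z 1) + g 0 1 * g 1 1 * dot (Z 1) (Z 1) := by
    simp only [dot, rowOp, Finset.mul_sum, ← Finset.sum_add_distrib]
    refine Finset.sum_congr rfl fun j _ => ?_
    ring
  simp only [gram] at *
  rw [e00, e11, e01, Matrix.det_fin_two]
  ring

theorem dot_comm (x y : Fin N → K) : dot x y = dot y x := by
  simp only [dot]; exact Finset.sum_congr rfl fun j _ => mul_comm _ _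

theorem gram_map {L : Type*} [CommRing L] (f : K →+* L) (Z : Fin 2 → Fin N → K) :
    gram (fun i j => f (Z i j)) = f (gram Z) := by
  simp [gram, dot, map_sum]

end gram

variable {N m d : ℕ}

theorem gram_nonneg (Z : Fin 2 → Fin N → ℝ) : 0 ≤ gram Z := by
  have h := sum_minor_sq Z
  have : 0 ≤ ∑ i, ∑ j, minor Z i j ^ 2 :=
    Finset.sum_nonneg fun i _ => Finset.sum_nonneg fun j _ => sq_nonneg _
  linarith

theorem gram_pos_iff (Z : Fin 2 → Fin N → ℝ) : 0 < gram Z ↔ IsFrame Z := by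
  have h := sum_minor_sq Z
  constructor
  · intro hg
    by_contra hcon
    simp only [IsFrame, not_exists, not_not] at hcon
    simp [hcon] at h
    linarith
  · rintro ⟨i, j, hij⟩
    have h1 : 0 < ∑ i, ∑ j, minor Z i j ^ 2 := by
      refine Finset.sum_pos' (fun i _ => Finset.sum_nonneg fun j _ => sq_nonneg _) ⟨i, mem_univ _, ?_⟩
      exact Finset.sum_pos' (fun _ _ => sq_nonneg _) ⟨j, mem_univ _, by positivity⟩
    linarith

theorem dot_self_nonneg (x : Fin N → ℝ) : 0 ≤ dot x x :=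
  Finset.sum_nonneg fun j _ => mul_self_nonneg _

theorem continuous_gram : Continuous (fun Z : Fin 2 → Fin N → ℝ => gram Z) := by
  unfold gram dot
  fun_prop

theorem isOpen_frames : IsOpen {Z : Fin 2 → Fin N → ℝ | IsFrame Z} := by
  have : {Z : Fin 2 → Fin N → ℝ | IsFrame Z} = (fun Z => gram Z) ⁻¹' (Set.Ioi 0) := by
    ext Z
    rw [Set.mem_preimage, Set.mem_Ioi, gram_pos_iff]
    rfl
  rw [this]
  exact isOpen_Ioi.preimage continuous_gram

theorem dot_comb (x y : Fin N → ℝ) (β s : ℝ) :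
    dot (fun j => (y j - β * x j) / s) (fun j => (y j - β * x j) / s) =
      (dot y y - 2 * β * dot x y + β ^ 2 * dot x x) / s ^ 2 := by
  simp only [dot, Finset.mul_sum, ← Finset.sum_sub_distrib, ← Finset.sum_add_distrib,
    Finset.sum_div]
  refine Finset.sum_congr rfl fun j _ => ?_
  ring

theorem dot_comb' (x y : Fin N → ℝ) (β s t : ℝ) :
    dot (fun j => x j / s) (fun j => (y j - β * x j) / t) =
      (dot x y - β * dot x x) / (s * t) := by
  simp only [dot, Finset.mul_sum, ← Finset.sum_sub_distrib, Finset.sum_div]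
  refine Finset.sum_congr rfl fun j _ => ?_
  ring

/-- Gram-Schmidt for two vectors. -/
theorem gramSchmidt (Z : Fin 2 → Fin N → ℝ) (hZ : IsFrame Z) :
    ∃ (g : Matrix (Fin 2) (Fin 2) ℝ) (k : Fin 2 → Fin N → ℝ), g 0 1 = 0 ∧ 0 < g 0 0 ∧ 0 < g 1 1 ∧
      g 0 0 ^ 2 = dot (Z 0) (Z 0) ∧ (g 0 0 * g 1 1) ^ 2 = gram Z ∧
      Z = rowOp g k ∧ dot (k 0) (k 0) = 1 ∧ dot (k 1) (k 1) = 1 ∧ dot (k 0) (k 1) = 0 := by
  have hG : 0 < gram Z := (gram_pos_iff Z).2 hZ
  have h0 : 0 < dot (Z 0) (Z 0) := by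
    rcases (dot_self_nonneg (Z 0)).lt_or_eq with h | h
    · exact h
    · exfalso
      rw [gram, ← h] at hG
      nlinarith [sq_nonneg (dot (Z 0) (Z 1))]
  set a := dot (Z 0) (Z 0) with ha
  set b := dot (Z 0) (Z 1) with hb
  set c := dot (Z 1) (Z 1) with hc
  have hGabc : gram Z = a * c - b ^ 2 := rfl
  set s1 := Real.sqrt a with hs1
  have hs1p : 0 < s1 := Real.sqrt_pos.2 h0
  have hs1sq : s1 ^ 2 = a := Real.sq_sqrt h0.le
  set s2 := Real.sqrt (gram Z / a) with hs2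
  have hs2p : 0 < s2 := Real.sqrt_pos.2 (by positivity)
  have hs2sq : s2 ^ 2 = gram Z / a := Real.sq_sqrt (by positivity)
  set k : Fin 2 → Fin N → ℝ := ![fun j => Z 0 j / s1, fun j => (Z 1 j - b / a * Z 0 j) / s2] with hk
  have hk0 : ∀ j, k 0 j = Z 0 j / s1 := fun j => rfl
  have hk1 : ∀ j, k 1 j = (Z 1 j - b / a * Z 0 j) / s2 := fun j => rfl
  refine ⟨!![s1, 0; b / s1, s2], k, rfl, hs1p, hs2p, hs1sq, ?_, ?_, ?_, ?_, ?_⟩
  · simp only [Matrix.of_apply, Matrix.cons_val', Matrix.cons_val_zero, Matrix.cons_val_one,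
      Matrix.cons_val_fin_one]
    rw [mul_pow, hs1sq, hs2sq]
    field_simp
  · funext i j
    obtain rfl | rfl : i = 0 ∨ i = 1 := by omega
    · simp only [rowOp, Matrix.of_apply, Matrix.cons_val', Matrix.cons_val_zero,
        Matrix.cons_val_one, Matrix.cons_val_fin_one, hk0]
      field_simp
      ring
    · simp only [rowOp, Matrix.of_apply, Matrix.cons_val', Matrix.cons_val_zero,
        Matrix.cons_val_one, Matrix.cons_val_fin_one, hk0, hk1]
      have : b / s1 * (Z 0 j / s1) = b / a * Z 0 j := by rw [← hs1sq]; field_simp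
      rw [this]
      field_simp
      ring
  · have : dot (k 0) (k 0) = dot (Z 0) (Z 0) / s1 ^ 2 := by
      simp only [dot, hk0, Finset.sum_div]
      refine Finset.sum_congr rfl fun j _ => ?_
      ring
    rw [this, hs1sq, ← ha, div_self h0.ne']
  · have : dot (k 1) (k 1) = (c - 2 * (b / a) * b + (b / a) ^ 2 * a) / s2 ^ 2 :=
      dot_comb (Z 0) (Z 1) (b / a) s2
    rw [this, hs2sq, hGabc]
    have hne : a * c - b ^ 2 ≠ 0 := by rw [← hGabc]; exact hG.ne'
    have h3 : c - 2 * (b / a) * b + (b / a) ^ 2 * a = (a * c - b ^ 2) / a := by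
      field_simp; ring
    rw [h3, div_self]
    exact div_ne_zero hne h0.ne'
  · have : dot (k 0) (k 1) = (b - b / a * a) / (s1 * s2) :=
      dot_comb' (Z 0) (Z 1) (b / a) s1 s2
    rw [this, div_mul_cancel₀ _ h0.ne', sub_self, zero_div]

end Pool.Agent.Lib.MP_1acd66_nt
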