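import Pool.Agent.Lib.MP_1acd66_nt.MainSum

/-! The limit for a fixed balance parameter. -/

namespace Pool.Agent.Lib.MP_1acd66_nt

open MeasureTheory Metric Set Filter Topology
open scoped Classical

variable {N m d : ℕ}

/-- bounded functions on saturated frames and primitive arrays that are approximately constant on
residue classes -/
structure Tame (f : FrZ N → CoZ m d → ℝ) (f0 f1 : ℝ) : Prop where
  pos : 0 < f0
  le : f0 ≤ f1
  lo : ∀ Z A, SatZ Z → PrimA A → f0 ≤ f Z A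
  hi : ∀ Z A, SatZ Z → PrimA A → f Z A ≤ f1
  lp : ∀ ε > 0, ∃ q : ℕ, 0 < q ∧ ∀ Z A Z' A', SatZ Z → PrimA A → SatZ Z' → PrimA A' →
    Cong q Z Z' → Cong q A A' → f Z A ≤ (1 + ε) * f Z' A'

theorem cong_of_res_eq {a b q : ℕ} {x y : Fin a → Fin b → ℤ} (h : res q x = res q y) :
    Cong q x y := by
  have h1 := cong_res q x
  rw [h] at h1
  exact h1.trans (cong_res q y).symm

theorem Tame.classApprox {f : FrZ N → CoZ m d → ℝ} {f0 f1 : ℝ} (hf : Tame f f0 f1) {ε : ℝ}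
    (hε : 0 < ε) (hε1 : ε ≤ 1) (P : ℕ) :
    ∃ q : ℕ, 0 < q ∧ (∀ p : ℕ, p.Prime → p ≤ P → p ∣ q) ∧
      ∃ cc : FrZ N → CoZ m d → ℝ, ClassApprox f q cc f0 f1 ε := by
  obtain ⟨q0, hq0, hlp⟩ := hf.lp ε hε
  have hf0 := hf.pos
  have hf1 : 0 < f1 := hf0.trans_le hf.le
  refine ⟨q0 * P.factorial, Nat.mul_pos hq0 (Nat.factorial_pos P), ?_, ?_⟩
  · intro p hp hpP
    exact ((Nat.dvd_factorial hp.pos hpP)).mul_left q0
  set q := q0 * P.factorial with hq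
  have hqd : q0 ∣ q := Dvd.intro _ rfl
  set Q : FrZ N → CoZ m d → Prop := fun Z0 A0 =>
    ∃ Z A, SatZ Z ∧ PrimA A ∧ res q Z = Z0 ∧ res q A = A0 with hQ
  set cc : FrZ N → CoZ m d → ℝ := fun Z0 A0 =>
    if h : Q Z0 A0 then (f h.choose h.choose_spec.choose)⁻¹ else f1⁻¹ with hcc
  have hspec : ∀ Z0 A0, (h : Q Z0 A0) → ∃ Z A, SatZ Z ∧ PrimA A ∧ res q Z = Z0 ∧ res q A = A0 ∧
      cc Z0 A0 = (f Z A)⁻¹ := by
    intro Z0 A0 h
    refine ⟨h.choose, h.choose_spec.choose, h.choose_spec.choose_spec.1,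
      h.choose_spec.choose_spec.2.1, h.choose_spec.choose_spec.2.2.1,
      h.choose_spec.choose_spec.2.2.2, ?_⟩
    simp only [hcc]
    rw [dif_pos h]
  have hspec2 : ∀ Z0 A0, ¬ Q Z0 A0 → cc Z0 A0 = f1⁻¹ := by
    intro Z0 A0 h
    simp only [hcc]
    rw [dif_neg h]
  refine ⟨cc, ?_⟩
  refine ⟨hf0, hf1, hε, hε1, ?_, ?_, hf.lo, ?_, ?_⟩
  · intro Z0 A0
    by_cases h : Q Z0 A0
    · obtain ⟨Z, A, h1, h2, _, _, h5⟩ := hspec Z0 A0 h
      rw [h5]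
      exact inv_anti₀ (hf0.trans_le (hf.lo Z A h1 h2)) (hf.hi Z A h1 h2)
    · rw [hspec2 Z0 A0 h]
  · intro Z0 A0
    by_cases h : Q Z0 A0
    · obtain ⟨Z, A, h1, h2, _, _, h5⟩ := hspec Z0 A0 h
      rw [h5]
      exact inv_anti₀ hf0 (hf.lo Z A h1 h2)
    · rw [hspec2 Z0 A0 h]
      exact inv_anti₀ hf0 hf.le
  · intro Z A hZ hA
    obtain ⟨Z', A', h1, h2, h3, h4, h5⟩ := hspec (res q Z) (res q A) ⟨Z, A, hZ, hA, rfl, rfl⟩
    have h6 := hlp Z' A' Z A h1 h2 hZ hA ((cong_of_res_eq h3).of_dvd hqd)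
      ((cong_of_res_eq h4).of_dvd hqd)
    have hp : 0 < f Z' A' := hf0.trans_le (hf.lo Z' A' h1 h2)
    rw [h5]
    have e : (1 + ε) * (f Z' A')⁻¹ * f Z A = ((1 + ε) * f Z A) / f Z' A' := by
      rw [div_eq_mul_inv]; ring
    rw [e, one_le_div hp]
    exact h6
  · intro Z A hZ hA
    obtain ⟨Z', A', h1, h2, h3, h4, h5⟩ := hspec (res q Z) (res q A) ⟨Z, A, hZ, hA, rfl, rfl⟩
    have h6 := hlp Z A Z' A' hZ hA h1 h2 ((cong_of_res_eq h3).symm.of_dvd hqd)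
      ((cong_of_res_eq h4).symm.of_dvd hqd)
    have hp : 0 < f Z' A' := hf0.trans_le (hf.lo Z' A' h1 h2)
    rw [h5, inv_mul_le_iff₀ hp, mul_comm]
    exact h6

/-- the weighted number of pairs -/
noncomputable def XH (M : Fr N → Co m d → ℝ) (f : FrZ N → CoZ m d → ℝ) (t B : ℝ) : ℝ :=
  ∑ᶠ Z : FrZ N, (if SatZ Z then wt t (castZ Z) * ((hset M f Z B).ncard : ℝ) else 0)

theorem XH_eq {M : Fr N → Co m d → ℝ} (hM : IsLocalNorm ℝ N m d M)
    {f : FrZ N → CoZ m d → ℝ} {f0 f1 : ℝ} (hf : Tame f f0 f1) {t B : ℝ} {c : ℝ}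
    (hwc : ∀ Z : Fr N, wt t Z ≠ 0 → ∀ (p : CoZ m d → Prop) (Y : ℝ),
      Y < c * ‖Z‖ ^ (2 * N) → cset p M Z Y = ∅) (S : Finset (FrZ N))
    (hS : ∀ Z, Z ≠ 0 → c * ‖castZ Z‖ ^ (2 * N) ≤ f0⁻¹ * B → Z ∈ S) :
    XH M f t B = ∑ Z ∈ S.filter SatZ, wt t (castZ Z) * ((hset M f Z B).ncard : ℝ) := by
  rw [XH, finsum_eq_sum_of_support_subset (s := S), Finset.sum_filter]
  intro Z hZ
  rw [Function.mem_support] at hZ
  rw [Finset.mem_coe]
  have hsat : SatZ Z := by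
    by_contra h
    rw [if_neg h] at hZ
    exact hZ rfl
  rw [if_pos hsat] at hZ
  have hw0 : wt t (castZ Z) ≠ 0 := left_ne_zero_of_mul hZ
  have hn0 : ((hset M f Z B).ncard : ℝ) ≠ 0 := right_ne_zero_of_mul hZ
  have hne : (hset M f Z B).Nonempty := by
    by_contra h
    rw [Set.not_nonempty_iff_eq_empty] at h
    rw [h, Set.ncard_empty] at hn0
    exact hn0 Nat.cast_zero
  obtain ⟨A, hP, _, hMf⟩ := hne
  have hZ0 : Z ≠ 0 := by
    rintro rfl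
    obtain ⟨i, j, hij⟩ := hsat.isFrame
    apply hij
    simp [minor]
  refine hS Z hZ0 ?_
  by_contra hcon
  push Not at hcon
  have hemp := hwc (castZ Z) hw0 (fun _ => True) (f0⁻¹ * B) hcon
  have hmem : A ∈ cset (fun _ => True) M (castZ Z) (f0⁻¹ * B) := by
    refine ⟨hP.ne_zero, trivial, ?_⟩
    have hfl := hf.lo Z A hsat hP
    have hMpos : 0 < M (castZ Z) (castA A) :=
      hM.pos _ _ (isFrame_castZ hsat.isFrame) (castA_ne_zero hP.ne_zero)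
    rw [← div_eq_inv_mul, le_div_iff₀ hf.pos]
    have h5 : M (castZ Z) (castA A) * f0 ≤ M (castZ Z) (castA A) * f Z A :=
      mul_le_mul_of_nonneg_left hfl hMpos.le
    linarith
  rw [hemp] at hmem
  exact hmem

/-- the union of the boxes of frames used for the height bound `B` -/
noncomputable def SB (N : ℕ) (κ B : ℝ) : Finset (FrZ N) := frBox N (max 1 (κ * B))

theorem mem_SB {κ B l c : ℝ} (hN : 0 < N) (hc : 0 < c) (hl : 0 < l) (hlk : l ≤ κ * c) {Z : FrZ N}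
    (hZ : Z ≠ 0) (h : c * ‖castZ Z‖ ^ (2 * N) ≤ l * B) : Z ∈ SB N κ B := by
  have h1 := one_le_norm_castZ hZ
  have hB : 0 < B := by
    have : 0 < l * B := lt_of_lt_of_le (by positivity) h
    exact (mul_pos_iff_of_pos_left hl).1 this
  rw [SB, mem_frBox]
  refine ⟨hZ, le_trans ?_ (le_max_right _ _)⟩
  have h2 : ‖castZ Z‖ ≤ ‖castZ Z‖ ^ (2 * N) := le_self_pow₀ h1 (by omega)
  have h3 : c * ‖castZ Z‖ ≤ c * (κ * B) := by
    calc c * ‖castZ Z‖ ≤ c * ‖castZ Z‖ ^ (2 * N) := mul_le_mul_of_nonneg_left h2 hc.le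
      _ ≤ l * B := h
      _ ≤ (κ * c) * B := mul_le_mul_of_nonneg_right hlk hB.le
      _ = c * (κ * B) := by ring
  exact le_of_mul_le_mul_left h3 hc

theorem log_max_le {κ : ℝ} (hκ : 0 < κ) :
    ∀ᶠ B : ℝ in atTop, 1 + Real.log (max 1 (κ * B)) ≤ 2 * Real.log B := by
  filter_upwards [eventually_ge_atTop (Real.exp (1 + |Real.log κ|))] with B hB
  have hB0 : 0 < B := lt_of_lt_of_le (Real.exp_pos _) hB
  have h1 : 1 + |Real.log κ| ≤ Real.log B := by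
    rw [Real.le_log_iff_exp_le hB0]; exact hB
  have h2 := abs_nonneg (Real.log κ)
  rcases le_total 1 (κ * B) with h | h
  · rw [max_eq_right h, Real.log_mul hκ.ne' hB0.ne']
    have := le_abs_self (Real.log κ)
    linarith
  · rw [max_eq_left h, Real.log_one]
    linarith

end Pool.Agent.Lib.MP_1acd66_nt
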