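import Pool.Agent.Lib.MP_1acd66_nt.Residue
import Pool.Agent.Lib.MP_1acd66_nt.Asymp

/-! Counting over one balanced frame. -/

namespace Pool.Agent.Lib.MP_1acd66_nt

open MeasureTheory Metric Set Filter Topology
open scoped Classical

variable {N m d : ℕ}

/-- bounds for the counting function over a balanced frame -/
theorem wt_cset {M : Fr N → Co m d → ℝ} (hM : IsLocalNorm ℝ N m d M)
    (hw : m * (d * (d + 1) / 2) ≤ N) (hm : 0 < m) (t : ℝ) :
    ∃ c C : ℝ, 0 < c ∧ 0 < C ∧ ∀ Z : Fr N, wt t Z ≠ 0 → ∀ (p : CoZ m d → Prop) (Y : ℝ),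
      (cset p M Z Y).Finite ∧ (0 < Y → cnt p M Z Y ≤ C * Y * (‖Z‖ ^ (2 * N))⁻¹) ∧
      (Y < c * ‖Z‖ ^ (2 * N) → cset p M Z Y = ∅) := by
  obtain ⟨c, C, hc, hC, hb⟩ := cset_bound hM hm t
  refine ⟨c, C, hc, hC, ?_⟩
  intro Z hZ p Y
  have hbal := wt_pos hZ
  have hZ0 := (bal_pos hbal).2
  have hn : 0 < ‖Z‖ := norm_pos_iff.2 hZ0
  have hK := mem_Kt_of_bal hbal
  have hs := cset_scale hM hw p hZ0 (isFrame_of_mem_Kt hK) Y
  obtain ⟨h1, h2, h3⟩ := hb p _ hK (Y * (‖Z‖ ^ (2 * N))⁻¹)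
  refine ⟨by rw [hs]; exact h2, ?_, ?_⟩
  · intro hY
    have := h3 (by positivity)
    rw [cnt, hs]
    rw [cnt] at this
    linarith
  · intro hY
    rw [hs]
    refine h1 ?_
    rw [← div_eq_mul_inv, div_lt_iff₀ (by positivity)]
    exact hY

/-- summing over residue classes -/
theorem sum_cnt {M : Fr N → Co m d → ℝ} {Z : Fr N} {q : ℕ} (I : Finset (CoZ m d))
    (hI : I ⊆ RS m (d + 1) q) (Y : CoZ m d → ℝ) {Ym : ℝ} (hY : ∀ A0 ∈ I, Y A0 ≤ Ym)
    (hfin : (cset (fun _ => True) M Z Ym).Finite) :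
    ∑ A0 ∈ I, cnt (fun A => Cong q A A0) M Z (Y A0) =
      (({A : CoZ m d | A ≠ 0 ∧ res q A ∈ I ∧ M Z (castA A) ≤ Y (res q A)}.ncard : ℕ) : ℝ) ∧
    {A : CoZ m d | A ≠ 0 ∧ res q A ∈ I ∧ M Z (castA A) ≤ Y (res q A)}.Finite := by
  have hVfin : {A : CoZ m d | A ≠ 0 ∧ res q A ∈ I ∧ M Z (castA A) ≤ Y (res q A)}.Finite := by
    refine hfin.subset ?_
    rintro A ⟨hA, hAI, hMA⟩
    exact ⟨hA, trivial, hMA.trans (hY _ hAI)⟩
  refine ⟨?_, hVfin⟩
  rw [Set.ncard_eq_toFinset_card _ hVfin]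
  rw [Finset.card_eq_sum_card_fiberwise (f := fun A => res q A) (t := I)
    (s := hVfin.toFinset) (by
      intro A hA
      exact ((Set.Finite.mem_toFinset _).1 hA).2.1)]
  push_cast
  refine Finset.sum_congr rfl ?_
  intro A0 hA0
  rw [cnt]
  have hcf : (cset (fun A => Cong q A A0) M Z (Y A0)).Finite := by
    refine hfin.subset ?_
    rintro A ⟨hA, _, hMA⟩
    exact ⟨hA, trivial, hMA.trans (hY _ hA0)⟩
  rw [Set.ncard_eq_toFinset_card _ hcf]
  congr 2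
  ext A
  simp only [Set.Finite.mem_toFinset, Finset.mem_filter, mem_ofPred_eq, cset]
  constructor
  · rintro ⟨hA, hc, hMA⟩
    have hr : res q A = A0 := (res_eq_iff (hI hA0)).2 hc
    refine ⟨⟨hA, ?_, ?_⟩, hr⟩
    · rw [hr]; exact hA0
    · rw [hr]; exact hMA
  · rintro ⟨⟨hA, _, hMA⟩, hr⟩
    refine ⟨hA, (res_eq_iff (hI hA0)).1 hr, ?_⟩
    rw [← hr]; exact hMA

theorem cnt_mono {M : Fr N → Co m d → ℝ} {Z : Fr N} {p p' : CoZ m d → Prop} {Y Y' : ℝ}
    (hp : ∀ A, p A → p' A) (hY : Y ≤ Y') (hfin : (cset p' M Z Y').Finite) :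
    cnt p M Z Y ≤ cnt p' M Z Y' := by
  rw [cnt, cnt]
  have : cset p M Z Y ⊆ cset p' M Z Y' := by
    rintro A ⟨h1, h2, h3⟩
    exact ⟨h1, hp A h2, h3.trans hY⟩
  exact_mod_cast Set.ncard_le_ncard this hfin

/-- arrays divisible by `p` -/
theorem cnt_div {M : Fr N → Co m d → ℝ} (hM : IsLocalNorm ℝ N m d M) {Z : Fr N} (hZ : IsFrame Z)
    {p : ℕ} (hp : 0 < p) (Y : ℝ) :
    cnt (fun A => DivA p A) M Z Y = cnt (fun _ => True) M Z (Y * ((p:ℝ) ^ (m * (d + 1)))⁻¹) := by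
  have hp0 : (0:ℝ) < p := by exact_mod_cast hp
  have hpZ : (p:ℤ) ≠ 0 := by exact_mod_cast hp.ne'
  have hinj : Function.Injective (fun A : CoZ m d => (p:ℤ) • A) := by
    intro A B h
    funext i j
    have := congrFun (congrFun h i) j
    simp only [Pi.smul_apply, smul_eq_mul] at this
    exact mul_left_cancel₀ hpZ this
  rw [cnt, cnt, ← Set.ncard_image_of_injective
    (cset (fun _ => True) M Z (Y * ((p:ℝ) ^ (m * (d + 1)))⁻¹)) hinj]
  congr 2
  ext A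
  simp only [cset, mem_ofPred_eq, mem_image, true_and]
  have hcast : ∀ B : CoZ m d, castA ((p:ℤ) • B) = (p:ℝ) • castA B := by
    intro B
    funext i j
    simp only [castA, Pi.smul_apply, smul_eq_mul]
    push_cast
    rfl
  constructor
  · rintro ⟨hA, hdiv, hMA⟩
    have hdiv' : ∀ i j, ∃ c : ℤ, A i j = (p:ℤ) * c := fun i j => hdiv i j
    choose B hB using hdiv'
    have hAB : A = (p:ℤ) • B := by
      funext i j
      simp only [Pi.smul_apply, smul_eq_mul]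
      exact hB i j
    have hB0 : B ≠ 0 := by
      intro h0
      rw [h0, smul_zero] at hAB
      exact hA hAB
    refine ⟨B, ⟨hB0, ?_⟩, hAB.symm⟩
    rw [hAB, hcast, hM.homA hZ _ (castA_ne_zero hB0) _ hp0] at hMA
    rw [← div_eq_mul_inv, le_div_iff₀ (by positivity)]
    linarith
  · rintro ⟨B, ⟨hB0, hMB⟩, rfl⟩
    refine ⟨smul_ne_zero hpZ hB0, ?_, ?_⟩
    · intro i j
      exact ⟨B i j, rfl⟩
    · rw [hcast, hM.homA hZ _ (castA_ne_zero hB0) _ hp0]
      rw [← div_eq_mul_inv, le_div_iff₀ (by positivity)] at hMB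
      linarith

/-- arrays divisible by a large prime -/
theorem cnt_large_div {M : Fr N → Co m d → ℝ} (hM : IsLocalNorm ℝ N m d M)
    (hD : 2 ≤ m * (d + 1)) {Z : Fr N} (hZ : IsFrame Z) {K : ℝ} (hK : 0 ≤ K)
    (hfin : ∀ Y, (cset (fun _ => True) M Z Y).Finite)
    (hb : ∀ Y, 0 < Y → cnt (fun _ => True) M Z Y ≤ K * Y) {P : ℕ} (hP : 0 < P) {Y : ℝ}
    (hY : 0 < Y) :
    cnt (fun A => ∃ p : ℕ, p.Prime ∧ P < p ∧ DivA p A) M Z Y ≤ K * Y * (P:ℝ)⁻¹ := by
  set W := (hfin Y).toFinset with hW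
  have hWmem : ∀ A, A ∈ W ↔ A ≠ 0 ∧ M Z (castA A) ≤ Y := by
    intro A; simp [hW, cset]
  -- bound for the primes
  obtain ⟨L, hL⟩ : ∃ L : ℕ, ∀ A ∈ W, ∀ i j, (A i j).natAbs ≤ L := by
    refine ⟨W.sup (fun A => Finset.univ.sup (fun i => Finset.univ.sup (fun j => (A i j).natAbs))), ?_⟩
    intro A hA i j
    calc (A i j).natAbs ≤ Finset.univ.sup (fun j => (A i j).natAbs) :=
          Finset.le_sup (f := fun j => (A i j).natAbs) (Finset.mem_univ j)
      _ ≤ Finset.univ.sup (fun i => Finset.univ.sup (fun j => (A i j).natAbs)) :=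
          Finset.le_sup (f := fun i => Finset.univ.sup (fun j => (A i j).natAbs)) (Finset.mem_univ i)
      _ ≤ _ := Finset.le_sup (f := fun A : CoZ m d => Finset.univ.sup
          (fun i => Finset.univ.sup (fun j => (A i j).natAbs))) hA
  have hsub : cset (fun A => ∃ p : ℕ, p.Prime ∧ P < p ∧ DivA p A) M Z Y ⊆
      ((Finset.Ioc P (max P L)).biUnion (fun p => W.filter (fun A => DivA p A)) : Finset (CoZ m d)) := by
    rintro A ⟨hA, ⟨p, hp, hPp, hdiv⟩, hMA⟩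
    rw [Finset.mem_coe, Finset.mem_biUnion]
    have hAW : A ∈ W := (hWmem A).2 ⟨hA, hMA⟩
    refine ⟨p, Finset.mem_Ioc.2 ⟨hPp, ?_⟩, Finset.mem_filter.2 ⟨hAW, hdiv⟩⟩
    obtain ⟨i, hi⟩ : ∃ i, A i ≠ 0 := by
      by_contra h
      push Not at h
      exact hA (funext h)
    obtain ⟨j, hj⟩ : ∃ j, A i j ≠ 0 := by
      by_contra h
      push Not at h
      exact hi (funext h)
    have h1 : p ∣ (A i j).natAbs := Int.natCast_dvd.1 (hdiv i j)
    have h2 : p ≤ (A i j).natAbs := Nat.le_of_dvd (Int.natAbs_pos.2 hj) h1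
    exact (h2.trans (hL A hAW i j)).trans (le_max_right _ _)
  have h1 := Set.ncard_le_ncard hsub (Finset.finite_toSet _)
  rw [Set.ncard_coe_finset] at h1
  have h2 : ∀ p ∈ Finset.Ioc P (max P L), ((W.filter (fun A => DivA p A)).card : ℝ) ≤
      K * Y * (((p:ℝ) ^ 2)⁻¹) := by
    intro p hp
    have hp0 : 0 < p := by have := (Finset.mem_Ioc.1 hp).1; omega
    have hp1 : (1:ℝ) ≤ p := by exact_mod_cast hp0
    have e : ((W.filter (fun A => DivA p A)).card : ℝ) = cnt (fun A => DivA p A) M Z Y := by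
      rw [cnt]
      have hf : (cset (fun A => DivA p A) M Z Y).Finite := by
        refine (hfin Y).subset ?_
        rintro A ⟨a1, _, a3⟩
        exact ⟨a1, trivial, a3⟩
      rw [Set.ncard_eq_toFinset_card _ hf]
      congr 2
      ext A
      simp only [Finset.mem_filter, hWmem, Set.Finite.mem_toFinset, cset, mem_ofPred_eq]
      tauto
    rw [e, cnt_div hM hZ hp0]
    refine (hb _ (by positivity)).trans ?_
    rw [← mul_assoc]
    apply mul_le_mul_of_nonneg_left _ (by positivity)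
    exact inv_anti₀ (by positivity) (pow_le_pow_right₀ hp1 hD)
  have h3 : (((Finset.Ioc P (max P L)).biUnion (fun p => W.filter (fun A => DivA p A))).card : ℝ) ≤
      ∑ p ∈ Finset.Ioc P (max P L), ((W.filter (fun A => DivA p A)).card : ℝ) := by
    exact_mod_cast Finset.card_biUnion_le
  have h4 : ∑ p ∈ Finset.Ioc P (max P L), (((p:ℝ) ^ 2)⁻¹) ≤ (P:ℝ)⁻¹ := by
    have := sum_Ioc_inv_sq_le_sub (α := ℝ) hP.ne' (le_max_left P L)
    have h5 : (0:ℝ) ≤ ((max P L : ℕ) : ℝ)⁻¹ := by positivity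
    linarith
  calc cnt (fun A => ∃ p : ℕ, p.Prime ∧ P < p ∧ DivA p A) M Z Y
      ≤ (((Finset.Ioc P (max P L)).biUnion (fun p => W.filter (fun A => DivA p A))).card : ℝ) := by
        rw [cnt]; exact_mod_cast h1
    _ ≤ _ := h3
    _ ≤ ∑ p ∈ Finset.Ioc P (max P L), K * Y * (((p:ℝ) ^ 2)⁻¹) := Finset.sum_le_sum h2
    _ = K * Y * ∑ p ∈ Finset.Ioc P (max P L), (((p:ℝ) ^ 2)⁻¹) := by rw [Finset.mul_sum]
    _ ≤ K * Y * (P:ℝ)⁻¹ := mul_le_mul_of_nonneg_left h4 (by positivity)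

/-- primitive arrays without common zero, counted with a height function -/
def hset (M : Fr N → Co m d → ℝ) (f : FrZ N → CoZ m d → ℝ) (Z : FrZ N) (B : ℝ) :
    Set (CoZ m d) :=
  {A | PrimA A ∧ NoRootZ A ∧ M (castZ Z) (castA A) * f Z A ≤ B}

theorem PrimA.ne_zero {A : CoZ m d} (h : PrimA A) : A ≠ 0 := by
  rintro rfl
  obtain ⟨i, j, hij⟩ := h 2 Nat.prime_two
  exact hij (by simp)

theorem SatZ.isFrame {Z : FrZ N} (h : SatZ Z) : IsFrame Z := by
  obtain ⟨i, j, hij⟩ := h 2 Nat.prime_two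
  refine ⟨i, j, ?_⟩
  intro h0
  exact hij (by rw [h0]; exact dvd_zero _)

theorem primA_iff {A : CoZ m d} : PrimA A ↔ ∀ p : ℕ, p.Prime → ¬ DivA p A := by
  simp only [PrimA, DivA, not_forall]

theorem satZ_iff {Z : FrZ N} : SatZ Z ↔ ∀ p : ℕ, p.Prime → ¬ NonSatAt p Z := by
  simp only [SatZ, NonSatAt, not_forall]

/-- class functions approximating the height from both sides -/
structure ClassApprox (f : FrZ N → CoZ m d → ℝ) (q : ℕ) (cc : FrZ N → CoZ m d → ℝ) (f0 f1 ε : ℝ) :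
    Prop where
  pos : 0 < f0
  pos1 : 0 < f1
  eps : 0 < ε
  eps1 : ε ≤ 1
  lo : ∀ Z A, f1⁻¹ ≤ cc Z A
  hi : ∀ Z A, cc Z A ≤ f0⁻¹
  flo : ∀ Z A, SatZ Z → PrimA A → f0 ≤ f Z A
  up : ∀ Z A, SatZ Z → PrimA A → 1 ≤ (1 + ε) * cc (res q Z) (res q A) * f Z A
  dn : ∀ Z A, SatZ Z → PrimA A → cc (res q Z) (res q A) * f Z A ≤ 1 + ε

variable {f : FrZ N → CoZ m d → ℝ} {cc : FrZ N → CoZ m d → ℝ} {f0 f1 ε : ℝ}

/-- classes of arrays without small prime divisor -/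
noncomputable def IP (m d q P : ℕ) : Finset (CoZ m d) :=
  (RS m (d + 1) q).filter (fun A => ∀ p : ℕ, p.Prime → p ≤ P → ¬ DivA p A)

/-- classes of frames saturated at small primes -/
noncomputable def JP (N q P : ℕ) : Finset (FrZ N) :=
  (RS 2 N q).filter (fun Z => ∀ p : ℕ, p.Prime → p ≤ P → ¬ NonSatAt p Z)

theorem upper_local {M : Fr N → Co m d → ℝ} (hM : IsLocalNorm ℝ N m d M) {q P : ℕ}
    (hq : 0 < q) (hPq : ∀ p : ℕ, p.Prime → p ≤ P → p ∣ q)
    (hcc : ClassApprox f q cc f0 f1 ε) {Z : FrZ N} (hZ : SatZ Z)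
    (hfin : ∀ Y, (cset (fun _ => True) M (castZ Z) Y).Finite) {B : ℝ} (hB : 0 < B) :
    (((hset M f Z B).ncard : ℕ) : ℝ) ≤ ∑ A0 ∈ IP m d q P,
      cnt (fun A => Cong q A A0) M (castZ Z) ((1 + ε) * cc (res q Z) A0 * B) := by
  obtain ⟨h1, h2⟩ := sum_cnt (M := M) (Z := castZ Z) (q := q) (IP m d q P) (Finset.filter_subset _ _)
    (fun A0 => (1 + ε) * cc (res q Z) A0 * B) (Ym := 2 * f0⁻¹ * B) (by
      intro A0 _
      apply mul_le_mul_of_nonneg_right _ hB.le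
      have := hcc.hi (res q Z) A0
      have h0 := inv_pos.2 hcc.pos
      have h3 : 0 < cc (res q Z) A0 := (inv_pos.2 hcc.pos1).trans_le (hcc.lo _ _)
      nlinarith [hcc.eps, hcc.eps1]) (hfin _)
  rw [h1]
  have hsub : hset M f Z B ⊆ {A : CoZ m d | A ≠ 0 ∧ res q A ∈ IP m d q P ∧
      M (castZ Z) (castA A) ≤ (1 + ε) * cc (res q Z) (res q A) * B} := by
    rintro A ⟨hP, hnr, hMf⟩
    refine ⟨hP.ne_zero, ?_, ?_⟩
    · rw [IP, Finset.mem_filter]
      refine ⟨res_mem hq A, ?_⟩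
      intro p hp hpP hdiv
      exact (primA_iff.1 hP) p hp (hdiv.congr (hPq p hp hpP) (cong_res q A).symm)
    · have hf := hcc.flo Z A hZ hP
      have hfp : 0 < f Z A := hcc.pos.trans_le hf
      have hup := hcc.up Z A hZ hP
      have hMpos : 0 < M (castZ Z) (castA A) :=
        hM.pos _ _ (isFrame_castZ hZ.isFrame) (castA_ne_zero hP.ne_zero)
      set c := (1 + ε) * cc (res q Z) (res q A)
      have hcpos : 0 < c := by
        have := hcc.eps
        have h3 : 0 < cc (res q Z) (res q A) := (inv_pos.2 hcc.pos1).trans_le (hcc.lo _ _)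
        positivity
      calc M (castZ Z) (castA A) ≤ M (castZ Z) (castA A) * (c * f Z A) :=
            le_mul_of_one_le_right hMpos.le hup
        _ = c * (M (castZ Z) (castA A) * f Z A) := by ring
        _ ≤ c * B := mul_le_mul_of_nonneg_left hMf hcpos.le
  exact_mod_cast Set.ncard_le_ncard hsub h2

theorem lower_local {M : Fr N → Co m d → ℝ} (hM : IsLocalNorm ℝ N m d M) {q P : ℕ}
    (hPq : ∀ p : ℕ, p.Prime → p ≤ P → p ∣ q)
    (hcc : ClassApprox f q cc f0 f1 ε) {Z : FrZ N} (hZ : SatZ Z)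
    (hfin : ∀ Y, (cset (fun _ => True) M (castZ Z) Y).Finite) {B : ℝ} (hB : 0 < B) :
    ∑ A0 ∈ IP m d q P,
      cnt (fun A => Cong q A A0) M (castZ Z) ((1 + ε)⁻¹ * cc (res q Z) A0 * B) ≤
    (((hset M f Z B).ncard : ℕ) : ℝ) + cnt (fun A => ¬ NoRootZ A) M (castZ Z) (f0⁻¹ * B) +
      cnt (fun A => ∃ p : ℕ, p.Prime ∧ P < p ∧ DivA p A) M (castZ Z) (f0⁻¹ * B) := by
  have hε := hcc.eps
  have hle1 : (1 + ε)⁻¹ ≤ 1 := inv_le_one_of_one_le₀ (by linarith)
  have hYle : ∀ A0, (1 + ε)⁻¹ * cc (res q Z) A0 * B ≤ f0⁻¹ * B := by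
    intro A0
    apply mul_le_mul_of_nonneg_right _ hB.le
    have h1 := hcc.hi (res q Z) A0
    have h3 : 0 < cc (res q Z) A0 := (inv_pos.2 hcc.pos1).trans_le (hcc.lo _ _)
    calc (1 + ε)⁻¹ * cc (res q Z) A0 ≤ 1 * cc (res q Z) A0 :=
          mul_le_mul_of_nonneg_right hle1 h3.le
      _ ≤ f0⁻¹ := by rw [one_mul]; exact h1
  obtain ⟨h1, h2⟩ := sum_cnt (M := M) (Z := castZ Z) (q := q) (IP m d q P) (Finset.filter_subset _ _)
    (fun A0 => (1 + ε)⁻¹ * cc (res q Z) A0 * B) (Ym := f0⁻¹ * B) (fun A0 _ => hYle A0) (hfin _)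
  rw [h1]
  have hhfin : (hset M f Z B).Finite := by
    refine (hfin (f0⁻¹ * B)).subset ?_
    rintro A ⟨hP, _, hMf⟩
    refine ⟨hP.ne_zero, trivial, ?_⟩
    have hf := hcc.flo Z A hZ hP
    have hMpos : 0 < M (castZ Z) (castA A) :=
      hM.pos _ _ (isFrame_castZ hZ.isFrame) (castA_ne_zero hP.ne_zero)
    rw [← div_eq_inv_mul, le_div_iff₀ hcc.pos]
    have h5 : M (castZ Z) (castA A) * f0 ≤ M (castZ Z) (castA A) * f Z A :=
      mul_le_mul_of_nonneg_left hf hMpos.le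
    linarith
  have hf2 : ∀ p : CoZ m d → Prop, (cset p M (castZ Z) (f0⁻¹ * B)).Finite := by
    intro p
    refine (hfin (f0⁻¹ * B)).subset ?_
    rintro A ⟨a1, _, a3⟩
    exact ⟨a1, trivial, a3⟩
  have hsub : {A : CoZ m d | A ≠ 0 ∧ res q A ∈ IP m d q P ∧
      M (castZ Z) (castA A) ≤ (1 + ε)⁻¹ * cc (res q Z) (res q A) * B} ⊆
      (hset M f Z B ∪ cset (fun A => ¬ NoRootZ A) M (castZ Z) (f0⁻¹ * B)) ∪
        cset (fun A => ∃ p : ℕ, p.Prime ∧ P < p ∧ DivA p A) M (castZ Z) (f0⁻¹ * B) := by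
    rintro A ⟨hA0, hI, hMA⟩
    have hMA2 := hMA.trans (hYle (res q A))
    by_cases hnr : NoRootZ A
    · by_cases hP : PrimA A
      · left; left
        refine ⟨hP, hnr, ?_⟩
        have hf := hcc.flo Z A hZ hP
        have hfp : 0 < f Z A := hcc.pos.trans_le hf
        have hdn := hcc.dn Z A hZ hP
        calc M (castZ Z) (castA A) * f Z A
            ≤ ((1 + ε)⁻¹ * cc (res q Z) (res q A) * B) * f Z A :=
              mul_le_mul_of_nonneg_right hMA hfp.le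
          _ = (1 + ε)⁻¹ * B * (cc (res q Z) (res q A) * f Z A) := by ring
          _ ≤ (1 + ε)⁻¹ * B * (1 + ε) := mul_le_mul_of_nonneg_left hdn (by positivity)
          _ = B := by field_simp
      · right
        rw [primA_iff] at hP
        push Not at hP
        obtain ⟨p, hp, hdiv⟩ := hP
        refine ⟨hA0, ⟨p, hp, ?_, hdiv⟩, hMA2⟩
        by_contra hcon
        push Not at hcon
        rw [IP, Finset.mem_filter] at hI
        exact hI.2 p hp hcon (hdiv.congr (hPq p hp hcon) (cong_res q A))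
    · left; right
      exact ⟨hA0, hnr, hMA2⟩
  have h3 := Set.ncard_le_ncard hsub ((hhfin.union (hf2 _)).union (hf2 _))
  have h4 := Set.ncard_union_le (hset M f Z B ∪ cset (fun A => ¬ NoRootZ A) M (castZ Z) (f0⁻¹ * B))
    (cset (fun A => ∃ p : ℕ, p.Prime ∧ P < p ∧ DivA p A) M (castZ Z) (f0⁻¹ * B))
  have h5 := Set.ncard_union_le (hset M f Z B) (cset (fun A => ¬ NoRootZ A) M (castZ Z) (f0⁻¹ * B))
  rw [cnt, cnt]
  exact_mod_cast (h3.trans h4).trans (Nat.add_le_add_right h5 _)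

end Pool.Agent.Lib.MP_1acd66_nt
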