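import Pool.Agent.Lib.MP_1acd66_nt.Annulus

/-! Logarithmic sums of homogeneous functions over discrete sets. -/

set_option linter.unusedSectionVars false

open MeasureTheory Metric Set Filter Topology
open scoped ENNReal NNReal Pointwise

namespace Pool.Agent.Lib.MP_1acd66_nt

variable {E : Type*} [NormedAddCommGroup E] [MeasurableSpace E]
variable [NormedSpace ℝ E] [BorelSpace E] [FiniteDimensional ℝ E]
  {μ : Measure E} [μ.IsAddHaarMeasure] {Λ T : Set E} {v ρ : ℝ}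

open Classical in
/-- nonzero centres of norm at most `R` -/
noncomputable def Tiling.pts (h : Tiling μ Λ T v ρ) (R : ℝ) : Finset E :=
  (h.finite R).toFinset.filter (fun a => a ≠ 0)

theorem Tiling.mem_pts (h : Tiling μ Λ T v ρ) (R : ℝ) (a : E) :
    a ∈ h.pts R ↔ a ∈ Λ ∧ a ≠ 0 ∧ ‖a‖ ≤ R := by
  simp only [Tiling.pts, Finset.mem_filter, Set.Finite.mem_toFinset, mem_inter_iff, mem_ofPred_eq]
  tauto

theorem Tiling.pts_mono (h : Tiling μ Λ T v ρ) {R R' : ℝ} (hR : R ≤ R') : h.pts R ⊆ h.pts R' := by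
  intro a ha
  rw [h.mem_pts] at ha ⊢
  exact ⟨ha.1, ha.2.1, ha.2.2.trans hR⟩

/-- comparison of sums with integrals, upper bound -/
theorem Tiling.sum_le_ann (h : Tiling μ Λ T v ρ) {n : ℕ} {Φ : E → ℝ}
    (hΦ : HomNeg n Φ) {ε δ : ℝ} (hε : 0 < ε) (hδ : 0 < δ) (hδ2 : δ ≤ 1 / 2)
    (hmod : ∀ x y : E, x ≠ 0 → ‖y - x‖ ≤ δ * ‖x‖ → |Φ y - Φ x| ≤ ε * (‖y‖ ^ n)⁻¹)
    (S : Finset E) (R : ℝ)
    (hS : ∀ a ∈ S, a ∈ Λ ∧ ρ / δ ≤ ‖a‖ ∧ ‖a‖ ≤ R) :
    v * ∑ a ∈ S, Φ a ≤ ann μ Φ (ρ / δ - ρ) (R + ρ + 1) +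
      ε * ann μ (fun x => (‖x‖ ^ n)⁻¹) (ρ / δ - ρ) (R + ρ + 1) ∧
    ∫ x in ⋃ a ∈ S, cell T a, Φ x ∂μ ≤ v * ∑ a ∈ S, Φ a +
      ε * ann μ (fun x => (‖x‖ ^ n)⁻¹) (ρ / δ - ρ) (R + ρ + 1) := by
  classical
  have hρ := h.rpos
  have hRR : 0 < ρ / δ - ρ := by
    have : 2 * ρ ≤ ρ / δ := by
      rw [le_div_iff₀ hδ]; nlinarith
    linarith
  set Ψ : E → ℝ := fun x => (‖x‖ ^ n)⁻¹ with hΨdef
  have hΨ : HomNeg n Ψ := homNeg_norm n
  have hU : (⋃ a ∈ S, cell T a) ⊆ annulus E (ρ / δ - ρ) (R + ρ + 1) := by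
    intro y hy
    simp only [mem_iUnion] at hy
    obtain ⟨a, ha, hya⟩ := hy
    obtain ⟨_, h1, h2⟩ := hS a ha
    have hb := h.bdd _ hya
    have h3 : ‖y‖ ≤ ‖a‖ + ‖y - a‖ := by
      calc ‖y‖ = ‖a + (y - a)‖ := by congr 1; abel
        _ ≤ _ := norm_add_le _ _
    have h4 : ‖a‖ ≤ ‖y‖ + ‖y - a‖ := by
      calc ‖a‖ = ‖y - (y - a)‖ := by congr 1; abel
        _ ≤ _ := norm_sub_le _ _
    exact ⟨by linarith, by linarith⟩
  have hdisj : Set.Pairwise (↑S : Set E) (Function.onFun Disjoint (fun a => cell T a)) := by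
    intro a ha b hb hab
    refine Set.disjoint_left.2 ?_
    intro y hy hy'
    exact hab (h.disj a (hS a ha).1 b (hS b hb).1 y hy hy')
  have hmeas : ∀ a ∈ S, MeasurableSet (cell T a) := fun a _ => h.measurableSet_cell a
  have hiΦ : ∀ a ∈ S, IntegrableOn Φ (cell T a) μ := fun a ha =>
    (hΦ.integrableOn hRR _).mono_set ((subset_biUnion_of_mem (u := fun a => cell T a) ha).trans hU)
  have hiΨ : ∀ a ∈ S, IntegrableOn Ψ (cell T a) μ := fun a ha =>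
    (hΨ.integrableOn hRR _).mono_set ((subset_biUnion_of_mem (u := fun a => cell T a) ha).trans hU)
  have hv : ∀ a, μ.real (cell T a) = v := by
    intro a
    rw [Measure.real, h.measure_cell, ENNReal.toReal_ofReal h.vpos.le]
  have hcell : ∀ a ∈ S, ∀ y ∈ cell T a, |Φ y - Φ a| ≤ ε * Ψ y := by
    intro a ha y hya
    obtain ⟨_, h1, h2⟩ := hS a ha
    have hb := h.bdd _ hya
    refine hmod a y ?_ ?_
    · rintro rfl
      rw [norm_zero] at h1
      have : 0 < ρ / δ := by positivity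
      linarith
    · rw [div_le_iff₀ hδ] at h1
      linarith
  have hconst : ∀ a, ∫ x in cell T a, Φ a ∂μ = v * Φ a := by
    intro a
    rw [setIntegral_const, hv, smul_eq_mul]
  have hfin : ∀ a, μ (cell T a) ≠ ⊤ := by
    intro a; rw [h.measure_cell]; exact ENNReal.ofReal_ne_top
  have e1 : ∫ x in ⋃ a ∈ S, cell T a, Φ x ∂μ = ∑ a ∈ S, ∫ x in cell T a, Φ x ∂μ :=
    integral_biUnion_finset S hmeas hdisj hiΦ
  have e2 : ∫ x in ⋃ a ∈ S, cell T a, Ψ x ∂μ = ∑ a ∈ S, ∫ x in cell T a, Ψ x ∂μ :=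
    integral_biUnion_finset S hmeas hdisj hiΨ
  have b1 : ∫ x in ⋃ a ∈ S, cell T a, Φ x ∂μ ≤ ann μ Φ (ρ / δ - ρ) (R + ρ + 1) :=
    setIntegral_mono_set (hΦ.integrableOn hRR _) (Eventually.of_forall fun x => hΦ.nonneg x)
      hU.eventuallyLE
  have b2 : ∫ x in ⋃ a ∈ S, cell T a, Ψ x ∂μ ≤ ann μ Ψ (ρ / δ - ρ) (R + ρ + 1) :=
    setIntegral_mono_set (hΨ.integrableOn hRR _) (Eventually.of_forall fun x => hΨ.nonneg x)
      hU.eventuallyLE
  have hic : ∀ a, Integrable (fun _ : E => Φ a) (μ.restrict (cell T a)) :=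
    fun a => integrableOn_const (hfin a)
  have c1 : v * ∑ a ∈ S, Φ a ≤ ∑ a ∈ S, ∫ x in cell T a, Φ x ∂μ +
      ε * ∑ a ∈ S, ∫ x in cell T a, Ψ x ∂μ := by
    rw [Finset.mul_sum, Finset.mul_sum, ← Finset.sum_add_distrib]
    refine Finset.sum_le_sum ?_
    intro a ha
    rw [← hconst a, ← integral_const_mul, ← integral_add (hiΦ a ha) ((hiΨ a ha).const_mul ε)]
    refine setIntegral_mono_on ?_ ?_ (hmeas a ha) ?_
    · exact hic a
    · exact (hiΦ a ha).add ((hiΨ a ha).const_mul ε)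
    · intro y hy
      have := hcell a ha y hy
      rw [abs_le] at this
      linarith [this.1]
  have c2 : ∑ a ∈ S, ∫ x in cell T a, Φ x ∂μ ≤ v * ∑ a ∈ S, Φ a +
      ε * ∑ a ∈ S, ∫ x in cell T a, Ψ x ∂μ := by
    rw [Finset.mul_sum, Finset.mul_sum, ← Finset.sum_add_distrib]
    refine Finset.sum_le_sum ?_
    intro a ha
    rw [← hconst a, ← integral_const_mul,
      ← integral_add (hic a) ((hiΨ a ha).const_mul ε)]
    refine setIntegral_mono_on (hiΦ a ha) ?_ (hmeas a ha) ?_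
    · exact (hic a).add ((hiΨ a ha).const_mul ε)
    · intro y hy
      have := hcell a ha y hy
      rw [abs_le] at this
      linarith [this.2]
  rw [← e1, ← e2] at c1
  rw [← e1, ← e2] at c2
  constructor
  · nlinarith
  · nlinarith

/-- The logarithmic sum lemma. -/
theorem Tiling.logSum (h : Tiling μ Λ T v ρ) {n : ℕ} (hn : n = Module.finrank ℝ E) {Φ : E → ℝ}
    (hΦ : HomNeg n Φ) {ε : ℝ} (hε : 0 < ε) :
    ∃ C : ℝ, ∀ R : ℝ, 1 ≤ R → |v * ∑ a ∈ h.pts R, Φ a - kap μ Φ * Real.log R| ≤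
      ε * Real.log R + C := by
  classical
  have hρ := h.rpos
  set Ψ : E → ℝ := fun x => (‖x‖ ^ n)⁻¹ with hΨdef
  have hΨ : HomNeg n Ψ := homNeg_norm n
  set κ := kap μ Φ with hκ
  set κ1 := kap μ Ψ with hκ1
  have hκ0 : 0 ≤ κ := hΦ.kap_nonneg
  have hκ10 : 0 ≤ κ1 := hΨ.kap_nonneg
  set ε' := ε / (κ1 + 1) with hε'
  have hε'pos : 0 < ε' := by positivity
  obtain ⟨δ, hδ, hδ2, hmod⟩ := hΦ.modulus hε'pos
  have hRR : 0 < ρ / δ - ρ := by
    have : 2 * ρ ≤ ρ / δ := by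
      rw [le_div_iff₀ hδ]; nlinarith
    linarith
  have hεκ : ε' * κ1 ≤ ε := by
    rw [hε', div_mul_eq_mul_div, div_le_iff₀ (by linarith)]
    nlinarith
  -- uniform upper bound for annuli
  have hub : ∀ Ψ' : E → ℝ, HomNeg n Ψ' → ∀ R : ℝ, 1 ≤ R →
      ann μ Ψ' (ρ / δ - ρ) (R + ρ + 1) ≤ kap μ Ψ' * Real.log R +
        kap μ Ψ' * (|Real.log ((ρ + 2 + (ρ / δ - ρ)) / (ρ / δ - ρ))| + Real.log 2) := by
    intro Ψ' hΨ' R hR
    have hk0 : 0 ≤ kap μ Ψ' := hΨ'.kap_nonneg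
    have m1 : ann μ Ψ' (ρ / δ - ρ) (R + ρ + 1) ≤
        ann μ Ψ' (ρ / δ - ρ) (R * (ρ + 2 + (ρ / δ - ρ))) := by
      refine hΨ'.ann_mono hRR le_rfl ?_
      nlinarith
    have m2 := (hΨ'.ann_bound (μ := μ) hn (a := ρ / δ - ρ) (b := R * (ρ + 2 + (ρ / δ - ρ))) hRR
      (by nlinarith)).2
    have m3 : Real.log (R * (ρ + 2 + (ρ / δ - ρ)) / (ρ / δ - ρ)) =
        Real.log R + Real.log ((ρ + 2 + (ρ / δ - ρ)) / (ρ / δ - ρ)) := by
      rw [mul_div_assoc, Real.log_mul (by linarith)]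
      have : 0 < ρ + 2 + (ρ / δ - ρ) := by linarith
      positivity
    rw [m3] at m2
    have m4 : kap μ Ψ' * Real.log ((ρ + 2 + (ρ / δ - ρ)) / (ρ / δ - ρ)) ≤
        kap μ Ψ' * |Real.log ((ρ + 2 + (ρ / δ - ρ)) / (ρ / δ - ρ))| :=
      mul_le_mul_of_nonneg_left (le_abs_self _) hk0
    linarith
  set L := |Real.log ((ρ + 2 + (ρ / δ - ρ)) / (ρ / δ - ρ))| + Real.log 2 with hL
  have hL0 : 0 ≤ L := add_nonneg (abs_nonneg _) (Real.log_nonneg (by norm_num))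
  set C1 := v * ∑ a ∈ h.pts (ρ / δ), Φ a with hC1
  have hC10 : 0 ≤ C1 := mul_nonneg h.vpos.le (Finset.sum_nonneg fun a _ => hΦ.nonneg a)
  set R1 := 2 * (ρ / δ + ρ) + 2 * ρ + 1 with hR1
  have hR1pos : 1 ≤ R1 := by
    have : 0 < ρ / δ := by positivity
    linarith
  refine ⟨C1 + κ * L + ε' * (κ1 * L) + κ * (Real.log R1 + Real.log 2 + |Real.log (2 * (ρ / δ + ρ))|),
    ?_⟩
  intro R hR
  have hlogR : 0 ≤ Real.log R := Real.log_nonneg hR
  have hub1 := hub Φ hΦ R hR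
  have hub2 := hub Ψ hΨ R hR
  set S := h.pts R with hS
  set S2 := S.filter (fun a => ρ / δ ≤ ‖a‖) with hS2
  set S1 := S.filter (fun a => ¬ ρ / δ ≤ ‖a‖) with hS1
  have hS2p : ∀ a ∈ S2, a ∈ Λ ∧ ρ / δ ≤ ‖a‖ ∧ ‖a‖ ≤ R := by
    intro a ha
    obtain ⟨h1, h2⟩ := Finset.mem_filter.1 ha
    rw [hS, h.mem_pts] at h1
    exact ⟨h1.1, h2, h1.2.2⟩
  obtain ⟨u1, u2⟩ := h.sum_le_ann hΦ hε'pos hδ hδ2 hmod S2 R hS2p
  have hsplit : ∑ a ∈ S, Φ a = ∑ a ∈ S2, Φ a + ∑ a ∈ S1, Φ a := by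
    rw [hS2, hS1, Finset.sum_filter_add_sum_filter_not]
  have hS1le : v * ∑ a ∈ S1, Φ a ≤ C1 := by
    rw [hC1]
    refine mul_le_mul_of_nonneg_left ?_ h.vpos.le
    refine Finset.sum_le_sum_of_subset_of_nonneg ?_ (fun a _ _ => hΦ.nonneg a)
    intro a ha
    obtain ⟨h1, h2⟩ := Finset.mem_filter.1 ha
    rw [hS, h.mem_pts] at h1
    rw [h.mem_pts]
    exact ⟨h1.1, h1.2.1, (not_le.1 h2).le⟩
  have hS1nn : 0 ≤ v * ∑ a ∈ S1, Φ a :=
    mul_nonneg h.vpos.le (Finset.sum_nonneg fun a _ => hΦ.nonneg a)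
  have hub2' : ε' * ann μ Ψ (ρ / δ - ρ) (R + ρ + 1) ≤ ε * Real.log R + ε' * (κ1 * L) := by
    calc ε' * ann μ Ψ (ρ / δ - ρ) (R + ρ + 1) ≤ ε' * (κ1 * Real.log R + κ1 * L) :=
          mul_le_mul_of_nonneg_left hub2 hε'pos.le
      _ = (ε' * κ1) * Real.log R + ε' * (κ1 * L) := by ring
      _ ≤ ε * Real.log R + ε' * (κ1 * L) := by gcongr
  have hlogR1 : 0 ≤ Real.log R1 := Real.log_nonneg hR1pos
  have hl2 : 0 ≤ Real.log 2 := Real.log_nonneg (by norm_num)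
  rw [abs_le]
  constructor
  · -- lower bound
    by_cases hRR1 : R < R1
    · have h1 : κ * Real.log R ≤ κ * Real.log R1 :=
        mul_le_mul_of_nonneg_left (Real.log_le_log (by linarith) hRR1.le) hκ0
      have h2 : 0 ≤ v * ∑ a ∈ S, Φ a :=
        mul_nonneg h.vpos.le (Finset.sum_nonneg fun a _ => hΦ.nonneg a)
      have h3 : 0 ≤ κ * (Real.log 2 + |Real.log (2 * (ρ / δ + ρ))|) := by positivity
      have h4 : 0 ≤ κ * L := by positivity
      have h5 : 0 ≤ ε' * (κ1 * L) := by positivity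
      have h6 : 0 ≤ ε * Real.log R := by positivity
      have e3 : κ * (Real.log R1 + Real.log 2 + |Real.log (2 * (ρ / δ + ρ))|) =
        κ * Real.log R1 + κ * (Real.log 2 + |Real.log (2 * (ρ / δ + ρ))|) := by ring
      rw [e3]
      linarith
    · push Not at hRR1
      have hcov : annulus E (ρ / δ + ρ) (R - ρ) ⊆ ⋃ a ∈ S2, cell T a := by
        rintro y ⟨hy1, hy2⟩
        obtain ⟨a, haΛ, hya⟩ := h.cover y
        have hb := h.bdd _ hya
        have h3 : ‖y‖ ≤ ‖a‖ + ‖y - a‖ := by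
          calc ‖y‖ = ‖a + (y - a)‖ := by congr 1; abel
            _ ≤ _ := norm_add_le _ _
        have h4 : ‖a‖ ≤ ‖y‖ + ‖y - a‖ := by
          calc ‖a‖ = ‖y - (y - a)‖ := by congr 1; abel
            _ ≤ _ := norm_sub_le _ _
        simp only [mem_iUnion]
        have h5 : ρ / δ ≤ ‖a‖ := by linarith
        refine ⟨a, Finset.mem_filter.2 ⟨?_, h5⟩, hya⟩
        rw [hS, h.mem_pts]
        refine ⟨haΛ, ?_, by linarith⟩
        rintro rfl
        rw [norm_zero] at h5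
        have : 0 < ρ / δ := by positivity
        linarith
      have hUint : IntegrableOn Φ (⋃ a ∈ S2, cell T a) μ := by
        refine (hΦ.integrableOn hRR (R + ρ + 1)).mono_set ?_
        intro y hy
        simp only [mem_iUnion] at hy
        obtain ⟨a, ha, hya⟩ := hy
        obtain ⟨_, h1, h2⟩ := hS2p a ha
        have hb := h.bdd _ hya
        have h3 : ‖y‖ ≤ ‖a‖ + ‖y - a‖ := by
          calc ‖y‖ = ‖a + (y - a)‖ := by congr 1; abel
            _ ≤ _ := norm_add_le _ _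
        have h4 : ‖a‖ ≤ ‖y‖ + ‖y - a‖ := by
          calc ‖a‖ = ‖y - (y - a)‖ := by congr 1; abel
            _ ≤ _ := norm_sub_le _ _
        exact ⟨by linarith, by linarith⟩
      have l1 : ann μ Φ (ρ / δ + ρ) (R - ρ) ≤ ∫ x in ⋃ a ∈ S2, cell T a, Φ x ∂μ :=
        setIntegral_mono_set hUint (Eventually.of_forall fun x => hΦ.nonneg x)
          hcov.eventuallyLE
      have hpos2 : 0 < ρ / δ + ρ := by positivity
      have hRρ : ρ / δ + ρ ≤ R - ρ := by linarith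
      have l2 := (hΦ.ann_bound (μ := μ) hn (a := ρ / δ + ρ) (b := R - ρ) hpos2 hRρ).1
      have l3 : Real.log R - Real.log (2 * (ρ / δ + ρ)) ≤ Real.log ((R - ρ) / (ρ / δ + ρ)) := by
        rw [← Real.log_div (by linarith) (by positivity)]
        apply Real.log_le_log (by positivity)
        rw [div_le_div_iff₀ (by positivity) hpos2]
        nlinarith
      have l4 : Real.log (2 * (ρ / δ + ρ)) ≤ |Real.log (2 * (ρ / δ + ρ))| := le_abs_self _
      have l5 : κ * (Real.log R - |Real.log (2 * (ρ / δ + ρ))|) ≤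
          κ * Real.log ((R - ρ) / (ρ / δ + ρ)) := by
        apply mul_le_mul_of_nonneg_left _ hκ0
        linarith
      have h4 : 0 ≤ κ * L := by positivity
      have h7 : 0 ≤ κ * Real.log R1 := by positivity
      have e3 : κ * (Real.log R1 + Real.log 2 + |Real.log (2 * (ρ / δ + ρ))|) =
        κ * Real.log R1 + κ * Real.log 2 + κ * |Real.log (2 * (ρ / δ + ρ))| := by ring
      have e4 : κ * (Real.log R - |Real.log (2 * (ρ / δ + ρ))|) =
        κ * Real.log R - κ * |Real.log (2 * (ρ / δ + ρ))| := by ring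
      have e5 : v * (∑ a ∈ S2, Φ a + ∑ a ∈ S1, Φ a) = v * ∑ a ∈ S2, Φ a + v * ∑ a ∈ S1, Φ a := by
        ring
      rw [e4] at l5
      rw [hsplit, e3, e5]
      linarith
  · have h3 : 0 ≤ κ * (Real.log R1 + Real.log 2 + |Real.log (2 * (ρ / δ + ρ))|) := by positivity
    have e5 : v * (∑ a ∈ S2, Φ a + ∑ a ∈ S1, Φ a) = v * ∑ a ∈ S2, Φ a + v * ∑ a ∈ S1, Φ a := by
      ring
    rw [hsplit, e5]
    linarith

end Pool.Agent.Lib.MP_1acd66_nt
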