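import Pool.Agent.Lib.MP_1acd66_nt.Fixed

/-! Asymptotics of the weighted count for a fixed balance parameter. -/

namespace Pool.Agent.Lib.MP_1acd66_nt

open MeasureTheory Metric Set Filter Topology
open scoped Classical

variable {N m d : ℕ}

theorem tendsto_mul_log {l : ℝ} (hl : 0 < l) :
    Tendsto (fun B : ℝ => (l * B * Real.log (l * B)) / (B * Real.log B)) atTop (𝓝 l) := by
  have h1 : Tendsto (fun B : ℝ => l * (1 + Real.log l / Real.log B)) atTop (𝓝 (l * (1 + 0))) :=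
    (tendsto_const_nhds.add (tendsto_const_nhds.div_atTop Real.tendsto_log_atTop)).const_mul l
  rw [add_zero, mul_one] at h1
  refine h1.congr' ?_
  filter_upwards [eventually_gt_atTop 1] with B hB
  have hlog : 0 < Real.log B := Real.log_pos hB
  rw [Real.log_mul hl.ne' (by linarith)]
  field_simp
  ring

/-- from an approximate asymptotic to a limit -/
theorem tendsto_of_bounds {F : ℝ → ℝ} {a L l : ℝ} (ha : 0 < a) (hl : 0 < l)
    (h : ∀ ε > 0, ∀ᶠ B in atTop, |a * F B - L * (l * B * Real.log (l * B))| ≤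
      ε * (l * B * Real.log (l * B))) :
    Tendsto (fun B => F B / (B * Real.log B)) atTop (𝓝 (l * L / a)) := by
  have h1 : Tendsto (fun B => F B / (l * B * Real.log (l * B))) atTop (𝓝 (L / a)) := by
    rw [Metric.tendsto_nhds]
    intro ε hε
    filter_upwards [h (ε * a / 2) (by positivity), eventually_gt_atTop (max 1 (2 / l))] with B hB hB1
    have hB2 : 2 / l < B := lt_of_le_of_lt (le_max_right _ _) hB1
    have hlB : 1 < l * B := by
      rw [div_lt_iff₀ hl] at hB2; linarith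
    have hpos : 0 < l * B * Real.log (l * B) := mul_pos (by linarith) (Real.log_pos hlB)
    set W := l * B * Real.log (l * B) with hW
    rw [Real.dist_eq]
    have e : F B / W - L / a = (a * F B - L * W) / (a * W) := by field_simp
    rw [e, abs_div, abs_of_pos (by positivity : 0 < a * W), div_lt_iff₀ (by positivity)]
    have : ε * a / 2 * W < ε * (a * W) := by nlinarith [mul_pos (mul_pos hε ha) hpos]
    linarith
  have h2 := h1.mul (tendsto_mul_log hl)
  have e2 : L / a * l = l * L / a := by ring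
  rw [e2] at h2
  refine h2.congr' ?_
  filter_upwards [eventually_gt_atTop (max 1 (2 / l))] with B hB1
  have hB2 : 2 / l < B := lt_of_le_of_lt (le_max_right _ _) hB1
  have hB3 : 1 < B := lt_of_le_of_lt (le_max_left _ _) hB1
  have hlB : 1 < l * B := by
    rw [div_lt_iff₀ hl] at hB2; linarith
  have hpos : 0 < l * B * Real.log (l * B) := mul_pos (by linarith) (Real.log_pos hlB)
  have hpos2 : 0 < B * Real.log B := mul_pos (by linarith) (Real.log_pos hB3)
  rw [div_mul_div_cancel₀ hpos.ne']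

/-- existence of a limit from approximate limits -/
theorem exists_lim_of_approx {g : ℝ → ℝ} {a b : ℝ}
    (h : ∀ δ > 0, ∃ κ, a ≤ κ ∧ κ ≤ b ∧ ∀ᶠ B in atTop, |g B - κ| ≤ δ) :
    ∃ κ, a ≤ κ ∧ κ ≤ b ∧ Tendsto g atTop (𝓝 κ) := by
  have hc : Cauchy (map g atTop) := by
    rw [Metric.cauchy_iff]
    refine ⟨inferInstance, ?_⟩
    intro ε hε
    obtain ⟨κ, _, _, hκ⟩ := h (ε / 4) (by positivity)
    refine ⟨{y | |y - κ| ≤ ε / 4}, hκ, ?_⟩
    intro x hx y hy
    simp only [mem_ofPred_eq] at hx hy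
    rw [Real.dist_eq]
    have : x - y = (x - κ) - (y - κ) := by ring
    rw [this]
    calc |(x - κ) - (y - κ)| ≤ |x - κ| + |y - κ| := abs_sub _ _
      _ < ε := by linarith
  obtain ⟨κ, hκ⟩ := CompleteSpace.complete hc
  have hκ' : Tendsto g atTop (𝓝 κ) := hκ
  refine ⟨κ, ?_, ?_, hκ'⟩
  · refine le_of_forall_pos_le_add ?_
    intro δ hδ
    obtain ⟨κ', h1, _, h3⟩ := h (δ / 2) (by positivity)
    have h4 : Tendsto (fun B => |g B - κ'|) atTop (𝓝 |κ - κ'|) :=
      (hκ'.sub tendsto_const_nhds).abs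
    have h5 := le_of_tendsto h4 h3
    have := abs_le.1 h5
    linarith
  · refine le_of_forall_pos_le_add ?_
    intro δ hδ
    obtain ⟨κ', _, h2, h3⟩ := h (δ / 2) (by positivity)
    have h4 : Tendsto (fun B => |g B - κ'|) atTop (𝓝 |κ - κ'|) :=
      (hκ'.sub tendsto_const_nhds).abs
    have h5 := le_of_tendsto h4 h3
    have := abs_le.1 h5
    linarith

theorem sum_classes {q : ℕ} (J : Finset (FrZ N)) (hJ : J ⊆ RS 2 N q) (S : Finset (FrZ N))
    (h : FrZ N → FrZ N → ℝ) :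
    ∑ Z0 ∈ J, ∑ Z ∈ S.filter (fun Z => Cong q Z Z0), h Z Z0 =
      ∑ Z ∈ S.filter (fun Z => res q Z ∈ J), h Z (res q Z) := by
  rw [← Finset.sum_fiberwise_of_maps_to (s := S.filter (fun Z => res q Z ∈ J)) (t := J)
    (g := fun Z => res q Z) (fun Z hZ => (Finset.mem_filter.1 hZ).2)]
  refine Finset.sum_congr rfl ?_
  intro Z0 hZ0
  refine Finset.sum_congr ?_ ?_
  · ext Z
    simp only [Finset.mem_filter]
    constructor
    · rintro ⟨h1, h2⟩
      have := (res_eq_iff (hJ hZ0)).2 h2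
      exact ⟨⟨h1, by rw [this]; exact hZ0⟩, this⟩
    · rintro ⟨⟨h1, _⟩, h2⟩
      exact ⟨h1, (res_eq_iff (hJ hZ0)).1 h2⟩
  · intro Z hZ
    rw [(Finset.mem_filter.1 hZ).2]

/-- the class sum -/
noncomputable def Gs (M : Fr N → Co m d → ℝ) (t : ℝ) (q : ℕ) (Z0 : FrZ N) (A0 : CoZ m d)
    (S : Finset (FrZ N)) (Y : ℝ) : ℝ :=
  ∑ Z ∈ S.filter (fun Z => Cong q Z Z0), wt t (castZ Z) *
    cnt (fun A => Cong q A A0) M (castZ Z) Y

theorem Gs_tendsto {M : Fr N → Co m d → ℝ} (hM : IsLocalNorm ℝ N m d M)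
    (hw : m * (d * (d + 1) / 2) ≤ N) (hm : 0 < m) (hN : 0 < N) (t : ℝ) {q : ℕ} (hq : 0 < q)
    (Z0 : FrZ N) (A0 : CoZ m d) {c : ℝ} (hc : 0 < c)
    (hempty : ∀ p : CoZ m d → Prop, ∀ k ∈ Kt N t, ∀ Y, Y < c → cset p M k Y = ∅)
    {l : ℝ} (hl : 0 < l) {S : ℝ → Finset (FrZ N)} (hS0 : ∀ B, ∀ Z ∈ S B, Z ≠ 0)
    (hS : ∀ B, ∀ Z, Z ≠ 0 → c * ‖castZ Z‖ ^ (2 * N) ≤ l * B → Z ∈ S B) :
    Tendsto (fun B => Gs M t q Z0 A0 (S B) (l * B) / (B * Real.log B)) atTop
      (𝓝 (l * (((q:ℝ) ^ (m * (d + 1)))⁻¹ * kap volume (dens t M) / (2 * N : ℕ)) /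
        (q:ℝ) ^ (2 * N))) := by
  have hq' : (0:ℝ) < q := by exact_mod_cast hq
  refine tendsto_of_bounds (by positivity) hl ?_
  intro ε hε
  obtain ⟨Y1, hY1⟩ := frame_sum hM hw hm hN hq Z0 (fun A => Cong q A A0)
    (η := ((q:ℝ) ^ (m * (d + 1)))⁻¹) (by positivity) (cong_asymp hM hm t hq A0) hc
    (hempty _) hε
  filter_upwards [eventually_ge_atTop (Y1 / l)] with B hB
  rw [div_le_iff₀ hl] at hB
  refine hY1 (l * B) (by linarith) ((S B).filter (fun Z => Cong q Z Z0)) ?_ ?_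
  · intro Z hZ
    obtain ⟨h1, h2⟩ := Finset.mem_filter.1 hZ
    exact ⟨h2, hS0 B Z h1⟩
  · intro Z h1 h2 h3
    exact Finset.mem_filter.2 ⟨hS B Z h2 h3, h1⟩

end Pool.Agent.Lib.MP_1acd66_nt
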