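import Pool.Agent.Lib.MP_1acd66_nt.Height
import Pool.Agent.Lib.MP_1acd66_nt.Kappa

/-! The finite part of the height on integral coordinates. -/

namespace Pool.Agent.Lib.MP_1acd66_nt

open Filter Metric Set

variable {N m d : ℕ}

theorem Tame.one : Tame (fun (_ : FrZ N) (_ : CoZ m d) => (1:ℝ)) 1 1 where
  pos := one_pos
  le := le_rfl
  lo _ _ _ _ := le_rfl
  hi _ _ _ _ := le_rfl
  lp ε hε := ⟨1, one_pos, fun _ _ _ _ _ _ _ _ _ _ => by linarith⟩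

theorem Tame.mul {f g : FrZ N → CoZ m d → ℝ} {f0 f1 g0 g1 : ℝ} (hf : Tame f f0 f1)
    (hg : Tame g g0 g1) : Tame (fun Z A => f Z A * g Z A) (f0 * g0) (f1 * g1) where
  pos := mul_pos hf.pos hg.pos
  le := mul_le_mul hf.le hg.le hg.pos.le (hf.pos.le.trans hf.le)
  lo Z A hZ hA := mul_le_mul (hf.lo Z A hZ hA) (hg.lo Z A hZ hA) hg.pos.le
    (hf.pos.le.trans (hf.lo Z A hZ hA))
  hi Z A hZ hA := mul_le_mul (hf.hi Z A hZ hA) (hg.hi Z A hZ hA)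
    (hg.pos.le.trans (hg.lo Z A hZ hA)) (hf.pos.le.trans hf.le)
  lp ε hε := by
    set ε' := min 1 (ε / 3) with hε'
    have hp : 0 < ε' := lt_min one_pos (by positivity)
    have h1 : ε' ≤ 1 := min_le_left _ _
    have h3 : ε' ≤ ε / 3 := min_le_right _ _
    obtain ⟨q, hq, hqf⟩ := hf.lp ε' hp
    obtain ⟨r, hr, hrg⟩ := hg.lp ε' hp
    refine ⟨q * r, Nat.mul_pos hq hr, ?_⟩
    intro Z A Z' A' hZ hA hZ' hA' hc1 hc2
    have e1 := hqf Z A Z' A' hZ hA hZ' hA' (hc1.of_dvd (Dvd.intro _ rfl)) (hc2.of_dvd (Dvd.intro _ rfl))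
    have e2 := hrg Z A Z' A' hZ hA hZ' hA' (hc1.of_dvd (Dvd.intro_left _ rfl))
      (hc2.of_dvd (Dvd.intro_left _ rfl))
    have p1 : 0 < f Z' A' := hf.pos.trans_le (hf.lo _ _ hZ' hA')
    have p2 : 0 < g Z' A' := hg.pos.trans_le (hg.lo _ _ hZ' hA')
    have p3 : 0 < g Z A := hg.pos.trans_le (hg.lo _ _ hZ hA)
    calc f Z A * g Z A ≤ ((1 + ε') * f Z' A') * ((1 + ε') * g Z' A') :=
          mul_le_mul e1 e2 p3.le (by positivity)
      _ = ((1 + ε') * (1 + ε')) * (f Z' A' * g Z' A') := by ring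
      _ ≤ (1 + ε) * (f Z' A' * g Z' A') := by
          apply mul_le_mul_of_nonneg_right _ (by positivity)
          nlinarith

theorem Tame.congr {f g : FrZ N → CoZ m d → ℝ} {f0 f1 : ℝ} (hf : Tame f f0 f1)
    (h : ∀ Z A, SatZ Z → PrimA A → f Z A = g Z A) : Tame g f0 f1 where
  pos := hf.pos
  le := hf.le
  lo Z A hZ hA := by rw [← h Z A hZ hA]; exact hf.lo Z A hZ hA
  hi Z A hZ hA := by rw [← h Z A hZ hA]; exact hf.hi Z A hZ hA
  lp ε hε := by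
    obtain ⟨q, hq, hqf⟩ := hf.lp ε hε
    refine ⟨q, hq, ?_⟩
    intro Z A Z' A' hZ hA hZ' hA' hc1 hc2
    rw [← h Z A hZ hA, ← h Z' A' hZ' hA']
    exact hqf Z A Z' A' hZ hA hZ' hA' hc1 hc2

section padic

variable (p : ℕ) [Fact p.Prime]

/-- integral arrays in the `p`-adic numbers -/
noncomputable def toP {a b : ℕ} (x : Fin a → Fin b → ℤ) : Fin a → Fin b → ℚ_[p] :=
  fun i j => ((x i j : ℤ) : ℚ_[p])

theorem castK_toQ {a b : ℕ} (x : Fin a → Fin b → ℤ) : castK ℚ_[p] (toQ x) = toP p x := by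
  funext i j
  simp [castK, toQ, toP]

/-- the compact set of integral pairs -/
def padicSet (N m d : ℕ) : Set ((Fin 2 → Fin N → ℚ_[p]) × (Fin m → Fin (d + 1) → ℚ_[p])) :=
  {x | (‖x.1‖ ≤ 1 ∧ ‖x.2‖ ≤ 1) ∧ (∃ i j, ‖minor x.1 i j‖ = 1) ∧ ∃ i j, ‖x.2 i j‖ = 1}

theorem isCompact_padicSet : IsCompact (padicSet p N m d) := by
  have h1 : IsCompact ((closedBall (0 : Fin 2 → Fin N → ℚ_[p]) 1) ×ˢ
      (closedBall (0 : Fin m → Fin (d + 1) → ℚ_[p]) 1)) :=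
    (isCompact_closedBall _ _).prod (isCompact_closedBall _ _)
  have h2 : IsClosed {x : (Fin 2 → Fin N → ℚ_[p]) × (Fin m → Fin (d + 1) → ℚ_[p]) |
      ∃ i j, ‖minor x.1 i j‖ = 1} := by
    have : {x : (Fin 2 → Fin N → ℚ_[p]) × (Fin m → Fin (d + 1) → ℚ_[p]) |
      ∃ i j, ‖minor x.1 i j‖ = 1} = ⋃ i, ⋃ j, {x | ‖minor x.1 i j‖ = 1} := by
      ext x; simp
    rw [this]
    refine isClosed_iUnion_of_finite fun i => isClosed_iUnion_of_finite fun j => ?_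
    refine isClosed_eq ?_ continuous_const
    unfold minor
    fun_prop
  have h3 : IsClosed {x : (Fin 2 → Fin N → ℚ_[p]) × (Fin m → Fin (d + 1) → ℚ_[p]) |
      ∃ i j, ‖x.2 i j‖ = 1} := by
    have : {x : (Fin 2 → Fin N → ℚ_[p]) × (Fin m → Fin (d + 1) → ℚ_[p]) |
      ∃ i j, ‖x.2 i j‖ = 1} = ⋃ i, ⋃ j, {x | ‖x.2 i j‖ = 1} := by
      ext x; simp
    rw [this]
    refine isClosed_iUnion_of_finite fun i => isClosed_iUnion_of_finite fun j => ?_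
    refine isClosed_eq ?_ continuous_const
    fun_prop
  have : padicSet p N m d = ((closedBall (0 : Fin 2 → Fin N → ℚ_[p]) 1) ×ˢ
      (closedBall (0 : Fin m → Fin (d + 1) → ℚ_[p]) 1)) ∩ ({x | ∃ i j, ‖minor x.1 i j‖ = 1} ∩
        {x | ∃ i j, ‖x.2 i j‖ = 1}) := by
    ext x
    simp [padicSet]
  rw [this]
  exact h1.inter_right (h2.inter h3)

theorem padicSet_subset : padicSet p N m d ⊆ {x | IsFrame x.1 ∧ x.2 ≠ 0} := by
  rintro x ⟨_, ⟨i, j, hij⟩, ⟨k, l, hkl⟩⟩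
  refine ⟨⟨i, j, ?_⟩, ?_⟩
  · intro h0
    rw [h0, norm_zero] at hij
    exact zero_ne_one hij
  · intro h0
    rw [h0] at hkl
    simp at hkl

theorem norm_toP_le {a b : ℕ} (x : Fin a → Fin b → ℤ) : ‖toP p x‖ ≤ 1 := by
  rw [pi_norm_le_iff_of_nonneg zero_le_one]
  intro i
  rw [pi_norm_le_iff_of_nonneg zero_le_one]
  intro j
  exact Padic.norm_int_le_one _

theorem norm_int_eq_one {n : ℤ} (h : ¬ (p:ℤ) ∣ n) : ‖((n:ℤ) : ℚ_[p])‖ = 1 := by
  have h1 : ((n:ℤ) : ℚ_[p]) = (((n:ℤ) : ℚ) : ℚ_[p]) := by push_cast; rfl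
  rw [h1, Padic.eq_padicNorm, (padicNorm.int_eq_one_iff n).2 h, Rat.cast_one]

theorem minor_toP (Z : FrZ N) (i j : Fin N) : minor (toP p Z) i j = ((minor Z i j : ℤ) : ℚ_[p]) := by
  simp [minor, toP]

theorem mem_padicSet {Z : FrZ N} {A : CoZ m d} (hZ : SatZ Z) (hA : PrimA A) :
    ((toP p Z, toP p A) : (Fin 2 → Fin N → ℚ_[p]) × (Fin m → Fin (d + 1) → ℚ_[p])) ∈
      padicSet p N m d := by
  have hp : p.Prime := Fact.out
  obtain ⟨i, j, hij⟩ := hZ p hp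
  obtain ⟨k, l, hkl⟩ := hA p hp
  refine ⟨⟨norm_toP_le p Z, norm_toP_le p A⟩, ⟨i, j, ?_⟩, ⟨k, l, ?_⟩⟩
  · simp only
    rw [minor_toP]
    exact norm_int_eq_one p hij
  · exact norm_int_eq_one p hkl

theorem norm_sub_toP {a b : ℕ} {x y : Fin a → Fin b → ℤ} {k : ℕ} (h : Cong (p ^ k) x y) :
    ‖toP p x - toP p y‖ ≤ (p:ℝ) ^ (-(k:ℤ)) := by
  rw [pi_norm_le_iff_of_nonneg (by positivity)]
  intro i
  rw [pi_norm_le_iff_of_nonneg (by positivity)]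
  intro j
  have h1 : (toP p x - toP p y) i j = (((x i j - y i j : ℤ)) : ℚ_[p]) := by
    simp [toP]
  rw [h1, Padic.norm_int_le_pow_iff_dvd]
  have := h i j
  exact_mod_cast this

theorem tame_local {M : (Fin 2 → Fin N → ℚ_[p]) → (Fin m → Fin (d + 1) → ℚ_[p]) → ℝ}
    (hM : IsLocalNorm ℚ_[p] N m d M) :
    ∃ f0 f1 : ℝ, Tame (fun (Z : FrZ N) (A : CoZ m d) => M (toP p Z) (toP p A)) f0 f1 := by
  have hp : p.Prime := Fact.out
  have hc := isCompact_padicSet p (N := N) (m := m) (d := d)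
  have hcont : ContinuousOn (fun x : (Fin 2 → Fin N → ℚ_[p]) × (Fin m → Fin (d + 1) → ℚ_[p]) =>
      M x.1 x.2) (padicSet p N m d) := hM.cont.mono (padicSet_subset p)
  obtain ⟨f0, f1, h0, h01, hb⟩ : ∃ f0 f1 : ℝ, 0 < f0 ∧ f0 ≤ f1 ∧ ∀ x ∈ padicSet p N m d,
      f0 ≤ M x.1 x.2 ∧ M x.1 x.2 ≤ f1 := by
    rcases (padicSet p N m d).eq_empty_or_nonempty with hE | hne
    · refine ⟨1, 1, one_pos, le_rfl, ?_⟩
      intro x hx
      rw [hE] at hx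
      exact absurd hx (Set.notMem_empty _)
    · obtain ⟨x0, hx0, hmin⟩ := hc.exists_isMinOn hne hcont
      obtain ⟨x1, hx1, hmax⟩ := hc.exists_isMaxOn hne hcont
      have hpos := hM.pos x0.1 x0.2 (padicSet_subset p hx0).1 (padicSet_subset p hx0).2
      exact ⟨_, _, hpos, hmin hx1, fun x hx => ⟨hmin hx, hmax hx⟩⟩
  refine ⟨f0, f1, h0, h01, ?_, ?_, ?_⟩
  · intro Z A hZ hA
    exact (hb _ (mem_padicSet p hZ hA)).1
  · intro Z A hZ hA
    exact (hb _ (mem_padicSet p hZ hA)).2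
  · intro ε hε
    have huc := hc.uniformContinuousOn_of_continuous hcont
    rw [Metric.uniformContinuousOn_iff] at huc
    obtain ⟨δ, hδ, hδ2⟩ := huc (ε * f0) (by positivity)
    obtain ⟨k, hk⟩ : ∃ k : ℕ, (p:ℝ) ^ (-(k:ℤ)) < δ := by
      have h1 : (1:ℝ) < p := by exact_mod_cast hp.one_lt
      obtain ⟨k, hk⟩ := exists_pow_lt_of_lt_one hδ (inv_lt_one_of_one_lt₀ h1)
      refine ⟨k, ?_⟩
      rw [zpow_neg, zpow_natCast, ← inv_pow]
      exact hk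
    refine ⟨p ^ k, pow_pos hp.pos k, ?_⟩
    intro Z A Z' A' hZ hA hZ' hA' hc1 hc2
    have m1 := mem_padicSet p hZ hA
    have m2 := mem_padicSet p hZ' hA'
    have hd : dist ((toP p Z, toP p A) : (Fin 2 → Fin N → ℚ_[p]) × (Fin m → Fin (d + 1) → ℚ_[p]))
        (toP p Z', toP p A') < δ := by
      rw [Prod.dist_eq, max_lt_iff, dist_eq_norm, dist_eq_norm]
      exact ⟨(norm_sub_toP p hc1).trans_lt hk, (norm_sub_toP p hc2).trans_lt hk⟩
    have h3 := hδ2 _ m1 _ m2 hd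
    rw [Real.dist_eq] at h3
    have h4 := (abs_lt.1 h3).2
    have h5 := (hb _ m2).1
    simp only at h4 h5 ⊢
    nlinarith

end padic

/-- the finite part of the height -/
noncomputable def AdelicNorm.ff (h : AdelicNorm N m d) (Z : FrZ N) (A : CoZ m d) : ℝ :=
  ∏ᶠ p : Nat.Primes, h.fin p (toP (p:ℕ) Z) (toP (p:ℕ) A)

theorem AdelicNorm.tame (h : AdelicNorm N m d) : ∃ f0 f1, Tame h.ff f0 f1 := by
  classical
  obtain ⟨S, hS⟩ := h.almost
  have key : ∀ T : Finset Nat.Primes, ∃ f0 f1, Tame (fun (Z : FrZ N) (A : CoZ m d) =>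
      ∏ p ∈ T, h.fin p (toP (p:ℕ) Z) (toP (p:ℕ) A)) f0 f1 := by
    intro T
    induction T using Finset.induction_on with
    | empty => exact ⟨1, 1, by simpa using Tame.one⟩
    | insert a T ha ih =>
      obtain ⟨f0, f1, hf⟩ := ih
      obtain ⟨g0, g1, hg⟩ := tame_local (a:ℕ) (h.isNorm_fin a)
      refine ⟨g0 * f0, g1 * f1, ?_⟩
      refine (hg.mul hf).congr ?_
      intro Z A _ _
      rw [Finset.prod_insert ha]
  obtain ⟨f0, f1, hf⟩ := key S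
  refine ⟨f0, f1, hf.congr ?_⟩
  intro Z A hZ hA
  rw [AdelicNorm.ff, finprod_eq_prod_of_mulSupport_subset]
  intro p hp
  rw [Function.mem_mulSupport] at hp
  rw [Finset.mem_coe]
  by_contra hpS
  apply hp
  obtain ⟨⟨_, _⟩, h3, ⟨k, l, hkl⟩⟩ := mem_padicSet (p:ℕ) hZ hA
  have hA0 : toP (p:ℕ) A ≠ 0 := (padicSet_subset (p:ℕ) (mem_padicSet (p:ℕ) hZ hA)).2
  have h4 := hS p hpS (toP (p:ℕ) Z) (toP (p:ℕ) A) (fun i j => Padic.norm_int_le_one _) h3 hA0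
  have h5 : ‖toP (p:ℕ) A‖ = 1 :=
    norm_pi_eq_one (x := toP (p:ℕ) A) (fun i j => Padic.norm_int_le_one _) hkl
  rw [h4, h5, one_pow]

theorem AdelicNorm.height_ofInt (h : AdelicNorm N m d) (Z : FrZ N) (A : CoZ m d) (hZ : IsFrame Z)
    (hA : A ≠ 0) : h.height (ofInt Z A hZ hA) = h.inf (castZ Z) (castA A) * h.ff Z A := by
  have e1 : castK ℝ (toQ Z) = castZ Z := by
    funext i j
    simp [castK, toQ, castZ]
  have e2 : castK ℝ (toQ A) = castA A := by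
    funext i j
    simp [castK, toQ, castA]
  have e3 : h.height (ofInt Z A hZ hA) = h.inf (castK ℝ (toQ Z)) (castK ℝ (toQ A)) *
    ∏ᶠ p : Nat.Primes, h.fin p (castK ℚ_[(p : ℕ)] (toQ Z)) (castK ℚ_[(p : ℕ)] (toQ A)) := rfl
  rw [e3, e1, e2, AdelicNorm.ff]
  simp only [castK_toQ]

end Pool.Agent.Lib.MP_1acd66_nt
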