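import Pool.Agent.Lib.MP_1acd66_nt.Statement
import Pool.Agent.Lib.MP_1acd66_nt.Local

/-! Integral coordinates of rational points. -/

namespace Pool.Agent.Lib.MP_1acd66_nt

open scoped Classical

variable {N m d : ℕ}

theorem same_iff {x y : Rep N m d} : Same x y ↔
    ∃ (g : Matrix (Fin 2) (Fin 2) ℚ) (s : ℚ), g.det ≠ 0 ∧ s ≠ 0 ∧ y.Z = rowOp g x.Z ∧
      pull g y.A = s • x.A := by
  constructor
  · rintro ⟨g, s, h1, h2, h3, h4⟩
    exact ⟨g, s, h1, h2, h3, h4.eq_pull.symm⟩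
  · rintro ⟨g, s, h1, h2, h3, h4⟩
    exact ⟨g, s, h1, h2, h3, h4 ▸ isPullback_pull g y.A⟩

theorem same_equivalence : Equivalence (Same (N := N) (m := m) (d := d)) where
  refl x := same_iff.2 ⟨1, 1, by simp, one_ne_zero, (rowOp_one _).symm, by
    rw [pull_one, one_smul]⟩
  symm {x y} h := by
    obtain ⟨g, s, hg, hs, h1, h2⟩ := same_iff.1 h
    have hu : IsUnit g.det := isUnit_iff_ne_zero.2 hg
    refine same_iff.2 ⟨g⁻¹, s⁻¹, ?_, inv_ne_zero hs, ?_, ?_⟩
    · rw [Matrix.det_nonsing_inv]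
      exact (isUnit_iff_ne_zero.1 (hu.ringInverse))
    · rw [h1, ← rowOp_mul, Matrix.nonsing_inv_mul g hu, rowOp_one]
    · have h3 : x.A = s⁻¹ • pull g y.A := by rw [h2, smul_smul, inv_mul_cancel₀ hs, one_smul]
      rw [h3, pull_smul, ← pull_mul, Matrix.mul_nonsing_inv g hu, pull_one]
  trans {x y z} h h' := by
    obtain ⟨g, s, hg, hs, h1, h2⟩ := same_iff.1 h
    obtain ⟨k, r, hk, hr, h3, h4⟩ := same_iff.1 h'
    refine same_iff.2 ⟨k * g, r * s, ?_, mul_ne_zero hr hs, ?_, ?_⟩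
    · rw [Matrix.det_mul]; exact mul_ne_zero hk hg
    · rw [h3, h1, rowOp_mul]
    · rw [pull_mul, h4, pull_smul, h2, smul_smul]

theorem pt_eq_iff {x y : Rep N m d} : pt x = pt y ↔ Same x y :=
  (Quot.eq (r := Same)).trans same_equivalence.eqvGen_iff

/-- integral arrays as rational ones -/
def toQ {a b : ℕ} (x : Fin a → Fin b → ℤ) : Fin a → Fin b → ℚ := fun i j => (x i j : ℚ)

theorem toQ_injective {a b : ℕ} : Function.Injective (toQ : (Fin a → Fin b → ℤ) → _) := by
  intro x y h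
  funext i j
  have := congrFun (congrFun h i) j
  simpa [toQ] using this

theorem toQ_ne_zero {a b : ℕ} {x : Fin a → Fin b → ℤ} (hx : x ≠ 0) : toQ x ≠ 0 := by
  intro h
  apply hx
  apply toQ_injective
  rw [h]
  funext i j
  simp [toQ]

theorem minor_toQ (Z : FrZ N) (i j : Fin N) : minor (toQ Z) i j = ((minor Z i j : ℤ) : ℚ) := by
  simp [minor, toQ]

theorem isFrame_toQ {Z : FrZ N} (hZ : IsFrame Z) : IsFrame (toQ Z) := by
  obtain ⟨i, j, h⟩ := hZ
  exact ⟨i, j, by rw [minor_toQ]; exact_mod_cast h⟩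

/-- the coordinates given by an integral pair -/
def ofInt (Z : FrZ N) (A : CoZ m d) (hZ : IsFrame Z) (hA : A ≠ 0) : Rep N m d :=
  ⟨toQ Z, toQ A, isFrame_toQ hZ, toQ_ne_zero hA⟩

/-- rational matrices from integral ones -/
def matQ (g : Matrix (Fin 2) (Fin 2) ℤ) : Matrix (Fin 2) (Fin 2) ℚ := fun i j => (g i j : ℚ)

theorem matQ_det (g : Matrix (Fin 2) (Fin 2) ℤ) : (matQ g).det = (g.det : ℚ) := by
  rw [Matrix.det_fin_two, Matrix.det_fin_two, matQ, matQ, matQ, matQ]
  push_cast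
  rfl

theorem matQ_mul (g h : Matrix (Fin 2) (Fin 2) ℤ) : matQ (g * h) = matQ g * matQ h := by
  funext i j
  simp only [matQ, Matrix.mul_apply, Fin.sum_univ_two]
  push_cast
  rfl

theorem matQ_one : matQ 1 = 1 := by
  funext i j
  obtain rfl | rfl : i = 0 ∨ i = 1 := by omega
  · obtain rfl | rfl : j = 0 ∨ j = 1 := by omega
    · simp [matQ]
    · simp [matQ]
  · obtain rfl | rfl : j = 0 ∨ j = 1 := by omega
    · simp [matQ]
    · simp [matQ]

theorem rowOp_toQ (g : Matrix (Fin 2) (Fin 2) ℤ) (Z : FrZ N) :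
    rowOp (matQ g) (toQ Z) = toQ (rowOp g Z) := by
  funext i j
  simp only [rowOp, matQ, toQ]
  push_cast
  rfl

theorem pull_toQ (g : Matrix (Fin 2) (Fin 2) ℤ) (A : CoZ m d) :
    pull (matQ g) (toQ A) = toQ (pull g A) :=
  pull_map (Int.castRingHom ℚ) g A (matQ g) (fun _ _ => rfl)

/-- integral pairs in the same orbit describe the same point -/
theorem same_of_orbit {Z : FrZ N} {A : CoZ m d} {Z' : FrZ N} {A' : CoZ m d} (hZ : IsFrame Z)
    (hA : A ≠ 0) (hZ' : IsFrame Z') (hA' : A' ≠ 0) {g : Matrix (Fin 2) (Fin 2) ℤ}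
    (hg : IsUnit g.det) (h1 : Z' = rowOp g Z) (h2 : pull g A' = A ∨ pull g A' = -A) :
    Same (ofInt Z A hZ hA) (ofInt Z' A' hZ' hA') := by
  have hdet : (matQ g).det ≠ 0 := by
    rw [matQ_det]
    exact_mod_cast hg.ne_zero
  have h3 : (ofInt Z' A' hZ' hA').Z = rowOp (matQ g) (ofInt Z A hZ hA).Z := by
    simp only [ofInt]
    rw [rowOp_toQ, h1]
  rcases h2 with h2 | h2
  · refine same_iff.2 ⟨matQ g, 1, hdet, one_ne_zero, h3, ?_⟩
    simp only [ofInt]
    rw [pull_toQ, h2, one_smul]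
  · refine same_iff.2 ⟨matQ g, -1, hdet, by norm_num, h3, ?_⟩
    simp only [ofInt]
    rw [pull_toQ, h2]
    funext i j
    simp [toQ]

/-- a rational number whose products with integers without common factor are integral -/
theorem isInt_of_mul {ι : Type*} (c : ι → ℤ) (hc : ∀ p : ℕ, p.Prime → ∃ i, ¬ (p:ℤ) ∣ c i) (r : ℚ)
    (h : ∀ i, ∃ n : ℤ, r * c i = n) : ∃ k : ℤ, r = k := by
  have hden : r.den = 1 := by
    by_contra hne
    obtain ⟨p, hp, hpd⟩ := Nat.exists_prime_and_dvd hne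
    obtain ⟨i, hi⟩ := hc p hp
    apply hi
    obtain ⟨n, hn⟩ := h i
    have h1 : (r.num : ℚ) * c i = n * r.den := by
      have h2 : r * r.den = r.num := Rat.mul_den_eq_num r
      calc (r.num : ℚ) * c i = (r * r.den) * c i := by rw [h2]
        _ = (r * c i) * r.den := by ring
        _ = _ := by rw [hn]
    have h3 : r.num * c i = n * r.den := by exact_mod_cast h1
    have h4 : (p:ℤ) ∣ r.num * c i := by
      rw [h3]
      exact Dvd.dvd.mul_left (Int.natCast_dvd_natCast.2 hpd) n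
    have hp' : Prime (p:ℤ) := Nat.prime_iff_prime_int.1 hp
    refine (hp'.dvd_or_dvd h4).resolve_left ?_
    intro h5
    have h6 : p ∣ r.num.natAbs := Int.natCast_dvd.1 h5
    have h7 := Nat.dvd_gcd h6 hpd
    rw [r.reduced] at h7
    exact hp.one_lt.ne' (Nat.dvd_one.1 h7)
  refine ⟨r.num, ?_⟩
  exact (Rat.den_eq_one_iff r).1 hden |>.symm

/-- the coordinates of an integral vector with respect to a saturated frame are integral -/
theorem sat_int {Z : FrZ N} (hZ : SatZ Z) {a b : ℚ} (h : ∀ j, ∃ n : ℤ, a * Z 0 j + b * Z 1 j = n) :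
    (∃ k : ℤ, a = k) ∧ ∃ k : ℤ, b = k := by
  choose n hn using h
  constructor
  · refine isInt_of_mul (fun x : Fin N × Fin N => minor Z x.1 x.2) ?_ a ?_
    · intro p hp
      obtain ⟨i, j, hij⟩ := hZ p hp
      exact ⟨(i, j), hij⟩
    · rintro ⟨i, j⟩
      refine ⟨n i * Z 1 j - n j * Z 1 i, ?_⟩
      push_cast
      rw [← hn i, ← hn j]
      simp only [minor]
      push_cast
      ring
  · refine isInt_of_mul (fun x : Fin N × Fin N => minor Z x.1 x.2) ?_ b ?_
    · intro p hp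
      obtain ⟨i, j, hij⟩ := hZ p hp
      exact ⟨(i, j), hij⟩
    · rintro ⟨i, j⟩
      refine ⟨Z 0 i * n j - Z 0 j * n i, ?_⟩
      push_cast
      rw [← hn i, ← hn j]
      simp only [minor]
      push_cast
      ring

/-- two saturated frames of the same plane differ by an integral matrix -/
theorem sat_rowOp {Z Z' : FrZ N} (hZ : SatZ Z) {g : Matrix (Fin 2) (Fin 2) ℚ}
    (h : toQ Z' = rowOp g (toQ Z)) : ∃ k : Matrix (Fin 2) (Fin 2) ℤ, g = matQ k := by
  have key : ∀ i, (∃ k : ℤ, g i 0 = k) ∧ ∃ k : ℤ, g i 1 = k := by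
    intro i
    refine sat_int hZ ?_
    intro j
    refine ⟨Z' i j, ?_⟩
    have := congrFun (congrFun h i) j
    simp only [toQ, rowOp] at this
    exact this.symm
  have key2 : ∀ i j, ∃ k : ℤ, g i j = k := by
    intro i j
    obtain rfl | rfl : j = 0 ∨ j = 1 := by omega
    · exact (key i).1
    · exact (key i).2
  choose k hk using key2
  exact ⟨k, by funext i j; exact hk i j⟩

theorem rowOp_eq_imp {K : Type*} [Field K] {Z : Fin 2 → Fin N → K} (hZ : IsFrame Z)
    {g h : Matrix (Fin 2) (Fin 2) K} (e : rowOp g Z = rowOp h Z) : g = h := by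
  obtain ⟨i, j, hij⟩ := hZ
  have key : ∀ a, g a 0 = h a 0 ∧ g a 1 = h a 1 := by
    intro a
    have e1 := congrFun (congrFun e a) i
    have e2 := congrFun (congrFun e a) j
    simp only [rowOp] at e1 e2
    simp only [minor] at hij
    constructor
    · have : (g a 0 - h a 0) * (Z 0 i * Z 1 j - Z 0 j * Z 1 i) = 0 := by
        linear_combination Z 1 j * e1 - Z 1 i * e2
      rcases mul_eq_zero.1 this with h0 | h0
      · exact sub_eq_zero.1 h0
      · exact absurd h0 hij
    · have : (g a 1 - h a 1) * (Z 0 i * Z 1 j - Z 0 j * Z 1 i) = 0 := by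
        linear_combination Z 0 i * e2 - Z 0 j * e1
      rcases mul_eq_zero.1 this with h0 | h0
      · exact sub_eq_zero.1 h0
      · exact absurd h0 hij
  ext a b
  obtain rfl | rfl : b = 0 ∨ b = 1 := by omega
  · exact (key a).1
  · exact (key a).2

theorem rowOp_inj_int {Z : FrZ N} (hZ : IsFrame Z) {g h : Matrix (Fin 2) (Fin 2) ℤ}
    (e : rowOp g Z = rowOp h Z) : g = h := by
  have e1 : rowOp (matQ g) (toQ Z) = rowOp (matQ h) (toQ Z) := by
    rw [rowOp_toQ, rowOp_toQ, e]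
  have e2 := rowOp_eq_imp (isFrame_toQ hZ) e1
  ext i j
  have := congrFun (congrFun e2 i) j
  simpa [matQ] using this

theorem divA_iff {p : ℕ} {A : CoZ m d} : DivA p A ↔ ∃ B : CoZ m d, A = (p:ℤ) • B := by
  constructor
  · intro h
    have h' : ∀ i j, ∃ c : ℤ, A i j = (p:ℤ) * c := fun i j => h i j
    choose B hB using h'
    exact ⟨B, by funext i j; exact hB i j⟩
  · rintro ⟨B, rfl⟩ i j
    exact ⟨B i j, rfl⟩

theorem PrimA.pullBack {A : CoZ m d} (hA : PrimA A) {g : Matrix (Fin 2) (Fin 2) ℤ}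
    (hg : IsUnit g.det) : PrimA (pull g A) := by
  rw [primA_iff] at hA ⊢
  intro p hp hdiv
  apply hA p hp
  obtain ⟨B, hB⟩ := divA_iff.1 hdiv
  refine divA_iff.2 ⟨pull g⁻¹ B, ?_⟩
  rw [← pull_smul, ← hB, ← pull_mul, Matrix.mul_nonsing_inv g hg, pull_one]

/-- integral coordinates are unique up to units -/
theorem same_unique {Z : FrZ N} {A : CoZ m d} {Z' : FrZ N} {A' : CoZ m d} (hZ : SatZ Z)
    (hA : PrimA A) (hZ' : SatZ Z') (hA' : PrimA A')
    (h : Same (ofInt Z A hZ.isFrame hA.ne_zero) (ofInt Z' A' hZ'.isFrame hA'.ne_zero)) :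
    ∃ g : Matrix (Fin 2) (Fin 2) ℤ, IsUnit g.det ∧ Z' = rowOp g Z ∧
      (pull g A' = A ∨ pull g A' = -A) := by
  obtain ⟨g, s, hg, hs, h1, h2⟩ := same_iff.1 h
  simp only [ofInt] at h1 h2
  have hu : IsUnit g.det := isUnit_iff_ne_zero.2 hg
  obtain ⟨k, rfl⟩ := sat_rowOp hZ h1
  have h3 : toQ Z = rowOp (matQ k)⁻¹ (toQ Z') := by
    rw [h1, ← rowOp_mul, Matrix.nonsing_inv_mul _ hu, rowOp_one]
  obtain ⟨l, hl⟩ := sat_rowOp hZ' h3
  have hkl : k * l = 1 := by
    have : matQ (k * l) = matQ 1 := by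
      rw [matQ_mul, ← hl, Matrix.mul_nonsing_inv _ hu, matQ_one]
    ext i j
    have h4 := congrFun (congrFun this i) j
    simpa [matQ] using h4
  have hk : IsUnit k.det := by
    have : k.det * l.det = 1 := by rw [← Matrix.det_mul, hkl, Matrix.det_one]
    exact IsUnit.of_mul_eq_one _ this
  have hZZ : Z' = rowOp k Z := by
    apply toQ_injective
    rw [h1, rowOp_toQ]
  rw [pull_toQ] at h2
  obtain ⟨n, hn⟩ : ∃ n : ℤ, s = n := by
    refine isInt_of_mul (fun x : Fin m × Fin (d + 1) => A x.1 x.2) ?_ s ?_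
    · intro p hp
      obtain ⟨i, j, hij⟩ := hA p hp
      exact ⟨(i, j), hij⟩
    · rintro ⟨i, j⟩
      refine ⟨pull k A' i j, ?_⟩
      have := congrFun (congrFun h2 i) j
      simp only [toQ, Pi.smul_apply, smul_eq_mul] at this
      exact this.symm
  have hpull : pull k A' = n • A := by
    funext i j
    have := congrFun (congrFun h2 i) j
    simp only [toQ, Pi.smul_apply, smul_eq_mul, hn] at this ⊢
    exact_mod_cast this
  have hprim : PrimA (pull k A') := hA'.pullBack hk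
  have hn1 : n.natAbs = 1 := by
    by_contra hne
    obtain ⟨p, hp, hpn⟩ := Nat.exists_prime_and_dvd hne
    obtain ⟨i, j, hij⟩ := hprim p hp
    apply hij
    rw [hpull]
    exact (Int.natCast_dvd.2 hpn).mul_right _
  refine ⟨k, hk, hZZ, ?_⟩
  rw [hpull]
  rcases Int.natAbs_eq n with h5 | h5
  · left; rw [h5, hn1]; simp
  · right; rw [h5, hn1]; simp

/-- clearing denominators -/
theorem clear_denoms {a b : ℕ} (x : Fin a → Fin b → ℚ) :
    ∃ (D : ℕ) (y : Fin a → Fin b → ℤ), 0 < D ∧ (D:ℚ) • x = toQ y := by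
  set D : ℕ := ∏ i, ∏ j, (x i j).den with hD
  have hdvd : ∀ i j, (x i j).den ∣ D := fun i j =>
    (Finset.dvd_prod_of_mem (fun j => (x i j).den) (Finset.mem_univ j)).trans
      (Finset.dvd_prod_of_mem (fun i => ∏ j, (x i j).den) (Finset.mem_univ i))
  have hpos : 0 < D := Finset.prod_pos fun i _ => Finset.prod_pos fun j _ => (x i j).den_pos
  choose e he using hdvd
  refine ⟨D, fun i j => (x i j).num * e i j, hpos, ?_⟩
  funext i j
  simp only [Pi.smul_apply, smul_eq_mul, toQ]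
  push_cast
  rw [he i j]
  push_cast
  have h2 : x i j * (x i j).den = (x i j).num := Rat.mul_den_eq_num _
  calc ((x i j).den : ℚ) * (e i j) * x i j = (x i j * (x i j).den) * e i j := by ring
    _ = _ := by rw [h2]

theorem exists_prim {A : CoZ m d} (hA : A ≠ 0) : ∃ (k : ℤ) (B : CoZ m d), k ≠ 0 ∧ PrimA B ∧
    A = k • B := by
  have key : ∀ n : ℕ, ∀ A : CoZ m d, A ≠ 0 → ∑ i, ∑ j, (A i j).natAbs ≤ n →
      ∃ (k : ℤ) (B : CoZ m d), k ≠ 0 ∧ PrimA B ∧ A = k • B := by
    intro n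
    induction n with
    | zero =>
      intro A hA h
      exfalso
      apply hA
      funext i j
      have h1 : ∑ i, ∑ j, (A i j).natAbs = 0 := by omega
      have h2 := (Finset.sum_eq_zero_iff.1 h1) i (Finset.mem_univ i)
      have h3 := (Finset.sum_eq_zero_iff.1 h2) j (Finset.mem_univ j)
      exact Int.natAbs_eq_zero.1 h3
    | succ n ih =>
      intro A hA h
      by_cases hP : PrimA A
      · exact ⟨1, A, one_ne_zero, hP, (one_smul _ _).symm⟩
      · rw [primA_iff] at hP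
        push Not at hP
        obtain ⟨p, hp, hdiv⟩ := hP
        obtain ⟨B, rfl⟩ := divA_iff.1 hdiv
        have hB : B ≠ 0 := by
          rintro rfl
          exact hA (smul_zero _)
        have h1 : ∑ i, ∑ j, (((p:ℤ) • B) i j).natAbs = p * ∑ i, ∑ j, (B i j).natAbs := by
          simp only [Pi.smul_apply, smul_eq_mul, Int.natAbs_mul, Int.natAbs_natCast, Finset.mul_sum]
        rw [h1] at h
        have h2 : 0 < ∑ i, ∑ j, (B i j).natAbs := by
          rw [Nat.pos_iff_ne_zero]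
          intro h0
          apply hB
          funext i j
          have h2 := (Finset.sum_eq_zero_iff.1 h0) i (Finset.mem_univ i)
          have h3 := (Finset.sum_eq_zero_iff.1 h2) j (Finset.mem_univ j)
          exact Int.natAbs_eq_zero.1 h3
        have h3 : ∑ i, ∑ j, (B i j).natAbs ≤ n := by
          have := hp.two_le
          nlinarith
        obtain ⟨k, C, hk, hC, hBC⟩ := ih B hB h3
        refine ⟨p * k, C, mul_ne_zero (by exact_mod_cast hp.ne_zero) hk, hC, ?_⟩
        rw [hBC, smul_smul]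
  exact key _ A hA le_rfl

/-- every rational point has integral coordinates -/
theorem exists_int (x : Rep N m d) : ∃ (Z : FrZ N) (A : CoZ m d) (hZ : SatZ Z) (hA : PrimA A),
    Same x (ofInt Z A hZ.isFrame hA.ne_zero) := by
  -- integral frame
  obtain ⟨D, y, hD, hy⟩ := clear_denoms x.Z
  have hD' : (D:ℚ) ≠ 0 := by exact_mod_cast hD.ne'
  set P : ℕ → Prop := fun n => ∃ (W : FrZ N) (g : Matrix (Fin 2) (Fin 2) ℚ), g.det ≠ 0 ∧
    toQ W = rowOp g x.Z ∧ (gram W).natAbs = n with hP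
  have hex : ∃ n, P n := by
    refine ⟨_, y, !![(D:ℚ), 0; 0, (D:ℚ)], ?_, ?_, rfl⟩
    · rw [Matrix.det_fin_two_of]
      simp [hD']
    · rw [← hy]
      funext i j
      obtain rfl | rfl : i = 0 ∨ i = 1 := by omega
      · simp [rowOp]
      · simp [rowOp]
  obtain ⟨W, g, hg, hW, hn⟩ := Nat.find_spec hex
  have hmin : ∀ n, P n → Nat.find hex ≤ n := fun n hn => Nat.find_min' hex hn
  have hframe : ∀ (W : FrZ N) (g : Matrix (Fin 2) (Fin 2) ℚ), g.det ≠ 0 →
      toQ W = rowOp g x.Z → IsFrame W := by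
    intro W g hg hW
    obtain ⟨i, j, hij⟩ := x.frame.rowOp hg
    refine ⟨i, j, ?_⟩
    intro h0
    apply hij
    rw [← hW, minor_toQ, h0, Int.cast_zero]
  have hsat : SatZ W := by
    rw [satZ_iff]
    intro p hp hns
    obtain ⟨k, V, hk, hWV⟩ := exists_super hp hns
    have hkd : (matQ k).det ≠ 0 := by
      rw [matQ_det]
      intro h0
      have h1 : k.det = 0 := by exact_mod_cast h0
      rw [h1, abs_zero] at hk
      exact hp.ne_zero (by exact_mod_cast hk.symm)
    have hku : IsUnit (matQ k).det := isUnit_iff_ne_zero.2 hkd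
    have hV : toQ V = rowOp ((matQ k)⁻¹ * g) x.Z := by
      rw [rowOp_mul, ← hW, hWV, ← rowOp_toQ, ← rowOp_mul, Matrix.nonsing_inv_mul _ hku, rowOp_one]
    have hdet : ((matQ k)⁻¹ * g).det ≠ 0 := by
      rw [Matrix.det_mul, Matrix.det_nonsing_inv]
      exact mul_ne_zero (isUnit_iff_ne_zero.1 hku.ringInverse) hg
    have h1 := hmin _ ⟨V, _, hdet, hV, rfl⟩
    rw [← hn] at h1
    have h2 : gram W = k.det ^ 2 * gram V := by rw [hWV, gram_rowOp]
    have h3 : k.det ^ 2 = (p:ℤ) ^ 2 := by rw [← sq_abs, hk]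
    have h4 : 0 < gram V := isFrame_gram_pos (hframe V _ hdet hV)
    have h5 : (2:ℤ) ≤ p := by exact_mod_cast hp.two_le
    rw [h3] at h2
    have h7 : (4:ℤ) ≤ (p:ℤ) ^ 2 := by nlinarith
    have h6 : gram V < gram W := by rw [h2]; nlinarith
    omega
  -- the forms
  have hgu : IsUnit g.det := isUnit_iff_ne_zero.2 hg
  set A1 := pull g⁻¹ x.A with hA1
  have hA1g : pull g A1 = x.A := by
    rw [hA1, ← pull_mul, Matrix.nonsing_inv_mul g hgu, pull_one]
  obtain ⟨E, A2, hE, hA2⟩ := clear_denoms A1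
  have hE' : (E:ℚ) ≠ 0 := by exact_mod_cast hE.ne'
  have hA2ne : A2 ≠ 0 := by
    rintro rfl
    have h0 : toQ (0 : CoZ m d) = 0 := by
      funext i j
      simp [toQ]
    rw [h0] at hA2
    have h1 : A1 = 0 := (smul_eq_zero.1 hA2).resolve_left hE'
    rw [h1] at hA1g
    apply x.ne
    rw [← hA1g]
    funext i j
    simp [pull]
  obtain ⟨k, A3, hk, hA3, hk3⟩ := exists_prim hA2ne
  have hk' : (k:ℚ) ≠ 0 := by exact_mod_cast hk
  refine ⟨W, A3, hsat, hA3, same_iff.2 ⟨g, (k:ℚ)⁻¹ * E, hg, mul_ne_zero (inv_ne_zero hk') hE',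
    hW, ?_⟩⟩
  simp only [ofInt]
  have h1 : toQ A3 = (k:ℚ)⁻¹ • ((E:ℚ) • A1) := by
    rw [hA2, hk3]
    funext i j
    simp only [toQ, Pi.smul_apply, smul_eq_mul]
    push_cast
    field_simp
  rw [h1, pull_smul, pull_smul, hA1g, smul_smul]

theorem NoZero.of_same {x y : Rep N m d} (h : Same x y) (hx : NoZero x) : NoZero y := by
  obtain ⟨g, s, hg, hs, _, h2⟩ := h
  intro u v huv
  have hu : IsUnit g.det := isUnit_iff_ne_zero.2 hg
  set u' := g⁻¹ 0 0 * u + g⁻¹ 0 1 * v with hu'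
  set v' := g⁻¹ 1 0 * u + g⁻¹ 1 1 * v with hv'
  have hgg : g * g⁻¹ = 1 := Matrix.mul_nonsing_inv g hu
  have e00 := congrFun (congrFun hgg 0) 0
  have e01 := congrFun (congrFun hgg 0) 1
  have e10 := congrFun (congrFun hgg 1) 0
  have e11 := congrFun (congrFun hgg 1) 1
  simp only [Matrix.mul_apply, Fin.sum_univ_two, Matrix.one_apply_eq, ne_eq, zero_ne_one,
    not_false_eq_true, Matrix.one_apply_ne, one_ne_zero] at e00 e01 e10 e11
  have h3 : g 0 0 * u' + g 0 1 * v' = u := by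
    rw [hu', hv']; linear_combination u * e00 + v * e01
  have h4 : g 1 0 * u' + g 1 1 * v' = v := by
    rw [hu', hv']; linear_combination u * e10 + v * e11
  have hne : u' ≠ 0 ∨ v' ≠ 0 := by
    by_contra hcon
    push Not at hcon
    rw [hcon.1, hcon.2] at h3 h4
    simp only [mul_zero, add_zero] at h3 h4
    rcases huv with h0 | h0
    · exact h0 h3.symm
    · exact h0 h4.symm
  obtain ⟨i, hi⟩ := hx u' v' hne
  refine ⟨i, ?_⟩
  have h5 := h2 i u' v'
  rw [h3, h4, formVal_smul] at h5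
  rw [← h5]
  exact mul_ne_zero hs hi

theorem noZero_iff_of_same {x y : Rep N m d} (h : Same x y) : NoZero x ↔ NoZero y :=
  ⟨fun hx => hx.of_same h, fun hy => hy.of_same (same_equivalence.symm h)⟩

theorem noZero_ofInt {Z : FrZ N} {A : CoZ m d} {hZ : IsFrame Z} {hA : A ≠ 0} :
    NoZero (ofInt Z A hZ hA) ↔ NoRootZ A := by
  have hcast : ∀ (i : Fin m) (u v : ℤ), formVal (toQ A) i (u:ℚ) (v:ℚ) =
      ((formVal A i u v : ℤ) : ℚ) := fun i u v =>
    formVal_map (Int.castRingHom ℚ) A i u v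
  constructor
  · intro h u v huv
    obtain ⟨i, hi⟩ := h u v (by
      rcases huv with h0 | h0
      · left; exact_mod_cast h0
      · right; exact_mod_cast h0)
    refine ⟨i, ?_⟩
    intro h0
    apply hi
    simp only [ofInt]
    rw [hcast, h0, Int.cast_zero]
  · intro h u v huv
    obtain ⟨D, y, hD, hy⟩ := clear_denoms (![![u, v]] : Fin 1 → Fin 2 → ℚ)
    have hD' : (D:ℚ) ≠ 0 := by exact_mod_cast hD.ne'
    have e0 := congrFun (congrFun hy 0) 0
    have e1 := congrFun (congrFun hy 0) 1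
    simp only [Pi.smul_apply, Matrix.cons_val_zero, smul_eq_mul, toQ, Matrix.cons_val_one,
      Matrix.cons_val_fin_one] at e0 e1
    obtain ⟨i, hi⟩ := h (y 0 0) (y 0 1) (by
      rcases huv with h0 | h0
      · left
        intro hz
        rw [hz, Int.cast_zero] at e0
        exact (mul_ne_zero hD' h0) e0
      · right
        intro hz
        rw [hz, Int.cast_zero] at e1
        exact (mul_ne_zero hD' h0) e1)
    refine ⟨i, ?_⟩
    intro h0
    apply hi
    have h1 := hcast i (y 0 0) (y 0 1)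
    rw [← e0, ← e1, formVal_scale] at h1
    simp only [ofInt] at h0
    rw [h0, mul_zero] at h1
    exact_mod_cast h1.symm

end Pool.Agent.Lib.MP_1acd66_nt
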