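import Pool.Agent.Lib.MP_1acd66_nt.Gram
import Pool.Agent.Lib.MP_1acd66_nt.Tiling

/-! The archimedean local norm. -/

namespace Pool.Agent.Lib.MP_1acd66_nt

open MeasureTheory Metric Set Filter Topology

/-- real frames -/
abbrev Fr (N : ℕ) := Fin 2 → Fin N → ℝ

/-- real coefficient arrays -/
abbrev Co (m d : ℕ) := Fin m → Fin (d + 1) → ℝ

instance haarPiPi (a b : ℕ) : Measure.IsAddHaarMeasure (volume : Measure (Fin a → Fin b → ℝ)) := by
  have : ∀ _ : Fin a, Measure.IsAddHaarMeasure (volume : Measure (Fin b → ℝ)) :=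
    fun _ => inferInstance
  exact Measure.pi.isAddHaarMeasure (fun _ : Fin a => (volume : Measure (Fin b → ℝ)))

theorem finrank_piPi (a b : ℕ) : a * b = Module.finrank ℝ (Fin a → Fin b → ℝ) := by
  rw [Module.finrank_pi_fintype]
  simp

variable {N m d : ℕ} {M : Fr N → Co m d → ℝ}

theorem IsLocalNorm.scaleZ (hM : IsLocalNorm ℝ N m d M) (hw : m * (d * (d + 1) / 2) ≤ N)
    {Z : Fr N} (hZ : IsFrame Z) {A : Co m d} (hA : A ≠ 0) {t : ℝ} (ht : t ≠ 0) :
    M (t • Z) A = |t| ^ (2 * N) * M Z A := by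
  set g : Matrix (Fin 2) (Fin 2) ℝ := !![t, 0; 0, t] with hg
  have hdet : g.det = t ^ 2 := by rw [hg, Matrix.det_fin_two_of]; ring
  have e1 : rowOp g Z = t • Z := by
    funext i j
    obtain rfl | rfl : i = 0 ∨ i = 1 := by omega
    · simp [rowOp, hg]
    · simp [rowOp, hg]
  have e2 : IsPullback g A (t ^ d • A) := by
    intro i u v
    rw [formVal_smul]
    simp only [hg, Matrix.of_apply, Matrix.cons_val', Matrix.cons_val_zero, Matrix.cons_val_one,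
      Matrix.cons_val_fin_one, zero_mul, add_zero, zero_add]
    rw [formVal_scale]
  have e3 := hM.frame Z A (t ^ d • A) hZ hA g (by rw [hdet]; positivity) e2
  rw [e1, hdet, hM.scale Z A hZ hA (t ^ d) (by positivity)] at e3
  rw [e3]
  simp only [Real.norm_eq_abs, abs_pow]
  rw [← mul_assoc]
  congr 1
  rw [← pow_mul, ← pow_mul, ← pow_add]
  congr 1
  have h2 : 2 * (d * (d + 1) / 2) = d * (d + 1) :=
    Nat.mul_div_cancel' (Nat.even_mul_succ_self d).two_dvd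
  have h3 : 2 * (m * (d * (d + 1) / 2)) = d * (m * (d + 1)) := by
    calc 2 * (m * (d * (d + 1) / 2)) = m * (2 * (d * (d + 1) / 2)) := by ring
      _ = m * (d * (d + 1)) := by rw [h2]
      _ = d * (m * (d + 1)) := by ring
  omega

theorem IsLocalNorm.homA (hM : IsLocalNorm ℝ N m d M) {Z : Fr N} (hZ : IsFrame Z) :
    ∀ A : Co m d, A ≠ 0 → ∀ s : ℝ, 0 < s → M Z (s • A) = s ^ (m * (d + 1)) * M Z A := by
  intro A hA s hs
  rw [hM.scale Z A hZ hA s hs.ne', Real.norm_eq_abs, abs_of_pos hs]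

/-- the closed shell in the space of coefficients -/
theorem isCompact_shell (a b : ℕ) :
    IsCompact ({x : Fin a → Fin b → ℝ | 1 / 2 ≤ ‖x‖} ∩ closedBall 0 2) := by
  refine IsCompact.inter_left (isCompact_closedBall 0 2) ?_
  exact isClosed_le continuous_const continuous_norm

theorem IsLocalNorm.contOn_shell (hM : IsLocalNorm ℝ N m d M) {K : Set (Fr N)}
    (hKF : ∀ Z ∈ K, IsFrame Z) :
    ContinuousOn (fun x : Fr N × Co m d => M x.1 x.2)
      (K ×ˢ ({x : Co m d | 1 / 2 ≤ ‖x‖} ∩ closedBall 0 2)) := by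
  refine hM.cont.mono ?_
  rintro ⟨Z, x⟩ ⟨hZ, hx, _⟩
  refine ⟨hKF Z hZ, ?_⟩
  rintro rfl
  simp only [mem_ofPred_eq, norm_zero] at hx
  norm_num at hx

/-- on a compact set of frames the norm is comparable with the sup norm of the coefficients -/
theorem IsLocalNorm.compact_bound (hM : IsLocalNorm ℝ N m d M) {K : Set (Fr N)}
    (hK : IsCompact K) (hKF : ∀ Z ∈ K, IsFrame Z) :
    ∃ c C : ℝ, 0 < c ∧ 0 < C ∧ ∀ Z ∈ K, ∀ A : Co m d, A ≠ 0 →
      c * ‖A‖ ^ (m * (d + 1)) ≤ M Z A ∧ M Z A ≤ C * ‖A‖ ^ (m * (d + 1)) := by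
  set S : Set (Fr N × Co m d) := K ×ˢ ({x : Co m d | 1 / 2 ≤ ‖x‖} ∩ closedBall 0 2) with hS
  have hSc : IsCompact S := hK.prod (isCompact_shell m (d + 1))
  have hcont := hM.contOn_shell (m := m) (d := d) hKF
  -- reduction to unit vectors
  have key : ∀ c C : ℝ, (∀ p ∈ S, c ≤ M p.1 p.2 ∧ M p.1 p.2 ≤ C) → ∀ Z ∈ K, ∀ A : Co m d, A ≠ 0 →
      c * ‖A‖ ^ (m * (d + 1)) ≤ M Z A ∧ M Z A ≤ C * ‖A‖ ^ (m * (d + 1)) := by
    intro c C H Z hZ A hA
    have hn : 0 < ‖A‖ := norm_pos_iff.2 hA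
    have hB : ‖(‖A‖⁻¹ • A)‖ = 1 := by
      rw [norm_smul, norm_inv, norm_norm, inv_mul_cancel₀ hn.ne']
    have hB0 : (‖A‖⁻¹ • A) ≠ 0 := by
      intro h0; rw [h0, norm_zero] at hB; exact zero_ne_one hB
    have hmem : ((Z, ‖A‖⁻¹ • A) : Fr N × Co m d) ∈ S := by
      refine ⟨hZ, ?_, ?_⟩
      · simp only [mem_ofPred_eq, hB]; norm_num
      · rw [mem_closedBall_zero_iff, hB]; norm_num
    obtain ⟨h1, h2⟩ := H _ hmem
    have e : M Z A = ‖A‖ ^ (m * (d + 1)) * M Z (‖A‖⁻¹ • A) := by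
      rw [← hM.homA (hKF Z hZ) _ hB0 _ hn, smul_smul, mul_inv_cancel₀ hn.ne', one_smul]
    simp only at h1 h2
    rw [e]
    constructor
    · rw [mul_comm]; exact mul_le_mul_of_nonneg_left h1 (by positivity)
    · rw [mul_comm C]; exact mul_le_mul_of_nonneg_left h2 (by positivity)
  rcases S.eq_empty_or_nonempty with hE | hne
  · refine ⟨1, 1, one_pos, one_pos, key 1 1 ?_⟩
    intro p hp
    rw [hE] at hp
    exact absurd hp (Set.notMem_empty _)
  · obtain ⟨p, hp, hmin⟩ := hSc.exists_isMinOn hne hcont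
    obtain ⟨q, hq, hmax⟩ := hSc.exists_isMaxOn hne hcont
    have hpos : ∀ r ∈ S, 0 < M r.1 r.2 := by
      rintro ⟨Z, x⟩ ⟨hZ, hx, _⟩
      refine hM.pos Z x (hKF Z hZ) ?_
      rintro rfl
      simp only [mem_ofPred_eq, norm_zero] at hx
      norm_num at hx
    refine ⟨M p.1 p.2, M q.1 q.2, hpos p hp, hpos q hq, key _ _ ?_⟩
    intro r hr
    exact ⟨hmin hr, hmax hr⟩

/-- uniform continuity, multiplicative version -/
theorem IsLocalNorm.modulus (hM : IsLocalNorm ℝ N m d M) {K : Set (Fr N)}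
    (hK : IsCompact K) (hKF : ∀ Z ∈ K, IsFrame Z) {ε : ℝ} (hε : 0 < ε) :
    ∃ δ : ℝ, 0 < δ ∧ δ ≤ 1 / 2 ∧ ∀ Z ∈ K, ∀ Z' ∈ K, ‖Z' - Z‖ ≤ δ → ∀ x y : Co m d, x ≠ 0 →
      ‖y - x‖ ≤ δ * ‖x‖ → y ≠ 0 ∧ M Z' y ≤ (1 + ε) * M Z x ∧ M Z x ≤ (1 + ε) * M Z' y := by
  obtain ⟨c, C, hc, hC, hb⟩ := hM.compact_bound hK hKF
  set S : Set (Fr N × Co m d) := K ×ˢ ({x : Co m d | 1 / 2 ≤ ‖x‖} ∩ closedBall 0 2) with hS
  have hSc : IsCompact S := hK.prod (isCompact_shell m (d + 1))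
  have huc := hSc.uniformContinuousOn_of_continuous (hM.contOn_shell (m := m) (d := d) hKF)
  rw [Metric.uniformContinuousOn_iff] at huc
  set c' := c * (1 / 2) ^ (m * (d + 1)) with hc'
  have hc'pos : 0 < c' := by positivity
  obtain ⟨δ, hδ, H⟩ := huc (ε * c') (by positivity)
  refine ⟨min (δ / 2) (1 / 2), by positivity, min_le_right _ _, ?_⟩
  intro Z hZ Z' hZ' hZZ x y hx hxy
  have hn : 0 < ‖x‖ := norm_pos_iff.2 hx
  have hy0 : y ≠ 0 := by
    rintro rfl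
    rw [zero_sub, norm_neg] at hxy
    have : min (δ / 2) (1 / 2) ≤ 1 / 2 := min_le_right _ _
    nlinarith
  set s := ‖x‖⁻¹ with hs
  have hspos : 0 < s := inv_pos.2 hn
  have h1 : ‖s • x‖ = 1 := by
    rw [norm_smul, Real.norm_eq_abs, abs_of_pos hspos, hs, inv_mul_cancel₀ hn.ne']
  have h2 : ‖s • y - s • x‖ ≤ min (δ / 2) (1 / 2) := by
    rw [← smul_sub, norm_smul, Real.norm_eq_abs, abs_of_pos hspos, hs, inv_mul_le_iff₀ hn]
    linarith
  have h2a : ‖s • y - s • x‖ ≤ δ / 2 := h2.trans (min_le_left _ _)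
  have h2b : ‖s • y - s • x‖ ≤ 1 / 2 := h2.trans (min_le_right _ _)
  have hyn1 : 1 / 2 ≤ ‖s • y‖ := by
    have : ‖s • x‖ ≤ ‖s • y‖ + ‖s • y - s • x‖ := by
      calc ‖s • x‖ = ‖s • y - (s • y - s • x)‖ := by congr 1; abel
        _ ≤ _ := norm_sub_le _ _
    linarith
  have hyn2 : ‖s • y‖ ≤ 2 := by
    have : ‖s • y‖ ≤ ‖s • x‖ + ‖s • y - s • x‖ := by
      calc ‖s • y‖ = ‖s • x + (s • y - s • x)‖ := by congr 1; abel
        _ ≤ _ := norm_add_le _ _
    linarith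
  have m1 : ((Z, s • x) : Fr N × Co m d) ∈ S := by
    refine ⟨hZ, ?_, ?_⟩
    · simp only [mem_ofPred_eq, h1]; norm_num
    · rw [mem_closedBall_zero_iff, h1]; norm_num
  have m2 : ((Z', s • y) : Fr N × Co m d) ∈ S := by
    refine ⟨hZ', ?_, ?_⟩
    · simpa only [mem_ofPred_eq] using hyn1
    · rwa [mem_closedBall_zero_iff]
  have h3 := H _ m2 _ m1 (by
    rw [Prod.dist_eq, max_lt_iff]
    refine ⟨?_, ?_⟩
    · rw [dist_eq_norm]
      have : ‖Z' - Z‖ ≤ δ / 2 := hZZ.trans (min_le_left _ _)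
      simp only
      linarith
    · rw [dist_eq_norm]
      simp only
      linarith)
  rw [Real.dist_eq] at h3
  simp only at h3
  have sx0 : s • x ≠ 0 := smul_ne_zero hspos.ne' hx
  have sy0 : s • y ≠ 0 := smul_ne_zero hspos.ne' hy0
  have p1 : c' ≤ M Z (s • x) := by
    refine le_trans ?_ (hb Z hZ _ sx0).1
    rw [hc', h1]
    apply mul_le_mul_of_nonneg_left _ hc.le
    exact pow_le_pow_left₀ (by norm_num) (by norm_num) _
  have p2 : c' ≤ M Z' (s • y) := by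
    refine le_trans ?_ (hb Z' hZ' _ sy0).1
    rw [hc']
    apply mul_le_mul_of_nonneg_left _ hc.le
    exact pow_le_pow_left₀ (by norm_num) hyn1 _
  have e1 := hM.homA (hKF Z hZ) x hx s hspos
  have e2 := hM.homA (hKF Z' hZ') y hy0 s hspos
  rw [abs_lt] at h3
  have hsp : 0 < s ^ (m * (d + 1)) := by positivity
  have q1 : M Z' (s • y) ≤ (1 + ε) * M Z (s • x) := by nlinarith [h3.2]
  have q2 : M Z (s • x) ≤ (1 + ε) * M Z' (s • y) := by nlinarith [h3.1]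
  refine ⟨hy0, ?_, ?_⟩
  · rw [e1, e2] at q1
    have : s ^ (m * (d + 1)) * M Z' y ≤ s ^ (m * (d + 1)) * ((1 + ε) * M Z x) := by linarith
    exact le_of_mul_le_mul_left this hsp
  · rw [e1, e2] at q2
    have : s ^ (m * (d + 1)) * M Z x ≤ s ^ (m * (d + 1)) * ((1 + ε) * M Z' y) := by linarith
    exact le_of_mul_le_mul_left this hsp

/-- the volume of the unit body -/
noncomputable def bodyVol (M : Fr N → Co m d → ℝ) (Z : Fr N) : ℝ := (volume : Measure (Co m d)).real (sub (M Z) 1)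

theorem IsLocalNorm.lower (hM : IsLocalNorm ℝ N m d M) {Z : Fr N} (hZ : IsFrame Z) :
    ∃ c : ℝ, 0 < c ∧ ∀ A : Co m d, A ≠ 0 → c * ‖A‖ ^ (m * (d + 1)) ≤ M Z A := by
  obtain ⟨c, C, hc, _, hb⟩ := hM.compact_bound (K := {Z}) isCompact_singleton
    (by rintro Z' rfl; exact hZ)
  exact ⟨c, hc, fun A hA => (hb Z rfl A hA).1⟩

theorem IsLocalNorm.real_sub (hM : IsLocalNorm ℝ N m d M) (hm : 0 < m) {Z : Fr N} (hZ : IsFrame Z)
    {Y : ℝ} (hY : 0 < Y) :
    (volume : Measure (Co m d)).real (sub (M Z) Y) = Y * bodyVol M Z := by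
  have := measure_sub (μ := (volume : Measure (Co m d))) (M Z) (finrank_piPi m (d + 1))
    (Nat.mul_pos hm (Nat.succ_pos d)) (hM.homA hZ) (Y' := 1) hY
  rw [mul_one] at this
  rw [Measure.real, this, ENNReal.toReal_mul, ENNReal.toReal_ofReal hY.le]
  rfl

theorem IsLocalNorm.continuousAt_bodyVol (hM : IsLocalNorm ℝ N m d M) (hm : 0 < m) {Z : Fr N}
    (hZ : IsFrame Z) : ContinuousAt (bodyVol M) Z := by
  rw [Metric.continuousAt_iff]
  intro ε hε
  obtain ⟨r, hr, hball⟩ := Metric.isOpen_iff.1 isOpen_frames Z hZ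
  have hK : IsCompact (closedBall Z (r / 2)) := isCompact_closedBall _ _
  have hKF : ∀ Z' ∈ closedBall Z (r / 2), IsFrame Z' := fun Z' hZ' =>
    hball (closedBall_subset_ball (by linarith) hZ')
  set u := bodyVol M Z with hu
  have hu0 : 0 ≤ u := measureReal_nonneg
  set ε' := min 1 (ε / (2 * (u + 1))) with hε'
  have hε'p : 0 < ε' := by positivity
  obtain ⟨δ, hδ, hδ2, H⟩ := hM.modulus hK hKF hε'p
  refine ⟨min δ (r / 2), by positivity, ?_⟩
  intro Z' hZ'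
  have hZ'K : Z' ∈ closedBall Z (r / 2) := by
    rw [mem_closedBall]
    exact (hZ'.trans_le (min_le_right _ _)).le
  have hZK : Z ∈ closedBall Z (r / 2) := mem_closedBall_self (by positivity)
  have hd : ‖Z' - Z‖ ≤ δ := by
    rw [← dist_eq_norm]
    exact (hZ'.trans_le (min_le_left _ _)).le
  have hF' : IsFrame Z' := hKF Z' hZ'K
  have H' : ∀ A : Co m d, A ≠ 0 → M Z' A ≤ (1 + ε') * M Z A ∧ M Z A ≤ (1 + ε') * M Z' A := by
    intro A hA
    exact (H Z hZK Z' hZ'K hd A A hA (by rw [sub_self, norm_zero]; positivity)).2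
  have h1pos : (0:ℝ) < 1 + ε' := by linarith
  have s1 : sub (M Z) 1 ⊆ sub (M Z') (1 + ε') := by
    rintro A ⟨hA, h1⟩
    refine ⟨hA, (H' A hA).1.trans ?_⟩
    nlinarith
  have s2 : sub (M Z') 1 ⊆ sub (M Z) (1 + ε') := by
    rintro A ⟨hA, h1⟩
    refine ⟨hA, (H' A hA).2.trans ?_⟩
    nlinarith
  obtain ⟨c1, hc1, hc1b⟩ := hM.lower hZ
  obtain ⟨c2, hc2, hc2b⟩ := hM.lower hF'
  have hD0 : 0 < m * (d + 1) := Nat.mul_pos hm (Nat.succ_pos d)
  have i1 : u ≤ (1 + ε') * bodyVol M Z' := by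
    rw [← hM.real_sub hm hF' h1pos]
    exact measureReal_mono s1 (measure_sub_lt_top _ hD0 hc2 hc2b _).ne
  have i2 : bodyVol M Z' ≤ (1 + ε') * u := by
    rw [hu, ← hM.real_sub hm hZ h1pos]
    exact measureReal_mono s2 (measure_sub_lt_top _ hD0 hc1 hc1b _).ne
  have hε'1 : ε' ≤ 1 := min_le_left _ _
  have hε'2 : ε' * (u + 1) ≤ ε / 2 := by
    have : ε' ≤ ε / (2 * (u + 1)) := min_le_right _ _
    calc ε' * (u + 1) ≤ ε / (2 * (u + 1)) * (u + 1) := mul_le_mul_of_nonneg_right this (by linarith)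
      _ = ε / 2 := by field_simp
  rw [Real.dist_eq, abs_lt]
  have hb0 : 0 ≤ bodyVol M Z' := measureReal_nonneg
  constructor
  · -- bodyVol Z' > u - ε
    nlinarith
  · nlinarith

theorem IsLocalNorm.bodyVol_smul (hM : IsLocalNorm ℝ N m d M) (hw : m * (d * (d + 1) / 2) ≤ N)
    (hm : 0 < m) {Z : Fr N} (hZ : IsFrame Z) {t : ℝ} (ht : 0 < t) :
    bodyVol M (t • Z) = (t ^ (2 * N))⁻¹ * bodyVol M Z := by
  have : sub (M (t • Z)) 1 = sub (M Z) ((t ^ (2 * N))⁻¹) := by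
    ext A
    simp only [sub, mem_ofPred_eq]
    constructor
    · rintro ⟨hA, h⟩
      refine ⟨hA, ?_⟩
      rw [hM.scaleZ hw hZ hA ht.ne', abs_of_pos ht] at h
      rw [← one_div, le_div_iff₀ (by positivity)]
      linarith
    · rintro ⟨hA, h⟩
      refine ⟨hA, ?_⟩
      rw [hM.scaleZ hw hZ hA ht.ne', abs_of_pos ht]
      rw [← one_div, le_div_iff₀ (by positivity)] at h
      linarith
  rw [bodyVol, this, hM.real_sub hm hZ (by positivity)]

end Pool.Agent.Lib.MP_1acd66_nt
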