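import Pool.Agent.Lib.MP_1acd66_nt.Gram
import Pool.Agent.Lib.MP_1acd66_nt.Dyadic

/-! Reduced integer frames. -/

namespace Pool.Agent.Lib.MP_1acd66_nt

open Finset

variable {N : ℕ}

/-- integer frames -/
abbrev FrZ (N : ℕ) := Fin 2 → Fin N → ℤ

/-- reduced frames (Gauss) -/
def IsReduced (Z : FrZ N) : Prop :=
  dot (Z 0) (Z 0) ≤ dot (Z 1) (Z 1) ∧ 2 * |dot (Z 0) (Z 1)| ≤ dot (Z 0) (Z 0)

theorem dot_self_nonneg_int (x : Fin N → ℤ) : 0 ≤ dot x x :=
  Finset.sum_nonneg fun _ _ => mul_self_nonneg _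

theorem exists_reduced (Z : FrZ N) :
    ∃ g : Matrix (Fin 2) (Fin 2) ℤ, IsUnit g.det ∧ IsReduced (rowOp g Z) := by
  classical
  -- minimise the sum of the squares of the lengths
  set f : {g : Matrix (Fin 2) (Fin 2) ℤ // IsUnit g.det} → ℕ := fun g =>
    (dot (rowOp g.1 Z 0) (rowOp g.1 Z 0) + dot (rowOp g.1 Z 1) (rowOp g.1 Z 1)).toNat with hf
  have hne : Nonempty {g : Matrix (Fin 2) (Fin 2) ℤ // IsUnit g.det} := ⟨⟨1, by simp⟩⟩
  obtain ⟨g0, hg0⟩ : ∃ g0, ∀ g, f g0 ≤ f g := by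
    have hr : (Set.range f).Nonempty := Set.range_nonempty f
    obtain ⟨g0, hg0⟩ := Nat.sInf_mem hr
    exact ⟨g0, fun g => hg0 ▸ Nat.sInf_le ⟨g, rfl⟩⟩
  obtain ⟨g, hg⟩ := g0
  set W := rowOp g Z with hW
  have hmin : ∀ h : Matrix (Fin 2) (Fin 2) ℤ, IsUnit h.det →
      dot (W 0) (W 0) + dot (W 1) (W 1) ≤
        dot (rowOp h W 0) (rowOp h W 0) + dot (rowOp h W 1) (rowOp h W 1) := by
    intro h hh
    have h1 : IsUnit (h * g).det := by rw [Matrix.det_mul]; exact hh.mul hg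
    have h2 := hg0 ⟨h * g, h1⟩
    simp only [hf, rowOp_mul] at h2
    rw [← hW] at h2
    have a1 := dot_self_nonneg_int (W 0)
    have a2 := dot_self_nonneg_int (W 1)
    have a3 := dot_self_nonneg_int (rowOp h W 0)
    have a4 := dot_self_nonneg_int (rowOp h W 1)
    omega
  have key1 : ∀ e : ℤ, 0 ≤ 2 * e * dot (W 0) (W 1) + e ^ 2 * dot (W 0) (W 0) := by
    intro e
    have h1 := hmin !![1, 0; e, 1] (by rw [Matrix.det_fin_two_of]; simp)
    have r0 : rowOp !![1, 0; e, 1] W 0 = W 0 := by funext j; simp [rowOp]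
    have r1 : dot (rowOp !![1, 0; e, 1] W 1) (rowOp !![1, 0; e, 1] W 1) =
        dot (W 1) (W 1) + 2 * e * dot (W 0) (W 1) + e ^ 2 * dot (W 0) (W 0) := by
      simp only [dot, Finset.mul_sum, ← Finset.sum_add_distrib]
      refine Finset.sum_congr rfl fun j _ => ?_
      simp [rowOp]
      ring
    rw [r0, r1] at h1
    linarith
  have key2 : ∀ e : ℤ, 0 ≤ 2 * e * dot (W 0) (W 1) + e ^ 2 * dot (W 1) (W 1) := by
    intro e
    have h1 := hmin !![1, e; 0, 1] (by rw [Matrix.det_fin_two_of]; simp)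
    have r1 : rowOp !![1, e; 0, 1] W 1 = W 1 := by funext j; simp [rowOp]
    have r0 : dot (rowOp !![1, e; 0, 1] W 0) (rowOp !![1, e; 0, 1] W 0) =
        dot (W 0) (W 0) + 2 * e * dot (W 0) (W 1) + e ^ 2 * dot (W 1) (W 1) := by
      simp only [dot, Finset.mul_sum, ← Finset.sum_add_distrib]
      refine Finset.sum_congr rfl fun j _ => ?_
      simp [rowOp]
      ring
    rw [r0, r1] at h1
    linarith
  have k1 := key1 1
  have k1' := key1 (-1)
  have k2 := key2 1
  have k2' := key2 (-1)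
  by_cases hle : dot (W 0) (W 0) ≤ dot (W 1) (W 1)
  · refine ⟨g, hg, hle, ?_⟩
    rw [← hW]
    rcases abs_cases (dot (W 0) (W 1)) with ⟨h, _⟩ | ⟨h, _⟩ <;> rw [h] <;> linarith
  · refine ⟨!![0, 1; 1, 0] * g, ?_, ?_⟩
    · rw [Matrix.det_mul]
      refine IsUnit.mul ?_ hg
      rw [Matrix.det_fin_two_of]
      simp
    · rw [rowOp_mul, ← hW]
      have r0 : rowOp !![0, 1; 1, 0] W 0 = W 1 := by funext j; simp [rowOp]
      have r1 : rowOp !![0, 1; 1, 0] W 1 = W 0 := by funext j; simp [rowOp]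
      rw [IsReduced, r0, r1, dot_comm (W 1) (W 0)]
      refine ⟨(not_le.1 hle).le, ?_⟩
      rcases abs_cases (dot (W 0) (W 1)) with ⟨h, _⟩ | ⟨h, _⟩ <;> rw [h] <;> linarith

/-- Euclidean length of an integer vector -/
noncomputable def len (x : Fin N → ℤ) : ℝ := √((dot x x : ℤ) : ℝ)

theorem len_sq (x : Fin N → ℤ) : len x ^ 2 = ((dot x x : ℤ) : ℝ) := by
  rw [len, Real.sq_sqrt]
  exact_mod_cast dot_self_nonneg_int x

theorem len_nonneg (x : Fin N → ℤ) : 0 ≤ len x := Real.sqrt_nonneg _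

theorem abs_le_len (x : Fin N → ℤ) (j : Fin N) : |((x j : ℤ) : ℝ)| ≤ len x := by
  rw [len]
  apply Real.le_sqrt_of_sq_le
  rw [sq_abs]
  have : x j * x j ≤ dot x x :=
    Finset.single_le_sum (f := fun j => x j * x j) (fun j _ => mul_self_nonneg _) (mem_univ j)
  rw [sq]
  exact_mod_cast this

theorem one_le_len {x : Fin N → ℤ} (hx : x ≠ 0) : 1 ≤ len x := by
  obtain ⟨j, hj⟩ : ∃ j, x j ≠ 0 := by
    by_contra h
    push Not at h
    exact hx (funext h)
  refine le_trans ?_ (abs_le_len x j)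
  have : 1 ≤ |x j| := Int.one_le_abs hj
  exact_mod_cast this

/-- counting integer points in a slab -/
theorem slab_count {b : Fin N → ℤ} (hb : b ≠ 0) (S : Finset (Fin N → ℤ)) {R : ℝ}
    (hR : 1 ≤ R) (hS : ∀ x ∈ S, len x ≤ R ∧ 2 * |dot b x| ≤ dot b b) :
    (S.card : ℝ) ≤ 3 ^ (N - 1) * (N + 1) * len b * R ^ (N - 1) := by
  classical
  have hN : 0 < N := by
    rcases Nat.eq_zero_or_pos N with h | h
    · subst h; exact absurd (Subsingleton.elim b 0) hb
    · exact h
  have hne : (univ : Finset (Fin N)).Nonempty := ⟨⟨0, hN⟩, mem_univ _⟩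
  obtain ⟨i, _, hi⟩ := Finset.exists_max_image univ (fun j => |b j|) hne
  have hbi : b i ≠ 0 := by
    intro h0
    apply hb
    funext j
    have := hi j (mem_univ j)
    rw [h0, abs_zero] at this
    exact abs_eq_zero.1 (le_antisymm this (abs_nonneg _))
  have hbi1 : (1:ℝ) ≤ |((b i : ℤ) : ℝ)| := by
    have := Int.one_le_abs hbi
    exact_mod_cast this
  -- `len b ≤ N |b i|`, in fact `≤ √N |b i|`
  have hlen : len b ≤ N * |((b i : ℤ) : ℝ)| := by
    rw [len]
    apply Real.sqrt_le_iff.2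
    refine ⟨by positivity, ?_⟩
    have h1 : dot b b ≤ N * (b i) ^ 2 := by
      have : ∀ j ∈ (univ : Finset (Fin N)), b j * b j ≤ (b i) ^ 2 := by
        intro j _
        have h2 := hi j (mem_univ j)
        rw [← sq]
        exact sq_le_sq.2 h2
      have := Finset.sum_le_sum this
      simpa [dot] using this
    have h2 : ((dot b b : ℤ) : ℝ) ≤ N * ((b i : ℤ) : ℝ) ^ 2 := by exact_mod_cast h1
    rw [mul_pow, sq_abs]
    have h3 : (N:ℝ) ≤ (N:ℝ) ^ 2 := by
      have : (1:ℝ) ≤ N := by exact_mod_cast hN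
      nlinarith
    nlinarith [sq_nonneg ((b i : ℤ) : ℝ)]
  have hlen1 : 1 ≤ len b := one_le_len hb
  -- fibres of forgetting the coordinate `i`
  set f : (Fin N → ℤ) → (Fin N → ℤ) := fun x => Function.update x i 0 with hf
  have hfib : ∀ y ∈ S.image f, ((S.filter (fun x => f x = y)).card : ℝ) ≤ (N + 1) * len b := by
    intro y _
    set F := S.filter (fun x => f x = y) with hF
    have hinj : Set.InjOn (fun x : Fin N → ℤ => x i) F := by
      intro x hx x' hx' hxx
      have h1 : f x = y := (Finset.mem_filter.1 hx).2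
      have h2 : f x' = y := (Finset.mem_filter.1 hx').2
      funext j
      by_cases hj : j = i
      · rw [hj]; exact hxx
      · have h3 := congrFun (h1.trans h2.symm) j
        simpa [hf, Function.update_of_ne hj] using h3
    rw [← Finset.card_image_of_injOn hinj]
    have hb2 : ∀ u ∈ F.image (fun x : Fin N → ℤ => x i), ∀ w ∈ F.image (fun x : Fin N → ℤ => x i),
        ((u - w : ℤ) : ℝ) ≤ N * len b := by
      intro u hu w hw
      obtain ⟨x, hx, rfl⟩ := Finset.mem_image.1 hu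
      obtain ⟨x', hx', rfl⟩ := Finset.mem_image.1 hw
      obtain ⟨hx1, hx2⟩ := Finset.mem_filter.1 hx
      obtain ⟨hx'1, hx'2⟩ := Finset.mem_filter.1 hx'
      have d1 := (hS x hx1).2
      have d2 := (hS x' hx'1).2
      have e : dot b x - dot b x' = b i * (x i - x' i) := by
        simp only [dot, ← Finset.sum_sub_distrib]
        rw [Finset.sum_eq_single i]
        · ring
        · intro j _ hj
          have h3 := congrFun (hx2.trans hx'2.symm) j
          simp only [hf, Function.update_of_ne hj] at h3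
          rw [h3]; ring
        · simp
      have h4 : |b i| * |x i - x' i| ≤ dot b b := by
        rw [← abs_mul, ← e]
        have := abs_sub (dot b x) (dot b x')
        linarith
      have h5 : |((b i : ℤ) : ℝ)| * |((x i - x' i : ℤ) : ℝ)| ≤ len b ^ 2 := by
        rw [len_sq]
        exact_mod_cast h4
      have h6 : len b ^ 2 ≤ (N * |((b i : ℤ) : ℝ)|) * len b := by
        rw [sq]
        exact mul_le_mul_of_nonneg_right hlen (by linarith)
      have h7 : |((b i : ℤ) : ℝ)| * |((x i - x' i : ℤ) : ℝ)| ≤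
          |((b i : ℤ) : ℝ)| * (N * len b) := by linarith
      have h8 : |((x i - x' i : ℤ) : ℝ)| ≤ N * len b := le_of_mul_le_mul_left h7 (by linarith)
      exact (le_abs_self _).trans h8
    refine (card_int_le _ (by positivity) hb2).trans ?_
    linarith
  have himg : ((S.image f).card : ℝ) ≤ (3 * R) ^ (N - 1) := by
    refine card_box' N i hR _ ?_ ?_
    · intro y hy j
      obtain ⟨x, hx, rfl⟩ := Finset.mem_image.1 hy
      by_cases hj : j = i
      · rw [hj]; simp [hf]; linarith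
      · simp only [hf, Function.update_of_ne hj]
        exact (abs_le_len x j).trans (hS x hx).1
    · intro y hy
      obtain ⟨x, hx, rfl⟩ := Finset.mem_image.1 hy
      simp [hf]
  have hsum : (S.card : ℝ) = ∑ y ∈ S.image f, ((S.filter (fun x => f x = y)).card : ℝ) := by
    rw [← Nat.cast_sum, ← Finset.card_eq_sum_card_image]
  rw [hsum]
  calc ∑ y ∈ S.image f, ((S.filter (fun x => f x = y)).card : ℝ)
      ≤ ∑ y ∈ S.image f, (N + 1) * len b := Finset.sum_le_sum hfib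
    _ = ((S.image f).card : ℝ) * ((N + 1) * len b) := by rw [Finset.sum_const, nsmul_eq_mul]
    _ ≤ (3 * R) ^ (N - 1) * ((N + 1) * len b) :=
        mul_le_mul_of_nonneg_right himg (by positivity)
    _ = _ := by rw [mul_pow]; ring

/-- the covolume of a frame -/
noncomputable def det2 (Z : FrZ N) : ℝ := √((gram Z : ℤ) : ℝ)

theorem gram_nonneg_int (Z : FrZ N) : 0 ≤ gram Z := by
  have h1 := gram_nonneg (fun i j => ((Z i j : ℤ) : ℝ))
  have h2 := gram_map (Int.castRingHom ℝ) Z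
  simp only [eq_intCast] at h2
  rw [h2] at h1
  exact_mod_cast h1

theorem det2_sq (Z : FrZ N) : det2 Z ^ 2 = ((gram Z : ℤ) : ℝ) := by
  rw [det2, Real.sq_sqrt]
  exact_mod_cast gram_nonneg_int Z

theorem isFrame_gram_pos {Z : FrZ N} (hZ : IsFrame Z) : 0 < gram Z := by
  have h1 : IsFrame (fun i j => ((Z i j : ℤ) : ℝ)) := by
    obtain ⟨i, j, hij⟩ := hZ
    refine ⟨i, j, ?_⟩
    simp only [minor] at hij ⊢
    exact_mod_cast hij
  have h2 := (gram_pos_iff _).2 h1
  have h3 := gram_map (Int.castRingHom ℝ) Z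
  simp only [eq_intCast] at h3
  rw [h3] at h2
  exact_mod_cast h2

theorem one_le_det2 {Z : FrZ N} (hZ : IsFrame Z) : 1 ≤ det2 Z := by
  rw [det2]
  apply Real.le_sqrt_of_sq_le
  have : 1 ≤ gram Z := isFrame_gram_pos hZ
  rw [one_pow]
  exact_mod_cast this

theorem IsFrame.row_ne_zero {Z : FrZ N} (hZ : IsFrame Z) (i : Fin 2) : Z i ≠ 0 := by
  intro h
  obtain ⟨a, b, hab⟩ := hZ
  obtain rfl | rfl : i = 0 ∨ i = 1 := by omega
  · apply hab; simp [minor, h]
  · apply hab; simp [minor, h]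

theorem IsReduced.len_mul_le {Z : FrZ N} (h : IsReduced Z) :
    len (Z 0) * len (Z 1) ≤ 2 * det2 Z := by
  obtain ⟨h1, h2⟩ := h
  have a0 := dot_self_nonneg_int (Z 0)
  have a1 := dot_self_nonneg_int (Z 1)
  have h3 : dot (Z 0) (Z 0) * dot (Z 1) (Z 1) ≤ 4 * gram Z := by
    have h4 : (2 * |dot (Z 0) (Z 1)|) ^ 2 ≤ dot (Z 0) (Z 0) * dot (Z 1) (Z 1) := by
      have h5 : (2 * |dot (Z 0) (Z 1)|) ^ 2 ≤ dot (Z 0) (Z 0) ^ 2 :=
        pow_le_pow_left₀ (by positivity) h2 2
      nlinarith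
    rw [mul_pow, sq_abs] at h4
    rw [gram]
    have h7 := mul_nonneg a0 a1
    linarith
  have h6 : (len (Z 0) * len (Z 1)) ^ 2 ≤ (2 * det2 Z) ^ 2 := by
    rw [mul_pow, mul_pow, len_sq, len_sq, det2_sq]
    norm_num
    exact_mod_cast h3
  exact le_of_sq_le_sq h6 (by have : 0 ≤ det2 Z := Real.sqrt_nonneg _; positivity)

/-- The basic sum over reduced frames. -/
theorem reduced_sum (hN : 1 ≤ N) : ∃ C : ℝ, 0 < C ∧ ∀ (T r : ℝ), 1 ≤ T → 1 ≤ r →
    ∀ S : Finset (FrZ N), (∀ Z ∈ S, IsFrame Z ∧ IsReduced Z ∧ det2 Z ≤ T ∧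
      r * len (Z 0) ≤ len (Z 1)) →
    ∑ Z ∈ S, (det2 Z ^ N)⁻¹ ≤ C / r * (1 + Real.log T) := by
  classical
  set K1 : ℝ := 3 ^ (N - 1) * (N + 1) with hK1
  refine ⟨2 ^ N * (2 ^ N * K1) * (2 ^ (N + 1) * 3 ^ N * (1 + Real.log 2)), by
    have := Real.log_nonneg (show (1:ℝ) ≤ 2 by norm_num)
    positivity, ?_⟩
  intro T r hT hr S hS
  have hlog2 : 0 ≤ Real.log 2 := Real.log_nonneg (by norm_num)
  have hlogT : 0 ≤ Real.log T := Real.log_nonneg hT
  -- compare with the product of the lengths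
  have step1 : ∑ Z ∈ S, (det2 Z ^ N)⁻¹ ≤
      ∑ Z ∈ S, 2 ^ N * ((len (Z 0) ^ N)⁻¹ * (len (Z 1) ^ N)⁻¹) := by
    refine Finset.sum_le_sum ?_
    intro Z hZ
    obtain ⟨hF, hR, _, _⟩ := hS Z hZ
    have h1 := hR.len_mul_le
    have l0 := one_le_len (hF.row_ne_zero 0)
    have l1 := one_le_len (hF.row_ne_zero 1)
    have hd := one_le_det2 hF
    rw [← mul_inv, ← mul_pow, ← div_eq_mul_inv, inv_eq_one_div, div_le_div_iff₀ (by positivity)
      (by positivity), one_mul, ← mul_pow]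
    exact pow_le_pow_left₀ (by positivity) h1 N
  have hinner : ∀ b ∈ S.image (fun Z => Z 0), ∑ Z ∈ S.filter (fun Z => Z 0 = b),
      (len (Z 1) ^ N)⁻¹ ≤ 2 ^ N * K1 / r := by
    intro b hb
    obtain ⟨Z0, hZ0, rfl⟩ := Finset.mem_image.1 hb
    have hb0 : Z0 0 ≠ 0 := (hS Z0 hZ0).1.row_ne_zero 0
    set b := Z0 0 with hbdef
    have hlb : 1 ≤ len b := one_le_len hb0
    have h := dyadic_conv (S.filter (fun Z => Z 0 = b)) (fun Z => len (Z 1)) (K := K1 * len b)
      (R0 := r * len b) (α := N - 1) (by positivity) (by positivity) (by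
        intro Z hZ
        obtain ⟨hZ1, hZ2⟩ := Finset.mem_filter.1 hZ
        have := (hS Z hZ1).2.2.2
        rwa [hZ2] at this) (by
        intro R hR
        have hR1 : 1 ≤ R := by nlinarith
        set F := (S.filter (fun Z => Z 0 = b)).filter (fun Z => len (Z 1) ≤ R) with hF
        have hinj : Set.InjOn (fun Z : FrZ N => Z 1) F := by
          intro Z hZ Z' hZ' hZZ
          have e1 : Z 0 = b := (Finset.mem_filter.1 (Finset.mem_filter.1 hZ).1).2
          have e2 : Z' 0 = b := (Finset.mem_filter.1 (Finset.mem_filter.1 hZ').1).2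
          funext i
          obtain rfl | rfl : i = 0 ∨ i = 1 := by omega
          · rw [e1, e2]
          · exact hZZ
        rw [← Finset.card_image_of_injOn hinj]
        refine slab_count hb0 _ hR1 ?_
        intro x hx
        obtain ⟨Z, hZ, rfl⟩ := Finset.mem_image.1 hx
        obtain ⟨hZ1, hZ2⟩ := Finset.mem_filter.1 hZ
        obtain ⟨hZ3, hZ4⟩ := Finset.mem_filter.1 hZ1
        refine ⟨hZ2, ?_⟩
        have := (hS Z hZ3).2.1.2
        rwa [hZ4] at this)
    rw [Nat.sub_add_cancel hN] at h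
    refine h.trans (le_of_eq ?_)
    field_simp
  have hmaps : ∀ Z ∈ S, Z 0 ∈ S.image (fun Z => Z 0) := fun Z hZ => Finset.mem_image_of_mem _ hZ
  have step2 : ∑ Z ∈ S, 2 ^ N * ((len (Z 0) ^ N)⁻¹ * (len (Z 1) ^ N)⁻¹) ≤
      2 ^ N * (2 ^ N * K1 / r) * ∑ b ∈ S.image (fun Z => Z 0), (len b ^ N)⁻¹ := by
    rw [← Finset.sum_fiberwise_of_maps_to hmaps, Finset.mul_sum]
    refine Finset.sum_le_sum ?_
    intro b hb
    have e : ∑ Z ∈ S with Z 0 = b, 2 ^ N * ((len (Z 0) ^ N)⁻¹ * (len (Z 1) ^ N)⁻¹) =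
        2 ^ N * (len b ^ N)⁻¹ * ∑ Z ∈ S with Z 0 = b, (len (Z 1) ^ N)⁻¹ := by
      rw [Finset.mul_sum]
      refine Finset.sum_congr rfl ?_
      intro Z hZ
      rw [(Finset.mem_filter.1 hZ).2]
      ring
    rw [e]
    have h1 := hinner b hb
    have h2 : (0:ℝ) ≤ 2 ^ N * (len b ^ N)⁻¹ := by
      have := len_nonneg b
      positivity
    calc 2 ^ N * (len b ^ N)⁻¹ * ∑ Z ∈ S with Z 0 = b, (len (Z 1) ^ N)⁻¹
        ≤ 2 ^ N * (len b ^ N)⁻¹ * (2 ^ N * K1 / r) := mul_le_mul_of_nonneg_left h1 h2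
      _ = _ := by ring
  have step3 : ∑ b ∈ S.image (fun Z => Z 0), (len b ^ N)⁻¹ ≤
      2 ^ (N + 1) * 3 ^ N * (1 + Real.log (2 * T)) := by
    refine dyadic_log (S.image (fun Z => Z 0)) len (K := 3 ^ N) (R1 := 2 * T) (α := N)
      (by positivity) ?_ (by linarith) ?_ ?_
    · intro b hb
      obtain ⟨Z, hZ, rfl⟩ := Finset.mem_image.1 hb
      exact one_le_len ((hS Z hZ).1.row_ne_zero 0)
    · intro b hb
      obtain ⟨Z, hZ, rfl⟩ := Finset.mem_image.1 hb
      obtain ⟨hF, hR, hT', _⟩ := hS Z hZ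
      have h1 := hR.len_mul_le
      have l0 := one_le_len (hF.row_ne_zero 0)
      have l1 := one_le_len (hF.row_ne_zero 1)
      nlinarith
    · intro R hR
      rw [← mul_pow]
      refine card_box N hR _ ?_
      intro x hx j
      exact (abs_le_len x j).trans (Finset.mem_filter.1 hx).2
  have step4 : 1 + Real.log (2 * T) ≤ (1 + Real.log 2) * (1 + Real.log T) := by
    rw [Real.log_mul (by norm_num) (by linarith)]
    nlinarith
  calc ∑ Z ∈ S, (det2 Z ^ N)⁻¹ ≤ _ := step1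
    _ ≤ _ := step2
    _ ≤ 2 ^ N * (2 ^ N * K1 / r) * (2 ^ (N + 1) * 3 ^ N * ((1 + Real.log 2) * (1 + Real.log T))) := by
        refine mul_le_mul_of_nonneg_left (step3.trans ?_) (by positivity)
        exact mul_le_mul_of_nonneg_left step4 (by positivity)
    _ = _ := by ring

end Pool.Agent.Lib.MP_1acd66_nt
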