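import Pool.Agent.Lib.MP_1acd66_nt.Sublattice

/-! Residue classes. -/

namespace Pool.Agent.Lib.MP_1acd66_nt

open Finset
open scoped Classical

variable {N m d a b : ℕ}

/-- reduced residues -/
def res (q : ℕ) (x : Fin a → Fin b → ℤ) : Fin a → Fin b → ℤ := fun i j => x i j % q

/-- the set of reduced residues -/
noncomputable def RS (a b q : ℕ) : Finset (Fin a → Fin b → ℤ) :=
  Fintype.piFinset (fun _ => Fintype.piFinset (fun _ => Finset.Ico (0:ℤ) q))

theorem mem_RS {q : ℕ} {x : Fin a → Fin b → ℤ} : x ∈ RS a b q ↔ ∀ i j, 0 ≤ x i j ∧ x i j < q := by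
  simp only [RS, Fintype.mem_piFinset, Finset.mem_Ico]

theorem card_RS (a b q : ℕ) : (RS a b q).card = q ^ (a * b) := by
  simp [RS, Fintype.card_piFinset, ← pow_mul, mul_comm]

theorem res_mem {q : ℕ} (hq : 0 < q) (x : Fin a → Fin b → ℤ) : res q x ∈ RS a b q := by
  rw [mem_RS]
  intro i j
  have : (0:ℤ) < q := by exact_mod_cast hq
  exact ⟨Int.emod_nonneg _ this.ne', Int.emod_lt_of_pos _ this⟩

theorem cong_res (q : ℕ) (x : Fin a → Fin b → ℤ) : Cong q x (res q x) :=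
  fun _ _ => Int.dvd_self_sub_emod

theorem Cong.symm {q : ℕ} {x y : Fin a → Fin b → ℤ} (h : Cong q x y) : Cong q y x := by
  intro i j
  have := h i j
  rw [← dvd_neg]
  simpa using this

theorem Cong.trans {q : ℕ} {x y z : Fin a → Fin b → ℤ} (h : Cong q x y) (h' : Cong q y z) :
    Cong q x z := by
  intro i j
  have := dvd_add (h i j) (h' i j)
  simpa using this

theorem res_eq_iff {q : ℕ} {x y : Fin a → Fin b → ℤ} (hy : y ∈ RS a b q) :
    res q x = y ↔ Cong q x y := by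
  constructor
  · rintro rfl; exact cong_res q x
  · intro h
    rw [mem_RS] at hy
    funext i j
    have h1 : (q:ℤ) ∣ x i j - y i j := h i j
    simp only [res]
    rw [Int.emod_eq_emod_iff_emod_sub_eq_zero.2 (Int.emod_eq_zero_of_dvd h1)]
    exact Int.emod_eq_of_lt (hy i j).1 (hy i j).2

theorem Cong.of_dvd {q q' : ℕ} (hqq : q ∣ q') {x y : Fin a → Fin b → ℤ} (h : Cong q' x y) :
    Cong q x y := fun i j => (Int.natCast_dvd_natCast.2 hqq).trans (h i j)

theorem NonSatAt.congr {p q : ℕ} (hpq : p ∣ q) {Z Z' : FrZ N} (h : Cong q Z Z')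
    (hZ : NonSatAt p Z) : NonSatAt p Z' := by
  intro i j
  have hp : ∀ i j, (p:ℤ) ∣ Z i j - Z' i j := h.of_dvd hpq
  have e : minor Z' i j = minor Z i j - ((Z 0 i - Z' 0 i) * Z 1 j + Z' 0 i * (Z 1 j - Z' 1 j) -
      (Z 0 j - Z' 0 j) * Z 1 i - Z' 0 j * (Z 1 i - Z' 1 i)) := by
    simp only [minor]; ring
  rw [e]
  refine dvd_sub (hZ i j) ?_
  refine dvd_sub (dvd_sub (dvd_add ?_ ?_) ?_) ?_
  · exact (hp 0 i).mul_right _
  · exact (hp 1 j).mul_left _
  · exact (hp 0 j).mul_right _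
  · exact (hp 1 i).mul_left _

theorem DivA.congr {p q : ℕ} (hpq : p ∣ q) {A A' : CoZ m d} (h : Cong q A A')
    (hA : DivA p A) : DivA p A' := by
  intro i j
  have hp : (p:ℤ) ∣ A i j - A' i j := h.of_dvd hpq i j
  have e : A' i j = A i j - (A i j - A' i j) := by ring
  rw [e]
  exact dvd_sub (hA i j) hp

/-- integers in `[0, p s)` in a class modulo `p` -/
theorem card_class {p s : ℕ} (hp : 0 < p) (c : ℤ) :
    ((Finset.Ico (0:ℤ) ((p * s : ℕ) : ℤ)).filter (fun y => (p:ℤ) ∣ y - c)).card ≤ s := by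
  have hp' : (0:ℤ) < p := by exact_mod_cast hp
  have hinj : Set.InjOn (fun y : ℤ => y / p)
      ((Finset.Ico (0:ℤ) ((p * s : ℕ) : ℤ)).filter (fun y => (p:ℤ) ∣ y - c)) := by
    intro y hy z hz hyz
    have h1 := (Finset.mem_filter.1 hy).2
    have h2 := (Finset.mem_filter.1 hz).2
    have h3 : (p:ℤ) ∣ y - z := by
      have := dvd_sub h1 h2
      simpa using this
    have h4 : y % p = z % p := Int.emod_eq_emod_iff_emod_sub_eq_zero.2 (Int.emod_eq_zero_of_dvd h3)
    have h5 : y / p = z / p := hyz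
    rw [← Int.mul_ediv_add_emod y p, ← Int.mul_ediv_add_emod z p, h4, h5]
  rw [← Finset.card_image_of_injOn hinj]
  have hsub : ((Finset.Ico (0:ℤ) ((p * s : ℕ) : ℤ)).filter (fun y => (p:ℤ) ∣ y - c)).image
      (fun y : ℤ => y / p) ⊆ Finset.Ico (0:ℤ) s := by
    intro x hx
    obtain ⟨y, hy, rfl⟩ := Finset.mem_image.1 hx
    have h1 := Finset.mem_Ico.1 (Finset.mem_filter.1 hy).1
    rw [Finset.mem_Ico]
    refine ⟨Int.ediv_nonneg h1.1 hp'.le, ?_⟩
    apply Int.ediv_lt_of_lt_mul hp'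
    have := h1.2
    push_cast at this
    linarith
  have := Finset.card_le_card hsub
  simpa using this

theorem card_divA {p s : ℕ} (hp : 0 < p) :
    ((RS m (d + 1) (p * s)).filter (fun A => DivA p A)).card ≤ s ^ (m * (d + 1)) := by
  have hsub : (RS m (d + 1) (p * s)).filter (fun A => DivA p A) ⊆
      Fintype.piFinset (fun _ : Fin m => Fintype.piFinset (fun _ : Fin (d + 1) =>
        (Finset.Ico (0:ℤ) ((p * s : ℕ) : ℤ)).filter (fun y => (p:ℤ) ∣ y - 0))) := by
    intro A hA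
    obtain ⟨h1, h2⟩ := Finset.mem_filter.1 hA
    rw [mem_RS] at h1
    simp only [Fintype.mem_piFinset, Finset.mem_filter, Finset.mem_Ico, sub_zero]
    intro i j
    exact ⟨h1 i j, h2 i j⟩
  refine (Finset.card_le_card hsub).trans ?_
  simp only [Fintype.card_piFinset, Finset.prod_const, Finset.card_univ, Fintype.card_fin]
  rw [mul_comm m (d + 1), pow_mul]
  exact Nat.pow_le_pow_left (Nat.pow_le_pow_left (card_class hp 0) _) _

/-- columns -/
theorem card_columns {q B : ℕ} (P : ℤ → ℤ → Prop) [∀ x y, Decidable (P x y)]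
    (hB : ((Finset.Ico (0:ℤ) q ×ˢ Finset.Ico (0:ℤ) q).filter (fun x => P x.1 x.2)).card ≤ B) :
    ((RS 2 N q).filter (fun Z => ∀ j, P (Z 0 j) (Z 1 j))).card ≤ B ^ N := by
  classical
  have hinj : Set.InjOn (fun (Z : FrZ N) (j : Fin N) => (Z 0 j, Z 1 j))
      ((RS 2 N q).filter (fun Z => ∀ j, P (Z 0 j) (Z 1 j))) := by
    intro Z _ Z' _ h
    funext i j
    have := congrFun h j
    simp only [Prod.mk.injEq] at this
    obtain rfl | rfl : i = 0 ∨ i = 1 := by omega
    · exact this.1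
    · exact this.2
  rw [← Finset.card_image_of_injOn hinj]
  have hsub : ((RS 2 N q).filter (fun Z => ∀ j, P (Z 0 j) (Z 1 j))).image
      (fun (Z : FrZ N) (j : Fin N) => (Z 0 j, Z 1 j)) ⊆ Fintype.piFinset (fun _ : Fin N =>
        (Finset.Ico (0:ℤ) q ×ˢ Finset.Ico (0:ℤ) q).filter (fun x => P x.1 x.2)) := by
    intro x hx
    obtain ⟨Z, hZ, rfl⟩ := Finset.mem_image.1 hx
    obtain ⟨h1, h2⟩ := Finset.mem_filter.1 hZ
    rw [mem_RS] at h1
    rw [Fintype.mem_piFinset]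
    intro j
    rw [Finset.mem_filter, Finset.mem_product, Finset.mem_Ico, Finset.mem_Ico]
    exact ⟨⟨h1 0 j, h1 1 j⟩, h2 j⟩
  refine (Finset.card_le_card hsub).trans ?_
  rw [Fintype.card_piFinset, Finset.prod_const, Finset.card_univ, Fintype.card_fin]
  exact Nat.pow_le_pow_left hB N

theorem nonsat_cases {p : ℕ} (hp : p.Prime) {Z : FrZ N} (hZ : NonSatAt p Z) :
    (∀ j, (p:ℤ) ∣ Z 0 j - 0) ∨ ∃ l ∈ Finset.range p, ∀ j, (p:ℤ) ∣ Z 1 j - (l:ℤ) * Z 0 j := by
  have hp' : Prime (p:ℤ) := Nat.prime_iff_prime_int.1 hp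
  by_cases h0 : ∀ j, (p:ℤ) ∣ Z 0 j
  · left; simpa using h0
  · right
    push Not at h0
    obtain ⟨i, hi⟩ := h0
    obtain ⟨l, hl0, hlp, hl⟩ := exists_inv_mod hp hi (Z 1 i)
    obtain ⟨k, rfl⟩ := Int.eq_ofNat_of_zero_le hl0
    refine ⟨k, Finset.mem_range.2 (by exact_mod_cast hlp), ?_⟩
    intro j
    have h2 : (p:ℤ) ∣ Z 0 i * (Z 1 j - k * Z 0 j) := by
      have : Z 0 i * (Z 1 j - k * Z 0 j) = minor Z i j - Z 0 j * (Z 0 i * k - Z 1 i) := by
        simp only [minor]; ring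
      rw [this]
      exact dvd_sub (hZ i j) (hl.mul_left _)
    exact (hp'.dvd_or_dvd h2).resolve_left hi

theorem card_nonsat {p s : ℕ} (hp : p.Prime) :
    ((RS 2 N (p * s)).filter (fun Z => NonSatAt p Z)).card ≤ (p + 1) * (p * s * s) ^ N := by
  classical
  set q := p * s with hq
  have hA : ((RS 2 N q).filter (fun Z => ∀ j, (p:ℤ) ∣ Z 0 j - 0)).card ≤ (q * s) ^ N := by
    refine card_columns (fun x _ => (p:ℤ) ∣ x - 0) ?_
    have : (Finset.Ico (0:ℤ) q ×ˢ Finset.Ico (0:ℤ) q).filter (fun x => (p:ℤ) ∣ x.1 - 0) =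
        ((Finset.Ico (0:ℤ) q).filter (fun x => (p:ℤ) ∣ x - 0)) ×ˢ Finset.Ico (0:ℤ) q := by
      ext x
      simp only [Finset.mem_filter, Finset.mem_product]
      tauto
    rw [this, Finset.card_product]
    have h1 := card_class (s := s) hp.pos 0
    rw [← hq] at h1
    have h2 : (Finset.Ico (0:ℤ) q).card = q := by simp
    rw [h2, mul_comm]
    exact Nat.mul_le_mul_left _ h1
  have hB : ∀ l ∈ Finset.range p,
      ((RS 2 N q).filter (fun Z => ∀ j, (p:ℤ) ∣ Z 1 j - (l:ℤ) * Z 0 j)).card ≤ (q * s) ^ N := by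
    intro l _
    refine card_columns (fun x y => (p:ℤ) ∣ y - (l:ℤ) * x) ?_
    rw [Finset.card_filter, Finset.sum_product]
    have : ∀ x ∈ Finset.Ico (0:ℤ) q, ∑ y ∈ Finset.Ico (0:ℤ) q,
        (if (p:ℤ) ∣ (x, y).2 - (l:ℤ) * (x, y).1 then 1 else 0) ≤ s := by
      intro x _
      rw [← Finset.card_filter]
      have h1 := card_class (s := s) hp.pos ((l:ℤ) * x)
      rw [← hq] at h1
      exact h1
    refine (Finset.sum_le_sum this).trans ?_
    simp
  have hsub : (RS 2 N q).filter (fun Z => NonSatAt p Z) ⊆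
      (RS 2 N q).filter (fun Z => ∀ j, (p:ℤ) ∣ Z 0 j - 0) ∪
      (Finset.range p).biUnion (fun l => (RS 2 N q).filter
        (fun Z => ∀ j, (p:ℤ) ∣ Z 1 j - (l:ℤ) * Z 0 j)) := by
    intro Z hZ
    obtain ⟨h1, h2⟩ := Finset.mem_filter.1 hZ
    rcases nonsat_cases hp h2 with h | ⟨l, hl, h⟩
    · exact Finset.mem_union_left _ (Finset.mem_filter.2 ⟨h1, h⟩)
    · refine Finset.mem_union_right _ (Finset.mem_biUnion.2 ⟨l, hl, Finset.mem_filter.2 ⟨h1, h⟩⟩)
  refine (Finset.card_le_card hsub).trans ((Finset.card_union_le _ _).trans ?_)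
  have h3 : ((Finset.range p).biUnion (fun l => (RS 2 N q).filter
        (fun Z => ∀ j, (p:ℤ) ∣ Z 1 j - (l:ℤ) * Z 0 j))).card ≤ p * (q * s) ^ N := by
    refine (Finset.card_biUnion_le).trans ((Finset.sum_le_sum hB).trans ?_)
    simp
  rw [add_mul, one_mul]
  refine (add_comm _ _).le.trans (add_le_add ?_ ?_)
  · convert h3
  · convert hA

/-- numerical sums -/
theorem sum_cube (P : ℕ) : ∑ n ∈ Finset.Icc 2 P, ((n:ℝ) ^ 3)⁻¹ ≤ 1 / 4 := by
  have key : ∀ k : ℕ, ∑ n ∈ Finset.Icc 2 (k + 1), ((n:ℝ) ^ 3)⁻¹ ≤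
      1 / 4 - 1 / (2 * ((k:ℝ) + 1) * (k + 2)) := by
    intro k
    induction k with
    | zero => norm_num
    | succ k ih =>
      rw [Finset.sum_Icc_succ_top (by omega)]
      refine (add_le_add_left ih _).trans ?_
      push_cast
      have h1 : (0:ℝ) ≤ k := Nat.cast_nonneg k
      have h2 : (((k:ℝ) + 1 + 1) ^ 3)⁻¹ ≤ 1 / (2 * ((k:ℝ) + 1) * (k + 2)) -
          1 / (2 * ((k:ℝ) + 1 + 1) * (k + 1 + 2)) := by
        have e : 1 / (2 * ((k:ℝ) + 1) * (k + 2)) - 1 / (2 * ((k:ℝ) + 1 + 1) * (k + 1 + 2)) =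
            1 / (((k:ℝ) + 1) * (k + 2) * (k + 3)) := by
          field_simp; ring
        rw [e, inv_eq_one_div]
        apply one_div_le_one_div_of_le (by positivity)
        nlinarith
      linarith
  rcases P with _ | k
  · norm_num
  · refine (key k).trans ?_
    have : (0:ℝ) ≤ 1 / (2 * ((k:ℝ) + 1) * (k + 2)) := by positivity
    linarith

theorem sum_sq (P : ℕ) : ∑ n ∈ Finset.Icc 2 P, ((n:ℝ) ^ 2)⁻¹ ≤ 2 / 3 := by
  have key : ∀ k : ℕ, ∑ n ∈ Finset.Icc 2 (k + 1), ((n:ℝ) ^ 2)⁻¹ ≤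
      2 / 3 - 1 / ((k:ℝ) + 3 / 2) := by
    intro k
    induction k with
    | zero => norm_num
    | succ k ih =>
      rw [Finset.sum_Icc_succ_top (by omega)]
      refine (add_le_add_left ih _).trans ?_
      push_cast
      have h1 : (0:ℝ) ≤ k := Nat.cast_nonneg k
      have h2 : (((k:ℝ) + 1 + 1) ^ 2)⁻¹ ≤ 1 / ((k:ℝ) + 3 / 2) - 1 / ((k:ℝ) + 1 + 3 / 2) := by
        have e : 1 / ((k:ℝ) + 3 / 2) - 1 / ((k:ℝ) + 1 + 3 / 2) =
            1 / (((k:ℝ) + 3 / 2) * (k + 1 + 3 / 2)) := by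
          field_simp; ring
        rw [e, inv_eq_one_div]
        apply one_div_le_one_div_of_le (by positivity)
        nlinarith
      linarith
  rcases P with _ | k
  · norm_num
  · refine (key k).trans ?_
    have : (0:ℝ) ≤ 1 / ((k:ℝ) + 3 / 2) := by positivity
    linarith

/-- density of the arrays without small prime divisors -/
theorem dens_prim {P q : ℕ} (hD : 3 ≤ m * (d + 1)) (hq : 0 < q)
    (hPq : ∀ p : ℕ, p.Prime → p ≤ P → p ∣ q) :
    (3 / 4 : ℝ) * (q:ℝ) ^ (m * (d + 1)) ≤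
      (((RS m (d + 1) q).filter (fun A => ∀ p : ℕ, p.Prime → p ≤ P → ¬ DivA p A)).card : ℝ) := by
  classical
  set D := m * (d + 1) with hDdef
  have hsub : RS m (d + 1) q ⊆ (RS m (d + 1) q).filter
      (fun A => ∀ p : ℕ, p.Prime → p ≤ P → ¬ DivA p A) ∪
      ((Finset.Icc 2 P).filter Nat.Prime).biUnion
        (fun p => (RS m (d + 1) q).filter (fun A => DivA p A)) := by
    intro A hA
    by_cases h : ∀ p : ℕ, p.Prime → p ≤ P → ¬ DivA p A
    · exact Finset.mem_union_left _ (Finset.mem_filter.2 ⟨hA, h⟩)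
    · push Not at h
      obtain ⟨p, hp, hpP, hdiv⟩ := h
      refine Finset.mem_union_right _ (Finset.mem_biUnion.2 ⟨p, ?_, Finset.mem_filter.2 ⟨hA, hdiv⟩⟩)
      exact Finset.mem_filter.2 ⟨Finset.mem_Icc.2 ⟨hp.two_le, hpP⟩, hp⟩
  have h1 := (Finset.card_le_card hsub).trans (Finset.card_union_le _ _)
  rw [card_RS] at h1
  have h2 : ((((Finset.Icc 2 P).filter Nat.Prime).biUnion
        (fun p => (RS m (d + 1) q).filter (fun A => DivA p A))).card : ℝ) ≤
      (q:ℝ) ^ D * (1 / 4) := by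
    have h3 : ((((Finset.Icc 2 P).filter Nat.Prime).biUnion
        (fun p => (RS m (d + 1) q).filter (fun A => DivA p A))).card : ℝ) ≤
        ∑ p ∈ (Finset.Icc 2 P).filter Nat.Prime, (q:ℝ) ^ D * ((p:ℝ) ^ 3)⁻¹ := by
      have h4 : ((((Finset.Icc 2 P).filter Nat.Prime).biUnion
        (fun p => (RS m (d + 1) q).filter (fun A => DivA p A))).card : ℝ) ≤
        ∑ p ∈ (Finset.Icc 2 P).filter Nat.Prime,
          (((RS m (d + 1) q).filter (fun A => DivA p A)).card : ℝ) := by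
        exact_mod_cast Finset.card_biUnion_le
      refine h4.trans (Finset.sum_le_sum ?_)
      intro p hp
      obtain ⟨hp1, hp2⟩ := Finset.mem_filter.1 hp
      obtain ⟨s, rfl⟩ := hPq p hp2 (Finset.mem_Icc.1 hp1).2
      have h5 := card_divA (m := m) (d := d) (p := p) (s := s) hp2.pos
      have hp0 : (0:ℝ) < p := by exact_mod_cast hp2.pos
      have hp1' : (1:ℝ) ≤ p := by exact_mod_cast hp2.one_lt.le
      calc (((RS m (d + 1) (p * s)).filter (fun A => DivA p A)).card : ℝ) ≤ ((s ^ D : ℕ) : ℝ) := by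
            exact_mod_cast h5
        _ = ((p * s : ℕ) : ℝ) ^ D * ((p:ℝ) ^ D)⁻¹ := by
            push_cast; rw [mul_pow]; field_simp
        _ ≤ ((p * s : ℕ) : ℝ) ^ D * ((p:ℝ) ^ 3)⁻¹ := by
            apply mul_le_mul_of_nonneg_left _ (by positivity)
            exact inv_anti₀ (by positivity) (pow_le_pow_right₀ hp1' hD)
    refine h3.trans ?_
    rw [← Finset.mul_sum]
    apply mul_le_mul_of_nonneg_left _ (by positivity)
    refine le_trans (Finset.sum_le_sum_of_subset_of_nonneg (Finset.filter_subset _ _)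
      (fun _ _ _ => by positivity)) (sum_cube P)
  have h6 : ((q ^ (m * (d + 1)) : ℕ) : ℝ) ≤ (((RS m (d + 1) q).filter
      (fun A => ∀ p : ℕ, p.Prime → p ≤ P → ¬ DivA p A)).card : ℝ) +
      ((((Finset.Icc 2 P).filter Nat.Prime).biUnion
        (fun p => (RS m (d + 1) q).filter (fun A => DivA p A))).card : ℝ) := by
    exact_mod_cast h1
  push_cast at h6
  rw [← hDdef] at h6
  linarith

/-- density of the frames that are saturated at small primes -/
theorem dens_sat {P q : ℕ} (hN : 3 ≤ N) (hq : 0 < q)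
    (hPq : ∀ p : ℕ, p.Prime → p ≤ P → p ∣ q) :
    (1 / 12 : ℝ) * (q:ℝ) ^ (2 * N) ≤
      (((RS 2 N q).filter (fun Z => ∀ p : ℕ, p.Prime → p ≤ P → ¬ NonSatAt p Z)).card : ℝ) := by
  classical
  have hsub : RS 2 N q ⊆ (RS 2 N q).filter
      (fun A => ∀ p : ℕ, p.Prime → p ≤ P → ¬ NonSatAt p A) ∪
      ((Finset.Icc 2 P).filter Nat.Prime).biUnion
        (fun p => (RS 2 N q).filter (fun A => NonSatAt p A)) := by
    intro A hA
    by_cases h : ∀ p : ℕ, p.Prime → p ≤ P → ¬ NonSatAt p A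
    · exact Finset.mem_union_left _ (Finset.mem_filter.2 ⟨hA, h⟩)
    · push Not at h
      obtain ⟨p, hp, hpP, hdiv⟩ := h
      refine Finset.mem_union_right _ (Finset.mem_biUnion.2 ⟨p, ?_, Finset.mem_filter.2 ⟨hA, hdiv⟩⟩)
      exact Finset.mem_filter.2 ⟨Finset.mem_Icc.2 ⟨hp.two_le, hpP⟩, hp⟩
  have h1 := (Finset.card_le_card hsub).trans (Finset.card_union_le _ _)
  rw [card_RS] at h1
  have h2 : ((((Finset.Icc 2 P).filter Nat.Prime).biUnion
        (fun p => (RS 2 N q).filter (fun A => NonSatAt p A))).card : ℝ) ≤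
      (q:ℝ) ^ (2 * N) * (11 / 12) := by
    have h3 : ((((Finset.Icc 2 P).filter Nat.Prime).biUnion
        (fun p => (RS 2 N q).filter (fun A => NonSatAt p A))).card : ℝ) ≤
        ∑ p ∈ (Finset.Icc 2 P).filter Nat.Prime, (q:ℝ) ^ (2 * N) *
          (((p:ℝ) ^ 2)⁻¹ + ((p:ℝ) ^ 3)⁻¹) := by
      have h4 : ((((Finset.Icc 2 P).filter Nat.Prime).biUnion
        (fun p => (RS 2 N q).filter (fun A => NonSatAt p A))).card : ℝ) ≤
        ∑ p ∈ (Finset.Icc 2 P).filter Nat.Prime,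
          (((RS 2 N q).filter (fun A => NonSatAt p A)).card : ℝ) := by
        exact_mod_cast Finset.card_biUnion_le
      refine h4.trans (Finset.sum_le_sum ?_)
      intro p hp
      obtain ⟨hp1, hp2⟩ := Finset.mem_filter.1 hp
      obtain ⟨s, rfl⟩ := hPq p hp2 (Finset.mem_Icc.1 hp1).2
      have h5 := card_nonsat (N := N) (s := s) hp2
      have hp0 : (0:ℝ) < p := by exact_mod_cast hp2.pos
      have hp1' : (1:ℝ) ≤ p := by exact_mod_cast hp2.one_lt.le
      calc (((RS 2 N (p * s)).filter (fun A => NonSatAt p A)).card : ℝ)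
          ≤ (((p + 1) * (p * s * s) ^ N : ℕ) : ℝ) := by exact_mod_cast h5
        _ = ((p * s : ℕ) : ℝ) ^ (2 * N) * (((p:ℝ) + 1) * ((p:ℝ) ^ N)⁻¹) := by
            push_cast
            have : ((p:ℝ) * s) ^ (2 * N) = ((p:ℝ) * s * s) ^ N * (p:ℝ) ^ N := by
              rw [← mul_pow, pow_mul]; congr 1; ring
            rw [this]
            field_simp
        _ ≤ ((p * s : ℕ) : ℝ) ^ (2 * N) * (((p:ℝ) + 1) * ((p:ℝ) ^ 3)⁻¹) := by
            apply mul_le_mul_of_nonneg_left _ (by positivity)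
            apply mul_le_mul_of_nonneg_left _ (by positivity)
            exact inv_anti₀ (by positivity) (pow_le_pow_right₀ hp1' hN)
        _ = _ := by
            congr 1
            field_simp
    refine h3.trans ?_
    rw [← Finset.mul_sum]
    apply mul_le_mul_of_nonneg_left _ (by positivity)
    refine le_trans (Finset.sum_le_sum_of_subset_of_nonneg (Finset.filter_subset _ _)
      (fun _ _ _ => by positivity)) ?_
    rw [Finset.sum_add_distrib]
    have := sum_cube P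
    have := sum_sq P
    linarith
  have h6 : ((q ^ (2 * N) : ℕ) : ℝ) ≤ (((RS 2 N q).filter
      (fun A => ∀ p : ℕ, p.Prime → p ≤ P → ¬ NonSatAt p A)).card : ℝ) +
      ((((Finset.Icc 2 P).filter Nat.Prime).biUnion
        (fun p => (RS 2 N q).filter (fun A => NonSatAt p A))).card : ℝ) := by
    exact_mod_cast h1
  push_cast at h6
  linarith

end Pool.Agent.Lib.MP_1acd66_nt
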