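import Pool.Agent.Lib.MP_1acd66_nt.Upper

/-! Integral tuples of binary forms with a common rational zero have density zero. -/

namespace Pool.Agent.Lib.MP_1acd66_nt

open Finset

variable {N m d : ℕ}

/-- no common integral (equivalently rational) zero other than `(0,0)` -/
def NoRootZ (A : CoZ m d) : Prop := ∀ u v : ℤ, (u ≠ 0 ∨ v ≠ 0) → ∃ i, formVal A i u v ≠ 0

/-- integer vectors in a box with prescribed zero coordinates -/
theorem card_box_zero {n : ℕ} (J : Finset (Fin n)) {R : ℝ} (hR : 1 ≤ R) (S : Finset (Fin n → ℤ))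
    (hS : ∀ x ∈ S, ∀ j, |((x j : ℤ) : ℝ)| ≤ R) (hS0 : ∀ x ∈ S, ∀ j ∈ J, x j = 0) :
    (S.card : ℝ) ≤ (3 * R) ^ (n - J.card) := by
  classical
  have h1 : S ⊆ Fintype.piFinset (fun j : Fin n => if j ∈ J then {0} else
      Finset.Icc (-⌊R⌋) ⌊R⌋) := by
    intro x hx
    rw [Fintype.mem_piFinset]
    intro j
    split_ifs with hj
    · rw [Finset.mem_singleton]; exact hS0 x hx j hj
    · have := hS x hx j
      rw [abs_le] at this
      rw [Finset.mem_Icc]
      constructor
      · have : -(x j) ≤ ⌊R⌋ := Int.le_floor.2 (by push_cast; linarith)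
        linarith
      · exact Int.le_floor.2 this.2
  have h2 := Finset.card_le_card h1
  rw [Fintype.card_piFinset] at h2
  have hf : (0:ℤ) ≤ ⌊R⌋ := Int.floor_nonneg.2 (by linarith)
  have h3 : (((⌊R⌋ + 1 - -⌊R⌋).toNat : ℕ) : ℝ) ≤ 3 * R := by
    have h4 : (((⌊R⌋ + 1 - -⌊R⌋).toNat : ℕ) : ℤ) = 2 * ⌊R⌋ + 1 := by
      rw [Int.toNat_of_nonneg (by omega)]; ring
    have h5 : (((⌊R⌋ + 1 - -⌊R⌋).toNat : ℕ) : ℝ) = 2 * (⌊R⌋:ℝ) + 1 := by exact_mod_cast h4
    rw [h5]
    have := Int.floor_le R
    linarith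
  have h6 : ∏ j : Fin n, ((if j ∈ J then ({0} : Finset ℤ) else Finset.Icc (-⌊R⌋) ⌊R⌋).card) =
      (⌊R⌋ + 1 - -⌊R⌋).toNat ^ (n - J.card) := by
    have : ∀ j ∈ (Finset.univ : Finset (Fin n)),
        ((if j ∈ J then ({0} : Finset ℤ) else Finset.Icc (-⌊R⌋) ⌊R⌋).card) =
        if j ∈ J then 1 else (⌊R⌋ + 1 - -⌊R⌋).toNat := by
      intro j _
      split_ifs
      · simp
      · rw [Int.card_Icc]
    rw [Finset.prod_congr rfl this, Finset.prod_ite, Finset.prod_const_one, one_mul,
      Finset.prod_const]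
    congr 1
    rw [Finset.filter_not, Finset.card_sdiff]
    simp
  rw [h6] at h2
  calc (S.card : ℝ) ≤ (((⌊R⌋ + 1 - -⌊R⌋).toNat ^ (n - J.card) : ℕ) : ℝ) := by exact_mod_cast h2
    _ = (((⌊R⌋ + 1 - -⌊R⌋).toNat : ℕ) : ℝ) ^ (n - J.card) := by push_cast; rfl
    _ ≤ (3 * R) ^ (n - J.card) := pow_le_pow_left₀ (Nat.cast_nonneg _) h3 _

/-- pairs of nonzero integers with bounded product -/
theorem card_pairs {r : ℕ} (hr : 1 ≤ r) (S : Finset (ℤ × ℤ))
    (hS : ∀ x ∈ S, x.1 ≠ 0 ∧ x.2 ≠ 0 ∧ |x.1 * x.2| ≤ r) :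
    (S.card : ℝ) ≤ 6 * r * (1 + Real.log r) := by
  classical
  have hr0 : (0:ℝ) < r := by exact_mod_cast hr
  have hmaps : ∀ x ∈ S, x.1.natAbs ∈ Finset.Icc 1 r := by
    intro x hx
    obtain ⟨h1, h2, h3⟩ := hS x hx
    rw [Finset.mem_Icc]
    have a1 : 1 ≤ |x.1| := Int.one_le_abs h1
    have a2 : 1 ≤ |x.2| := Int.one_le_abs h2
    rw [abs_mul] at h3
    have a3 : |x.1| ≤ r := by nlinarith
    rw [Int.abs_eq_natAbs] at a1 a3
    constructor
    · exact_mod_cast a1
    · exact_mod_cast a3
  rw [Finset.card_eq_sum_card_fiberwise hmaps]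
  push_cast
  have hfib : ∀ k ∈ Finset.Icc 1 r, ((S.filter (fun x => x.1.natAbs = k)).card : ℝ) ≤
      6 * r * ((k:ℝ))⁻¹ := by
    intro k hk
    rw [Finset.mem_Icc] at hk
    have hk0 : (0:ℝ) < k := by exact_mod_cast hk.1
    have hkr : (k:ℝ) ≤ r := by exact_mod_cast hk.2
    have hsub : S.filter (fun x => x.1.natAbs = k) ⊆
        ({(k:ℤ), -(k:ℤ)} : Finset ℤ) ×ˢ (Finset.Icc (-((r / k : ℕ) : ℤ)) ((r / k : ℕ) : ℤ)) := by
      intro x hx
      obtain ⟨hx1, hx2⟩ := Finset.mem_filter.1 hx
      obtain ⟨h1, h2, h3⟩ := hS x hx1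
      rw [Finset.mem_product]
      refine ⟨?_, ?_⟩
      · rw [Finset.mem_insert, Finset.mem_singleton]
        omega
      · rw [Finset.mem_Icc, ← abs_le]
        have h4 : |x.1| = k := by rw [Int.abs_eq_natAbs, hx2]
        rw [abs_mul, h4] at h3
        have h5 : |x.2| = (x.2.natAbs : ℤ) := Int.abs_eq_natAbs _
        rw [h5] at h3 ⊢
        have h6 : k * x.2.natAbs ≤ r := by exact_mod_cast h3
        have h7 : x.2.natAbs ≤ r / k := by
          rw [Nat.le_div_iff_mul_le (by omega)]
          rw [mul_comm]; exact h6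
        exact_mod_cast h7
    have h8 := Finset.card_le_card hsub
    rw [Finset.card_product, Int.card_Icc] at h8
    have h9 : ({(k:ℤ), -(k:ℤ)} : Finset ℤ).card ≤ 2 := Finset.card_le_two
    have h10 : (((r / k : ℕ) : ℤ) + 1 - -((r / k : ℕ) : ℤ)).toNat = 2 * (r / k) + 1 := by omega
    rw [h10] at h8
    have h11 : (S.filter (fun x => x.1.natAbs = k)).card ≤ 2 * (2 * (r / k) + 1) :=
      h8.trans (Nat.mul_le_mul_right _ h9)
    have h12 : ((r / k : ℕ) : ℝ) ≤ r / k := Nat.cast_div_le
    have h13 : ((S.filter (fun x => x.1.natAbs = k)).card : ℝ) ≤ 2 * (2 * ((r / k : ℕ) : ℝ) + 1) := by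
      exact_mod_cast h11
    have h14 : (1:ℝ) ≤ r / k := by rw [le_div_iff₀ hk0]; linarith
    calc ((S.filter (fun x => x.1.natAbs = k)).card : ℝ) ≤ 2 * (2 * ((r / k : ℕ) : ℝ) + 1) := h13
      _ ≤ 6 * (r / k) := by linarith
      _ = _ := by rw [div_eq_mul_inv]; ring
  refine (Finset.sum_le_sum hfib).trans ?_
  rw [← Finset.mul_sum]
  apply mul_le_mul_of_nonneg_left _ (by positivity)
  have h1 := harmonic_le_one_add_log r
  rw [harmonic_eq_sum_Icc] at h1
  push_cast at h1
  exact h1

/-- a single form of degree at least two with a rational zero -/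
theorem card_single {d : ℕ} (hd : 2 ≤ d) {r : ℕ} (hr : 1 ≤ r) (S : Finset (Fin (d + 1) → ℤ))
    (hS : ∀ a ∈ S, (∀ j, |a j| ≤ r) ∧ ∃ u v : ℤ, (u ≠ 0 ∨ v ≠ 0) ∧
      ∑ j : Fin (d + 1), a j * u ^ (d - (j : ℕ)) * v ^ (j : ℕ) = 0) :
    (S.card : ℝ) ≤ 2 * (3 * r) ^ d + (6 * r * (1 + Real.log r)) ^ 2 * (3 * r) ^ (d - 2) := by
  classical
  have hr' : (1:ℝ) ≤ r := by exact_mod_cast hr
  have hbox : ∀ a ∈ S, ∀ j, |((a j : ℤ) : ℝ)| ≤ r := by
    intro a ha j
    exact_mod_cast (hS a ha).1 j
  -- coprime roots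
  have hcop : ∀ a ∈ S, ∃ u v : ℤ, IsCoprime u v ∧
      ∑ j : Fin (d + 1), a j * u ^ (d - (j : ℕ)) * v ^ (j : ℕ) = 0 := by
    intro a ha
    obtain ⟨_, u, v, huv, h0⟩ := hS a ha
    have hg : Int.gcd u v ≠ 0 := by
      intro h
      rw [Int.gcd_eq_zero_iff] at h
      rcases huv with h' | h'
      · exact h' h.1
      · exact h' h.2
    set g : ℤ := ((Int.gcd u v : ℕ) : ℤ) with hgdef
    have hg0 : g ≠ 0 := by rw [hgdef]; exact_mod_cast hg
    have hu : g * (u / g) = u := Int.mul_ediv_cancel' (Int.gcd_dvd_left ..)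
    have hv : g * (v / g) = v := Int.mul_ediv_cancel' (Int.gcd_dvd_right ..)
    refine ⟨u / g, v / g, ?_, ?_⟩
    · rw [Int.isCoprime_iff_gcd_eq_one]
      exact Int.gcd_div_gcd_div_gcd (Nat.pos_of_ne_zero hg)
    · have e : ∑ j : Fin (d + 1), a j * u ^ (d - (j : ℕ)) * v ^ (j : ℕ) =
          g ^ d * ∑ j : Fin (d + 1), a j * (u / g) ^ (d - (j : ℕ)) * (v / g) ^ (j : ℕ) := by
        rw [Finset.mul_sum]
        refine Finset.sum_congr rfl ?_
        intro j _
        have hj : (j : ℕ) ≤ d := by have := j.2; omega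
        have e1 : g ^ d = g ^ (d - (j:ℕ)) * g ^ (j:ℕ) := by rw [← pow_add, Nat.sub_add_cancel hj]
        conv_lhs => rw [← hu, ← hv]
        rw [e1, mul_pow, mul_pow]
        ring
      rw [e] at h0
      exact (mul_eq_zero.1 h0).resolve_left (pow_ne_zero _ hg0)
  set i0 : Fin (d + 1) := 0 with hi0
  set i1 : Fin (d + 1) := ⟨1, by omega⟩ with hi1
  set il : Fin (d + 1) := Fin.last d with hil
  have h01 : i0 ≠ i1 := by
    intro h; have := congrArg Fin.val h; simp [hi0, hi1] at this
  have h0l : i0 ≠ il := by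
    intro h; have := congrArg Fin.val h; simp [hi0, hil] at this; omega
  have h1l : i1 ≠ il := by
    intro h; have := congrArg Fin.val h; simp [hi1, hil] at this; omega
  -- split
  have hsplit : S ⊆ (S.filter (fun a => a i0 = 0) ∪ S.filter (fun a => a il = 0)) ∪
      S.filter (fun a => a i0 ≠ 0 ∧ a il ≠ 0) := by
    intro a ha
    by_cases h1 : a i0 = 0
    · exact Finset.mem_union_left _ (Finset.mem_union_left _ (Finset.mem_filter.2 ⟨ha, h1⟩))
    · by_cases h2 : a il = 0
      · exact Finset.mem_union_left _ (Finset.mem_union_right _ (Finset.mem_filter.2 ⟨ha, h2⟩))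
      · exact Finset.mem_union_right _ (Finset.mem_filter.2 ⟨ha, h1, h2⟩)
  have hc1 : ((S.filter (fun a => a i0 = 0)).card : ℝ) ≤ (3 * r) ^ d := by
    have := card_box_zero {i0} hr' (S.filter (fun a => a i0 = 0))
      (fun a ha => hbox a (Finset.mem_filter.1 ha).1) (fun a ha j hj => by
        rw [Finset.mem_singleton] at hj; rw [hj]; exact (Finset.mem_filter.1 ha).2)
    simpa using this
  have hc2 : ((S.filter (fun a => a il = 0)).card : ℝ) ≤ (3 * r) ^ d := by
    have := card_box_zero {il} hr' (S.filter (fun a => a il = 0))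
      (fun a ha => hbox a (Finset.mem_filter.1 ha).1) (fun a ha j hj => by
        rw [Finset.mem_singleton] at hj; rw [hj]; exact (Finset.mem_filter.1 ha).2)
    simpa using this
  set S3 := S.filter (fun a => a i0 ≠ 0 ∧ a il ≠ 0) with hS3
  choose! U V hUV hroot using hcop
  -- divisibility
  have hdvd : ∀ a ∈ S3, U a ≠ 0 ∧ V a ≠ 0 ∧ U a ∣ a il ∧ V a ∣ a i0 := by
    intro a ha
    obtain ⟨haS, ha0, hal⟩ := Finset.mem_filter.1 ha
    have hc := hUV a haS
    have hr0 := hroot a haS
    have hV : V a ∣ a i0 := by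
      have h1 : V a ∣ a i0 * U a ^ d := by
        rw [Fin.sum_univ_succ] at hr0
        simp only [Fin.val_zero, Nat.sub_zero, pow_zero, mul_one] at hr0
        have h2 : a i0 * U a ^ d = -(∑ j : Fin d, a j.succ * U a ^ (d - ((j.succ : Fin (d+1)) : ℕ)) *
            V a ^ ((j.succ : Fin (d+1)) : ℕ)) := by
          rw [hi0]; linarith
        rw [h2]
        refine (Finset.dvd_sum ?_).neg_right
        intro j _
        rw [Fin.val_succ, pow_succ]
        exact dvd_mul_of_dvd_right (dvd_mul_left _ _) _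
      exact (hc.symm.pow_right).dvd_of_dvd_mul_right h1
    have hU : U a ∣ a il := by
      have h1 : U a ∣ a il * V a ^ d := by
        rw [Fin.sum_univ_castSucc] at hr0
        simp only [Fin.val_last, Nat.sub_self, pow_zero, mul_one] at hr0
        have h2 : a il * V a ^ d = -(∑ j : Fin d, a j.castSucc *
            U a ^ (d - ((j.castSucc : Fin (d+1)) : ℕ)) * V a ^ ((j.castSucc : Fin (d+1)) : ℕ)) := by
          rw [hil]; linarith
        rw [h2]
        refine (Finset.dvd_sum ?_).neg_right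
        intro j _
        have hj : ((j.castSucc : Fin (d+1)) : ℕ) < d := by simp
        obtain ⟨e, he⟩ : ∃ e, d - ((j.castSucc : Fin (d+1)) : ℕ) = e + 1 :=
          ⟨d - ((j.castSucc : Fin (d+1)) : ℕ) - 1, by omega⟩
        rw [he, pow_succ]
        exact dvd_mul_of_dvd_left (dvd_mul_of_dvd_right (dvd_mul_left _ _) _) _
      exact (hc.pow_right).dvd_of_dvd_mul_right h1
    refine ⟨?_, ?_, hU, hV⟩
    · intro h
      rw [h] at hU
      exact hal (zero_dvd_iff.1 hU)
    · intro h
      rw [h] at hV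
      exact ha0 (zero_dvd_iff.1 hV)
  -- the injection
  set F : (Fin (d + 1) → ℤ) → (ℤ × ℤ) × (ℤ × ℤ) × (Fin (d + 1) → ℤ) := fun a =>
    ((U a, a il / U a), (V a, a i0 / V a), Function.update (Function.update
      (Function.update a i0 0) i1 0) il 0) with hF
  have hinj : Set.InjOn F S3 := by
    intro a ha b hb hab
    have hb' : b ∈ S3 := hb
    have ha' : a ∈ S3 := ha
    simp only [hF, Prod.mk.injEq] at hab
    obtain ⟨⟨e1, e2⟩, ⟨e3, e4⟩, e5⟩ := hab
    obtain ⟨a1, a2, a3, a4⟩ := hdvd a ha'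
    obtain ⟨b1, b2, b3, b4⟩ := hdvd b hb'
    have el : a il = b il := by
      rw [← Int.mul_ediv_cancel' a3, ← Int.mul_ediv_cancel' b3, e2, e1]
    have e0 : a i0 = b i0 := by
      rw [← Int.mul_ediv_cancel' a4, ← Int.mul_ediv_cancel' b4, e4, e3]
    have eo : ∀ j, j ≠ i1 → a j = b j := by
      intro j hj1
      by_cases hj0 : j = i0
      · rw [hj0]; exact e0
      · by_cases hjl : j = il
        · rw [hjl]; exact el
        · have := congrFun e5 j
          rwa [Function.update_of_ne hjl, Function.update_of_ne hj1, Function.update_of_ne hj0,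
            Function.update_of_ne hjl, Function.update_of_ne hj1, Function.update_of_ne hj0] at this
    have hra := hroot a (Finset.mem_filter.1 ha').1
    have hrb := hroot b (Finset.mem_filter.1 hb').1
    have e6 : ∑ j : Fin (d + 1), (a j - b j) * U a ^ (d - (j : ℕ)) * V a ^ (j : ℕ) = 0 := by
      have : ∑ j : Fin (d + 1), (a j - b j) * U a ^ (d - (j : ℕ)) * V a ^ (j : ℕ) =
          ∑ j : Fin (d + 1), a j * U a ^ (d - (j : ℕ)) * V a ^ (j : ℕ) -
          ∑ j : Fin (d + 1), b j * U b ^ (d - (j : ℕ)) * V b ^ (j : ℕ) := by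
        rw [← Finset.sum_sub_distrib]
        refine Finset.sum_congr rfl ?_
        intro j _
        rw [e1, e3]; ring
      rw [this, hra, hrb, sub_zero]
    rw [Finset.sum_eq_single i1] at e6
    · have h1 : U a ^ (d - ((i1 : Fin (d+1)) : ℕ)) ≠ 0 := pow_ne_zero _ a1
      have h2 : V a ^ ((i1 : Fin (d+1)) : ℕ) ≠ 0 := pow_ne_zero _ a2
      have h3 : a i1 - b i1 = 0 := by
        rcases mul_eq_zero.1 e6 with h | h
        · exact (mul_eq_zero.1 h).resolve_right h1
        · exact absurd h h2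
      funext j
      by_cases hj : j = i1
      · rw [hj]; linarith
      · exact eo j hj
    · intro j _ hj
      rw [eo j hj]; ring
    · simp
  have hc3 : (S3.card : ℝ) ≤ (6 * r * (1 + Real.log r)) ^ 2 * (3 * r) ^ (d - 2) := by
    set A1 := S3.image (fun a => (U a, a il / U a))
    set A2 := S3.image (fun a => (V a, a i0 / V a))
    set A3 := S3.image (fun a => Function.update (Function.update
      (Function.update a i0 0) i1 0) il 0)
    have hsub : S3.image F ⊆ A1 ×ˢ (A2 ×ˢ A3) := by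
      intro x hx
      obtain ⟨a, ha, rfl⟩ := Finset.mem_image.1 hx
      rw [Finset.mem_product, Finset.mem_product]
      exact ⟨Finset.mem_image_of_mem _ ha, Finset.mem_image_of_mem _ ha, Finset.mem_image_of_mem _ ha⟩
    have h1 := Finset.card_le_card hsub
    rw [Finset.card_image_of_injOn hinj, Finset.card_product, Finset.card_product] at h1
    have hpair : ∀ x y : ℤ, y ≠ 0 → x ≠ 0 → x ∣ y → |y| ≤ r →
        x ≠ 0 ∧ y / x ≠ 0 ∧ |x * (y / x)| ≤ r := by
      intro x y hy hx hxy hle
      have e := Int.mul_ediv_cancel' hxy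
      refine ⟨hx, ?_, by rw [e]; exact hle⟩
      intro h0
      rw [h0, mul_zero] at e
      exact hy e.symm
    have k1 : (A1.card : ℝ) ≤ 6 * r * (1 + Real.log r) := by
      refine card_pairs hr _ ?_
      intro x hx
      obtain ⟨a, ha, rfl⟩ := Finset.mem_image.1 hx
      obtain ⟨haS, ha0, hal⟩ := Finset.mem_filter.1 ha
      obtain ⟨a1, a2, a3, a4⟩ := hdvd a ha
      exact hpair _ _ hal a1 a3 ((hS a haS).1 _)
    have k2 : (A2.card : ℝ) ≤ 6 * r * (1 + Real.log r) := by
      refine card_pairs hr _ ?_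
      intro x hx
      obtain ⟨a, ha, rfl⟩ := Finset.mem_image.1 hx
      obtain ⟨haS, ha0, hal⟩ := Finset.mem_filter.1 ha
      obtain ⟨a1, a2, a3, a4⟩ := hdvd a ha
      exact hpair _ _ ha0 a2 a4 ((hS a haS).1 _)
    have k3 : (A3.card : ℝ) ≤ (3 * r) ^ (d - 2) := by
      have hJ : ({i0, i1, il} : Finset (Fin (d + 1))).card = 3 := by
        rw [Finset.card_insert_of_notMem, Finset.card_insert_of_notMem, Finset.card_singleton]
        · rwa [Finset.mem_singleton]
        · rw [Finset.mem_insert, Finset.mem_singleton]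
          push Not
          exact ⟨h01, h0l⟩
      have := card_box_zero {i0, i1, il} hr' A3 (fun x hx j => by
        obtain ⟨a, ha, rfl⟩ := Finset.mem_image.1 hx
        have haS := (Finset.mem_filter.1 ha).1
        by_cases hjl : j = il
        · rw [hjl, Function.update_self]; simp
        · rw [Function.update_of_ne hjl]
          by_cases hj1 : j = i1
          · rw [hj1, Function.update_self]; simp
          · rw [Function.update_of_ne hj1]
            by_cases hj0 : j = i0
            · rw [hj0, Function.update_self]; simp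
            · rw [Function.update_of_ne hj0]
              exact hbox a haS j) (fun x hx j hj => by
        obtain ⟨a, ha, rfl⟩ := Finset.mem_image.1 hx
        by_cases hjl : j = il
        · rw [hjl, Function.update_self]
        · rw [Function.update_of_ne hjl]
          by_cases hj1 : j = i1
          · rw [hj1, Function.update_self]
          · rw [Function.update_of_ne hj1]
            by_cases hj0 : j = i0
            · rw [hj0, Function.update_self]
            · exfalso
              simp only [Finset.mem_insert, Finset.mem_singleton] at hj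
              tauto)
      rw [hJ] at this
      have e : d + 1 - 3 = d - 2 := by omega
      rwa [e] at this
    have hL : 0 ≤ 6 * (r:ℝ) * (1 + Real.log r) := by
      have := Real.log_nonneg hr'
      positivity
    calc (S3.card : ℝ) ≤ ((A1.card * (A2.card * A3.card) : ℕ) : ℝ) := by exact_mod_cast h1
      _ = (A1.card : ℝ) * ((A2.card : ℝ) * (A3.card : ℝ)) := by push_cast; rfl
      _ ≤ (6 * r * (1 + Real.log r)) * ((6 * r * (1 + Real.log r)) * (3 * r) ^ (d - 2)) := by
          apply mul_le_mul k1 _ (by positivity) hL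
          exact mul_le_mul k2 k3 (Nat.cast_nonneg _) hL
      _ = _ := by ring
  have hfin := Finset.card_le_card hsplit
  have h4 := (Finset.card_union_le (S.filter (fun a => a i0 = 0) ∪ S.filter (fun a => a il = 0)) S3)
  have h5 := (Finset.card_union_le (S.filter (fun a => a i0 = 0)) (S.filter (fun a => a il = 0)))
  have h6 : (S.card : ℝ) ≤ ((S.filter (fun a => a i0 = 0)).card : ℝ) +
      ((S.filter (fun a => a il = 0)).card : ℝ) + (S3.card : ℝ) := by
    have : S.card ≤ (S.filter (fun a => a i0 = 0)).card + (S.filter (fun a => a il = 0)).card +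
      S3.card := by omega
    exact_mod_cast this
  linarith

end Pool.Agent.Lib.MP_1acd66_nt
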