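import Pool.Agent.Lib.MP_1acd66_nt.Defs

/-!
Rational points of the projective bundle `P((Sym^d S)^m)` over the Grassmannian `G(2,N)` over `ℚ`,
adelic metrics on the anticanonical bundle, and the associated heights.
-/

namespace Pool.Agent.Lib.MP_1acd66_nt

instance factPrime (p : Nat.Primes) : Fact p.1.Prime := ⟨p.2⟩

/-- Coordinates of a rational point: a rational frame `Z` and a nonzero tuple `A` of `m` binary
forms of degree `d`. -/
structure Rep (N m d : ℕ) where
  /-- the frame -/
  Z : Fin 2 → Fin N → ℚ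
  /-- the coefficients of the forms -/
  A : Fin m → Fin (d + 1) → ℚ
  frame : IsFrame Z
  ne : A ≠ 0

/-- Two coordinate systems describe the same rational point: they differ by a change of frame and
a scalar. -/
def Same {N m d : ℕ} (x y : Rep N m d) : Prop :=
  ∃ (g : Matrix (Fin 2) (Fin 2) ℚ) (s : ℚ), g.det ≠ 0 ∧ s ≠ 0 ∧ y.Z = rowOp g x.Z ∧
    IsPullback g y.A (s • x.A)

/-- The set of rational points of `P((Sym^d S)^m)`. -/
def Pt (N m d : ℕ) : Type := Quot (Same (N := N) (m := m) (d := d))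

/-- The point with given coordinates. -/
def pt {N m d : ℕ} (x : Rep N m d) : Pt N m d := Quot.mk _ x

/-- Rational arrays with entries regarded in a field `K`. -/
def castK (K : Type*) [Field K] {a b : ℕ} (x : Fin a → Fin b → ℚ) : Fin a → Fin b → K :=
  fun i j => (x i j : K)

/-- An adelic metric on the anticanonical bundle: local norms at all places of `ℚ`, given by the
standard integral model at all but finitely many primes. -/
structure AdelicNorm (N m d : ℕ) where
  /-- the norm at the real place -/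
  inf : (Fin 2 → Fin N → ℝ) → (Fin m → Fin (d + 1) → ℝ) → ℝ
  /-- the norm at the prime `p` -/
  fin : ∀ p : Nat.Primes, (Fin 2 → Fin N → ℚ_[(p : ℕ)]) → (Fin m → Fin (d + 1) → ℚ_[(p : ℕ)]) → ℝ
  isNorm_inf : IsLocalNorm ℝ N m d inf
  isNorm_fin : ∀ p : Nat.Primes, IsLocalNorm ℚ_[(p : ℕ)] N m d (fin p)
  almost : ∃ S : Finset Nat.Primes, ∀ p : Nat.Primes, p ∉ S → ∀ Z A, (∀ i j, ‖Z i j‖ ≤ 1) →
    (∃ i j, ‖minor Z i j‖ = 1) → A ≠ 0 → fin p Z A = ‖A‖ ^ (m * (d + 1))

/-- The relative anticanonical height in terms of coordinates. -/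
noncomputable def AdelicNorm.height {N m d : ℕ} (h : AdelicNorm N m d) (x : Rep N m d) : ℝ :=
  h.inf (castK ℝ x.Z) (castK ℝ x.A) *
    ∏ᶠ p : Nat.Primes, h.fin p (castK ℚ_[(p : ℕ)] x.Z) (castK ℚ_[(p : ℕ)] x.A)

/-- The `m` elements of `Sym^d S` have no common rational linear factor: as binary forms they have
no common zero other than `(0,0)` over `ℚ`. -/
def NoZero {N m d : ℕ} (x : Rep N m d) : Prop :=
  ∀ u v : ℚ, (u ≠ 0 ∨ v ≠ 0) → ∃ i, formVal x.A i u v ≠ 0

/-- The points of height at most `B` in the set of those whose forms have no common rational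
zero. -/
def countSet {N m d : ℕ} (h : AdelicNorm N m d) (B : ℝ) : Set (Pt N m d) :=
  {P | ∃ x, pt x = P ∧ NoZero x ∧ h.height x ≤ B}

end Pool.Agent.Lib.MP_1acd66_nt
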