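import Pool.Agent.Lib.MP_1acd66_nt.FrameSum

/-! Non-saturated frames. -/

namespace Pool.Agent.Lib.MP_1acd66_nt

open MeasureTheory Metric Set Filter Topology

variable {N m d : ℕ}

/-- saturated frames -/
def SatZ (Z : FrZ N) : Prop := ∀ p : ℕ, p.Prime → ∃ i j, ¬ (p:ℤ) ∣ minor Z i j

/-- frames that are not saturated at `p` -/
def NonSatAt (p : ℕ) (Z : FrZ N) : Prop := ∀ i j, (p:ℤ) ∣ minor Z i j

/-- primitive arrays -/
def PrimA (A : CoZ m d) : Prop := ∀ p : ℕ, p.Prime → ∃ i j, ¬ (p:ℤ) ∣ A i j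

/-- arrays divisible by `p` -/
def DivA (p : ℕ) (A : CoZ m d) : Prop := ∀ i j, (p:ℤ) ∣ A i j

theorem castZ_rowOp (h : Matrix (Fin 2) (Fin 2) ℤ) (Z : FrZ N) :
    castZ (rowOp h Z) = rowOp (castM h) (castZ Z) := by
  funext i j
  simp only [castZ, rowOp, castM]
  push_cast
  rfl

theorem det2_rowOp (h : Matrix (Fin 2) (Fin 2) ℤ) (Z : FrZ N) :
    det2 (rowOp h Z) = |(h.det : ℝ)| * det2 Z := by
  rw [det2, gram_rowOp, det2]
  push_cast
  rw [Real.sqrt_mul (sq_nonneg _), Real.sqrt_sq_eq_abs]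

/-- representatives of the integral matrices of determinant `± p` -/
def hnf (p i : ℕ) : Matrix (Fin 2) (Fin 2) ℤ :=
  if i < p then !![1, (i:ℤ); 0, (p:ℤ)] else !![(p:ℤ), 0; 0, 1]

theorem exists_inv_mod {p : ℕ} (hp : p.Prime) {a : ℤ} (ha : ¬ (p:ℤ) ∣ a) (b : ℤ) :
    ∃ l : ℤ, 0 ≤ l ∧ l < p ∧ (p:ℤ) ∣ a * l - b := by
  have hp' : Prime (p:ℤ) := Nat.prime_iff_prime_int.1 hp
  have hcop : IsCoprime a (p:ℤ) := ((Prime.coprime_iff_not_dvd hp').2 ha).symm
  obtain ⟨x, y, hxy⟩ := hcop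
  have hppos : (0:ℤ) < p := by exact_mod_cast hp.pos
  refine ⟨(b * x) % p, Int.emod_nonneg _ hppos.ne', Int.emod_lt_of_pos _ hppos, ?_⟩
  have h1 : (p:ℤ) ∣ b * x - (b * x) % p := Int.dvd_self_sub_emod
  have h2 : a * ((b * x) % p) - b = -(a * (b * x - (b * x) % p)) - (p:ℤ) * (b * y) := by
    linear_combination b * hxy
  rw [h2]
  exact dvd_sub (h1.mul_left a).neg_right (dvd_mul_right _ _)

theorem exists_hnf {p : ℕ} (hp : p.Prime) (h : Matrix (Fin 2) (Fin 2) ℤ)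
    (hdet : |h.det| = p) : ∃ i ∈ Finset.range (p + 1), ∃ g : Matrix (Fin 2) (Fin 2) ℤ,
      IsUnit g.det ∧ h = g * hnf p i := by
  have hp' : Prime (p:ℤ) := Nat.prime_iff_prime_int.1 hp
  have hppos : (0:ℤ) < p := by exact_mod_cast hp.pos
  have hdvd : (p:ℤ) ∣ h 0 0 * h 1 1 - h 0 1 * h 1 0 := by
    rw [← Matrix.det_fin_two, ← hdet]
    exact (abs_dvd _ _).2 dvd_rfl
  have hunit : ∀ g : Matrix (Fin 2) (Fin 2) ℤ, ∀ i, h = g * hnf p i → IsUnit g.det := by
    intro g i hgi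
    have h1 : h.det = g.det * (hnf p i).det := by rw [hgi, Matrix.det_mul]
    have h2 : (hnf p i).det = p := by
      unfold hnf
      split_ifs
      · rw [Matrix.det_fin_two_of]; ring
      · rw [Matrix.det_fin_two_of]; ring
    rw [h2] at h1
    rw [h1, abs_mul, abs_of_pos hppos] at hdet
    have h3 : |g.det| = 1 := by
      have : |g.det| * p = 1 * p := by rw [hdet, one_mul]
      exact mul_right_cancel₀ hppos.ne' this
    rw [Int.isUnit_iff_abs_eq]
    exact h3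
  have hentry : ∀ l : ℤ, 0 ≤ l → l < p → (p:ℤ) ∣ h 0 0 * l - h 0 1 → (p:ℤ) ∣ h 1 0 * l - h 1 1 →
      ∃ i ∈ Finset.range (p + 1), ∃ g : Matrix (Fin 2) (Fin 2) ℤ,
      IsUnit g.det ∧ h = g * hnf p i := by
    intro l hl0 hlp h1 h2
    obtain ⟨x, hx⟩ := h1
    obtain ⟨y, hy⟩ := h2
    obtain ⟨k, rfl⟩ := Int.eq_ofNat_of_zero_le hl0
    have hk : k < p := by exact_mod_cast hlp
    refine ⟨k, Finset.mem_range.2 (by omega), !![h 0 0, -x; h 1 0, -y], ?_, ?_⟩
    · refine hunit _ k ?_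
      rw [hnf, if_pos hk]
      ext i j
      fin_cases i <;> fin_cases j
      · simp
      · simp; linarith
      · simp
      · simp; linarith
    · rw [hnf, if_pos hk]
      ext i j
      fin_cases i <;> fin_cases j
      · simp
      · simp; linarith
      · simp
      · simp; linarith
  by_cases h0 : (p:ℤ) ∣ h 0 0
  · by_cases h1 : (p:ℤ) ∣ h 1 0
    · obtain ⟨x, hx⟩ := h0
      obtain ⟨y, hy⟩ := h1
      have e : h = !![x, h 0 1; y, h 1 1] * hnf p p := by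
        rw [hnf, if_neg (lt_irrefl _)]
        ext i j
        fin_cases i <;> fin_cases j
        · simp; linarith
        · simp
        · simp; linarith
        · simp
      exact ⟨p, Finset.mem_range.2 (Nat.lt_succ_self p), _, hunit _ p e, e⟩
    · obtain ⟨l, hl0, hlp, hl⟩ := exists_inv_mod hp h1 (h 1 1)
      refine hentry l hl0 hlp ?_ hl
      have h2 : (p:ℤ) ∣ h 1 0 * (h 0 0 * l - h 0 1) := by
        have : h 1 0 * (h 0 0 * l - h 0 1) = h 0 0 * (h 1 0 * l - h 1 1) +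
          (h 0 0 * h 1 1 - h 0 1 * h 1 0) := by ring
        rw [this]
        exact dvd_add (hl.mul_left _) hdvd
      exact (hp'.dvd_or_dvd h2).resolve_left h1
  · obtain ⟨l, hl0, hlp, hl⟩ := exists_inv_mod hp h0 (h 0 1)
    refine hentry l hl0 hlp hl ?_
    have h2 : (p:ℤ) ∣ h 0 0 * (h 1 0 * l - h 1 1) := by
      have : h 0 0 * (h 1 0 * l - h 1 1) = h 1 0 * (h 0 0 * l - h 0 1) -
        (h 0 0 * h 1 1 - h 0 1 * h 1 0) := by ring
      rw [this]
      exact dvd_sub (hl.mul_left _) hdvd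
    exact (hp'.dvd_or_dvd h2).resolve_left h0

theorem exists_super {p : ℕ} (hp : p.Prime) {Z : FrZ N} (hZ : NonSatAt p Z) :
    ∃ (h : Matrix (Fin 2) (Fin 2) ℤ) (W : FrZ N), |h.det| = p ∧ Z = rowOp h W := by
  have hp' : Prime (p:ℤ) := Nat.prime_iff_prime_int.1 hp
  have hppos : (0:ℤ) < p := by exact_mod_cast hp.pos
  by_cases h0 : ∀ j, (p:ℤ) ∣ Z 0 j
  · choose x hx using h0
    refine ⟨!![(p:ℤ), 0; 0, 1], ![x, Z 1], ?_, ?_⟩
    · rw [Matrix.det_fin_two_of]; simp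
    · funext i j
      obtain rfl | rfl : i = 0 ∨ i = 1 := by omega
      · simp [rowOp, hx]
      · simp [rowOp]
  · push Not at h0
    obtain ⟨i, hi⟩ := h0
    obtain ⟨l, _, _, hl⟩ := exists_inv_mod hp hi (Z 1 i)
    have hdiv : ∀ j, (p:ℤ) ∣ Z 1 j - l * Z 0 j := by
      intro j
      have h2 : (p:ℤ) ∣ Z 0 i * (Z 1 j - l * Z 0 j) := by
        have : Z 0 i * (Z 1 j - l * Z 0 j) = minor Z i j - Z 0 j * (Z 0 i * l - Z 1 i) := by
          simp only [minor]; ring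
        rw [this]
        exact dvd_sub (hZ i j) (hl.mul_left _)
      exact (hp'.dvd_or_dvd h2).resolve_left hi
    choose x hx using hdiv
    refine ⟨!![1, 0; l, (p:ℤ)], ![Z 0, x], ?_, ?_⟩
    · rw [Matrix.det_fin_two_of]; simp
    · funext a j
      obtain rfl | rfl : a = 0 ∨ a = 1 := by omega
      · simp [rowOp]
      · simp only [rowOp, Matrix.of_apply, Matrix.cons_val', Matrix.cons_val_zero,
          Matrix.cons_val_one, Matrix.cons_val_fin_one]
        have := hx j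
        linarith

theorem wt_sum_det {t : ℝ} (ht : 0 < t) {p : ℕ} (hp : p.Prime) (Z : Fr N)
    (J : Finset (Matrix (Fin 2) (Fin 2) ℤ)) (hJ : ∀ h ∈ J, |h.det| = p) :
    ∑ h ∈ J, wt t (rowOp (castM h) Z) ≤ p + 1 := by
  classical
  have hex : ∀ h ∈ J, ∃ i ∈ Finset.range (p + 1), ∃ g : Matrix (Fin 2) (Fin 2) ℤ,
      IsUnit g.det ∧ h = g * hnf p i := fun h hh => exists_hnf hp h (hJ h hh)
  choose! I hI G hG1 hG2 using hex
  rw [← Finset.sum_fiberwise_of_maps_to hI]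
  calc ∑ i ∈ Finset.range (p + 1), ∑ h ∈ J with I h = i, wt t (rowOp (castM h) Z)
      ≤ ∑ i ∈ Finset.range (p + 1), (1:ℝ) := by
        refine Finset.sum_le_sum ?_
        intro i _
        have hinj : Set.InjOn G (J.filter (fun h => I h = i)) := by
          intro h hh h' hh' hGG
          obtain ⟨a1, a2⟩ := Finset.mem_filter.1 hh
          obtain ⟨b1, b2⟩ := Finset.mem_filter.1 hh'
          rw [hG2 h a1, hG2 h' b1, hGG, a2, b2]
        have e : ∑ h ∈ J with I h = i, wt t (rowOp (castM h) Z) =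
            ∑ g ∈ (J.filter (fun h => I h = i)).image G,
              wt t (rowOp (castM g) (rowOp (castM (hnf p i)) Z)) := by
          rw [Finset.sum_image hinj]
          refine Finset.sum_congr rfl ?_
          intro h hh
          obtain ⟨a1, a2⟩ := Finset.mem_filter.1 hh
          rw [← rowOp_mul, ← castM_mul]
          congr 3
          rw [← a2]
          exact hG2 h a1
        rw [e]
        refine wt_sum_le_one ht _ _ ?_
        intro g hg
        obtain ⟨h, hh, rfl⟩ := Finset.mem_image.1 hg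
        exact hG1 h (Finset.mem_filter.1 hh).1
    _ = p + 1 := by simp

theorem isFrame_of_rowOp {h : Matrix (Fin 2) (Fin 2) ℤ} {Z : FrZ N} (hZ : IsFrame (rowOp h Z)) :
    IsFrame Z := by
  obtain ⟨i, j, hij⟩ := hZ
  refine ⟨i, j, ?_⟩
  rw [minor_rowOp] at hij
  exact right_ne_zero_of_mul hij

/-- The sum of the weights over frames that are not saturated at `p`. -/
theorem nonsat_sum (hN : 1 ≤ N) : ∃ C : ℝ, 0 < C ∧ ∀ t : ℝ, 0 < t → ∀ p : ℕ, p.Prime →
    ∀ T : ℝ, 1 ≤ T → ∀ S : Finset (FrZ N), (∀ Z ∈ S, IsFrame Z ∧ NonSatAt p Z ∧ det2 Z ≤ T) →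
    ∑ Z ∈ S, wt t (castZ Z) * (det2 Z ^ N)⁻¹ ≤ C * ((p + 1) * ((p:ℝ) ^ N)⁻¹) * (1 + Real.log T) := by
  classical
  obtain ⟨C, hC, hred⟩ := reduced_sum hN
  refine ⟨C, hC, ?_⟩
  intro t ht p hp T hT S hS
  have hppos : (0:ℝ) < p := by exact_mod_cast hp.pos
  have hp1 : (1:ℝ) ≤ p := by exact_mod_cast hp.one_lt.le
  have hex : ∀ Z ∈ S, ∃ (h : Matrix (Fin 2) (Fin 2) ℤ) (W : FrZ N), |h.det| = p ∧
      Z = rowOp h W ∧ IsReduced W ∧ IsFrame W := by
    intro Z hZ
    obtain ⟨hF, hns, _⟩ := hS Z hZ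
    obtain ⟨h, W, hdet, rfl⟩ := exists_super hp hns
    obtain ⟨g, hg, hW⟩ := exists_reduced W
    refine ⟨h * g⁻¹, rowOp g W, ?_, ?_, hW, ?_⟩
    · rw [Matrix.det_mul, abs_mul, hdet]
      have := isUnit_det_inv hg
      rw [Int.isUnit_iff_abs_eq] at this
      rw [this, mul_one]
    · rw [← rowOp_mul, Matrix.mul_assoc, Matrix.nonsing_inv_mul g hg, Matrix.mul_one]
    · have hFW := isFrame_of_rowOp hF
      obtain ⟨i, j, hij⟩ := hFW
      exact ⟨i, j, by rw [minor_rowOp]; exact mul_ne_zero hg.ne_zero hij⟩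
  choose! H W hdet hZW hWred hWfr using hex
  have hmaps : ∀ Z ∈ S, W Z ∈ S.image W := fun Z hZ => Finset.mem_image_of_mem _ hZ
  rw [← Finset.sum_fiberwise_of_maps_to hmaps]
  have hinner : ∀ V ∈ S.image W, ∑ Z ∈ S with W Z = V, wt t (castZ Z) * (det2 Z ^ N)⁻¹ ≤
      ((p + 1) * ((p:ℝ) ^ N)⁻¹) * (det2 V ^ N)⁻¹ := by
    intro V _
    have e1 : ∀ Z ∈ S.filter (fun Z => W Z = V), wt t (castZ Z) * (det2 Z ^ N)⁻¹ =
        (((p:ℝ) ^ N)⁻¹ * (det2 V ^ N)⁻¹) * wt t (rowOp (castM (H Z)) (castZ V)) := by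
      intro Z hZ
      obtain ⟨a1, a2⟩ := Finset.mem_filter.1 hZ
      have hZ' : Z = rowOp (H Z) V := by rw [← a2]; exact hZW Z a1
      have hd : det2 Z = p * det2 V := by
        conv_lhs => rw [hZ']
        rw [det2_rowOp]
        have : |((H Z).det : ℝ)| = p := by
          have := hdet Z a1
          exact_mod_cast this
        rw [this]
      have hc : castZ Z = rowOp (castM (H Z)) (castZ V) := by
        conv_lhs => rw [hZ']
        rw [castZ_rowOp]
      rw [hd, hc, mul_pow, mul_inv]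
      ring
    rw [Finset.sum_congr rfl e1, ← Finset.mul_sum]
    have hinj : Set.InjOn H (S.filter (fun Z => W Z = V)) := by
      intro Z hZ Z' hZ' hHH
      obtain ⟨a1, a2⟩ := Finset.mem_filter.1 hZ
      obtain ⟨b1, b2⟩ := Finset.mem_filter.1 hZ'
      rw [hZW Z a1, hZW Z' b1, hHH, a2, b2]
    have e2 : ∑ Z ∈ S with W Z = V, wt t (rowOp (castM (H Z)) (castZ V)) =
        ∑ h ∈ (S.filter (fun Z => W Z = V)).image H, wt t (rowOp (castM h) (castZ V)) := by
      rw [Finset.sum_image hinj]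
    have h3 := wt_sum_det ht hp (castZ V) ((S.filter (fun Z => W Z = V)).image H) (by
      intro h hh
      obtain ⟨Z, hZ, rfl⟩ := Finset.mem_image.1 hh
      exact hdet Z (Finset.mem_filter.1 hZ).1)
    rw [← e2] at h3
    have hd0 : 0 ≤ det2 V := Real.sqrt_nonneg _
    calc (((p:ℝ) ^ N)⁻¹ * (det2 V ^ N)⁻¹) * ∑ Z ∈ S with W Z = V, wt t (rowOp (castM (H Z)) (castZ V))
        ≤ (((p:ℝ) ^ N)⁻¹ * (det2 V ^ N)⁻¹) * (p + 1) :=
          mul_le_mul_of_nonneg_left h3 (by positivity)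
      _ = _ := by ring
  refine (Finset.sum_le_sum hinner).trans ?_
  rw [← Finset.mul_sum]
  have h4 := hred T 1 hT le_rfl (S.image W) (by
    intro V hV
    obtain ⟨Z, hZ, rfl⟩ := Finset.mem_image.1 hV
    refine ⟨hWfr Z hZ, hWred Z hZ, ?_, ?_⟩
    · have h5 := (hS Z hZ).2.2
      have hd : det2 Z = p * det2 (W Z) := by
        conv_lhs => rw [hZW Z hZ]
        rw [det2_rowOp]
        have : |((H Z).det : ℝ)| = p := by
          have := hdet Z hZ
          exact_mod_cast this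
        rw [this]
      have h6 : 1 ≤ det2 (W Z) := one_le_det2 (hWfr Z hZ)
      nlinarith
    · rw [one_mul, len, len]
      apply Real.sqrt_le_sqrt
      exact_mod_cast (hWred Z hZ).1)
  rw [div_one] at h4
  have h5 : 0 ≤ ((p:ℝ) + 1) * ((p:ℝ) ^ N)⁻¹ := by positivity
  calc ((p:ℝ) + 1) * ((p:ℝ) ^ N)⁻¹ * ∑ V ∈ S.image W, (det2 V ^ N)⁻¹
      ≤ ((p:ℝ) + 1) * ((p:ℝ) ^ N)⁻¹ * (C * (1 + Real.log T)) := mul_le_mul_of_nonneg_left h4 h5
    _ = _ := by ring

end Pool.Agent.Lib.MP_1acd66_nt
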