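import Pool.Agent.Lib.MP_1acd66_nt.PadicTame

/-! Comparison of the number of points with the weighted count of integral pairs. -/

namespace Pool.Agent.Lib.MP_1acd66_nt

open Filter Metric Set
open scoped Classical

variable {N m d : ℕ}

/-- integral primitive pairs -/
abbrev IPair (N m d : ℕ) : Type := {x : FrZ N × CoZ m d // SatZ x.1 ∧ PrimA x.2}

/-- the coordinates given by an integral pair -/
def IPair.rep (x : IPair N m d) : Rep N m d := ofInt x.1.1 x.1.2 x.2.1.isFrame x.2.2.ne_zero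

/-- the pairs of height at most `B` without common zero -/
def hQ (h : AdelicNorm N m d) (B : ℝ) : Set (IPair N m d) :=
  {x | x.1.2 ∈ hset h.inf h.ff x.1.1 B}

theorem mem_hQ_iff {h : AdelicNorm N m d} {B : ℝ} {x : IPair N m d} :
    x ∈ hQ h B ↔ NoZero x.rep ∧ h.height x.rep ≤ B := by
  have e1 : h.height x.rep = h.inf (castZ x.1.1) (castA x.1.2) * h.ff x.1.1 x.1.2 :=
    h.height_ofInt _ _ _ _
  have e2 : NoZero x.rep ↔ NoRootZ x.1.2 := noZero_ofInt
  rw [e1, e2]
  exact ⟨fun hx => ⟨hx.2.1, hx.2.2⟩, fun hx => ⟨x.2.2, hx.1, hx.2⟩⟩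

theorem hQ_congr {h : AdelicNorm N m d} {B : ℝ} {x y : IPair N m d} (e : pt x.rep = pt y.rep) :
    x ∈ hQ h B ↔ y ∈ hQ h B := by
  have hs := pt_eq_iff.1 e
  rw [mem_hQ_iff, mem_hQ_iff, noZero_iff_of_same hs, h.height_same hs]

theorem countSet_eq (h : AdelicNorm N m d) (B : ℝ) :
    countSet h B = (fun x : IPair N m d => pt x.rep) '' hQ h B := by
  ext P
  constructor
  · rintro ⟨x, rfl, hx1, hx2⟩
    obtain ⟨Z, A, hZ, hA, hs⟩ := exists_int x
    refine ⟨⟨(Z, A), hZ, hA⟩, ?_, (pt_eq_iff.2 hs).symm⟩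
    rw [mem_hQ_iff]
    have e : IPair.rep ⟨(Z, A), hZ, hA⟩ = ofInt Z A hZ.isFrame hA.ne_zero := rfl
    rw [e, ← noZero_iff_of_same hs, h.height_same hs]
    exact ⟨hx1, hx2⟩
  · rintro ⟨x, hx, rfl⟩
    rw [mem_hQ_iff] at hx
    exact ⟨x.rep, rfl, hx.1, hx.2⟩

theorem SatZ.rowOp {Z : FrZ N} (hZ : SatZ Z) {g : Matrix (Fin 2) (Fin 2) ℤ} (hg : IsUnit g.det) :
    SatZ (rowOp g Z) := by
  intro p hp
  obtain ⟨i, j, hij⟩ := hZ p hp
  refine ⟨i, j, ?_⟩
  rw [minor_rowOp]
  intro hdvd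
  exact hij ((hg.dvd_mul_left).1 hdvd)

theorem PrimA.neg {A : CoZ m d} (hA : PrimA A) : PrimA (-A) := by
  intro p hp
  obtain ⟨i, j, hij⟩ := hA p hp
  exact ⟨i, j, by simpa using hij⟩

/-- the other integral coordinates of the same point -/
noncomputable def IPair.act (x : IPair N m d) (g : Matrix (Fin 2) (Fin 2) ℤ) (hg : IsUnit g.det)
    (b : Bool) : IPair N m d :=
  ⟨(rowOp g x.1.1, if b then pull g⁻¹ x.1.2 else -pull g⁻¹ x.1.2), x.2.1.rowOp hg, by
    cases b
    · exact (x.2.2.pullBack (isUnit_det_inv hg)).neg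
    · exact x.2.2.pullBack (isUnit_det_inv hg)⟩

theorem pt_act (x : IPair N m d) (g : Matrix (Fin 2) (Fin 2) ℤ) (hg : IsUnit g.det) (b : Bool) :
    pt (x.act g hg b).rep = pt x.rep := by
  refine (pt_eq_iff.2 ?_).symm
  refine same_of_orbit _ _ _ _ hg rfl ?_
  have e : pull g (pull g⁻¹ x.1.2) = x.1.2 := by
    rw [← pull_mul, Matrix.nonsing_inv_mul g hg, pull_one]
  have e2 : pull g (-pull g⁻¹ x.1.2) = -x.1.2 := by
    have : -pull g⁻¹ x.1.2 = (-1 : ℤ) • pull g⁻¹ x.1.2 := by rw [neg_one_smul]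
    rw [this, pull_smul, e, neg_one_smul]
  cases b
  · right
    simp only [IPair.act, Bool.false_eq_true, if_false]
    exact e2
  · left
    simp only [IPair.act, if_true]
    exact e

/-- the weights of the coordinates of one point add up to at most two -/
theorem fib_upper {t : ℝ} (ht : 0 < t) (F : Finset (IPair N m d)) (P : Pt N m d) :
    ∑ x ∈ F.filter (fun x => pt x.rep = P), wt t (castZ x.1.1) ≤ 2 := by
  rcases (F.filter (fun x => pt x.rep = P)).eq_empty_or_nonempty with hE | ⟨x0, hx0⟩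
  · rw [hE, Finset.sum_empty]; norm_num
  · have hx0P := (Finset.mem_filter.1 hx0).2
    have hex : ∀ x ∈ F.filter (fun x => pt x.rep = P), ∃ g : Matrix (Fin 2) (Fin 2) ℤ,
        IsUnit g.det ∧ x.1.1 = rowOp g x0.1.1 ∧ (pull g x.1.2 = x0.1.2 ∨ pull g x.1.2 = -x0.1.2) := by
      intro x hx
      have hxP := (Finset.mem_filter.1 hx).2
      exact same_unique x0.2.1 x0.2.2 x.2.1 x.2.2 (pt_eq_iff.1 (hx0P.trans hxP.symm))
    choose! g hg1 hg2 hg3 using hex
    have key : ∀ F' ⊆ F.filter (fun x => pt x.rep = P), Set.InjOn g F' →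
        ∑ x ∈ F', wt t (castZ x.1.1) ≤ 1 := by
      intro F' hF' hinj
      have e : ∑ x ∈ F', wt t (castZ x.1.1) =
          ∑ k ∈ F'.image g, wt t (rowOp (castM k) (castZ x0.1.1)) := by
        rw [Finset.sum_image hinj]
        refine Finset.sum_congr rfl fun x hx => ?_
        rw [← castZ_rowOp, ← hg2 x (hF' hx)]
      rw [e]
      refine wt_sum_le_one ht _ _ ?_
      intro k hk
      obtain ⟨x, hx, rfl⟩ := Finset.mem_image.1 hk
      exact hg1 x (hF' hx)
    have hinv : ∀ x ∈ F.filter (fun x => pt x.rep = P), x.1.2 = pull (g x)⁻¹ (pull (g x) x.1.2) := by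
      intro x hx
      rw [← pull_mul, Matrix.mul_nonsing_inv _ (hg1 x hx), pull_one]
    rw [← Finset.sum_filter_add_sum_filter_not (F.filter (fun x => pt x.rep = P))
      (fun x => pull (g x) x.1.2 = x0.1.2)]
    have h1 := key ((F.filter (fun x => pt x.rep = P)).filter
      (fun x => pull (g x) x.1.2 = x0.1.2)) (Finset.filter_subset _ _) (by
        intro x hx y hy hxy
        obtain ⟨a1, a2⟩ := Finset.mem_filter.1 hx
        obtain ⟨b1, b2⟩ := Finset.mem_filter.1 hy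
        apply Subtype.ext
        refine Prod.ext ?_ ?_
        · rw [hg2 x a1, hg2 y b1, hxy]
        · rw [hinv x a1, hinv y b1, a2, b2, hxy])
    have h2 := key ((F.filter (fun x => pt x.rep = P)).filter
      (fun x => ¬ pull (g x) x.1.2 = x0.1.2)) (Finset.filter_subset _ _) (by
        intro x hx y hy hxy
        obtain ⟨a1, a2⟩ := Finset.mem_filter.1 hx
        obtain ⟨b1, b2⟩ := Finset.mem_filter.1 hy
        apply Subtype.ext
        refine Prod.ext ?_ ?_
        · rw [hg2 x a1, hg2 y b1, hxy]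
        · rw [hinv x a1, hinv y b1, (hg3 x a1).resolve_left a2, (hg3 y b1).resolve_left b2, hxy])
    linarith

/-- the weights of the coordinates of a balanced point add up to at least two -/
theorem fib_lower {t : ℝ} (ht : 0 < t) (F : Finset (IPair N m d)) (x0 : IPair N m d)
    (hb : bal t (castZ x0.1.1) = 1)
    (hF : ∀ x : IPair N m d, pt x.rep = pt x0.rep → wt t (castZ x.1.1) ≠ 0 → x ∈ F) :
    2 ≤ ∑ x ∈ F.filter (fun x => pt x.rep = pt x0.rep), wt t (castZ x.1.1) := by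
  set Γ := GammaR ⌈(N:ℝ) * t⌉₊ with hΓ
  have hΓu : ∀ g ∈ Γ, IsUnit g.det := fun g hg => ((mem_GammaR _ _).1 hg).2
  have hcast1 : rowOp (castM 1) (castZ x0.1.1) = castZ x0.1.1 := by
    rw [castM_one, rowOp_one]
  have h1 : 1 ≤ ∑ g ∈ Γ, wt t (rowOp (castM g) (castZ x0.1.1)) := by
    refine one_le_wt_sum _ _ hΓu ?_ ⟨1, by simp, by rw [hcast1]; exact hb⟩
    intro g hg hbal
    have := mem_GammaR_of_bal ht (Z := castZ x0.1.1) (g := 1) (h := g) (by simp) hg
      (by rw [hcast1, hb]; exact one_pos) hbal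
    rwa [inv_one, Matrix.mul_one] at this
  set Γ' := Γ.filter (fun g => wt t (rowOp (castM g) (castZ x0.1.1)) ≠ 0) with hΓ'
  have h2 : ∑ g ∈ Γ', wt t (rowOp (castM g) (castZ x0.1.1)) =
      ∑ g ∈ Γ, wt t (rowOp (castM g) (castZ x0.1.1)) := by
    rw [hΓ', Finset.sum_filter_ne_zero]
  have h3 : ∀ b : Bool, ∀ g : {g // g ∈ Γ'},
      x0.act g.1 (hΓu g.1 (Finset.mem_filter.1 g.2).1) b ∈
        F.filter (fun x => pt x.rep = pt x0.rep) := by
    intro b g
    rw [Finset.mem_filter]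
    have e := pt_act x0 g.1 (hΓu g.1 (Finset.mem_filter.1 g.2).1) b
    refine ⟨hF _ e ?_, e⟩
    have h4 := (Finset.mem_filter.1 g.2).2
    rw [← castZ_rowOp] at h4
    exact h4
  set Φ : {g // g ∈ Γ'} × Bool → IPair N m d := fun x =>
    x0.act x.1.1 (hΓu x.1.1 (Finset.mem_filter.1 x.1.2).1) x.2 with hΦ
  have hinj : Function.Injective Φ := by
    rintro ⟨⟨g, hg⟩, b⟩ ⟨⟨k, hk⟩, c⟩ hgk
    have e1 : rowOp g x0.1.1 = rowOp k x0.1.1 := congrArg (fun x : IPair N m d => x.1.1) hgk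
    have e2 := rowOp_inj_int x0.2.1.isFrame e1
    subst e2
    have e3 : (if b then pull g⁻¹ x0.1.2 else -pull g⁻¹ x0.1.2) =
        (if c then pull g⁻¹ x0.1.2 else -pull g⁻¹ x0.1.2) :=
      congrArg (fun x : IPair N m d => x.1.2) hgk
    have hne : pull g⁻¹ x0.1.2 ≠ 0 :=
      (x0.2.2.pullBack (isUnit_det_inv (hΓu g (Finset.mem_filter.1 hg).1))).ne_zero
    have hne2 : pull g⁻¹ x0.1.2 ≠ -pull g⁻¹ x0.1.2 := by
      intro h0
      apply hne
      funext i j
      have := congrFun (congrFun h0 i) j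
      simp only [Pi.neg_apply, Pi.zero_apply] at this ⊢
      omega
    cases b <;> cases c
    · rfl
    · simp only [Bool.false_eq_true, if_false, if_true] at e3
      exact absurd e3.symm hne2
    · simp only [Bool.false_eq_true, if_false, if_true] at e3
      exact absurd e3 hne2
    · rfl
  have h4 : ∑ y ∈ (Finset.univ : Finset ({g // g ∈ Γ'} × Bool)), wt t (castZ (Φ y).1.1) ≤
      ∑ x ∈ F.filter (fun x => pt x.rep = pt x0.rep), wt t (castZ x.1.1) := by
    rw [← Finset.sum_image (f := fun x : IPair N m d => wt t (castZ x.1.1))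
      (fun a _ b _ hab => hinj hab)]
    refine Finset.sum_le_sum_of_subset_of_nonneg ?_ (fun _ _ _ => wt_nonneg _ _)
    intro x hx
    obtain ⟨y, _, rfl⟩ := Finset.mem_image.1 hx
    exact h3 y.2 y.1
  have h5 : ∑ y ∈ (Finset.univ : Finset ({g // g ∈ Γ'} × Bool)), wt t (castZ (Φ y).1.1) =
      2 * ∑ g ∈ Γ', wt t (rowOp (castM g) (castZ x0.1.1)) := by
    rw [← Finset.univ_product_univ, Finset.sum_product]
    have e : ∀ x : {g // g ∈ Γ'}, ∑ y : Bool, wt t (castZ (Φ (x, y)).1.1) =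
        2 * wt t (rowOp (castM x.1) (castZ x0.1.1)) := by
      intro x
      have e1 : ∀ y : Bool, castZ (Φ (x, y)).1.1 = rowOp (castM x.1) (castZ x0.1.1) := by
        intro y
        rw [← castZ_rowOp]
        rfl
      rw [Fintype.sum_bool, e1, e1]
      ring
    rw [Finset.sum_congr rfl (fun x _ => e x), ← Finset.mul_sum]
    congr 1
    exact Finset.sum_coe_sort Γ' (fun g => wt t (rowOp (castM g) (castZ x0.1.1)))
  rw [h5, h2] at h4
  linarith

end Pool.Agent.Lib.MP_1acd66_nt
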