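import Pool.Agent.Lib.MP_1acd66_nt.Reduced
import Pool.Agent.Lib.MP_1acd66_nt.RealNorm

/-! Upper bounds for the number of integral tuples of forms without common rational zero. -/

namespace Pool.Agent.Lib.MP_1acd66_nt

open MeasureTheory Metric Set Filter Topology

variable {N m d : ℕ}

/-- integral coefficient arrays -/
abbrev CoZ (m d : ℕ) := Fin m → Fin (d + 1) → ℤ

/-- cast an integral frame -/
def castZ {N : ℕ} (Z : FrZ N) : Fr N := fun i j => ((Z i j : ℤ) : ℝ)

/-- cast an integral array -/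
def castA {m d : ℕ} (A : CoZ m d) : Co m d := fun i j => ((A i j : ℤ) : ℝ)

theorem castA_ne_zero {A : CoZ m d} (hA : A ≠ 0) : castA A ≠ 0 := by
  intro h
  apply hA
  funext i j
  have := congrFun (congrFun h i) j
  simp only [castA, Pi.zero_apply] at this
  exact_mod_cast this

theorem isFrame_castZ {Z : FrZ N} (hZ : IsFrame Z) : IsFrame (castZ Z) := by
  obtain ⟨i, j, hij⟩ := hZ
  refine ⟨i, j, ?_⟩
  simp only [minor, castZ] at hij ⊢
  exact_mod_cast hij

theorem gram_castZ (Z : FrZ N) : gram (castZ Z) = ((gram Z : ℤ) : ℝ) := by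
  have h2 := gram_map (Int.castRingHom ℝ) Z
  simp only [eq_intCast] at h2
  exact h2

theorem sqrt_gram_castZ (Z : FrZ N) : √(gram (castZ Z)) = det2 Z := by
  rw [gram_castZ, det2]

theorem dot_castZ (Z : FrZ N) (i : Fin 2) : dot (castZ Z i) (castZ Z i) = ((dot (Z i) (Z i) : ℤ) : ℝ) := by
  simp only [dot, castZ]
  push_cast
  rfl

/-- orthonormal frames -/
def orthoFrames (N : ℕ) : Set (Fr N) :=
  {k | dot (k 0) (k 0) = 1 ∧ dot (k 1) (k 1) = 1 ∧ dot (k 0) (k 1) = 0}

theorem isCompact_orthoFrames (N : ℕ) : IsCompact (orthoFrames N) := by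
  refine Metric.isCompact_of_isClosed_isBounded ?_ ?_
  · refine IsClosed.inter ?_ (IsClosed.inter ?_ ?_)
    · refine isClosed_eq ?_ continuous_const
      unfold dot
      fun_prop
    · refine isClosed_eq ?_ continuous_const
      unfold dot
      fun_prop
    · refine isClosed_eq ?_ continuous_const
      unfold dot
      fun_prop
  · refine (isBounded_closedBall (x := (0 : Fr N)) (r := 1)).subset ?_
    rintro k ⟨h0, h1, _⟩
    rw [mem_closedBall_zero_iff, pi_norm_le_iff_of_nonneg zero_le_one]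
    intro i
    rw [pi_norm_le_iff_of_nonneg zero_le_one]
    intro j
    have key : ∀ x : Fin N → ℝ, dot x x = 1 → ‖x j‖ ≤ 1 := by
      intro x hx
      have : x j * x j ≤ dot x x :=
        Finset.single_le_sum (f := fun j => x j * x j) (fun j _ => mul_self_nonneg _)
          (Finset.mem_univ j)
      rw [hx] at this
      rw [Real.norm_eq_abs]
      exact abs_le_one_iff_mul_self_le_one.2 this
    obtain rfl | rfl : i = 0 ∨ i = 1 := by omega
    · exact key _ h0
    · exact key _ h1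

theorem isFrame_of_mem_orthoFrames {k : Fr N} (hk : k ∈ orthoFrames N) : IsFrame k := by
  rw [← gram_pos_iff, gram, hk.1, hk.2.1, hk.2.2]
  norm_num

theorem card_box_general {B : Fin (d + 1) → ℝ} (hB : ∀ k, 1 ≤ B k) (S : Finset (CoZ m d))
    (hS : ∀ x ∈ S, ∀ i k, |((x i k : ℤ) : ℝ)| ≤ B k) : (S.card : ℝ) ≤ (∏ k, (3 * B k)) ^ m := by
  have h1 : S ⊆ Fintype.piFinset (fun _ : Fin m => Fintype.piFinset
      (fun k : Fin (d + 1) => Finset.Icc (-⌊B k⌋) ⌊B k⌋)) := by
    intro x hx
    rw [Fintype.mem_piFinset]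
    intro i
    rw [Fintype.mem_piFinset]
    intro j
    have := hS x hx i j
    rw [abs_le] at this
    rw [Finset.mem_Icc]
    constructor
    · have : -(x i j) ≤ ⌊B j⌋ := Int.le_floor.2 (by push_cast; linarith)
      linarith
    · exact Int.le_floor.2 this.2
  have h2 := Finset.card_le_card h1
  rw [Fintype.card_piFinset] at h2
  simp only [Fintype.card_piFinset, Int.card_Icc, Finset.prod_const, Finset.card_univ,
    Fintype.card_fin] at h2
  calc (S.card : ℝ) ≤ (((∏ k, (⌊B k⌋ + 1 - -⌊B k⌋).toNat) ^ m : ℕ) : ℝ) := by exact_mod_cast h2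
    _ = (∏ k, (((⌊B k⌋ + 1 - -⌊B k⌋).toNat : ℕ) : ℝ)) ^ m := by push_cast; rfl
    _ ≤ (∏ k, (3 * B k)) ^ m := by
        refine pow_le_pow_left₀ (Finset.prod_nonneg fun _ _ => Nat.cast_nonneg _) ?_ m
        refine Finset.prod_le_prod (fun _ _ => Nat.cast_nonneg _) ?_
        intro k _
        have hf : (0:ℤ) ≤ ⌊B k⌋ := Int.floor_nonneg.2 (by have := hB k; linarith)
        have h4 : (((⌊B k⌋ + 1 - -⌊B k⌋).toNat : ℕ) : ℤ) = 2 * ⌊B k⌋ + 1 := by
          rw [Int.toNat_of_nonneg (by omega)]; ring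
        have h5 : (((⌊B k⌋ + 1 - -⌊B k⌋).toNat : ℕ) : ℝ) = 2 * (⌊B k⌋:ℝ) + 1 := by exact_mod_cast h4
        rw [h5]
        have h6 := Int.floor_le (B k)
        have h7 := hB k
        linarith

/-- floors of the coordinates in a triangular basis determine an integral vector -/
theorem floor_injective (g : Matrix (Fin 2) (Fin 2) ℝ) (hg : g 0 1 = 0) (h0 : 0 < g 0 0)
    (h1 : 0 < g 1 1) : Function.Injective (fun (A : CoZ m d) (i : Fin m) (k : Fin (d + 1)) =>
      ⌊pull g (castA A) i k / (g 0 0 ^ (d - (k:ℕ)) * g 1 1 ^ (k:ℕ))⌋) := by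
  intro A A' hAA
  by_contra hne
  obtain ⟨i, hi⟩ : ∃ i, A i ≠ A' i := by
    by_contra h
    push Not at h
    exact hne (funext h)
  have hex : (Finset.univ.filter (fun k => A i k ≠ A' i k)).Nonempty := by
    by_contra h
    rw [Finset.not_nonempty_iff_eq_empty, Finset.filter_eq_empty_iff] at h
    apply hi
    funext k
    by_contra hk
    exact h (Finset.mem_univ k) hk
  set k := (Finset.univ.filter (fun k => A i k ≠ A' i k)).max' hex with hk
  have hk1 : A i k ≠ A' i k := (Finset.mem_filter.1 (Finset.max'_mem _ hex)).2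
  have hk2 : ∀ j, k < j → A i j = A' i j := by
    intro j hj
    by_contra hcon
    have hmem : j ∈ Finset.univ.filter (fun k => A i k ≠ A' i k) :=
      Finset.mem_filter.2 ⟨Finset.mem_univ j, hcon⟩
    have := Finset.le_max' _ j hmem
    rw [← hk] at this
    exact absurd hj (not_lt.2 this)
  have hfl := congrFun (congrFun hAA i) k
  simp only at hfl
  set P := g 0 0 ^ (d - (k:ℕ)) * g 1 1 ^ (k:ℕ) with hP
  have hPpos : 0 < P := by positivity
  have e : pull g (castA A) i k - pull g (castA A') i k = ((A i k : ℤ) - (A' i k : ℤ) : ℝ) * P := by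
    simp only [pull, ← Finset.sum_sub_distrib]
    rw [Finset.sum_eq_single k]
    · rw [coeff_subPoly_diag g hg]
      simp only [castA]
      ring
    · intro j _ hjk
      rcases lt_or_gt_of_ne hjk with h | h
      · rw [coeff_subPoly_of_lt g hg (by exact_mod_cast h)]
        ring
      · simp only [castA]
        rw [hk2 j h]
        ring
    · simp
  have e2 : pull g (castA A) i k / P - pull g (castA A') i k / P =
      (((A i k - A' i k : ℤ)) : ℝ) := by
    rw [← sub_div, e, mul_div_cancel_right₀ _ hPpos.ne']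
    push_cast
    rfl
  have h3 := Int.floor_le (pull g (castA A) i k / P)
  have h4 := Int.lt_floor_add_one (pull g (castA A) i k / P)
  have h5 := Int.floor_le (pull g (castA A') i k / P)
  have h6 := Int.lt_floor_add_one (pull g (castA A') i k / P)
  rw [hfl] at h3 h4
  have h7 : (((A i k - A' i k : ℤ)) : ℝ) < 1 := by linarith
  have h8 : (-1 : ℝ) < (((A i k - A' i k : ℤ)) : ℝ) := by linarith
  have h9 : A i k - A' i k < 1 := by exact_mod_cast h7
  have h10 : -1 < A i k - A' i k := by exact_mod_cast h8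
  apply hk1
  omega

theorem prod_diag (s1 s2 : ℝ) : ∏ k : Fin (d + 1), (s1 ^ (d - (k:ℕ)) * s2 ^ (k:ℕ)) =
    (s1 * s2) ^ (d * (d + 1) / 2) := by
  rw [Fin.prod_univ_eq_prod_range (fun k => s1 ^ (d - k) * s2 ^ k) (d + 1), Finset.prod_mul_distrib,
    Finset.prod_pow_eq_pow_sum, Finset.prod_pow_eq_pow_sum, mul_pow]
  have h2 : ∑ k ∈ Finset.range (d + 1), k = d * (d + 1) / 2 := by
    rw [Finset.sum_range_id]; simp [mul_comm]
  have h1 : ∑ k ∈ Finset.range (d + 1), (d - k) = d * (d + 1) / 2 := by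
    rw [← h2, ← Finset.sum_range_reflect (fun k => k) (d + 1)]
    refine Finset.sum_congr rfl ?_
    intro k _
    omega
  rw [h1, h2]

/-- The upper bound for the number of integral points on a fibre over a reduced frame. -/
theorem IsLocalNorm.upper (hd : 1 ≤ m * d) {M : Fr N → Co m d → ℝ} (hM : IsLocalNorm ℝ N m d M)
    (hw : m * (d * (d + 1) / 2) ≤ N) :
    ∃ C : ℝ, 0 < C ∧ ∀ Z : FrZ N, IsFrame Z → IsReduced Z → ∀ Y : ℝ, 0 < Y →
      ∀ S : Finset (CoZ m d), (∀ A ∈ S, (∃ i, A i (Fin.last d) ≠ 0) ∧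
        M (castZ Z) (castA A) ≤ Y) →
      (S.card : ℝ) ≤ C * Y * (det2 Z ^ N)⁻¹ ∧ (S.Nonempty → det2 Z ^ N ≤ C * Y) := by
  classical
  obtain ⟨c, _, hc, _, hb⟩ := hM.compact_bound (isCompact_orthoFrames N)
    (fun k hk => isFrame_of_mem_orthoFrames hk)
  set D := m * (d + 1) with hD
  set w := m * (d * (d + 1) / 2) with hwdef
  have hm : 0 < m := by
    rcases Nat.eq_zero_or_pos m with h | h
    · rw [h, zero_mul] at hd; omega
    · exact h
  have hD0 : 0 < D := Nat.mul_pos hm (Nat.succ_pos d)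
  have hwD : 2 * w = d * D := by
    have h2 : 2 * (d * (d + 1) / 2) = d * (d + 1) :=
      Nat.mul_div_cancel' (Nat.even_mul_succ_self d).two_dvd
    calc 2 * (m * (d * (d + 1) / 2)) = m * (2 * (d * (d + 1) / 2)) := by ring
      _ = m * (d * (d + 1)) := by rw [h2]
      _ = d * (m * (d + 1)) := by ring
  refine ⟨(3 * (1 + 2 ^ d)) ^ D / c + 2 ^ w / c, by positivity, ?_⟩
  intro Z hZ hred Y hY S hS
  obtain ⟨g, k, hg01, hs1, hs2, hs1sq, hgram, hZk, hk0, hk1, hk01⟩ :=
    gramSchmidt (castZ Z) (isFrame_castZ hZ)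
  have hkO : k ∈ orthoFrames N := ⟨hk0, hk1, hk01⟩
  have hkF : IsFrame k := isFrame_of_mem_orthoFrames hkO
  set s1 := g 0 0 with hs1def
  set s2 := g 1 1 with hs2def
  set Δ := det2 Z with hΔ
  have hΔ1 : 1 ≤ Δ := one_le_det2 hZ
  have hs12 : s1 * s2 = Δ := by
    rw [hΔ, ← sqrt_gram_castZ, ← hgram, Real.sqrt_sq (by positivity)]
  have hdetg : g.det = Δ := by rw [Matrix.det_fin_two, hg01, ← hs12]; ring
  have hdetg0 : g.det ≠ 0 := by rw [hdetg]; linarith
  -- s1 ≤ 2 s2
  have hs1len : s1 = len (Z 0) := by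
    rw [len, ← dot_castZ, ← hs1sq, Real.sqrt_sq hs1.le]
  have h12 : s1 ≤ 2 * s2 := by
    have h1 := hred.len_mul_le
    rw [← hΔ, ← hs12, ← hs1len] at h1
    have h2 : len (Z 1) ≤ 2 * s2 := by
      have : s1 * len (Z 1) ≤ s1 * (2 * s2) := by linarith
      exact le_of_mul_le_mul_left this hs1
    have h3 : len (Z 0) ≤ len (Z 1) := by
      rw [len, len]
      apply Real.sqrt_le_sqrt
      exact_mod_cast hred.1
    linarith
  -- radius
  set Q := Y / (c * Δ ^ (N - w)) with hQ
  have hQpos : 0 < Q := by positivity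
  set X := Q ^ (1 / (D:ℝ)) with hX
  have hXpos : 0 < X := Real.rpow_pos_of_pos hQpos _
  have hXD : X ^ D = Q := by
    rw [hX, ← Real.rpow_natCast, ← Real.rpow_mul hQpos.le]
    have : (D:ℝ) ≠ 0 := by positivity
    field_simp
    exact Real.rpow_one Q
  have hA_norm : ∀ A ∈ S, ‖pull g (castA A)‖ ≤ X := by
    intro A hA
    obtain ⟨⟨i, hi⟩, hMA⟩ := hS A hA
    have hA0 : A ≠ 0 := by rintro rfl; exact hi rfl
    have hcA0 := castA_ne_zero hA0
    have h1 := hM.frame k (castA A) (pull g (castA A)) hkF hcA0 g hdetg0 (isPullback_pull _ _)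
    rw [← hZk, hdetg, Real.norm_eq_abs, abs_of_pos (by linarith)] at h1
    have h2 := (hb k hkO (pull g (castA A)) (pull_ne_zero hdetg0 hcA0)).1
    rw [h1] at hMA
    have h3 : ‖pull g (castA A)‖ ^ D ≤ X ^ D := by
      rw [hXD, hQ, le_div_iff₀ (by positivity)]
      calc ‖pull g (castA A)‖ ^ D * (c * Δ ^ (N - w))
          = Δ ^ (N - w) * (c * ‖pull g (castA A)‖ ^ D) := by ring
        _ ≤ Δ ^ (N - w) * M k (pull g (castA A)) := mul_le_mul_of_nonneg_left h2 (by positivity)
        _ ≤ Y := hMA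
    exact (pow_le_pow_iff_left₀ (norm_nonneg _) hXpos.le hD0.ne').1 h3
  have htop : ∀ A ∈ S, s2 ^ d ≤ X := by
    intro A hA
    obtain ⟨⟨i, hi⟩, _⟩ := hS A hA
    have e : pull g (castA A) i (Fin.last d) = ((A i (Fin.last d) : ℤ) : ℝ) * s2 ^ d := by
      simp only [pull]
      rw [Finset.sum_eq_single (Fin.last d)]
      · have := coeff_subPoly_diag (d := d) g hg01 d
        simp only [Fin.val_last, castA]
        rw [this, Nat.sub_self, pow_zero, one_mul]
      · intro j _ hj
        have hlt : (j : ℕ) < ((Fin.last d : Fin (d+1)) : ℕ) := by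
          have := Fin.lt_last_iff_ne_last.2 hj
          exact this
        rw [coeff_subPoly_of_lt g hg01 hlt, mul_zero]
      · simp
    have h1 : |pull g (castA A) i (Fin.last d)| ≤ ‖pull g (castA A)‖ :=
      (norm_le_pi_norm (pull g (castA A) i) (Fin.last d)).trans
        (norm_le_pi_norm (pull g (castA A)) i)
    rw [e, abs_mul, abs_of_pos (by positivity : 0 < s2 ^ d)] at h1
    have h2 : (1:ℝ) ≤ |((A i (Fin.last d) : ℤ) : ℝ)| := by
      have := Int.one_le_abs hi
      exact_mod_cast this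
    have h3 := hA_norm A hA
    have h4 : s2 ^ d ≤ |((A i (Fin.last d) : ℤ) : ℝ)| * s2 ^ d :=
      le_mul_of_one_le_left (by positivity) h2
    linarith
  rcases S.eq_empty_or_nonempty with hE | hne
  · rw [hE]
    refine ⟨?_, fun h => absurd h Finset.not_nonempty_empty⟩
    simp only [Finset.card_empty, Nat.cast_zero]
    positivity
  obtain ⟨A0, hA0⟩ := hne
  have hs2X : s2 ^ d ≤ X := htop A0 hA0
  set P : Fin (d + 1) → ℝ := fun k => s1 ^ (d - (k:ℕ)) * s2 ^ (k:ℕ) with hP
  have hPpos : ∀ k, 0 < P k := fun k => by positivity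
  have hPle : ∀ k, P k ≤ 2 ^ d * X := by
    intro k
    have hk' : (k:ℕ) ≤ d := by have := k.2; omega
    calc P k = s1 ^ (d - (k:ℕ)) * s2 ^ (k:ℕ) := rfl
      _ ≤ (2 * s2) ^ (d - (k:ℕ)) * s2 ^ (k:ℕ) :=
          mul_le_mul_of_nonneg_right (pow_le_pow_left₀ hs1.le h12 _) (by positivity)
      _ = 2 ^ (d - (k:ℕ)) * s2 ^ d := by
          rw [mul_pow, mul_assoc, ← pow_add, Nat.sub_add_cancel hk']
      _ ≤ 2 ^ d * X := by
          apply mul_le_mul _ hs2X (by positivity) (by positivity)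
          exact pow_le_pow_right₀ (by norm_num) (Nat.sub_le _ _)
  -- counting
  have hcount : (S.card : ℝ) ≤ (∏ k, (3 * ((1 + 2 ^ d) * (X / P k)))) ^ m := by
    have hinj := (floor_injective (m := m) (d := d) g hg01 hs1 hs2).injOn (s := (S : Set (CoZ m d)))
    rw [← Finset.card_image_of_injOn hinj]
    refine card_box_general ?_ _ ?_
    · intro k
      have h1 : 1 ≤ 2 ^ d * (X / P k) := by
        rw [← mul_div_assoc, one_le_div (hPpos k)]
        exact hPle k
      have h2 : 0 ≤ X / P k := div_nonneg hXpos.le (hPpos k).le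
      nlinarith
    · intro x hx i k
      obtain ⟨A, hA, rfl⟩ := Finset.mem_image.1 hx
      simp only
      have h1 : |pull g (castA A) i k| ≤ X :=
        ((norm_le_pi_norm (pull g (castA A) i) k).trans
          (norm_le_pi_norm (pull g (castA A)) i)).trans (hA_norm A hA)
      set y := pull g (castA A) i k / (g 0 0 ^ (d - (k:ℕ)) * g 1 1 ^ (k:ℕ)) with hy
      have h2 : |y| ≤ X / P k := by
        rw [hy, abs_div, abs_of_pos (hPpos k)]
        exact div_le_div_of_nonneg_right h1 (hPpos k).le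
      have h3 : |((⌊y⌋ : ℤ) : ℝ)| ≤ |y| + 1 := by
        have f1 := Int.floor_le y
        have f2 := Int.lt_floor_add_one y
        rw [abs_le]
        constructor
        · have := neg_abs_le y; linarith
        · have := le_abs_self y; linarith
      have h4 : 1 ≤ 2 ^ d * (X / P k) := by
        rw [← mul_div_assoc, one_le_div (hPpos k)]
        exact hPle k
      calc |((⌊y⌋ : ℤ) : ℝ)| ≤ |y| + 1 := h3
        _ ≤ X / P k + 2 ^ d * (X / P k) := add_le_add h2 h4
        _ = (1 + 2 ^ d) * (X / P k) := by ring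
  have hprod : (∏ k, (3 * ((1 + 2 ^ d) * (X / P k)))) ^ m =
      (3 * (1 + 2 ^ d)) ^ D / c * Y * (Δ ^ N)⁻¹ := by
    have e1 : ∏ k, (3 * ((1 + 2 ^ d) * (X / P k))) =
        (3 * (1 + 2 ^ d)) ^ (d + 1) * X ^ (d + 1) / ∏ k, P k := by
      have : ∀ k ∈ (Finset.univ : Finset (Fin (d+1))), 3 * ((1 + 2 ^ d) * (X / P k)) =
        ((3 * (1 + 2 ^ d)) * X) / P k := fun k _ => by ring
      rw [Finset.prod_congr rfl this, Finset.prod_div_distrib, Finset.prod_const, mul_pow]
      simp
    rw [e1, prod_diag, hs12, div_pow, mul_pow, ← pow_mul, ← pow_mul, ← pow_mul,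
      mul_comm (d + 1) m, mul_comm (d * (d + 1) / 2) m, ← hD, ← hwdef, hXD, hQ]
    have e2 : Δ ^ N = Δ ^ (N - w) * Δ ^ w := by rw [← pow_add, Nat.sub_add_cancel hw]
    rw [e2]
    field_simp
  constructor
  · rw [hprod] at hcount
    refine hcount.trans ?_
    have h1 : 0 ≤ 2 ^ w / c * Y * (Δ ^ N)⁻¹ := by positivity
    nlinarith
  · intro _
    have h1 : Δ ^ w ≤ 2 ^ w * X ^ D := by
      calc Δ ^ w = (s1 * s2) ^ w := by rw [hs12]
        _ ≤ (2 * s2 ^ 2) ^ w := by
            apply pow_le_pow_left₀ (by positivity)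
            nlinarith
        _ = 2 ^ w * (s2 ^ d) ^ D := by
            rw [mul_pow, ← pow_mul, ← pow_mul, hwD]
        _ ≤ 2 ^ w * X ^ D := by
            apply mul_le_mul_of_nonneg_left _ (by positivity)
            exact pow_le_pow_left₀ (by positivity) hs2X D
    have e2 : Δ ^ N = Δ ^ (N - w) * Δ ^ w := by rw [← pow_add, Nat.sub_add_cancel hw]
    rw [hXD, hQ] at h1
    have h2 : Δ ^ N ≤ 2 ^ w / c * Y := by
      rw [e2]
      calc Δ ^ (N - w) * Δ ^ w ≤ Δ ^ (N - w) * (2 ^ w * (Y / (c * Δ ^ (N - w)))) :=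
            mul_le_mul_of_nonneg_left h1 (by positivity)
        _ = 2 ^ w / c * Y := by field_simp
    have h3 : 0 ≤ (3 * (1 + 2 ^ d)) ^ D / c * Y := by positivity
    nlinarith

end Pool.Agent.Lib.MP_1acd66_nt
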